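import Pool.Agent.H634.OrdV

/-!
# Generic extensions have the same ordinals: conclusion
-/

set_option maxHeartbeats 1000000
set_option linter.all false

namespace Pool.Agent.H634

open FirstOrder FirstOrder.Language
open Pool.Agent.Helper672.ZFA
open Pool.Agent.H310
open Pool.Agent.H310Cards
open Pool.Agent.Q212.ZA
open Pool.Agent.Q212.ZB
open Pool.Agent.Q212.ZC
open Pool.Agent.Q212.ZForce
open Pool.Agent.Q212.ZD
open Pool.Agent.H635Amen (ZF)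
open Pool.Agent.H525Emb (PMem IsTrans IsGenericFilter IsEval IsValue)
open Pool.Agent.H525C (IsO ord_comp)

universe u

attribute [local instance] Helper672.Plain.toL

attribute [local instance] Pool.Agent.Q212.ZB.instModelL Pool.Agent.Q212.ZB.instPEl

section

variable {N : Type u} [hs : Helper672.Plain.LSet.Structure N]
  {V : Helper672.Plain.LSet.Substructure N}

theorem isO_V (htr : IsTrans V) {x : V} : IsO x ↔ IsO (x : N) := by
  have hm : ∀ {x y : V}, Mem x y ↔ Mem (x : N) (y : N) := fun {x y} => mem_V (x := x) (y := y)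
  constructor
  · rintro ⟨h1, h2⟩
    refine ⟨fun y z hy hz => ?_, fun y hy z w hz hw => ?_⟩
    · have hyV := htr y x hy x.2
      have hzV := htr z y hz hyV
      exact hm.1 (h1 ⟨y, hyV⟩ ⟨z, hzV⟩ (hm.2 hy) (hm.2 hz))
    · have hyV := htr y x hy x.2
      have hzV := htr z y hz hyV
      have hwV := htr w z hw hzV
      exact hm.1 (h2 ⟨y, hyV⟩ (hm.2 hy) ⟨z, hzV⟩ ⟨w, hwV⟩ (hm.2 hz) (hm.2 hw))
  · rintro ⟨h1, h2⟩
    refine ⟨fun y z hy hz => ?_, fun y hy z w hz hw => ?_⟩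
    · exact hm.2 (h1 y z (hm.1 hy) (hm.1 hz))
    · exact hm.2 (h2 y (hm.1 hy) z w (hm.1 hz) (hm.1 hw))

variable [hZ : Helper672.Plain.Zermelo N] [hZV : Helper672.Plain.Zermelo V]

theorem ord_mem_V (hN : ZF N) (hV : ZF V) (htr : IsTrans V) {P le : V} {G : N}
    (hP : IsPreorder P le) (hG : IsGenericFilter V (P : N) (le : N) G)
    (hgen : ∀ x : N, ∃ τ, τ ∈ V ∧ IsValue G τ x) {β : N} (hβ : IsO β) : β ∈ V := by
  by_contra hcon
  have h1 : ∀ x : V, IsO x → Mem (x : N) β := by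
    intro x hx
    have h2 := (isO_V htr).1 hx
    rcases ord_comp (M := N) (fun _ => trivial) (replL_of_zf hN) hN.foundation (x : N) β h2 hβ
      with h3 | h3 | h3
    · exact h3
    · exact absurd (h3 ▸ x.2) hcon
    · exact absurd (htr β x h3 x.2) hcon
  obtain ⟨τ, hτ, R, hR, hτβ⟩ := hgen β
  obtain ⟨u₀, hu1, hu2⟩ := H635.exists_trans (M := V) (fun _ => trivial) (replL_of_zf hV)
    (up (⟨τ, hτ⟩ : V) ⟨τ, hτ⟩)
  have hrefl : ∀ p : V, Mem p P → Mem (op p p) le := fun p hp =>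
    pMem_iff.1 (hP.refl p hp)
  have htrn : ∀ p q r : V, Mem p P → Mem q P → Mem r P → Mem (op p q) le → Mem (op q r) le →
      Mem (op p r) le := fun p q r h1 h2 h3 h4 h5 =>
    pMem_iff.1 (hP.trans p q r h1 h2 h3 (pMem_iff.2 h4) (pMem_iff.2 h5))
  obtain ⟨x, hx, hno⟩ := no_all_ord (M := V) (fun _ => trivial) (replL_of_zf hV) hV.foundation
    (P := P) (le := le) hrefl htrn (small_prod u₀ P).elt
  -- a transitive set that contains the name and the ordinal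
  obtain ⟨u, hu3, hu4⟩ := H635.exists_trans (M := V) (fun _ => trivial) (replL_of_zf hV)
    (up (⟨τ, hτ⟩ : V) x)
  have hτu : Mem (⟨τ, hτ⟩ : V) u := hu3 _ (mem_up.2 (Or.inl rfl))
  have hxu : Mem x u := hu3 _ (mem_up.2 (Or.inr rfl))
  have hle := int_lle P le
  have hmm := int_llt u
  have hNr := int_Nrr u P
  have hF := int_FE hle hmm hNr
  have refl := lle_refl hP
  have tr := lle_trans hP
  have hphi := phi_all hN htr hP hG hR hu4
  let τ' : Helper672.Plain.El u := ⟨⟨τ, hτ⟩, hτu⟩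
  obtain ⟨t, s, h12, h13, h14⟩ := evalA htr hG hR hu4 τ' β _ hτβ (h1 x hx)
  obtain ⟨p, h15, h16⟩ := (hphi t ⟨x, hxu⟩).2 h14
  -- the name is in the first transitive set
  have htu₀ : Mem t.1 u₀ := by
    obtain ⟨q, h6, h7⟩ := (nrr_iff htr _ _ _).1 h12
    have hqV := htr q _ h7 hτ
    obtain ⟨c, d, h8, h9, h10⟩ := h6
    have hc : Helper672.Plain.Mem c q := (h10 c).2 (Or.inl rfl)
    have hcV := htr c q hc hqV
    have hτ0 : Mem (⟨τ, hτ⟩ : V) u₀ := hu1 _ (mem_up.2 (Or.inl rfl))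
    have h11 := hu2 _ (⟨q, hqV⟩ : V) hτ0 (mem_V.2 h7)
    have h12 := hu2 _ (⟨c, hcV⟩ : V) h11 (mem_V.2 hc)
    exact hu2 _ t.1 h12 (mem_V.2 ((h8 t.1).2 (Or.inl rfl)))
  refine hno (op t.1 p.1) ((small_prod u₀ P).mem.2 ⟨_, _, htu₀, p.2, rfl⟩) ⟨hx, ?_⟩
  have hI : Int V (fun c : (Helper672.Plain.El P × Helper672.Plain.El u) ×
    Helper672.Plain.El u => FE V (lle P le) (llt u) (Nrr u P) c.1.1 c.1.2 c.2) := hF
  have hmemH : ∀ a b c : V, Mem (op (op a b) c) (code (M := V) (sep V fun c :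
      (Helper672.Plain.El P × Helper672.Plain.El u) × Helper672.Plain.El u =>
      FE V (lle P le) (llt u) (Nrr u P) c.1.1 c.1.2 c.2)) ↔
      ∃ (p : Helper672.Plain.El P) (ρ x : Helper672.Plain.El u), a = p.1 ∧ b = ρ.1 ∧
        c = x.1 ∧ FE V (lle P le) (llt u) (Nrr u P) p ρ x := by
    intro a b c
    refine (mem_code_pow).trans ?_
    constructor
    · rintro ⟨⟨⟨p, ρ⟩, x⟩, h1, h2⟩
      obtain ⟨h3, h4⟩ := op_inj (h2 : op (op p.1 ρ.1) x.1 = op (op a b) c)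
      obtain ⟨h5, h6⟩ := op_inj h3
      exact ⟨p, ρ, x, h5.symm, h6.symm, h4.symm, (mem_sep hI).1 h1⟩
    · rintro ⟨p, ρ, x, rfl, rfl, rfl, h⟩
      exact ⟨((p, ρ), x), (mem_sep hI).2 h, rfl⟩
  have hnr : ∀ (ρ t : Helper672.Plain.El u) (s : Helper672.Plain.El P),
      Nrr u P ρ t s ↔ Mem (op t.1 s.1) ρ.1 := fun _ _ _ => Iff.rfl
  have hpair : ∀ (ρ : Helper672.Plain.El u) (t s : V), Mem (op t s) ρ.1 → Mem t u := by
    intro ρ t s h
    have h1 := hu4 _ _ ρ.2 h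
    have h2 : Mem (up t t) (op t s) := mem_up.2 (Or.inl rfl)
    have h3 := hu4 _ _ h1 h2
    exact hu4 _ _ h3 (mem_up.2 (Or.inl rfl))
  refine ⟨_, t.1, p.1, ?_, rfl, p.2, (hmemH _ _ _).2 ⟨p, t, ⟨x, hxu⟩, rfl, rfl, rfl, h16⟩⟩
  intro a b c habc
  obtain ⟨p, ρ, y, rfl, rfl, rfl, h17⟩ := (hmemH _ _ _).1 habc
  refine ⟨fun q hq hqp => ?_, fun t s hts hs q hq hqp hqs => ?_, fun z hz q hq hqp => ?_⟩
  · exact (hmemH _ _ _).2 ⟨⟨q, hq⟩, ρ, y, rfl, rfl, rfl, FE_down hle hmm hNr tr h17 hqp⟩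
  · obtain ⟨r, z, h18, h19, h20⟩ := ((FE_iff hle hmm hNr).1 h17).1 ⟨t, hpair _ _ _ hts⟩
      ⟨s, hs⟩ hts ⟨q, hq⟩ hqp hqs
    exact ⟨r.1, z.1, r.2, h18, h19, (hmemH _ _ _).2 ⟨r, ⟨t, hpair _ _ _ hts⟩, z, rfl, rfl,
      rfl, h20⟩⟩
  · obtain ⟨r, t, s, h18, h19, h20, h21⟩ := ((FE_iff hle hmm hNr).1 h17).2
      ⟨z, hu4 _ _ y.2 hz⟩ hz ⟨q, hq⟩ hqp
    exact ⟨r.1, t.1, s.1, r.2, s.2, h18, h19, h20, (hmemH _ _ _).2 ⟨r, t, ⟨z, hu4 _ _ y.2 hz⟩,
      rfl, rfl, rfl, h21⟩⟩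

end

end Pool.Agent.H634
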