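import Pool.Agent.H634.Defs
import Pool.Agent.H634.DomAbs
import Pool.Agent.H634.OrdV2

/-!
# From families of functions in a model to internal functions
-/

set_option maxHeartbeats 1000000
set_option linter.all false

namespace Pool.Agent.H634

open FirstOrder FirstOrder.Language
open Pool.Agent.Helper672.ZFA
open Pool.Agent.Helper672.ZFA.H635 (IWO)
open Pool.Agent.H310
open Pool.Agent.H310Cards
open Pool.Agent.Q212.ZA
open Pool.Agent.Q212.ZB
open Pool.Agent.Q212.ZC
open Pool.Agent.Q212.ZD (replL_of_zf llt int_llt)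
open Pool.Agent.H635Amen (ZF)
open Pool.Agent.H525Emb (PMem IsTrans IsGenericFilter IsEval IsValue)
open Pool.Agent.H525C (IsO ord_comp)

universe u

attribute [local instance] Helper672.Plain.toL

attribute [local instance] Pool.Agent.Q212.ZB.instModelL Pool.Agent.Q212.ZB.instPEl

/-- The type of the elements. -/
abbrev PEl {M : Type u} [Helper672.Plain.LSet.Structure M] (a : M) : Type u :=
  Helper672.Plain.El a

section

variable {M : Type u} [Helper672.Plain.LSet.Structure M] [hZ : Helper672.Plain.Zermelo M]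

theorem leq_nat {m n : INat M} : Leq m.val n.val ↔ m ≤ n := by
  rw [INat.le_iff', INat.lt_def]
  constructor
  · rintro (h | h)
    · exact Or.inr (INat.ext h)
    · exact Or.inl h
  · rintro (h | rfl)
    · exact Or.inr h
    · exact Or.inl rfl

theorem isFun_real {w z : M} (hw : IsOmega w) :
    IsFun z w w ↔ ∃ φ : IFun M (INat M) (INat M), code φ = z :=
  isFun_iff (fun _ => mem_omega hw) fun _ => mem_omega hw

theorem leStar_code {w : M} (hw : IsOmega w) {f g : IFun M (INat M) (INat M)} :
    LeStar w (code f) (code g) ↔ Les f g := by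
  unfold LeStar Les
  constructor
  · rintro ⟨m, hm, h⟩
    obtain ⟨m, rfl⟩ := (mem_omega hw).1 hm
    refine ⟨m, fun n hn => ?_⟩
    exact leq_nat.1 (h n.val _ _ (leq_nat.2 hn) (app_code.2 ⟨n, rfl, rfl⟩)
      (app_code.2 ⟨n, rfl, rfl⟩))
  · rintro ⟨m, h⟩
    refine ⟨m.val, (mem_omega hw).2 ⟨m, rfl⟩, fun n i j h1 h2 h3 => ?_⟩
    obtain ⟨a, rfl, rfl⟩ := app_code.1 h2
    obtain ⟨b, h4, rfl⟩ := app_code.1 h3
    obtain rfl : b = a := ITy.inj h4
    exact leq_nat.2 (h b (leq_nat.1 h1))

theorem mem_PEl {a z : M} : Mem z a ↔ ∃ x : PEl a, code x = z :=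
  ⟨fun h => ⟨⟨z, h⟩, rfl⟩, fun ⟨x, hx⟩ => hx ▸ x.2⟩

theorem exists_family {w g a : M} (hw : IsOmega w) (h : IsFamily w g a) :
    ∃ φ : PEl a → IFun M (INat M) (INat M), IntF M φ ∧
      ∀ x y, App g x y ↔ ∃ x' : PEl a, x'.1 = x ∧ code (φ x') = y := by
  obtain ⟨R, hR, hg⟩ := h
  obtain ⟨φ, hφ⟩ := (isFun_iff (j := a) (b := R) (fun z => mem_PEl) fun z =>
    (hR z).trans (isFun_real hw)).1 hg
  refine ⟨fun x => φ x, φ.int, fun x y => ?_⟩
  rw [← hφ, app_code]
  exact Iff.rfl

theorem mk_family {w : M} (hw : IsOmega w) (a : M) {φ : PEl a → IFun M (INat M) (INat M)}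
    (hφ : IntF M φ) : ∃ g, IsFamily w g a ∧
      ∀ x y, App g x y ↔ ∃ x' : PEl a, x'.1 = x ∧ code (φ x') = y := by
  have h1 : ∀ z, Mem z (dom M (IFun M (INat M) (INat M))) ↔
      ∃ φ : IFun M (INat M) (INat M), code φ = z := fun z => mem_dom
  refine ⟨code (⟨φ, hφ⟩ : IFun M (PEl a) (IFun M (INat M) (INat M))),
    ⟨dom M (IFun M (INat M) (INat M)), fun f => (h1 f).trans (isFun_real hw).symm, ?_⟩, ?_⟩
  · exact (isFun_iff (j := a) (fun z => mem_PEl) h1).2 ⟨_, rfl⟩
  · intro x y
    rw [app_code]
    exact Iff.rfl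

theorem domFamily_iff {w g a : M} (hw : IsOmega w) {φ : PEl a → IFun M (INat M) (INat M)}
    (hg : IsFamily w g a)
    (h : ∀ x y, App g x y ↔ ∃ x' : PEl a, x'.1 = x ∧ code (φ x') = y) :
    IsDomFamily w g a ↔ ∀ f, ∃ x, Les f (φ x) := by
  constructor
  · rintro ⟨-, h1⟩ f
    obtain ⟨x, y, h2, h3⟩ := h1 (code f) ((isFun_real hw).2 ⟨f, rfl⟩)
    obtain ⟨x', rfl, rfl⟩ := (h x y).1 h2
    exact ⟨x', (leStar_code hw).1 h3⟩
  · intro h1
    refine ⟨hg, fun f hf => ?_⟩
    obtain ⟨f, rfl⟩ := (isFun_real hw).1 hf
    obtain ⟨x, hx⟩ := h1 f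
    exact ⟨x.1, _, (h _ _).2 ⟨x, rfl, rfl⟩, (leStar_code hw).2 hx⟩

theorem unbFamily_iff {w g a : M} (hw : IsOmega w) {φ : PEl a → IFun M (INat M) (INat M)}
    (hg : IsFamily w g a)
    (h : ∀ x y, App g x y ↔ ∃ x' : PEl a, x'.1 = x ∧ code (φ x') = y) :
    IsUnbFamily w g a ↔ ¬ ∃ f, ∀ x, Les (φ x) f := by
  constructor
  · rintro ⟨-, h1⟩ ⟨f, hf⟩
    refine h1 ⟨code f, (isFun_real hw).2 ⟨f, rfl⟩, fun x y hxy => ?_⟩
    obtain ⟨x', rfl, rfl⟩ := (h x y).1 hxy
    exact (leStar_code hw).2 (hf x')
  · intro h1
    refine ⟨hg, ?_⟩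
    rintro ⟨f, hf, h2⟩
    obtain ⟨f, rfl⟩ := (isFun_real hw).1 hf
    exact h1 ⟨f, fun x => (leStar_code hw).1 (h2 x.1 _ ((h _ _).2 ⟨x, rfl, rfl⟩))⟩

theorem isO_iff {x : M} : IsOrdinal x ↔ IsO x := Iff.rfl

theorem not_mem_self' (hN : ZF M) (x : M) : ¬ Mem x x := by
  intro h
  obtain ⟨y, h1, h2⟩ := hN.foundation (up x x) ⟨x, (mem_up (M := M)).2 (Or.inl rfl)⟩
  have h3 : y = x := ((mem_up (M := M)).1 h1).elim id id
  subst h3
  exact h2 y h1 h

/-- The elements of an ordinal are well-ordered. -/
theorem iwo_ord (hN : ZF M) {κ : M} (hκ : IsO κ) : IWO M (PEl κ) (llt κ) := by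
  refine ⟨int_llt κ, fun a b => ?_, fun s hs => ?_⟩
  · rcases ord_comp (M := M) (fun _ => trivial) (replL_of_zf hN) hN.foundation a.1 b.1
      (hκ.mem a.2) (hκ.mem b.2) with h | h | h
    · exact Or.inl h
    · exact Or.inr (Or.inl (Subtype.ext h))
    · exact Or.inr (Or.inr h)
  · obtain ⟨x, hx⟩ := hs
    have h0 : ∀ z, Mem z (code (M := M) s) ↔ ∃ a, a ∈ s ∧ code a = z := fun z =>
      mem_code_pow (M := M)
    obtain ⟨y, h1, h2⟩ := hN.foundation (code (M := M) s) ⟨x.1, (h0 _).2 ⟨x, hx, rfl⟩⟩
    obtain ⟨a, h3, rfl⟩ := (h0 _).1 h1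
    exact ⟨a, h3, fun b hb h4 => h2 b.1 ((h0 _).2 ⟨b, hb, rfl⟩) h4⟩

theorem llt_trans {κ : M} (hκ : IsO κ) {a b c : PEl κ} (h1 : llt κ a b) (h2 : llt κ b c) :
    llt κ a c := (hκ.mem c.2).1 b.1 a.1 h2 h1

/-- The inclusion of an ordinal into a larger one. -/
def oincl {κ a : M} (hκ : IsO κ) (ha : Mem a κ) (x : PEl a) : PEl κ := ⟨x.1, hκ.1 a x.1 ha x.2⟩

theorem int_oincl {κ a : M} (hκ : IsO κ) (ha : Mem a κ) : IntF M (oincl hκ ha) := by
  refine IntF.of_D (S := fun v => v 0 = v 1) (D.eqf (DF.var _) (DF.var _)) fun x y => ?_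
  exact ⟨fun h => Subtype.ext h, fun h => congrArg Subtype.val h⟩

/-- Minimality: the initial segments up to a point are not dominating. -/
theorem seg_not_dom {w κ : M} (hw : IsOmega w) (hκ : IsO κ)
    {φ : PEl κ → IFun M (INat M) (INat M)} (hφ : IntF M φ)
    (hmin : ∀ a, Mem a κ → ¬ ∃ w g, IsOmega w ∧ IsDomFamily w g a) (b : PEl κ) :
    ∃ f : IFun M (INat M) (INat M), ∀ x, (x = b ∨ llt κ x b) → ¬ Les f (φ x) := by
  have hi := int_oincl hκ b.2
  obtain ⟨g, hg, h1⟩ := mk_family hw b.1 (φ := fun x => φ (oincl hκ b.2 x)) (by (repeat' (first | with_reducible exact IntF.id | with_reducible exact IntF.fst' | with_reducible exact IntF.snd' | with_reducible exact IntF.const _ | with_reducible exact Int.const _ | assumption | with_reducible apply Int.and | with_reducible apply Int.or | with_reducible apply Int.not | with_reducible apply Int.imp | with_reducible apply Int.iff | with_reducible apply Int.ne | with_reducible apply Int.eq | with_reducible apply Int.mem | with_reducible apply Int.subset | with_reducible apply Int.ltN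 | with_reducible apply Int.leN | with_reducible apply Int.fin | with_reducible apply Int.unique | with_reducible apply Int.all | with_reducible apply Int.ex | with_reducible apply IntF.fst | with_reducible apply IntF.snd | with_reducible apply IntF.app | with_reducible apply IntF.ite | with_reducible apply IntF.sep | with_reducible apply IntF.lam | with_reducible apply IntF.insert | with_reducible apply IntF.singleton | with_reducible apply IntF.union | with_reducible apply IntF.inter | with_reducible apply IntF.sdiff | with_reducible apply IntF.isUnion | with_reducible apply IntF.iimage | with_reducible apply IntF.the | with_reducible apply IntF.irec | with_reducible_and_instances apply IntF.add | with_reducible_and_instances apply IntF.mul | with_reducible apply IntF.succ | with_reducible apply IntF.val | (with_reducible refine Int.comp ?_ ?_; assumption) | (with_reducible refine Int.comp₂ ?_ ?_ ?_; assumption) | (with_reducible refine Int.comp₃ ?_ ?_ ?_ ?_; assumption) | (with_reducible refine IntF.comp ?_ ?_; assumption)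 | (with_reducible refine IntF.comp₂ ?_ ?_ ?_; assumption) | (with_reducible refine IntF.comp₃ ?_ ?_ ?_ ?_; assumption) | (with_reducible refine Int.comp₄ ?_ ?_ ?_ ?_ ?_; assumption) | with_reducible apply IntF.pair)))
  have h2 : ∃ f, ∀ x, ¬ Les f (φ (oincl hκ b.2 x)) := by
    by_contra h
    push Not at h
    exact hmin b.1 b.2 ⟨w, g, hw, (domFamily_iff hw hg h1).2 h⟩
  obtain ⟨f, hf⟩ := h2
  have hI : Int M (fun q : INat M × INat M => f q.1 ≤ q.2 ∧ φ b q.1 < q.2) := by (repeat' (first | with_reducible exact IntF.id | with_reducible exact IntF.fst' | with_reducible exact IntF.snd' | with_reducible exact IntF.const _ | with_reducible exact Int.const _ | assumption | with_reducible apply Int.and | with_reducible apply Int.or | with_reducible apply Int.not | with_reducible apply Int.imp | with_reducible apply Int.iff | with_reducible apply Int.ne | with_reducible apply Int.eq | with_reducible apply Int.mem | with_reducible apply Int.subset | with_reducible apply Int.ltN | with_reducible apply Int.leN | with_reducible apply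 Int.fin | with_reducible apply Int.unique | with_reducible apply Int.all | with_reducible apply Int.ex | with_reducible apply IntF.fst | with_reducible apply IntF.snd | with_reducible apply IntF.app | with_reducible apply IntF.ite | with_reducible apply IntF.sep | with_reducible apply IntF.lam | with_reducible apply IntF.insert | with_reducible apply IntF.singleton | with_reducible apply IntF.union | with_reducible apply IntF.inter | with_reducible apply IntF.sdiff | with_reducible apply IntF.isUnion | with_reducible apply IntF.iimage | with_reducible apply IntF.the | with_reducible apply IntF.irec | with_reducible_and_instances apply IntF.add | with_reducible_and_instances apply IntF.mul | with_reducible apply IntF.succ | with_reducible apply IntF.val | (with_reducible refine Int.comp ?_ ?_; assumption) | (with_reducible refine Int.comp₂ ?_ ?_ ?_; assumption) | (with_reducible refine Int.comp₃ ?_ ?_ ?_ ?_; assumption) | (with_reducible refine IntF.comp ?_ ?_; assumption) | (with_reducible refine IntF.comp₂ ?_ ?_ ?_; assumption)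 | (with_reducible refine IntF.comp₃ ?_ ?_ ?_ ?_; assumption) | (with_reducible refine Int.comp₄ ?_ ?_ ?_ ?_ ?_; assumption) | with_reducible apply IntF.pair))
  obtain ⟨ψ, hψ, h3⟩ := V246.exists_lf (V246.iwoNn (N := M)) (γ := INat M)
    (r := fun k j => f k ≤ j ∧ φ b k < j) hI 0
  have h4 : ∀ k, f k ≤ ψ k ∧ φ b k < ψ k := fun k =>
    (h3 k ⟨(max (f k) (φ b k)).succ, (le_max_left _ _).trans (INat.le_succ_self _),
      (le_max_right (f k) (φ b k)).trans_lt (INat.lt_succ_self _)⟩).1
  refine ⟨⟨ψ, hψ⟩, ?_⟩
  rintro x (rfl | hx) ⟨m, hm⟩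
  · exact absurd (hm m le_rfl) (not_le.2 (h4 m).2)
  · refine hf ⟨x.1, hx⟩ ?_
    have h5 : oincl hκ b.2 ⟨x.1, hx⟩ = x := Subtype.ext rfl
    rw [h5]
    exact ⟨m, fun n hn => (h4 n).1.trans (hm n hn)⟩

/-- The least index of a dominating family does not have cofinality `ω`. -/
theorem no_cof (hN : ZF M) {κ : M} (hκ : IsO κ)
    (hdom : ∃ w g, IsOmega w ∧ IsDomFamily w g κ)
    (hmin : ∀ a, Mem a κ → ¬ ∃ w g, IsOmega w ∧ IsDomFamily w g a) : ¬ HasCofOmega κ := by
  rintro ⟨w', c, hw', hc, hcof⟩
  obtain ⟨w, g, hw, hg⟩ := hdom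
  obtain ⟨φ, hφ, h1⟩ := exists_family hw hg.1
  have h2 := (domFamily_iff hw hg.1 h1).1 hg
  obtain ⟨ψ, hψ⟩ := (isFun_iff (M := M) (α := INat M) (β := PEl κ) (fun z => mem_omega hw')
    (fun z => mem_PEl)).1 hc
  have hlt := int_llt κ
  have hW := iwo_ord hN hκ
  refine no_dom hW hφ h2 (A := fun n x => x = ψ n ∨ llt κ x (ψ n)) (by (repeat' (first | with_reducible exact IntF.id | with_reducible exact IntF.fst' | with_reducible exact IntF.snd' | with_reducible exact IntF.const _ | with_reducible exact Int.const _ | assumption | with_reducible apply Int.and | with_reducible apply Int.or | with_reducible apply Int.not | with_reducible apply Int.imp | with_reducible apply Int.iff | with_reducible apply Int.ne | with_reducible apply Int.eq | with_reducible apply Int.mem | with_reducible apply Int.subset | with_reducible apply Int.ltN | with_reducible apply Int.leN | with_reducible apply Int.fin | with_reducible apply Int.unique | with_reducible apply Int.all | with_reducible apply Int.ex | with_reducible apply IntF.fst | with_reducible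 apply IntF.snd | with_reducible apply IntF.app | with_reducible apply IntF.ite | with_reducible apply IntF.sep | with_reducible apply IntF.lam | with_reducible apply IntF.insert | with_reducible apply IntF.singleton | with_reducible apply IntF.union | with_reducible apply IntF.inter | with_reducible apply IntF.sdiff | with_reducible apply IntF.isUnion | with_reducible apply IntF.iimage | with_reducible apply IntF.the | with_reducible apply IntF.irec | with_reducible_and_instances apply IntF.add | with_reducible_and_instances apply IntF.mul | with_reducible apply IntF.succ | with_reducible apply IntF.val | (with_reducible refine Int.comp ?_ ?_; assumption) | (with_reducible refine Int.comp₂ ?_ ?_ ?_; assumption) | (with_reducible refine Int.comp₃ ?_ ?_ ?_ ?_; assumption) | (with_reducible refine IntF.comp ?_ ?_; assumption) | (with_reducible refine IntF.comp₂ ?_ ?_ ?_; assumption) | (with_reducible refine IntF.comp₃ ?_ ?_ ?_ ?_; assumption) | (with_reducible refine Int.comp₄ ?_ ?_ ?_ ?_ ?_; assumption) | with_reducible apply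 IntF.pair))) (fun x => ?_)
    fun n => ?_
  · obtain ⟨n, b, h3, h4⟩ := hcof x.1 x.2
    rw [← hψ] at h3
    obtain ⟨n, rfl, rfl⟩ := app_code.1 h3
    refine ⟨n, ?_⟩
    rcases h4 with h4 | h4
    · exact Or.inl (Subtype.ext h4)
    · exact Or.inr h4
  · exact seg_not_dom hw hκ hφ hmin (ψ n)

end

end Pool.Agent.H634
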