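import Pool.Agent.H634.Dm
import Pool.Agent.H634.Sur

/-!
# Cardinals in a model of ZF
-/

set_option maxHeartbeats 2000000
set_option linter.all false
set_option synthInstance.maxSize 2000

namespace Pool.Agent.H634

open FirstOrder FirstOrder.Language
open Pool.Agent.Helper672.ZFA
open Pool.Agent.Helper672.ZFA.H635 (IWO gr mem_gr code_mem_gr)
open Pool.Agent.H310
open Pool.Agent.H310Cards
open Pool.Agent.Q212.ZA
open Pool.Agent.Q212.ZB
open Pool.Agent.Q212.ZC
open Pool.Agent.Q212.ZD (replL_of_zf llt int_llt)
open Pool.Agent.H635Amen (ZF)
open Pool.Agent.H525C (IsO ord_comp)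

universe u

section

variable {M : Type u} [L.Structure M] [hM : IsModel M]

/-- The function `f` is an embedding of `b` into `a`. -/
def EmbF (f b a : M) : Prop :=
  (∀ x, Mem x b → ∃ y, Mem y a ∧ Mem (op x y) f) ∧
    (∀ x y z, Mem (op x y) f → Mem (op x z) f → y = z) ∧
    ∀ x z y, Mem (op x y) f → Mem (op z y) f → x = z

theorem D.embF {ι : Type} {f b a : (ι → M) → M} (h0 : DF f) (h1 : DF b) (h2 : DF a) :
    D (fun v => EmbF (f v) (b v) (a v)) := by
  have h3 : D (fun v : Fin 3 → M => EmbF (v 0) (v 1) (v 2)) := by
    unfold EmbF
    (repeat' (first | with_reducible exact DF.var _ | with_reducible exact DF.const _ | assumption | with_reducible apply D.and | with_reducible apply D.or | with_reducible apply D.not | with_reducible apply D.imp | with_reducible apply D.iff | with_reducible apply D.eqf | with_reducible apply D.memf | with_reducible apply D.all | with_reducible apply D.ex | with_reducible apply DF.op | with_reducible apply DF.up | with_reducible apply DF.fst | with_reducible apply DF.snd))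
  have h4 := Helper672.ZFA.H635.D.subst (f := ![f, b, a]) h3 (by
    intro k
    fin_cases k <;> assumption)
  exact h4

/-- There is an injective function from `b` to `a`. -/
def Emb (b a : M) : Prop := ∃ f, EmbF f b a

/-- The relation `x` is the image of the order of the ordinal `b` by an embedding. -/
def OT (x b : M) : Prop :=
  IsO b ∧ ∃ f, (∀ u, Mem u b → ∃ v, Mem (op u v) f) ∧
    (∀ u v w, Mem (op u v) f → Mem (op u w) f → v = w) ∧
    (∀ u w v, Mem (op u v) f → Mem (op w v) f → u = w) ∧
    ∀ z, Mem z x ↔ ∃ u u' v v', Mem u b ∧ Mem u' b ∧ Mem (op u v) f ∧ Mem (op u' v') f ∧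
      (u = u' ∨ Mem u u') ∧ z = op v v'

theorem D.ot : D (fun v : Fin 2 → M => OT (v 0) (v 1)) := by
  unfold OT
  refine D.and (H525C.D.isO (DF.var _)) ?_
  (repeat' (first | with_reducible exact DF.var _ | with_reducible exact DF.const _ | assumption | with_reducible apply D.and | with_reducible apply D.or | with_reducible apply D.not | with_reducible apply D.imp | with_reducible apply D.iff | with_reducible apply D.eqf | with_reducible apply D.memf | with_reducible apply D.all | with_reducible apply D.ex | with_reducible apply DF.op | with_reducible apply DF.up | with_reducible apply DF.fst | with_reducible apply DF.snd))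

/-- Images of injective functions into a well-ordered type. -/
theorem inj_of_sur {K Y : Type u} [ITy M K] [ITy M Y] {lt : K → K → Prop} (hW : IWO M K lt)
    (h : Sur M K Y) : ∃ f : Y → K, IntF M f ∧ Function.Injective f := by
  obtain ⟨g, hg, hg'⟩ := h
  by_cases hne : ∃ k : K, True
  · obtain ⟨k, -⟩ := hne
    have hI : Int M (fun q : Y × K => g q.2 = q.1) := by (repeat' (first | with_reducible exact IntF.id | with_reducible exact IntF.fst' | with_reducible exact IntF.snd' | with_reducible exact IntF.const _ | with_reducible exact Int.const _ | assumption | with_reducible apply Int.and | with_reducible apply Int.or | with_reducible apply Int.not | with_reducible apply Int.imp | with_reducible apply Int.iff | with_reducible apply Int.ne | with_reducible apply Int.eq | with_reducible apply Int.mem | with_reducible apply Int.subset | with_reducible apply Int.ltN | with_reducible apply Int.leN | with_reducible apply Int.fin | with_reducible apply Int.unique | with_reducible apply Int.all | with_reducible apply Int.ex | with_reducible apply IntF.fst | with_reducible apply IntF.snd | with_reducible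 apply IntF.app | with_reducible apply IntF.ite | with_reducible apply IntF.sep | with_reducible apply IntF.lam | with_reducible apply IntF.insert | with_reducible apply IntF.singleton | with_reducible apply IntF.union | with_reducible apply IntF.inter | with_reducible apply IntF.sdiff | with_reducible apply IntF.isUnion | with_reducible apply IntF.iimage | with_reducible apply IntF.the | with_reducible apply IntF.irec | with_reducible_and_instances apply IntF.add | with_reducible_and_instances apply IntF.mul | with_reducible apply IntF.succ | with_reducible apply IntF.val | (with_reducible refine Int.comp ?_ ?_; assumption) | (with_reducible refine Int.comp₂ ?_ ?_ ?_; assumption) | (with_reducible refine Int.comp₃ ?_ ?_ ?_ ?_; assumption) | (with_reducible refine IntF.comp ?_ ?_; assumption) | (with_reducible refine IntF.comp₂ ?_ ?_ ?_; assumption) | (with_reducible refine IntF.comp₃ ?_ ?_ ?_ ?_; assumption) | (with_reducible refine Int.comp₄ ?_ ?_ ?_ ?_ ?_; assumption) | with_reducible apply IntF.pair))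
    obtain ⟨φ, hφ, h1⟩ := V246.exists_lf hW (γ := Y) (r := fun y k => g k = y) hI k
    refine ⟨φ, hφ, fun y z h => ?_⟩
    rw [← (h1 y (hg' y)).1, ← (h1 z (hg' z)).1, h]
  · have hY : ∀ y : Y, False := fun y => by
      obtain ⟨k, -⟩ := hg' y
      exact hne ⟨k, trivial⟩
    exact ⟨fun y => (hY y).elim, IntF.of_rel (r := fun _ _ => False) (Int.const _)
      fun y => (hY y).elim, fun y => (hY y).elim⟩

theorem sur_of_inj {K Y : Type u} [ITy M K] [ITy M Y] (y₀ : Y) {f : Y → K} (hf : IntF M f)
    (hi : Function.Injective f) : Sur M K Y := by
  have hI : Int M (fun q : K × Y => f q.2 = q.1) := by (repeat' (first | with_reducible exact IntF.id | with_reducible exact IntF.fst' | with_reducible exact IntF.snd' | with_reducible exact IntF.const _ | with_reducible exact Int.const _ | assumption | with_reducible apply Int.and | with_reducible apply Int.or | with_reducible apply Int.not | with_reducible apply Int.imp | with_reducible apply Int.iff | with_reducible apply Int.ne | with_reducible apply Int.eq | with_reducible apply Int.mem | with_reducible apply Int.subset | with_reducible apply Int.ltN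 | with_reducible apply Int.leN | with_reducible apply Int.fin | with_reducible apply Int.unique | with_reducible apply Int.all | with_reducible apply Int.ex | with_reducible apply IntF.fst | with_reducible apply IntF.snd | with_reducible apply IntF.app | with_reducible apply IntF.ite | with_reducible apply IntF.sep | with_reducible apply IntF.lam | with_reducible apply IntF.insert | with_reducible apply IntF.singleton | with_reducible apply IntF.union | with_reducible apply IntF.inter | with_reducible apply IntF.sdiff | with_reducible apply IntF.isUnion | with_reducible apply IntF.iimage | with_reducible apply IntF.the | with_reducible apply IntF.irec | with_reducible_and_instances apply IntF.add | with_reducible_and_instances apply IntF.mul | with_reducible apply IntF.succ | with_reducible apply IntF.val | (with_reducible refine Int.comp ?_ ?_; assumption) | (with_reducible refine Int.comp₂ ?_ ?_ ?_; assumption) | (with_reducible refine Int.comp₃ ?_ ?_ ?_ ?_; assumption) | (with_reducible refine IntF.comp ?_ ?_; assumption) | (with_reducible refine IntF.comp₂ ?_ ?_ ?_; assumption) | (with_reducible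 refine IntF.comp₃ ?_ ?_ ?_ ?_; assumption) | (with_reducible refine Int.comp₄ ?_ ?_ ?_ ?_ ?_; assumption) | with_reducible apply IntF.pair))
  refine ⟨fun k => the (fun y => f y = k) y₀, IntF.the hI (IntF.const _), fun y => ⟨f y, ?_⟩⟩
  exact the_eq ⟨y, rfl, fun z hz => hi hz⟩ rfl

/-- A type that embeds into an initial segment of itself is in bijection with it. -/
theorem csb {K : Type u} [ITy M K] {B : K → Prop} (hB : Int M B) {g : K → K} (hg : IntF M g)
    (hi : Function.Injective g) (hgB : ∀ x, B (g x)) :
    ∃ h : K → K, IntF M h ∧ Function.Injective h ∧ (∀ x, B (h x)) ∧ ∀ y, B y → ∃ x, h x = y := by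
  classical
  let C : K → Prop := fun x => ∀ S : IPow M K, (∀ y, ¬ B y → y ∈ S) → (∀ y, y ∈ S → g y ∈ S) → x ∈ S
  have hC : Int M C := by
    change Int M (fun x => ∀ S : IPow M K, (∀ y, ¬ B y → y ∈ S) →
      (∀ y, y ∈ S → g y ∈ S) → x ∈ S)
    (repeat' (first | with_reducible exact IntF.id | with_reducible exact IntF.fst' | with_reducible exact IntF.snd' | with_reducible exact IntF.const _ | with_reducible exact Int.const _ | assumption | with_reducible apply Int.and | with_reducible apply Int.or | with_reducible apply Int.not | with_reducible apply Int.imp | with_reducible apply Int.iff | with_reducible apply Int.ne | with_reducible apply Int.eq | with_reducible apply Int.mem | with_reducible apply Int.subset | with_reducible apply Int.ltN | with_reducible apply Int.leN | with_reducible apply Int.fin | with_reducible apply Int.unique | with_reducible apply Int.all | with_reducible apply Int.ex | with_reducible apply IntF.fst | with_reducible apply IntF.snd | with_reducible apply IntF.app | with_reducible apply IntF.ite | with_reducible apply IntF.sep | with_reducible apply IntF.lam | with_reducible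 apply IntF.insert | with_reducible apply IntF.singleton | with_reducible apply IntF.union | with_reducible apply IntF.inter | with_reducible apply IntF.sdiff | with_reducible apply IntF.isUnion | with_reducible apply IntF.iimage | with_reducible apply IntF.the | with_reducible apply IntF.irec | with_reducible_and_instances apply IntF.add | with_reducible_and_instances apply IntF.mul | with_reducible apply IntF.succ | with_reducible apply IntF.val | (with_reducible refine Int.comp ?_ ?_; assumption) | (with_reducible refine Int.comp₂ ?_ ?_ ?_; assumption) | (with_reducible refine Int.comp₃ ?_ ?_ ?_ ?_; assumption) | (with_reducible refine IntF.comp ?_ ?_; assumption) | (with_reducible refine IntF.comp₂ ?_ ?_ ?_; assumption) | (with_reducible refine IntF.comp₃ ?_ ?_ ?_ ?_; assumption) | (with_reducible refine Int.comp₄ ?_ ?_ ?_ ?_ ?_; assumption) | with_reducible apply IntF.pair))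
  have hC0 : ∀ y, ¬ B y → C y := fun y hy S h1 h2 => h1 y hy
  have hC1 : ∀ y, C y → C (g y) := fun y hy S h1 h2 => h2 y (hy S h1 h2)
  have hC2 : ∀ y, B y → C y → ∃ x, C x ∧ g x = y := by
    intro y hy hCy
    by_contra hcon
    push Not at hcon
    have hS : Int M (fun x => C x ∧ x ≠ y) := by (repeat' (first | with_reducible exact IntF.id | with_reducible exact IntF.fst' | with_reducible exact IntF.snd' | with_reducible exact IntF.const _ | with_reducible exact Int.const _ | assumption | with_reducible apply Int.and | with_reducible apply Int.or | with_reducible apply Int.not | with_reducible apply Int.imp | with_reducible apply Int.iff | with_reducible apply Int.ne | with_reducible apply Int.eq | with_reducible apply Int.mem | with_reducible apply Int.subset | with_reducible apply Int.ltN | with_reducible apply Int.leN | with_reducible apply Int.fin | with_reducible apply Int.unique | with_reducible apply Int.all | with_reducible apply Int.ex | with_reducible apply IntF.fst | with_reducible apply IntF.snd | with_reducible apply IntF.app | with_reducible apply IntF.ite | with_reducible apply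 IntF.sep | with_reducible apply IntF.lam | with_reducible apply IntF.insert | with_reducible apply IntF.singleton | with_reducible apply IntF.union | with_reducible apply IntF.inter | with_reducible apply IntF.sdiff | with_reducible apply IntF.isUnion | with_reducible apply IntF.iimage | with_reducible apply IntF.the | with_reducible apply IntF.irec | with_reducible_and_instances apply IntF.add | with_reducible_and_instances apply IntF.mul | with_reducible apply IntF.succ | with_reducible apply IntF.val | (with_reducible refine Int.comp ?_ ?_; assumption) | (with_reducible refine Int.comp₂ ?_ ?_ ?_; assumption) | (with_reducible refine Int.comp₃ ?_ ?_ ?_ ?_; assumption) | (with_reducible refine IntF.comp ?_ ?_; assumption) | (with_reducible refine IntF.comp₂ ?_ ?_ ?_; assumption) | (with_reducible refine IntF.comp₃ ?_ ?_ ?_ ?_; assumption) | (with_reducible refine Int.comp₄ ?_ ?_ ?_ ?_ ?_; assumption) | with_reducible apply IntF.pair))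
    have h1 := hCy (sep M fun x => C x ∧ x ≠ y) (fun z hz => (mem_sep hS).2 ⟨hC0 z hz, fun h =>
      hz (h ▸ hy)⟩) (fun z hz => (mem_sep hS).2 ⟨hC1 z ((mem_sep hS).1 hz).1,
        hcon z ((mem_sep hS).1 hz).1⟩)
    exact ((mem_sep hS).1 h1).2 rfl
  refine ⟨fun x => if C x then g x else x, IntF.ite hC hg IntF.id, ?_, ?_, ?_⟩
  · intro x y h
    change (if C x then g x else x) = (if C y then g y else y) at h
    by_cases hx : C x <;> by_cases hy : C y
    · rw [if_pos hx, if_pos hy] at h
      exact hi h
    · rw [if_pos hx, if_neg hy] at h
      exact absurd (h ▸ hC1 x hx) hy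
    · rw [if_neg hx, if_pos hy] at h
      exact absurd (h ▸ hC1 y hy) hx
    · rw [if_neg hx, if_neg hy] at h
      exact h
  · intro x
    change B (if C x then g x else x)
    by_cases hx : C x
    · rw [if_pos hx]
      exact hgB x
    · rw [if_neg hx]
      by_contra h
      exact hx (hC0 x h)
  · intro y hy
    by_cases hCy : C y
    · obtain ⟨x, h1, h2⟩ := hC2 y hy hCy
      exact ⟨x, by change (if C x then g x else x) = y; rw [if_pos h1, h2]⟩
    · exact ⟨y, by change (if C y then g y else y) = y; rw [if_neg hCy]⟩

end

attribute [local instance] Helper672.Plain.toL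

attribute [local instance] Pool.Agent.Q212.ZB.instModelL Pool.Agent.Q212.ZB.instPEl

section

variable {M : Type u} [Helper672.Plain.LSet.Structure M] [hZ : Helper672.Plain.Zermelo M]

theorem emb_iff {b a : M} :
    Emb b a ↔ ∃ g : PEl b → PEl a, IntF M g ∧ Function.Injective g := by
  constructor
  · rintro ⟨f, h1, h2, h3⟩
    have hI : Int M (fun q : PEl b × PEl a => Mem (op q.1.1 q.2.1) f) :=
      Int.of_D₂ (S := fun v => Mem (op (v 0) (v 1)) f)
        (D.memf (DF.op (DF.var _) (DF.var _)) (DF.const _)) fun _ _ => Iff.rfl
    have hex : ∀ x : PEl b, ∃ y : PEl a, Mem (op x.1 y.1) f := fun x => by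
      obtain ⟨y, hy, h4⟩ := h1 x.1 x.2
      exact ⟨⟨y, hy⟩, h4⟩
    choose g hg using hex
    refine ⟨g, IntF.of_rel (r := fun (x : PEl b) (y : PEl a) => Mem (op x.1 y.1) f) hI
      fun x y => ⟨fun h => Subtype.ext (h2 _ _ _ (hg x) h), fun h => h ▸ hg x⟩, fun x y h => ?_⟩
    have h4 := hg x
    rw [h] at h4
    exact Subtype.ext (h3 _ _ _ h4 (hg y))
  · rintro ⟨g, hg, hi⟩
    have hI : Int M (fun q : PEl b × PEl a => g q.1 = q.2) := by (repeat' (first | with_reducible exact IntF.id | with_reducible exact IntF.fst' | with_reducible exact IntF.snd' | with_reducible exact IntF.const _ | with_reducible exact Int.const _ | assumption | with_reducible apply Int.and | with_reducible apply Int.or | with_reducible apply Int.not | with_reducible apply Int.imp | with_reducible apply Int.iff | with_reducible apply Int.ne | with_reducible apply Int.eq | with_reducible apply Int.mem | with_reducible apply Int.subset | with_reducible apply Int.ltN | with_reducible apply Int.leN | with_reducible apply Int.fin | with_reducible apply Int.unique | with_reducible apply Int.all | with_reducible apply Int.ex |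 with_reducible apply IntF.fst | with_reducible apply IntF.snd | with_reducible apply IntF.app | with_reducible apply IntF.ite | with_reducible apply IntF.sep | with_reducible apply IntF.lam | with_reducible apply IntF.insert | with_reducible apply IntF.singleton | with_reducible apply IntF.union | with_reducible apply IntF.inter | with_reducible apply IntF.sdiff | with_reducible apply IntF.isUnion | with_reducible apply IntF.iimage | with_reducible apply IntF.the | with_reducible apply IntF.irec | with_reducible_and_instances apply IntF.add | with_reducible_and_instances apply IntF.mul | with_reducible apply IntF.succ | with_reducible apply IntF.val | (with_reducible refine Int.comp ?_ ?_; assumption) | (with_reducible refine Int.comp₂ ?_ ?_ ?_; assumption) | (with_reducible refine Int.comp₃ ?_ ?_ ?_ ?_; assumption) | (with_reducible refine IntF.comp ?_ ?_; assumption) | (with_reducible refine IntF.comp₂ ?_ ?_ ?_; assumption) | (with_reducible refine IntF.comp₃ ?_ ?_ ?_ ?_; assumption) | (with_reducible refine Int.comp₄ ?_ ?_ ?_ ?_ ?_; assumption) | with_reducible apply IntF.pair))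
    have key : ∀ x y, Mem (op x y) (gr hI) ↔ ∃ (x' : PEl b), x'.1 = x ∧ (g x').1 = y := by
      intro x y
      refine (mem_gr hI).trans ?_
      constructor
      · rintro ⟨⟨x', y'⟩, h1, h2⟩
        obtain ⟨h3, h4⟩ := op_inj (M := M) h2
        have h5 : g x' = y' := h1
        exact ⟨x', h3, by rw [h5]; exact h4⟩
      · rintro ⟨x', rfl, rfl⟩
        exact ⟨(x', g x'), rfl, rfl⟩
    refine ⟨gr hI, fun x hx => ⟨(g ⟨x, hx⟩).1, (g ⟨x, hx⟩).2, (key _ _).2 ⟨⟨x, hx⟩, rfl, rfl⟩⟩,
      fun x y z h1 h2 => ?_, fun x z y h1 h2 => ?_⟩
    · obtain ⟨x', rfl, rfl⟩ := (key _ _).1 h1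
      obtain ⟨x'', h3, rfl⟩ := (key _ _).1 h2
      rw [Subtype.ext h3]
    · obtain ⟨x', rfl, rfl⟩ := (key _ _).1 h1
      obtain ⟨x'', rfl, h4⟩ := (key _ _).1 h2
      rw [hi (Subtype.ext h4)]

theorem emb_trans {a b c : M} (h1 : Emb a b) (h2 : Emb b c) : Emb a c := by
  obtain ⟨f, hf, hf'⟩ := emb_iff.1 h1
  obtain ⟨g, hg, hg'⟩ := emb_iff.1 h2
  exact emb_iff.2 ⟨fun x => g (f x), by (repeat' (first | with_reducible exact IntF.id | with_reducible exact IntF.fst' | with_reducible exact IntF.snd' | with_reducible exact IntF.const _ | with_reducible exact Int.const _ | assumption | with_reducible apply Int.and | with_reducible apply Int.or | with_reducible apply Int.not | with_reducible apply Int.imp | with_reducible apply Int.iff | with_reducible apply Int.ne | with_reducible apply Int.eq | with_reducible apply Int.mem | with_reducible apply Int.subset | with_reducible apply Int.ltN | with_reducible apply Int.leN | with_reducible apply Int.fin | with_reducible apply Int.unique | with_reducible apply Int.all | with_reducible apply Int.ex | with_reducible apply IntF.fst | with_reducible apply IntF.snd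 | with_reducible apply IntF.app | with_reducible apply IntF.ite | with_reducible apply IntF.sep | with_reducible apply IntF.lam | with_reducible apply IntF.insert | with_reducible apply IntF.singleton | with_reducible apply IntF.union | with_reducible apply IntF.inter | with_reducible apply IntF.sdiff | with_reducible apply IntF.isUnion | with_reducible apply IntF.iimage | with_reducible apply IntF.the | with_reducible apply IntF.irec | with_reducible_and_instances apply IntF.add | with_reducible_and_instances apply IntF.mul | with_reducible apply IntF.succ | with_reducible apply IntF.val | (with_reducible refine Int.comp ?_ ?_; assumption) | (with_reducible refine Int.comp₂ ?_ ?_ ?_; assumption) | (with_reducible refine Int.comp₃ ?_ ?_ ?_ ?_; assumption) | (with_reducible refine IntF.comp ?_ ?_; assumption) | (with_reducible refine IntF.comp₂ ?_ ?_ ?_; assumption) | (with_reducible refine IntF.comp₃ ?_ ?_ ?_ ?_; assumption) | (with_reducible refine Int.comp₄ ?_ ?_ ?_ ?_ ?_; assumption) | with_reducible apply IntF.pair)), fun x y h => hf' (hg' h)⟩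

theorem emb_of_mem {κ a : M} (hκ : IsO κ) (ha : Mem a κ) : Emb a κ :=
  emb_iff.2 ⟨oincl hκ ha, int_oincl hκ ha, fun x y h =>
    Subtype.ext (congrArg Subtype.val h : (oincl hκ ha x).1 = (oincl hκ ha y).1)⟩

theorem emb_refl (a : M) : Emb a a := emb_iff.2 ⟨fun x => x, IntF.id, fun _ _ h => h⟩

theorem exists_not_mem (hN : ZF M) (b : M) : ∃ x, IsO x ∧ ¬ Mem x b := by
  by_contra hcon
  push Not at hcon
  have hD : D (fun v : Fin 1 → M => v 0 ∈ {z : M | IsO z}) := H525C.D.isO (DF.var _)
  have h1 := small_sep hD b
  have h2 : ∀ z, Mem z h1.elt ↔ IsO z := fun z => h1.mem.trans ⟨fun h => h.2, fun h =>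
    ⟨hcon z h, h⟩⟩
  have h3 : IsO h1.elt := by
    constructor
    · intro y z hy hz
      exact (h2 z).2 (((h2 y).1 hy).mem hz)
    · intro y hy
      exact ((h2 y).1 hy).1
  exact not_mem_self' hN _ ((h2 _).2 h3)

/-- Ordinals that are isomorphic are equal. -/
theorem ord_rigid (hN : ZF M) {b c : M} (hb : IsO b) (hc : IsO c) {f : PEl b → PEl c}
    (hf : IntF M f) (hs : Function.Surjective f) (hlt : ∀ x y, llt b x y ↔ llt c (f x) (f y)) :
    b = c := by
  have hW := iwo_ord hN hb
  have hI : Int M (fun x : PEl b => (f x).1 = x.1) := by
    have h0 : Int M (fun q : PEl c × PEl b => q.1.1 = q.2.1) :=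
      Int.of_D₂ (S := fun v => v 0 = v 1) (D.eqf (DF.var _) (DF.var _)) fun _ _ => Iff.rfl
    exact Int.comp₂ (p := fun (y : PEl c) (x : PEl b) => y.1 = x.1) h0 hf IntF.id
  have key := V246.iwo_ind hW hI fun x ih => by
    refine extM (M := M) fun z => ⟨fun hz => ?_, fun hz => ?_⟩
    · obtain ⟨y, hy⟩ := hs ⟨z, hc.1 _ _ (f x).2 hz⟩
      have h1 : llt c (f y) (f x) := by
        rw [hy]
        exact hz
      have h2 := (hlt _ _).2 h1
      have h3 := ih y h2
      rw [hy] at h3
      have h4 : z = y.1 := h3
      rw [h4]
      exact h2
    · have h1 : llt b ⟨z, hb.1 _ _ x.2 hz⟩ x := hz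
      have h2 := ih _ h1
      have h3 : Mem (f ⟨z, hb.1 _ _ x.2 hz⟩).1 (f x).1 := (hlt _ _).1 h1
      rw [h2] at h3
      exact h3
  refine extM (M := M) fun z => ⟨fun hz => ?_, fun hz => ?_⟩
  · have h1 := key ⟨z, hz⟩
    have h2 := (f ⟨z, hz⟩).2
    rw [h1] at h2
    exact h2
  · obtain ⟨y, hy⟩ := hs ⟨z, hz⟩
    have h1 := key y
    rw [hy] at h1
    have h2 : z = y.1 := h1
    rw [h2]
    exact y.2

theorem ot_unique (hN : ZF M) {x b c : M} (hb : OT x b) (hc : OT x c) : b = c := by
  obtain ⟨hb0, f, f1, f2, f3, f4⟩ := hb
  obtain ⟨hc0, g, g1, g2, g3, g4⟩ := hc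
  have hI : Int M (fun q : PEl b × PEl c => ∃ v, Mem (op q.1.1 v) f ∧ Mem (op q.2.1 v) g) :=
    Int.of_D₂ (S := fun w => ∃ v, Mem (op (w 0) v) f ∧ Mem (op (w 1) v) g) (by (repeat' (first | with_reducible exact DF.var _ | with_reducible exact DF.const _ | assumption | with_reducible apply D.and | with_reducible apply D.or | with_reducible apply D.not | with_reducible apply D.imp | with_reducible apply D.iff | with_reducible apply D.eqf | with_reducible apply D.memf | with_reducible apply D.all | with_reducible apply D.ex | with_reducible apply DF.op | with_reducible apply DF.up | with_reducible apply DF.fst | with_reducible apply DF.snd)))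
      fun _ _ => Iff.rfl
  have hex : ∀ u : PEl b, ∃ w : PEl c, ∃ v, Mem (op u.1 v) f ∧ Mem (op w.1 v) g := fun u => by
    obtain ⟨v, hv⟩ := f1 u.1 u.2
    obtain ⟨w, w', v', v'', h1, -, h2, h3, -, h4⟩ := (g4 _).1 ((f4 (op v v)).2
      ⟨u.1, u.1, v, v, u.2, u.2, hv, hv, Or.inl rfl, rfl⟩)
    obtain ⟨h5, -⟩ := op_inj (M := M) h4
    subst h5
    exact ⟨⟨w, h1⟩, v, hv, h2⟩
  have hex' : ∀ w : PEl c, ∃ u : PEl b, ∃ v, Mem (op u.1 v) f ∧ Mem (op w.1 v) g := fun u => by
    obtain ⟨v, hv⟩ := g1 u.1 u.2
    obtain ⟨w, w', v', v'', h1, -, h2, h3, -, h4⟩ := (f4 _).1 ((g4 (op v v)).2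
      ⟨u.1, u.1, v, v, u.2, u.2, hv, hv, Or.inl rfl, rfl⟩)
    obtain ⟨h5, -⟩ := op_inj (M := M) h4
    subst h5
    exact ⟨⟨w, h1⟩, v, h2, hv⟩
  choose φ hφ using hex
  have hu : ∀ u w, (∃ v, Mem (op u.1 v) f ∧ Mem (op w.1 v) g) ↔ φ u = w := by
    intro u w
    constructor
    · rintro ⟨v, h1, h2⟩
      obtain ⟨v', h3, h4⟩ := hφ u
      have h5 := f2 _ _ _ h1 h3
      subst h5
      exact Subtype.ext (g3 _ _ _ h4 h2)
    · rintro rfl
      exact hφ u
  have hφI : IntF M φ := IntF.of_rel (r := fun (u : PEl b) (w : PEl c) =>
    ∃ v, Mem (op u.1 v) f ∧ Mem (op w.1 v) g) hI hu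
  refine ord_rigid hN hb0 hc0 hφI (fun w => ?_) (fun x' y' => ?_)
  · obtain ⟨u, hu'⟩ := hex' w
    exact ⟨u, (hu u w).1 hu'⟩
  · obtain ⟨v, h1, h2⟩ := hφ x'
    obtain ⟨v', h3, h4⟩ := hφ y'
    constructor
    · intro h5
      obtain ⟨w, w', z, z', -, -, h6, h7, h8, h9⟩ := (g4 _).1 ((f4 (op v v')).2
        ⟨x'.1, y'.1, v, v', x'.2, y'.2, h1, h3, Or.inr h5, rfl⟩)
      obtain ⟨h10, h11⟩ := op_inj (M := M) h9
      subst h10
      subst h11
      have h12 := g3 _ _ _ h6 h2
      have h13 := g3 _ _ _ h7 h4
      subst h12
      subst h13
      rcases h8 with h8 | h8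
      · exfalso
        rw [h8] at h2
        have h14 := g2 _ _ _ h2 h4
        subst h14
        have h15 : x'.1 = y'.1 := f3 _ _ _ h1 h3
        have h16 : Mem x'.1 y'.1 := h5
        rw [h15] at h16
        exact not_mem_self' hN _ h16
      · exact h8
    · intro h5
      obtain ⟨w, w', z, z', -, -, h6, h7, h8, h9⟩ := (f4 _).1 ((g4 (op v v')).2
        ⟨(φ x').1, (φ y').1, v, v', (φ x').2, (φ y').2, h2, h4, Or.inr h5, rfl⟩)
      obtain ⟨h10, h11⟩ := op_inj (M := M) h9
      subst h10
      subst h11
      have h12 := f3 _ _ _ h6 h1
      have h13 := f3 _ _ _ h7 h3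
      subst h12
      subst h13
      rcases h8 with h8 | h8
      · exfalso
        rw [h8] at h1
        have h14 := f2 _ _ _ h1 h3
        subst h14
        have h15 : (φ x').1 = (φ y').1 := g3 _ _ _ h2 h4
        have h16 : Mem (φ x').1 (φ y').1 := h5
        rw [h15] at h16
        exact not_mem_self' hN _ h16
      · exact h8

/-- Hartogs' theorem. -/
theorem hartogs (hN : ZF M) (a : M) : ∃ b, IsO b ∧ ¬ Emb b a := by
  by_contra hcon
  push Not at hcon
  have hDot := D.ot (M := M)
  have hS : D (fun v : Fin 1 → M => v 0 ∈ {x : M | ∃ b, OT x b}) := by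
    refine D.ex ?_
    exact Helper672.ZFA.H635.D.subst (f := ![fun w : Fin 1 ⊕ Unit → M => w (Sum.inl 0),
      fun w => w (Sum.inr ())]) hDot (by
        intro k
        fin_cases k
        · exact DF.var _
        · exact DF.var _)
  have h1 := small_sep hS (dom M (IPow M (PEl a × PEl a)))
  obtain ⟨B, hB⟩ := replL_of_zf hN (fun x b => OT x b) hDot h1.elt fun x hx => by
    obtain ⟨-, b, hb⟩ := h1.mem.1 hx
    exact ⟨b, hb, fun c hc => ot_unique hN hc hb⟩
  obtain ⟨b, hb, hbB⟩ := exists_not_mem hN B
  obtain ⟨g, hg, hgi⟩ := emb_iff.1 (hcon b hb)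
  have hlt := int_llt b
  have hI : Int M (fun q : PEl a × PEl a => ∃ u u' : PEl b, (u = u' ∨ llt b u u') ∧ g u = q.1 ∧
      g u' = q.2) := by (repeat' (first | with_reducible exact IntF.id | with_reducible exact IntF.fst' | with_reducible exact IntF.snd' | with_reducible exact IntF.const _ | with_reducible exact Int.const _ | assumption | with_reducible apply Int.and | with_reducible apply Int.or | with_reducible apply Int.not | with_reducible apply Int.imp | with_reducible apply Int.iff | with_reducible apply Int.ne | with_reducible apply Int.eq | with_reducible apply Int.mem | with_reducible apply Int.subset | with_reducible apply Int.ltN | with_reducible apply Int.leN | with_reducible apply Int.fin | with_reducible apply Int.unique | with_reducible apply Int.all | with_reducible apply Int.ex | with_reducible apply IntF.fst | with_reducible apply IntF.snd | with_reducible apply IntF.app | with_reducible apply IntF.ite | with_reducible apply IntF.sep | with_reducible apply IntF.lam | with_reducible apply IntF.insert | with_reducible apply IntF.singleton | with_reducible apply IntF.union |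 with_reducible apply IntF.inter | with_reducible apply IntF.sdiff | with_reducible apply IntF.isUnion | with_reducible apply IntF.iimage | with_reducible apply IntF.the | with_reducible apply IntF.irec | with_reducible_and_instances apply IntF.add | with_reducible_and_instances apply IntF.mul | with_reducible apply IntF.succ | with_reducible apply IntF.val | (with_reducible refine Int.comp ?_ ?_; assumption) | (with_reducible refine Int.comp₂ ?_ ?_ ?_; assumption) | (with_reducible refine Int.comp₃ ?_ ?_ ?_ ?_; assumption) | (with_reducible refine IntF.comp ?_ ?_; assumption) | (with_reducible refine IntF.comp₂ ?_ ?_ ?_; assumption) | (with_reducible refine IntF.comp₃ ?_ ?_ ?_ ?_; assumption) | (with_reducible refine Int.comp₄ ?_ ?_ ?_ ?_ ?_; assumption) | with_reducible apply IntF.pair))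
  have hG : Int M (fun q : PEl b × PEl a => g q.1 = q.2) := by (repeat' (first | with_reducible exact IntF.id | with_reducible exact IntF.fst' | with_reducible exact IntF.snd' | with_reducible exact IntF.const _ | with_reducible exact Int.const _ | assumption | with_reducible apply Int.and | with_reducible apply Int.or | with_reducible apply Int.not | with_reducible apply Int.imp | with_reducible apply Int.iff | with_reducible apply Int.ne | with_reducible apply Int.eq | with_reducible apply Int.mem | with_reducible apply Int.subset | with_reducible apply Int.ltN | with_reducible apply Int.leN | with_reducible apply Int.fin | with_reducible apply Int.unique | with_reducible apply Int.all | with_reducible apply Int.ex | with_reducible apply IntF.fst | with_reducible apply IntF.snd | with_reducible apply IntF.app | with_reducible apply IntF.ite | with_reducible apply IntF.sep | with_reducible apply IntF.lam | with_reducible apply IntF.insert | with_reducible apply IntF.singleton | with_reducible apply IntF.union | with_reducible apply IntF.inter | with_reducible apply IntF.sdiff | with_reducible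 apply IntF.isUnion | with_reducible apply IntF.iimage | with_reducible apply IntF.the | with_reducible apply IntF.irec | with_reducible_and_instances apply IntF.add | with_reducible_and_instances apply IntF.mul | with_reducible apply IntF.succ | with_reducible apply IntF.val | (with_reducible refine Int.comp ?_ ?_; assumption) | (with_reducible refine Int.comp₂ ?_ ?_ ?_; assumption) | (with_reducible refine Int.comp₃ ?_ ?_ ?_ ?_; assumption) | (with_reducible refine IntF.comp ?_ ?_; assumption) | (with_reducible refine IntF.comp₂ ?_ ?_ ?_; assumption) | (with_reducible refine IntF.comp₃ ?_ ?_ ?_ ?_; assumption) | (with_reducible refine Int.comp₄ ?_ ?_ ?_ ?_ ?_; assumption) | with_reducible apply IntF.pair))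
  have key : ∀ x y, Mem (op x y) (gr hG) ↔ ∃ (x' : PEl b), x'.1 = x ∧ (g x').1 = y := by
    intro x y
    refine (mem_gr hG).trans ?_
    constructor
    · rintro ⟨⟨x', y'⟩, h1, h2⟩
      obtain ⟨h3, h4⟩ := op_inj (M := M) h2
      have h5 : g x' = y' := h1
      exact ⟨x', h3, by rw [h5]; exact h4⟩
    · rintro ⟨x', rfl, rfl⟩
      exact ⟨(x', g x'), rfl, rfl⟩
  have hot : OT (code (M := M) (sep M fun q : PEl a × PEl a => ∃ u u' : PEl b,
      (u = u' ∨ llt b u u') ∧ g u = q.1 ∧ g u' = q.2)) b := by
    refine ⟨hb, gr hG, fun u hu => ⟨(g ⟨u, hu⟩).1, (key _ _).2 ⟨⟨u, hu⟩, rfl, rfl⟩⟩,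
      fun u v w h1 h2 => ?_, fun u w v h1 h2 => ?_, fun z => ?_⟩
    · obtain ⟨x', rfl, rfl⟩ := (key _ _).1 h1
      obtain ⟨x'', h3, rfl⟩ := (key _ _).1 h2
      rw [Subtype.ext h3]
    · obtain ⟨x', rfl, rfl⟩ := (key _ _).1 h1
      obtain ⟨x'', rfl, h4⟩ := (key _ _).1 h2
      rw [hgi (Subtype.ext h4)]
    · refine (mem_code_pow (M := M)).trans ?_
      constructor
      · rintro ⟨⟨v, v'⟩, h1, rfl⟩
        obtain ⟨u, u', h2, h3, h4⟩ := (mem_sep hI).1 h1
        have h3' : g u = v := h3
        have h4' : g u' = v' := h4
        refine ⟨u.1, u'.1, v.1, v'.1, u.2, u'.2, (key _ _).2 ⟨u, rfl, by rw [h3']⟩,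
          (key _ _).2 ⟨u', rfl, by rw [h4']⟩, ?_, rfl⟩
        rcases h2 with h2 | h2
        · exact Or.inl (congrArg Subtype.val h2)
        · exact Or.inr h2
      · rintro ⟨u, u', v, v', hu, hu', h2, h3, h4, rfl⟩
        obtain ⟨x, rfl, rfl⟩ := (key _ _).1 h2
        obtain ⟨x', rfl, rfl⟩ := (key _ _).1 h3
        refine ⟨(g x, g x'), (mem_sep hI).2 ⟨x, x', ?_, rfl, rfl⟩, rfl⟩
        rcases h4 with h4 | h4
        · exact Or.inl (Subtype.ext h4)
        · exact Or.inr h4
  refine hbB ((hB b).2 ⟨_, h1.mem.2 ⟨?_, b, hot⟩, hot⟩)
  exact code_mem_dom (M := M) _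

end

end Pool.Agent.H634
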