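import Pool.Agent.H634.Defs

/-!
# The cardinals `ℵ_n` in a model of set theory
-/

namespace Pool.Agent.H634

open FirstOrder FirstOrder.Language
open Pool.Agent.Helper672.Plain (LSet Mem IsOrdPair)
open Pool.Agent.H310Cards

universe u

variable {N : Type u} [LSet.Structure N]

/-- The set `κ` is the cardinal `ℵ_n`: `ℵ_0` is the set of the natural numbers, and `ℵ_(n+1)` is
the least cardinal that has `ℵ_n` as an element. -/
def IsAleph : ℕ → N → Prop
  | 0, κ => IsOmega κ
  | n + 1, κ => IsCardinal κ ∧ ∃ c, IsAleph n c ∧ Mem c κ ∧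
      ∀ d, Mem c d → Mem d κ → ¬ IsCardinal d

end Pool.Agent.H634
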