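import Pool.Agent.H634.Card
import Pool.Agent.H634.Defs2

/-!
# The cardinals `ℵ_n`
-/

set_option maxHeartbeats 2000000
set_option linter.all false
set_option synthInstance.maxSize 2000

namespace Pool.Agent.H634

open FirstOrder FirstOrder.Language
open Pool.Agent.Helper672.ZFA
open Pool.Agent.Helper672.ZFA.H635 (IWO gr mem_gr code_mem_gr)
open Pool.Agent.H310
open Pool.Agent.H310Cards
open Pool.Agent.Q212.ZA
open Pool.Agent.Q212.ZB
open Pool.Agent.Q212.ZC
open Pool.Agent.Q212.ZD (replL_of_zf llt int_llt)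
open Pool.Agent.H635Amen (ZF)
open Pool.Agent.H525C (IsO ord_comp)

universe u

attribute [local instance] Helper672.Plain.toL

attribute [local instance] Pool.Agent.Q212.ZB.instModelL Pool.Agent.Q212.ZB.instPEl

section

variable {M : Type u} [Helper672.Plain.LSet.Structure M] [hZ : Helper672.Plain.Zermelo M]

theorem exists_least_ord (hN : ZF M) {S : M → Prop} (hS : D (fun v : Fin 1 → M => S (v 0)))
    {b : M} (hb : IsO b) (h : S b) : ∃ c, IsO c ∧ S c ∧ ∀ z, Mem z c → ¬ S z := by
  have h1 := small_sep (M := M) (S := {z | S z}) hS (small_union (M := M) b (up b b)).elt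
  have hm : ∀ z, Mem z h1.elt ↔ (Mem z b ∨ z = b) ∧ S z := by
    intro z
    refine h1.mem.trans ?_
    change (Mem z (small_union (M := M) b (up b b)).elt ∧ S z) ↔ _
    rw [(small_union (M := M) b (up b b)).mem]
    change (Mem z b ∨ Mem z (up b b)) ∧ S z ↔ _
    rw [mem_up (M := M), or_self]
  obtain ⟨m, h2, h3⟩ := hN.foundation h1.elt ⟨b, (hm b).2 ⟨Or.inr rfl, h⟩⟩
  obtain ⟨h4, h5⟩ := (hm m).1 h2
  have hm' : IsO m := by
    rcases h4 with h4 | rfl
    · exact hb.mem h4
    · exact hb
  refine ⟨m, hm', h5, fun z hz hSz => h3 z ((hm z).2 ⟨?_, hSz⟩) hz⟩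
  rcases h4 with h4 | rfl
  · exact Or.inl (hb.1 _ _ h4 hz)
  · exact Or.inl hz

theorem app_gr {a b : M} {h : PEl a → PEl b} (hI : Int M (fun q : PEl a × PEl b => h q.1 = q.2))
    {x y : M} : App (gr hI) x y ↔ ∃ x' : PEl a, x'.1 = x ∧ (h x').1 = y := by
  rw [app_iff]
  refine (mem_gr hI).trans ?_
  constructor
  · rintro ⟨⟨x', y'⟩, h1, h2⟩
    obtain ⟨h3, h4⟩ := op_inj (M := M) h2
    have h5 : h x' = y' := h1
    exact ⟨x', h3, by rw [h5]; exact h4⟩
  · rintro ⟨x', rfl, rfl⟩
    exact ⟨(x', h x'), rfl, rfl⟩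

theorem isFun_gr {a b c : M} {h : PEl a → PEl b}
    (hI : Int M (fun q : PEl a × PEl b => h q.1 = q.2)) (hc : ∀ x, Mem (h x).1 c) :
    IsFun (gr hI) a c := by
  constructor
  · intro q hq
    obtain ⟨⟨x, y⟩, h1, h2⟩ := (mem_gr hI).1 hq
    have h3 : h x = y := h1
    refine ⟨x.1, y.1, x.2, by rw [← h3]; exact hc x, (ordPair_iff (M := M)).2 h2.symm⟩
  · intro x hx
    refine ⟨(h ⟨x, hx⟩).1, (app_gr hI).2 ⟨⟨x, hx⟩, rfl, rfl⟩, fun y hy => ?_⟩
    obtain ⟨x', h1, h2⟩ := (app_gr hI).1 hy
    rw [← h2, show x' = ⟨x, hx⟩ from Subtype.ext h1]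

/-- Cardinals do not embed into their elements. -/
theorem isCardinal_iff (hN : ZF M) {c : M} :
    IsCardinal c ↔ IsO c ∧ ∀ b, Mem b c → ¬ Emb c b := by
  constructor
  · rintro ⟨hc, h⟩
    have hc' : IsO c := hc
    refine ⟨hc', fun b hb hemb => h b hb ?_⟩
    obtain ⟨g, hg, hgi⟩ := emb_iff.1 hemb
    have ho := int_oincl hc' hb
    have hlt := int_llt c
    have hB : Int M (fun x : PEl c => llt c x ⟨b, hb⟩) :=
      Int.comp₂ (p := fun x y => llt c x y) hlt IntF.id (IntF.const _)
    have hG : IntF M (fun x : PEl c => oincl hc' hb (g x)) := by (repeat' (first | with_reducible exact IntF.id | with_reducible exact IntF.fst' | with_reducible exact IntF.snd' | with_reducible exact IntF.const _ | with_reducible exact Int.const _ | assumption | with_reducible apply Int.and | with_reducible apply Int.or | with_reducible apply Int.not | with_reducible apply Int.imp | with_reducible apply Int.iff | with_reducible apply Int.ne | with_reducible apply Int.eq | with_reducible apply Int.mem | with_reducible apply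 Int.subset | with_reducible apply Int.ltN | with_reducible apply Int.leN | with_reducible apply Int.fin | with_reducible apply Int.unique | with_reducible apply Int.all | with_reducible apply Int.ex | with_reducible apply IntF.fst | with_reducible apply IntF.snd | with_reducible apply IntF.app | with_reducible apply IntF.ite | with_reducible apply IntF.sep | with_reducible apply IntF.lam | with_reducible apply IntF.insert | with_reducible apply IntF.singleton | with_reducible apply IntF.union | with_reducible apply IntF.inter | with_reducible apply IntF.sdiff | with_reducible apply IntF.isUnion | with_reducible apply IntF.iimage | with_reducible apply IntF.the | with_reducible apply IntF.irec | with_reducible_and_instances apply IntF.add | with_reducible_and_instances apply IntF.mul | with_reducible apply IntF.succ | with_reducible apply IntF.val | (with_reducible refine Int.comp ?_ ?_; assumption) | (with_reducible refine Int.comp₂ ?_ ?_ ?_; assumption) | (with_reducible refine Int.comp₃ ?_ ?_ ?_ ?_;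 assumption) | (with_reducible refine IntF.comp ?_ ?_; assumption) | (with_reducible refine IntF.comp₂ ?_ ?_ ?_; assumption) | (with_reducible refine IntF.comp₃ ?_ ?_ ?_ ?_; assumption) | (with_reducible refine Int.comp₄ ?_ ?_ ?_ ?_ ?_; assumption) | with_reducible apply IntF.pair))
    obtain ⟨k, hk, hk1, hk2, hk3⟩ := csb (M := M) (K := PEl c)
      (B := fun x : PEl c => llt c x ⟨b, hb⟩) hB
      (g := fun x => oincl hc' hb (g x)) hG (fun x y hxy => hgi (Subtype.ext
        (congrArg Subtype.val hxy : (oincl hc' hb (g x)).1 = (oincl hc' hb (g y)).1)))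
      (fun x => (g x).2)
    have hI : Int M (fun q : PEl c × PEl c => k q.1 = q.2) := by (repeat' (first | with_reducible exact IntF.id | with_reducible exact IntF.fst' | with_reducible exact IntF.snd' | with_reducible exact IntF.const _ | with_reducible exact Int.const _ | assumption | with_reducible apply Int.and | with_reducible apply Int.or | with_reducible apply Int.not | with_reducible apply Int.imp | with_reducible apply Int.iff | with_reducible apply Int.ne | with_reducible apply Int.eq | with_reducible apply Int.mem | with_reducible apply Int.subset | with_reducible apply Int.ltN | with_reducible apply Int.leN | with_reducible apply Int.fin | with_reducible apply Int.unique | with_reducible apply Int.all | with_reducible apply Int.ex | with_reducible apply IntF.fst | with_reducible apply IntF.snd | with_reducible apply IntF.app | with_reducible apply IntF.ite | with_reducible apply IntF.sep | with_reducible apply IntF.lam | with_reducible apply IntF.insert | with_reducible apply IntF.singleton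 | with_reducible apply IntF.union | with_reducible apply IntF.inter | with_reducible apply IntF.sdiff | with_reducible apply IntF.isUnion | with_reducible apply IntF.iimage | with_reducible apply IntF.the | with_reducible apply IntF.irec | with_reducible_and_instances apply IntF.add | with_reducible_and_instances apply IntF.mul | with_reducible apply IntF.succ | with_reducible apply IntF.val | (with_reducible refine Int.comp ?_ ?_; assumption) | (with_reducible refine Int.comp₂ ?_ ?_ ?_; assumption) | (with_reducible refine Int.comp₃ ?_ ?_ ?_ ?_; assumption) | (with_reducible refine IntF.comp ?_ ?_; assumption) | (with_reducible refine IntF.comp₂ ?_ ?_ ?_; assumption) | (with_reducible refine IntF.comp₃ ?_ ?_ ?_ ?_; assumption) | (with_reducible refine Int.comp₄ ?_ ?_ ?_ ?_ ?_; assumption) | with_reducible apply IntF.pair))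
    refine ⟨gr hI, ⟨isFun_gr hI fun x => hk2 x, fun x x' y h1 h2 => ?_⟩, fun y hy => ?_⟩
    · obtain ⟨z, rfl, rfl⟩ := (app_gr hI).1 h1
      obtain ⟨z', rfl, h3⟩ := (app_gr hI).1 h2
      rw [hk1 (Subtype.ext h3)]
    · obtain ⟨x, hx⟩ := hk3 ⟨y, hc'.1 _ _ hb hy⟩ hy
      exact ⟨x.1, (app_gr hI).2 ⟨x, rfl, by rw [hx]⟩⟩
  · rintro ⟨hc, h⟩
    refine ⟨hc, fun b hb ⟨f, hf⟩ => h b hb ⟨f, fun x hx => ?_, fun x y z h1 h2 => ?_,
      fun x z y h1 h2 => ?_⟩⟩
    · obtain ⟨y, h1, -⟩ := hf.1.1.2 x hx
      have h1' := h1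
      obtain ⟨q, h2, h3⟩ := h1
      obtain ⟨x', y', h4, h5, h6⟩ := hf.1.1.1 q h3
      obtain ⟨h7, h8⟩ := op_inj (M := M) ((ordPair_iff.1 h2).symm.trans (ordPair_iff.1 h6))
      subst h8
      exact ⟨y, h5, app_iff.1 h1'⟩
    · have h1' : App f x y := app_iff.2 h1
      have h2' : App f x z := app_iff.2 h2
      obtain ⟨q, h3, h4⟩ := h1'
      obtain ⟨x', y', h5, h6, h7⟩ := hf.1.1.1 q h4
      obtain ⟨h8, h9⟩ := op_inj (M := M) ((ordPair_iff.1 h3).symm.trans (ordPair_iff.1 h7))
      subst h8
      obtain ⟨w, -, h10⟩ := hf.1.1.2 x h5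
      rw [h10 y (app_iff.2 h1), h10 z h2']
    · exact hf.1.2 _ _ _ (app_iff.2 h1) (app_iff.2 h2)

/-- The ordinal `κ` is infinite. -/
def Infn (κ : M) : Prop := ∀ n : INat M, Mem n.val κ

/-- The natural numbers as elements of an infinite ordinal. -/
def natEl {κ : M} (h : Infn κ) (n : INat M) : PEl κ := ⟨n.val, h n⟩

theorem int_natEl {κ : M} (h : Infn κ) : IntF M (natEl h) :=
  IntF.of_D (S := fun v => v 0 = v 1) (D.eqf (DF.var _) (DF.var _)) fun x y =>
    ⟨fun h => Subtype.ext h, fun h => congrArg Subtype.val h⟩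

theorem isO_omega {w : M} (hw : IsOmega w) : IsO w := by
  have h1 : ∀ n : INat M, ∀ z, Mem z n.val → Mem z w := fun n z hz => by
    obtain ⟨m, -, rfl⟩ := mem_nat hz
    exact (mem_omega hw).2 ⟨m, rfl⟩
  constructor
  · intro y z hy hz
    obtain ⟨n, rfl⟩ := (mem_omega hw).1 hy
    exact h1 n z hz
  · intro y hy z x hz hx
    obtain ⟨n, rfl⟩ := (mem_omega hw).1 hy
    exact INat.trans_mem n x z hx hz

theorem infn_omega {w : M} (hw : IsOmega w) : Infn w := fun n => (mem_omega hw).2 ⟨n, rfl⟩

theorem Infn.mono {a b : M} (h : Infn a) (hb : IsO b) (hab : Mem a b) : Infn b := fun n =>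
  hb.1 _ _ hab (h n)

theorem not_fin_inf {κ : M} (h : Infn κ) : ¬ IFin (sep M fun _ : PEl κ => True) := by
  intro hf
  have h1 : IntF M (natEl h) := int_natEl h
  refine not_finP_nat (M := M) (FinP.of_inj (p := fun _ : INat M => True) (Int.const _) h1
    (fun a a' _ _ h2 => ?_) (q := fun _ : PEl κ => True)
    ⟨_, hf, fun a _ => (mem_sep (Int.const _)).2 trivial⟩ fun _ _ => trivial)
  exact INat.ext (congrArg Subtype.val h2)

theorem sur_sq (hN : ZF M) {κ : M} (hκ : IsO κ) (h : Infn κ) :
    Sur M (PEl κ) (PEl κ × PEl κ) := by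
  obtain ⟨e, he, hei⟩ := V246.exists_sq (iwo_ord hN hκ) (not_fin_inf h)
  exact sur_of_inj (⟨_, h 0⟩, ⟨_, h 0⟩) he hei

theorem sur_nat {κ : M} (h : Infn κ) : Sur M (PEl κ) (INat M) := by
  have h1 : IntF M (natEl h) := int_natEl h
  exact sur_of_inj 0 h1 fun a a' h2 => INat.ext (congrArg Subtype.val h2)

/-- Cardinality: a cardinal above `ω` is not the image of `a × ω × ω` for a smaller `a`. -/
theorem card_no_sur (hN : ZF M) {c w a : M} (hc : IsCardinal c) (hw : IsOmega w)
    (hwc : Mem w c) (ha : Mem a c) {e : (PEl a × INat M) × INat M → PEl c} (he : IntF M e) :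
    ¬ Function.Surjective e := by
  intro hs
  obtain ⟨hcO, hcE⟩ := (isCardinal_iff hN).1 hc
  obtain ⟨b, hb, hbO, hbI, hab⟩ : ∃ b, Mem b c ∧ IsO b ∧ Infn b ∧ Emb a b := by
    rcases ord_comp (M := M) (fun _ => trivial) (replL_of_zf hN) hN.foundation a w
      (hcO.mem ha) (isO_omega hw) with h | h | h
    · exact ⟨w, hwc, isO_omega hw, infn_omega hw, emb_of_mem (isO_omega hw) h⟩
    · subst h
      exact ⟨a, hwc, isO_omega hw, infn_omega hw, emb_refl a⟩
    · exact ⟨a, ha, hcO.mem ha, (infn_omega hw).mono (hcO.mem ha) h, emb_refl a⟩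
  have hW := iwo_ord hN hbO
  obtain ⟨⟨⟨x, -⟩, -⟩, -⟩ := hs ⟨w, hwc⟩
  obtain ⟨g, hg, hgi⟩ := emb_iff.1 hab
  have h1 : Sur M (PEl b) (PEl a) := sur_of_inj x hg hgi
  have hsq := sur_sq hN hbO hbI
  have hn := sur_nat hbI
  have h2 : Sur M (PEl b) (PEl c) := Sur.trans (Sur.prod hsq (Sur.prod hsq h1 hn) hn) ⟨e, he, hs⟩
  exact hcE b hb (emb_iff.2 (inj_of_sur hW h2))

/-- The next cardinal. -/
theorem exists_next (hN : ZF M) {c : M} (hc : IsO c) :
    ∃ k, IsCardinal k ∧ Mem c k ∧ ∀ b, Mem b k → Emb b c := by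
  have hD : D (fun v : Fin 1 → M => ¬ Emb (v 0) c) := by
    unfold Emb
    exact D.not (D.ex (D.embF (DF.var _) (DF.var _) (DF.const _)))
  obtain ⟨b, hb, hbE⟩ := hartogs hN c
  obtain ⟨k, hk, hkE, hmin⟩ := exists_least_ord hN (S := fun k => ¬ Emb k c) hD hb hbE
  have hmin' : ∀ b, Mem b k → Emb b c := fun b hb => by
    by_contra h
    exact hmin b hb h
  refine ⟨k, (isCardinal_iff hN).2 ⟨hk, fun b hb h => hkE (emb_trans h (hmin' b hb))⟩, ?_, hmin'⟩
  rcases ord_comp (M := M) (fun _ => trivial) (replL_of_zf hN) hN.foundation k c hk hc with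
    h | h | h
  · exact absurd (emb_of_mem hc h) hkE
  · subst h
    exact absurd (emb_refl k) hkE
  · exact h

theorem isAleph_ord (hN : ZF M) : ∀ {n : ℕ} {k : M}, IsAleph n k → IsO k ∧ Infn k := by
  intro n
  induction n with
  | zero => exact fun h => ⟨isO_omega h, infn_omega h⟩
  | succ n ih =>
    rintro k ⟨h1, c, h2, h3, -⟩
    have hk : IsO k := h1.1
    exact ⟨hk, (ih h2).2.mono hk h3⟩

theorem exists_aleph (hN : ZF M) : ∀ n : ℕ, ∃ k : M, IsAleph n k := by
  intro n
  induction n with
  | zero => exact ⟨_, isOmega_dom⟩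
  | succ n ih =>
    obtain ⟨c, hc⟩ := ih
    obtain ⟨k, h1, h2, h3⟩ := exists_next hN (isAleph_ord hN hc).1
    refine ⟨k, h1, c, hc, h2, fun d h4 h5 h6 => ?_⟩
    exact ((isCardinal_iff hN).1 h6).2 c h4 (h3 d h5)

end

end Pool.Agent.H634
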