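import Pool.Agent.H634.Dm

/-!
# Names from well-founded graphs
-/

set_option maxHeartbeats 2000000
set_option linter.all false
set_option synthInstance.maxSize 2000

namespace Pool.Agent.H634

open FirstOrder FirstOrder.Language
open Pool.Agent.Helper672.ZFA
open Pool.Agent.Helper672.ZFA.H635 (IWO gr mem_gr code_mem_gr WFI IG)
open Pool.Agent.H310
open Pool.Agent.H310Cards
open Pool.Agent.Q212.ZA
open Pool.Agent.Q212.ZB
open Pool.Agent.Q212.ZC
open Pool.Agent.Q212.ZD (replL_of_zf llt int_llt)
open Pool.Agent.H635Amen (ZF)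

universe u

attribute [local instance] Helper672.Plain.toL

attribute [local instance] Pool.Agent.Q212.ZB.instModelL Pool.Agent.Q212.ZB.instPEl

section

variable {M : Type u} [Helper672.Plain.LSet.Structure M] [hZ : Helper672.Plain.Zermelo M]

/-- An attempt at the definition of the names. -/
def Atm (e d h : M) : Prop :=
  (∀ x y z, Mem (op x y) h → Mem (op x z) h → y = z) ∧
    ∀ a z, Mem (op a z) h → Mem a d ∧ (∀ b p, Mem (op (op b p) a) e → ∃ v, Mem (op b v) h) ∧
      ∀ w, Mem w z ↔ ∃ b p v, Mem (op (op b p) a) e ∧ Mem (op b v) h ∧ w = op v p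

theorem D.atm {ι : Type} {e d h : (ι → M) → M} (h0 : DF e) (h1 : DF d) (h2 : DF h) :
    D (fun v => Atm (e v) (d v) (h v)) := by
  have h3 : D (fun v : Fin 3 → M => Atm (v 0) (v 1) (v 2)) := by
    unfold Atm
    (repeat' (first | with_reducible exact DF.var _ | with_reducible exact DF.const _ | assumption | with_reducible apply D.and | with_reducible apply D.or | with_reducible apply D.not | with_reducible apply D.imp | with_reducible apply D.iff | with_reducible apply D.eqf | with_reducible apply D.memf | with_reducible apply D.all | with_reducible apply D.ex | with_reducible apply DF.op | with_reducible apply DF.up | with_reducible apply DF.fst | with_reducible apply DF.snd))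
  have h4 := Helper672.ZFA.H635.D.subst (f := ![e, d, h]) h3 (by
    intro k
    fin_cases k <;> assumption)
  exact h4

variable {e d : M}
  (he : ∀ b p a, Mem (op (op b p) a) e → Mem b d)
  (hw : ∀ s : M, (∀ a, Mem a s → Mem a d) → (∃ a, Mem a s) →
    ∃ a, Mem a s ∧ ∀ b p, Mem b s → ¬ Mem (op (op b p) a) e)

include hw

theorem atm_unique {h h' : M} (hh : Atm e d h) (hh' : Atm e d h') {a z z' : M}
    (h1 : Mem (op a z) h) (h2 : Mem (op a z') h') : z = z' := by
  by_contra hne
  have hS : D (fun v : Fin 1 → M => v 0 ∈ {a : M | ∃ z z', Mem (op a z) h ∧ Mem (op a z') h' ∧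
      z ≠ z'}) := by
    change D (fun v : Fin 1 → M => ∃ z z', Mem (op (v 0) z) h ∧ Mem (op (v 0) z') h' ∧ ¬ z = z')
    (repeat' (first | with_reducible exact DF.var _ | with_reducible exact DF.const _ | assumption | with_reducible apply D.and | with_reducible apply D.or | with_reducible apply D.not | with_reducible apply D.imp | with_reducible apply D.iff | with_reducible apply D.eqf | with_reducible apply D.memf | with_reducible apply D.all | with_reducible apply D.ex | with_reducible apply DF.op | with_reducible apply DF.up | with_reducible apply DF.fst | with_reducible apply DF.snd))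
  have h3 := small_sep hS d
  obtain ⟨a, h4, hmin⟩ := hw h3.elt (fun x hx => (h3.mem.1 hx).1)
    ⟨a, h3.mem.2 ⟨(hh.2 _ _ h1).1, z, z', h1, h2, hne⟩⟩
  obtain ⟨h5, z, z', h6, h7, h8⟩ := h3.mem.1 h4
  have key : ∀ b p v v', Mem (op (op b p) a) e → Mem (op b v) h → Mem (op b v') h' → v = v' := by
    intro b p v v' h9 h10 h11
    by_contra h12
    exact hmin b p (h3.mem.2 ⟨(hh.2 _ _ h10).1, v, v', h10, h11, h12⟩) h9
  refine h8 (extM (M := M) fun w => ?_)
  rw [(hh.2 _ _ h6).2.2, (hh'.2 _ _ h7).2.2]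
  constructor
  · rintro ⟨b, p, v, h9, h10, rfl⟩
    obtain ⟨v', h11⟩ := (hh'.2 _ _ h7).2.1 b p h9
    rw [key b p v v' h9 h10 h11]
    exact ⟨b, p, v', h9, h11, rfl⟩
  · rintro ⟨b, p, v', h9, h11, rfl⟩
    obtain ⟨v, h10⟩ := (hh.2 _ _ h6).2.1 b p h9
    rw [← key b p v v' h9 h10 h11]
    exact ⟨b, p, v, h9, h10, rfl⟩

include he

/-- The collapse. -/
theorem exists_col (hN : ZF M) : ∃ X : M, Atm e d X ∧ ∀ a, Mem a d → ∃ z, Mem (op a z) X := by
  have hB : D (fun v : Fin 1 → M => v 0 ∈ {b : M | ∃ h, Atm e d h ∧ ∃ v, Mem (op b v) h}) := by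
    change D (fun v : Fin 1 → M => ∃ h, Atm e d h ∧ ∃ z, Mem (op (v 0) z) h)
    refine D.ex (D.and (D.atm (DF.const _) (DF.const _) (DF.var _)) ?_)
    (repeat' (first | with_reducible exact DF.var _ | with_reducible exact DF.const _ | assumption | with_reducible apply D.and | with_reducible apply D.or | with_reducible apply D.not | with_reducible apply D.imp | with_reducible apply D.iff | with_reducible apply D.eqf | with_reducible apply D.memf | with_reducible apply D.all | with_reducible apply D.ex | with_reducible apply DF.op | with_reducible apply DF.up | with_reducible apply DF.fst | with_reducible apply DF.snd))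
  have h1 := small_sep hB d
  obtain ⟨X, hX⟩ := replL_of_zf hN
    (fun x y => ∃ h v, Atm e d h ∧ Mem (op x v) h ∧ y = op x v)
    (by
      refine D.ex (D.ex (D.and (D.atm (DF.const _) (DF.const _) (DF.var _)) ?_))
      (repeat' (first | with_reducible exact DF.var _ | with_reducible exact DF.const _ | assumption | with_reducible apply D.and | with_reducible apply D.or | with_reducible apply D.not | with_reducible apply D.imp | with_reducible apply D.iff | with_reducible apply D.eqf | with_reducible apply D.memf | with_reducible apply D.all | with_reducible apply D.ex | with_reducible apply DF.op | with_reducible apply DF.up | with_reducible apply DF.fst | with_reducible apply DF.snd))) h1.elt (fun x hx => by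
    obtain ⟨-, h, hh, v, hv⟩ := h1.mem.1 hx
    refine ⟨op x v, ⟨h, v, hh, hv, rfl⟩, ?_⟩
    rintro y ⟨h', v', hh', hv', rfl⟩
    rw [atm_unique hw hh hh' hv hv'])
  have hX' : ∀ a z, Mem (op a z) X ↔ ∃ h, Atm e d h ∧ Mem (op a z) h := by
    intro a z
    rw [hX]
    constructor
    · rintro ⟨x, -, h, v, h2, h3, h4⟩
      obtain ⟨rfl, rfl⟩ := op_inj (M := M) h4
      exact ⟨h, h2, h3⟩
    · rintro ⟨h, h2, h3⟩
      exact ⟨a, h1.mem.2 ⟨(h2.2 _ _ h3).1, h, h2, z, h3⟩, h, z, h2, h3, rfl⟩
  have hAX : Atm e d X := by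
    refine ⟨fun x y z h2 h3 => ?_, fun a z h2 => ?_⟩
    · obtain ⟨h, h4, h5⟩ := (hX' _ _).1 h2
      obtain ⟨h', h6, h7⟩ := (hX' _ _).1 h3
      exact atm_unique hw h4 h6 h5 h7
    · obtain ⟨h, h4, h5⟩ := (hX' _ _).1 h2
      refine ⟨(h4.2 _ _ h5).1, fun b p h6 => ?_, fun w => ?_⟩
      · obtain ⟨v, h7⟩ := (h4.2 _ _ h5).2.1 b p h6
        exact ⟨v, (hX' _ _).2 ⟨h, h4, h7⟩⟩
      · rw [(h4.2 _ _ h5).2.2]
        constructor
        · rintro ⟨b, p, v, h6, h7, rfl⟩
          exact ⟨b, p, v, h6, (hX' _ _).2 ⟨h, h4, h7⟩, rfl⟩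
        · rintro ⟨b, p, v, h6, h7, rfl⟩
          obtain ⟨v', h8⟩ := (h4.2 _ _ h5).2.1 b p h6
          obtain ⟨h', h9, h10⟩ := (hX' _ _).1 h7
          rw [atm_unique hw h9 h4 h10 h8]
          exact ⟨b, p, v', h6, h8, rfl⟩
  refine ⟨X, hAX, ?_⟩
  by_contra hcon
  push Not at hcon
  obtain ⟨a₀, ha₀, hcon⟩ := hcon
  have hC : D (fun v : Fin 1 → M => v 0 ∈ {b : M | ¬ ∃ z, Mem (op b z) X}) := by
    change D (fun v : Fin 1 → M => ¬ ∃ z, Mem (op (v 0) z) X)
    (repeat' (first | with_reducible exact DF.var _ | with_reducible exact DF.const _ | assumption | with_reducible apply D.and | with_reducible apply D.or | with_reducible apply D.not | with_reducible apply D.imp | with_reducible apply D.iff | with_reducible apply D.eqf | with_reducible apply D.memf | with_reducible apply D.all | with_reducible apply D.ex | with_reducible apply DF.op | with_reducible apply DF.up | with_reducible apply DF.fst | with_reducible apply DF.snd))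
  have h2 := small_sep hC d
  obtain ⟨a, h3, hmin⟩ := hw h2.elt (fun x hx => (h2.mem.1 hx).1)
    ⟨a₀, h2.mem.2 ⟨ha₀, fun ⟨z, hz⟩ => hcon z hz⟩⟩
  obtain ⟨had, haX⟩ := h2.mem.1 h3
  have hpred : ∀ b p, Mem (op (op b p) a) e → ∃ v, Mem (op b v) X := by
    intro b p h4
    by_contra h5
    exact hmin b p (h2.mem.2 ⟨he _ _ _ h4, h5⟩) h4
  have hE : D (fun v : Fin 1 → M => v 0 ∈ {q : M | ∃ b p, q = op (op b p) a}) := by
    change D (fun v : Fin 1 → M => ∃ b p, v 0 = op (op b p) a)
    (repeat' (first | with_reducible exact DF.var _ | with_reducible exact DF.const _ | assumption | with_reducible apply D.and | with_reducible apply D.or | with_reducible apply D.not | with_reducible apply D.imp | with_reducible apply D.iff | with_reducible apply D.eqf | with_reducible apply D.memf | with_reducible apply D.all | with_reducible apply D.ex | with_reducible apply DF.op | with_reducible apply DF.up | with_reducible apply DF.fst | with_reducible apply DF.snd))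
  have h4 := small_sep hE e
  obtain ⟨z, hz⟩ := replL_of_zf hN
    (fun q y => ∃ b p v, q = op (op b p) a ∧ Mem (op b v) X ∧ y = op v p)
    (by (repeat' (first | with_reducible exact DF.var _ | with_reducible exact DF.const _ | assumption | with_reducible apply D.and | with_reducible apply D.or | with_reducible apply D.not | with_reducible apply D.imp | with_reducible apply D.iff | with_reducible apply D.eqf | with_reducible apply D.memf | with_reducible apply D.all | with_reducible apply D.ex | with_reducible apply DF.op | with_reducible apply DF.up | with_reducible apply DF.fst | with_reducible apply DF.snd))) h4.elt (fun q hq => by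
    obtain ⟨h5, b, p, rfl⟩ := h4.mem.1 hq
    obtain ⟨v, h6⟩ := hpred b p h5
    refine ⟨op v p, ⟨b, p, v, rfl, h6, rfl⟩, ?_⟩
    rintro y ⟨b', p', v', h7, h8, rfl⟩
    obtain ⟨h9, -⟩ := op_inj (M := M) h7
    obtain ⟨rfl, rfl⟩ := op_inj (M := M) h9
    rw [hAX.1 _ _ _ h6 h8])
  have h5 := small_union (M := M) X (up (op a z) (op a z))
  have hU : ∀ w, Mem w h5.elt ↔ Mem w X ∨ w = op a z := by
    intro w
    rw [h5.mem]
    change (Mem w X ∨ Mem w (up (op a z) (op a z))) ↔ _
    rw [mem_up (M := M), or_self]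
  have hA : Atm e d h5.elt := by
    refine ⟨fun x y y' h6 h7 => ?_, fun a' z' h6 => ?_⟩
    · rw [hU] at h6 h7
      rcases h6 with h6 | h6 <;> rcases h7 with h7 | h7
      · exact hAX.1 _ _ _ h6 h7
      · obtain ⟨rfl, -⟩ := op_inj (M := M) h7
        exact absurd ⟨_, h6⟩ haX
      · obtain ⟨rfl, -⟩ := op_inj (M := M) h6
        exact absurd ⟨_, h7⟩ haX
      · obtain ⟨-, rfl⟩ := op_inj (M := M) h6
        obtain ⟨-, rfl⟩ := op_inj (M := M) h7
        rfl
    · rw [hU] at h6
      rcases h6 with h6 | h6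
      · refine ⟨(hAX.2 _ _ h6).1, fun b p h7 => ?_, fun w => ?_⟩
        · obtain ⟨v, h8⟩ := (hAX.2 _ _ h6).2.1 b p h7
          exact ⟨v, (hU _).2 (Or.inl h8)⟩
        · rw [(hAX.2 _ _ h6).2.2]
          constructor
          · rintro ⟨b, p, v, h7, h8, rfl⟩
            exact ⟨b, p, v, h7, (hU _).2 (Or.inl h8), rfl⟩
          · rintro ⟨b, p, v, h7, h8, rfl⟩
            rcases (hU _).1 h8 with h8 | h8
            · exact ⟨b, p, v, h7, h8, rfl⟩
            · obtain ⟨rfl, -⟩ := op_inj (M := M) h8
              exact absurd ((hAX.2 _ _ h6).2.1 _ _ h7) haX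
      · obtain ⟨rfl, rfl⟩ := op_inj (M := M) h6
        refine ⟨had, fun b p h7 => ?_, fun w => ?_⟩
        · obtain ⟨v, h8⟩ := hpred b p h7
          exact ⟨v, (hU _).2 (Or.inl h8)⟩
        · rw [hz]
          constructor
          · rintro ⟨q, h7, b, p, v, rfl, h8, rfl⟩
            exact ⟨b, p, v, (h4.mem.1 h7).1, (hU _).2 (Or.inl h8), rfl⟩
          · rintro ⟨b, p, v, h7, h8, rfl⟩
            rcases (hU _).1 h8 with h8 | h8
            · exact ⟨_, h4.mem.2 ⟨h7, b, p, rfl⟩, b, p, v, rfl, h8, rfl⟩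
            · obtain ⟨rfl, -⟩ := op_inj (M := M) h8
              exact absurd h7 (hmin _ _ h3)
  exact haX ⟨z, (hX' _ _).2 ⟨_, hA, (hU _).2 (Or.inr rfl)⟩⟩

end

section

variable {M : Type u} [Helper672.Plain.LSet.Structure M] [hZ : Helper672.Plain.Zermelo M]
variable {P α : Type u} [ITy M P] [ITy M α]

/-- The names of the nodes of an internally well-founded graph. -/
theorem exists_names (hN : ZF M) {E : α → P → α → Prop} (hE : IG M E) (hw : WFI M E) :
    ∃ (t : M) (c : α → Helper672.Plain.El t), IntF M c ∧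
      (∀ x y, Mem x t → Mem y x → Mem y t) ∧
      ∀ a w, Mem w (c a).1 ↔ ∃ b p, E b p a ∧ w = op (c b).1 (code p) := by
  have hE' : Int M (fun q : (α × P) × α => E q.1.1 q.1.2 q.2) := hE
  have key : ∀ b p a, Mem (op (op b p) a) (gr hE') ↔
      ∃ (b' : α) (p' : P) (a' : α), code b' = b ∧ code p' = p ∧ code a' = a ∧ E b' p' a' := by
    intro b p a
    rw [mem_gr hE']
    constructor
    · rintro ⟨⟨⟨b', p'⟩, a'⟩, h1, h2⟩
      obtain ⟨h3, h4⟩ := op_inj (M := M) h2
      obtain ⟨h5, h6⟩ := op_inj (M := M) h3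
      exact ⟨b', p', a', h5, h6, h4, h1⟩
    · rintro ⟨b', p', a', rfl, rfl, rfl, h⟩
      exact ⟨((b', p'), a'), h, rfl⟩
  obtain ⟨X, hX, htot⟩ := exists_col (e := gr hE') (d := dom M α)
    (fun b p a h => by
      obtain ⟨b', -, -, rfl, -⟩ := (key _ _ _).1 h
      exact code_mem_dom (M := M) b')
    (fun s hs ⟨a, ha⟩ => by
      obtain ⟨a', rfl⟩ := (mem_dom (M := M)).1 (hs a ha)
      have hI : Int M (fun x : α => Mem (code x) s) :=
        Int.of_D (S := fun v => Mem (v 0) s) (D.memf (DF.var _) (DF.const _)) fun _ => Iff.rfl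
      obtain ⟨x, hx, hx'⟩ := hw (sep M fun x : α => Mem (code x) s) ⟨a', (mem_sep hI).2 ha⟩
      refine ⟨code x, (mem_sep hI).1 hx, fun b p hb h => ?_⟩
      obtain ⟨b', p', x', rfl, rfl, h1, h2⟩ := (key _ _ _).1 h
      have h3 := ITy.inj (M := M) h1
      subst h3
      exact hx' b' p' ((mem_sep hI).2 hb) h2) hN
  obtain ⟨t, ht1, ht2⟩ := H635.exists_trans (M := M) (fun _ => trivial) (replL_of_zf hN) X
  have hval : ∀ a z, Mem (op a z) X → Mem z t := by
    intro a z h
    have h1 : Mem (up a z) (op a z) := mem_up.2 (Or.inr rfl)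
    have h2 : Mem z (up a z) := mem_up.2 (Or.inr rfl)
    exact ht2 _ _ (ht2 _ _ (ht1 _ h) h1) h2
  have hex : ∀ a : α, ∃ z : Helper672.Plain.El t, Mem (op (code a) z.1) X := fun a => by
    obtain ⟨z, hz⟩ := htot _ (code_mem_dom (M := M) a)
    exact ⟨⟨z, hval _ _ hz⟩, hz⟩
  choose c hc using hex
  have hcI : IntF M c := IntF.of_D (S := fun v => Mem (op (v 0) (v 1)) X)
    (D.memf (DF.op (DF.var _) (DF.var _)) (DF.const _)) fun a z =>
      ⟨fun h => Subtype.ext (hX.1 _ _ _ (hc a) h), fun h => h ▸ hc a⟩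
  refine ⟨t, c, hcI, fun x y hx hy => ht2 _ _ hx hy, fun a w => ?_⟩
  rw [(hX.2 _ _ (hc a)).2.2]
  constructor
  · rintro ⟨b, p, v, h1, h2, rfl⟩
    obtain ⟨b', p', a', rfl, rfl, h3, h4⟩ := (key _ _ _).1 h1
    have h5 := ITy.inj (M := M) h3
    subst h5
    rw [hX.1 _ _ _ h2 (hc b')]
    exact ⟨b', p', h4, rfl⟩
  · rintro ⟨b, p, h1, rfl⟩
    exact ⟨code b, code p, (c b).1, (key _ _ _).2 ⟨b, p, a, rfl, rfl, rfl, h1⟩, hc b, rfl⟩

end

end Pool.Agent.H634
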