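import Pool.Agent.H634.Univ

/-!
# The conditions
-/

set_option maxHeartbeats 1000000
set_option linter.all false
set_option synthInstance.maxSize 2000

namespace Pool.Agent.H634

open FirstOrder FirstOrder.Language
open Pool.Agent.Helper672.ZFA
open Pool.Agent.Helper672.ZFA.H635 (IWO)
open Pool.Agent.H310
open Pool.Agent.Q212.ZA
open Pool.Agent.Q212.ZB (crd_mono)

universe u

noncomputable section

variable {M : Type u} [L.Structure M] [hM : IsModel M]
variable {K Λ Q : Type u} [ITy M K] [ITy M Λ] [ITy M Q]

/-- The value `v` at `k`. -/
def sm (a₀ : K) (k v : INat M) : Cd M K := ((INat.succ k, a₀), v)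

/-- The promise to be above the real of `ξ` from `n` on. -/
def pm (ξ : K) (n : INat M) : Cd M K := ((0, ξ), n)

theorem sm_inj {a₀ : K} {k v k' v' : INat M} (h : sm a₀ k v = sm a₀ k' v') : k = k' ∧ v = v' :=
  ⟨INat.succ_inj (congrArg (fun x : Cd M K => x.1.1) h), congrArg (fun x : Cd M K => x.2) h⟩

theorem pm_inj {ξ ξ' : K} {n n' : INat M} (h : pm ξ n = pm ξ' n') : ξ = ξ' ∧ n = n' :=
  ⟨congrArg (fun x : Cd M K => x.1.2) h, congrArg (fun x : Cd M K => x.2) h⟩

theorem sm_ne_pm {a₀ ξ : K} {k v n : INat M} : sm a₀ k v ≠ pm ξ n := fun h =>
  INat.succ_ne_zero k (congrArg (fun x : Cd M K => x.1.1) h)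

theorem IntF.sm {γ : Type u} [ITy M γ] (a₀ : K) {f g : γ → INat M} (hf : IntF M f)
    (hg : IntF M g) : IntF M (fun c => sm a₀ (f c) (g c)) := by
  unfold H634.sm
  (repeat' (first | with_reducible exact IntF.id | with_reducible exact IntF.fst' | with_reducible exact IntF.snd' | with_reducible exact IntF.const _ | with_reducible exact Int.const _ | assumption | with_reducible apply Int.and | with_reducible apply Int.or | with_reducible apply Int.not | with_reducible apply Int.imp | with_reducible apply Int.iff | with_reducible apply Int.ne | with_reducible apply Int.eq | with_reducible apply Int.mem | with_reducible apply Int.subset | with_reducible apply Int.ltN | with_reducible apply Int.leN | with_reducible apply Int.fin | with_reducible apply Int.unique | with_reducible apply Int.all | with_reducible apply Int.ex | with_reducible apply IntF.fst | with_reducible apply IntF.snd | with_reducible apply IntF.app | with_reducible apply IntF.ite | with_reducible apply IntF.sep | with_reducible apply IntF.lam | with_reducible apply IntF.insert | with_reducible apply IntF.singleton | with_reducible apply IntF.union |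 with_reducible apply IntF.inter | with_reducible apply IntF.sdiff | with_reducible apply IntF.isUnion | with_reducible apply IntF.iimage | with_reducible apply IntF.the | with_reducible apply IntF.irec | with_reducible_and_instances apply IntF.add | with_reducible_and_instances apply IntF.mul | with_reducible apply IntF.succ | with_reducible apply IntF.val | (with_reducible refine Int.comp ?_ ?_; assumption) | (with_reducible refine Int.comp₂ ?_ ?_ ?_; assumption) | (with_reducible refine Int.comp₃ ?_ ?_ ?_ ?_; assumption) | (with_reducible refine IntF.comp ?_ ?_; assumption) | (with_reducible refine IntF.comp₂ ?_ ?_ ?_; assumption) | (with_reducible refine IntF.comp₃ ?_ ?_ ?_ ?_; assumption) | (with_reducible refine Int.comp₄ ?_ ?_ ?_ ?_ ?_; assumption) | with_reducible apply IntF.pair))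

theorem IntF.pm {γ : Type u} [ITy M γ] {f : γ → K} {g : γ → INat M} (hf : IntF M f)
    (hg : IntF M g) : IntF M (fun c => pm (f c) (g c)) := by
  unfold H634.pm
  (repeat' (first | with_reducible exact IntF.id | with_reducible exact IntF.fst' | with_reducible exact IntF.snd' | with_reducible exact IntF.const _ | with_reducible exact Int.const _ | assumption | with_reducible apply Int.and | with_reducible apply Int.or | with_reducible apply Int.not | with_reducible apply Int.imp | with_reducible apply Int.iff | with_reducible apply Int.ne | with_reducible apply Int.eq | with_reducible apply Int.mem | with_reducible apply Int.subset | with_reducible apply Int.ltN | with_reducible apply Int.leN | with_reducible apply Int.fin | with_reducible apply Int.unique | with_reducible apply Int.all | with_reducible apply Int.ex | with_reducible apply IntF.fst | with_reducible apply IntF.snd | with_reducible apply IntF.app | with_reducible apply IntF.ite | with_reducible apply IntF.sep | with_reducible apply IntF.lam | with_reducible apply IntF.insert | with_reducible apply IntF.singleton | with_reducible apply IntF.union | with_reducible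 apply IntF.inter | with_reducible apply IntF.sdiff | with_reducible apply IntF.isUnion | with_reducible apply IntF.iimage | with_reducible apply IntF.the | with_reducible apply IntF.irec | with_reducible_and_instances apply IntF.add | with_reducible_and_instances apply IntF.mul | with_reducible apply IntF.succ | with_reducible apply IntF.val | (with_reducible refine Int.comp ?_ ?_; assumption) | (with_reducible refine Int.comp₂ ?_ ?_ ?_; assumption) | (with_reducible refine Int.comp₃ ?_ ?_ ?_ ?_; assumption) | (with_reducible refine IntF.comp ?_ ?_; assumption) | (with_reducible refine IntF.comp₂ ?_ ?_ ?_; assumption) | (with_reducible refine IntF.comp₃ ?_ ?_ ?_ ?_; assumption) | (with_reducible refine Int.comp₄ ?_ ?_ ?_ ?_ ?_; assumption) | with_reducible apply IntF.pair))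

/-- The translation of the labels. -/
def trs (s : K → Q) (a : IPow M (K × Cd M K)) : IPow M (Q × Cd M K) :=
  iimage (fun y => (s y.1, y.2)) a

theorem mem_trs {s : K → Q} (hs : IntF M s) {a : IPow M (K × Cd M K)} {x : Q × Cd M K} :
    x ∈ trs s a ↔ ∃ y, y ∈ a ∧ (s y.1, y.2) = x := by
  have h : IntF M (fun y : K × Cd M K => (s y.1, y.2)) := by (repeat' (first | with_reducible exact IntF.id | with_reducible exact IntF.fst' | with_reducible exact IntF.snd' | with_reducible exact IntF.const _ | with_reducible exact Int.const _ | assumption | with_reducible apply Int.and | with_reducible apply Int.or | with_reducible apply Int.not | with_reducible apply Int.imp | with_reducible apply Int.iff | with_reducible apply Int.ne | with_reducible apply Int.eq | with_reducible apply Int.mem | with_reducible apply Int.subset | with_reducible apply Int.ltN | with_reducible apply Int.leN | with_reducible apply Int.fin | with_reducible apply Int.unique | with_reducible apply Int.all | with_reducible apply Int.ex | with_reducible apply IntF.fst | with_reducible apply IntF.snd | with_reducible apply IntF.app | with_reducible apply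 IntF.ite | with_reducible apply IntF.sep | with_reducible apply IntF.lam | with_reducible apply IntF.insert | with_reducible apply IntF.singleton | with_reducible apply IntF.union | with_reducible apply IntF.inter | with_reducible apply IntF.sdiff | with_reducible apply IntF.isUnion | with_reducible apply IntF.iimage | with_reducible apply IntF.the | with_reducible apply IntF.irec | with_reducible_and_instances apply IntF.add | with_reducible_and_instances apply IntF.mul | with_reducible apply IntF.succ | with_reducible apply IntF.val | (with_reducible refine Int.comp ?_ ?_; assumption) | (with_reducible refine Int.comp₂ ?_ ?_ ?_; assumption) | (with_reducible refine Int.comp₃ ?_ ?_ ?_ ?_; assumption) | (with_reducible refine IntF.comp ?_ ?_; assumption) | (with_reducible refine IntF.comp₂ ?_ ?_ ?_; assumption) | (with_reducible refine IntF.comp₃ ?_ ?_ ?_ ?_; assumption) | (with_reducible refine Int.comp₄ ?_ ?_ ?_ ?_ ?_; assumption) | with_reducible apply IntF.pair))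
  exact mem_iimage h

theorem IntF.trs {γ : Type u} [ITy M γ] {s : γ → K → Q}
    (hs : IntF M (fun q : γ × K => s q.1 q.2))
    {a : γ → IPow M (K × Cd M K)} (ha : IntF M a) : IntF M (fun c => trs (s c) (a c)) := by
  unfold H634.trs
  have h : IntF M (fun q : γ × (K × Cd M K) => (s q.1 q.2.1, q.2.2)) := by
    have h1 : IntF M (fun q : γ × (K × Cd M K) => (q.1, q.2.1)) := by (repeat' (first | with_reducible exact IntF.id | with_reducible exact IntF.fst' | with_reducible exact IntF.snd' | with_reducible exact IntF.const _ | with_reducible exact Int.const _ | assumption | with_reducible apply Int.and | with_reducible apply Int.or | with_reducible apply Int.not | with_reducible apply Int.imp | with_reducible apply Int.iff | with_reducible apply Int.ne | with_reducible apply Int.eq | with_reducible apply Int.mem | with_reducible apply Int.subset | with_reducible apply Int.ltN | with_reducible apply Int.leN | with_reducible apply Int.fin | with_reducible apply Int.unique | with_reducible apply Int.all | with_reducible apply Int.ex | with_reducible apply IntF.fst | with_reducible apply IntF.snd | with_reducible apply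 IntF.app | with_reducible apply IntF.ite | with_reducible apply IntF.sep | with_reducible apply IntF.lam | with_reducible apply IntF.insert | with_reducible apply IntF.singleton | with_reducible apply IntF.union | with_reducible apply IntF.inter | with_reducible apply IntF.sdiff | with_reducible apply IntF.isUnion | with_reducible apply IntF.iimage | with_reducible apply IntF.the | with_reducible apply IntF.irec | with_reducible_and_instances apply IntF.add | with_reducible_and_instances apply IntF.mul | with_reducible apply IntF.succ | with_reducible apply IntF.val | (with_reducible refine Int.comp ?_ ?_; assumption) | (with_reducible refine Int.comp₂ ?_ ?_ ?_; assumption) | (with_reducible refine Int.comp₃ ?_ ?_ ?_ ?_; assumption) | (with_reducible refine IntF.comp ?_ ?_; assumption) | (with_reducible refine IntF.comp₂ ?_ ?_ ?_; assumption) | (with_reducible refine IntF.comp₃ ?_ ?_ ?_ ?_; assumption) | (with_reducible refine Int.comp₄ ?_ ?_ ?_ ?_ ?_; assumption) | with_reducible apply IntF.pair))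
    have h2 : IntF M (fun q : γ × (K × Cd M K) => s q.1 q.2.1) := IntF.comp hs h1
    (repeat' (first | with_reducible exact IntF.id | with_reducible exact IntF.fst' | with_reducible exact IntF.snd' | with_reducible exact IntF.const _ | with_reducible exact Int.const _ | assumption | with_reducible apply Int.and | with_reducible apply Int.or | with_reducible apply Int.not | with_reducible apply Int.imp | with_reducible apply Int.iff | with_reducible apply Int.ne | with_reducible apply Int.eq | with_reducible apply Int.mem | with_reducible apply Int.subset | with_reducible apply Int.ltN | with_reducible apply Int.leN | with_reducible apply Int.fin | with_reducible apply Int.unique | with_reducible apply Int.all | with_reducible apply Int.ex | with_reducible apply IntF.fst | with_reducible apply IntF.snd | with_reducible apply IntF.app | with_reducible apply IntF.ite | with_reducible apply IntF.sep | with_reducible apply IntF.lam | with_reducible apply IntF.insert | with_reducible apply IntF.singleton | with_reducible apply IntF.union | with_reducible apply IntF.inter | with_reducible apply IntF.sdiff | with_reducible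 apply IntF.isUnion | with_reducible apply IntF.iimage | with_reducible apply IntF.the | with_reducible apply IntF.irec | with_reducible_and_instances apply IntF.add | with_reducible_and_instances apply IntF.mul | with_reducible apply IntF.succ | with_reducible apply IntF.val | (with_reducible refine Int.comp ?_ ?_; assumption) | (with_reducible refine Int.comp₂ ?_ ?_ ?_; assumption) | (with_reducible refine Int.comp₃ ?_ ?_ ?_ ?_; assumption) | (with_reducible refine IntF.comp ?_ ?_; assumption) | (with_reducible refine IntF.comp₂ ?_ ?_ ?_; assumption) | (with_reducible refine IntF.comp₃ ?_ ?_ ?_ ?_; assumption) | (with_reducible refine Int.comp₄ ?_ ?_ ?_ ?_ ?_; assumption) | with_reducible apply IntF.pair))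
  exact IntF.iimage (f := fun c (y : K × Cd M K) => (s c y.1, y.2)) h ha

variable (U : Univ M K Λ Q) (a₀ : K)

theorem IntF.trsU {γ : Type u} [ITy M γ] {f : γ → Q} (hf : IntF M f)
    {a : γ → IPow M (K × Cd M K)} (ha : IntF M a) :
    IntF M (fun c => H634.trs (U.ch (f c)) (a c)) := by
  have hch := U.int_ch
  refine IntF.trs (s := fun c => U.ch (f c)) ?_ ha
  (repeat' (first | with_reducible exact IntF.id | with_reducible exact IntF.fst' | with_reducible exact IntF.snd' | with_reducible exact IntF.const _ | with_reducible exact Int.const _ | assumption | with_reducible apply Int.and | with_reducible apply Int.or | with_reducible apply Int.not | with_reducible apply Int.imp | with_reducible apply Int.iff | with_reducible apply Int.ne | with_reducible apply Int.eq | with_reducible apply Int.mem | with_reducible apply Int.subset | with_reducible apply Int.ltN | with_reducible apply Int.leN | with_reducible apply Int.fin | with_reducible apply Int.unique | with_reducible apply Int.all | with_reducible apply Int.ex | with_reducible apply IntF.fst | with_reducible apply IntF.snd | with_reducible apply IntF.app | with_reducible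 apply IntF.ite | with_reducible apply IntF.sep | with_reducible apply IntF.lam | with_reducible apply IntF.insert | with_reducible apply IntF.singleton | with_reducible apply IntF.union | with_reducible apply IntF.inter | with_reducible apply IntF.sdiff | with_reducible apply IntF.isUnion | with_reducible apply IntF.iimage | with_reducible apply IntF.the | with_reducible apply IntF.irec | with_reducible_and_instances apply IntF.add | with_reducible_and_instances apply IntF.mul | with_reducible apply IntF.succ | with_reducible apply IntF.val | (with_reducible refine Int.comp ?_ ?_; assumption) | (with_reducible refine Int.comp₂ ?_ ?_ ?_; assumption) | (with_reducible refine Int.comp₃ ?_ ?_ ?_ ?_; assumption) | (with_reducible refine IntF.comp ?_ ?_; assumption) | (with_reducible refine IntF.comp₂ ?_ ?_ ?_; assumption) | (with_reducible refine IntF.comp₃ ?_ ?_ ?_ ?_; assumption) | (with_reducible refine Int.comp₄ ?_ ?_ ?_ ?_ ?_; assumption) | with_reducible apply IntF.pair))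

/-- The conditions. -/
structure Cond (p : IPow M (Q × Cd M K)) : Prop where
  fin : IFin p
  func : ∀ q k v v', (q, sm a₀ k v) ∈ p → (q, sm a₀ k v') ∈ p → v = v'
  dom : ∀ q ξ n k v, (q, pm ξ n) ∈ p → (q, sm a₀ k v) ∈ p → n ≤ k →
    ∃ m a, (((ξ, k), m), a) ∈ U.lb q ∧ m ≤ v ∧ trs (U.ch q) a ⊆ p

theorem int_cond : Int M (fun p : IPow M (Q × Cd M K) => Cond U a₀ p) := by
  have hlb := U.int_lb
  have hch := U.int_ch
  have h0 : Int M (fun p : IPow M (Q × Cd M K) => (IFin p ∧
      ∀ q k v v', (q, sm a₀ k v) ∈ p → (q, sm a₀ k v') ∈ p → v = v') ∧
    ∀ q ξ n k v, (q, pm ξ n) ∈ p → (q, sm a₀ k v) ∈ p → n ≤ k →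
      ∃ m a, (((ξ, k), m), a) ∈ U.lb q ∧ m ≤ v ∧ trs (U.ch q) a ⊆ p) := by
    (repeat' (first | with_reducible apply IntF.sm _ | with_reducible apply IntF.pm | with_reducible apply IntF.trsU _ | with_reducible exact IntF.id | with_reducible exact IntF.fst' | with_reducible exact IntF.snd' | with_reducible exact IntF.const _ | with_reducible exact Int.const _ | assumption | with_reducible apply Int.and | with_reducible apply Int.or | with_reducible apply Int.not | with_reducible apply Int.imp | with_reducible apply Int.iff | with_reducible apply Int.ne | with_reducible apply Int.eq | with_reducible apply Int.mem | with_reducible apply Int.subset | with_reducible apply Int.ltN | with_reducible apply Int.leN | with_reducible apply Int.fin | with_reducible apply Int.unique | with_reducible apply Int.all | with_reducible apply Int.ex | with_reducible apply IntF.fst | with_reducible apply IntF.snd | with_reducible apply IntF.app | with_reducible apply IntF.ite | with_reducible apply IntF.sep | with_reducible apply IntF.lam | with_reducible apply IntF.insert | with_reducible apply IntF.singleton | with_reducible apply IntF.union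 | with_reducible apply IntF.inter | with_reducible apply IntF.sdiff | with_reducible apply IntF.isUnion | with_reducible apply IntF.iimage | with_reducible apply IntF.the | with_reducible apply IntF.irec | with_reducible_and_instances apply IntF.add | with_reducible_and_instances apply IntF.mul | with_reducible apply IntF.succ | with_reducible apply IntF.val | (with_reducible refine Int.comp ?_ ?_; assumption) | (with_reducible refine Int.comp₂ ?_ ?_ ?_; assumption) | (with_reducible refine Int.comp₃ ?_ ?_ ?_ ?_; assumption) | (with_reducible refine IntF.comp ?_ ?_; assumption) | (with_reducible refine IntF.comp₂ ?_ ?_ ?_; assumption) | (with_reducible refine IntF.comp₃ ?_ ?_ ?_ ?_; assumption) | (with_reducible refine Int.comp₄ ?_ ?_ ?_ ?_ ?_; assumption) | with_reducible apply IntF.pair))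
  refine h0.congr fun p => ⟨fun h => ⟨h.1.1, h.1.2, h.2⟩, fun h => ⟨⟨h.fin, h.func⟩, h.dom⟩⟩

/-- The restriction of a condition. -/
def rs (A : IPow M Q) (p : IPow M (Q × Cd M K)) : IPow M (Q × Cd M K) :=
  sep M fun x => x ∈ p ∧ x.1 ∈ A

theorem mem_rs {A : IPow M Q} {p : IPow M (Q × Cd M K)} {x : Q × Cd M K} :
    x ∈ rs A p ↔ x ∈ p ∧ x.1 ∈ A := by
  have h : Int M (fun x : Q × Cd M K => x ∈ p ∧ x.1 ∈ A) := by (repeat' (first | with_reducible exact IntF.id | with_reducible exact IntF.fst' | with_reducible exact IntF.snd' | with_reducible exact IntF.const _ | with_reducible exact Int.const _ | assumption | with_reducible apply Int.and | with_reducible apply Int.or | with_reducible apply Int.not | with_reducible apply Int.imp | with_reducible apply Int.iff | with_reducible apply Int.ne | with_reducible apply Int.eq | with_reducible apply Int.mem | with_reducible apply Int.subset | with_reducible apply Int.ltN | with_reducible apply Int.leN | with_reducible apply Int.fin | with_reducible apply Int.unique | with_reducible apply Int.all | with_reducible apply Int.ex | with_reducible apply IntF.fst | with_reducible apply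 IntF.snd | with_reducible apply IntF.app | with_reducible apply IntF.ite | with_reducible apply IntF.sep | with_reducible apply IntF.lam | with_reducible apply IntF.insert | with_reducible apply IntF.singleton | with_reducible apply IntF.union | with_reducible apply IntF.inter | with_reducible apply IntF.sdiff | with_reducible apply IntF.isUnion | with_reducible apply IntF.iimage | with_reducible apply IntF.the | with_reducible apply IntF.irec | with_reducible_and_instances apply IntF.add | with_reducible_and_instances apply IntF.mul | with_reducible apply IntF.succ | with_reducible apply IntF.val | (with_reducible refine Int.comp ?_ ?_; assumption) | (with_reducible refine Int.comp₂ ?_ ?_ ?_; assumption) | (with_reducible refine Int.comp₃ ?_ ?_ ?_ ?_; assumption) | (with_reducible refine IntF.comp ?_ ?_; assumption) | (with_reducible refine IntF.comp₂ ?_ ?_ ?_; assumption) | (with_reducible refine IntF.comp₃ ?_ ?_ ?_ ?_; assumption) | (with_reducible refine Int.comp₄ ?_ ?_ ?_ ?_ ?_; assumption) | with_reducible apply IntF.pair))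
  exact mem_sep h

theorem int_ch_q (q : Q) : IntF M (U.ch q) := IntF.slice U.int_ch q

variable {U a₀}

theorem Cond.rs {p : IPow M (Q × Cd M K)} (hp : Cond U a₀ p) {A : IPow M Q}
    (hA : ∀ q, q ∈ A → ∀ η, U.ch q η ∈ A) : Cond U a₀ (rs A p) := by
  refine ⟨hp.fin.subset (subset_def.2 fun x hx => (mem_rs.1 hx).1), fun q k v v' h1 h2 =>
    hp.func q k v v' (mem_rs.1 h1).1 (mem_rs.1 h2).1, fun q ξ n k v h1 h2 h3 => ?_⟩
  obtain ⟨m, a, h4, h5, h6⟩ := hp.dom q ξ n k v (mem_rs.1 h1).1 (mem_rs.1 h2).1 h3
  refine ⟨m, a, h4, h5, subset_def.2 fun x hx => mem_rs.2 ⟨subset_def.1 h6 x hx, ?_⟩⟩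
  obtain ⟨y, hy, rfl⟩ := (mem_trs (int_ch_q U q)).1 hx
  exact hA q (mem_rs.1 h1).2 _

/-- The amalgamation of two conditions. -/
theorem Cond.amalg {r t : IPow M (Q × Cd M K)} (hr : Cond U a₀ r) (ht : Cond U a₀ t)
    (h : ∀ x y, x ∈ t → y ∈ r → y.1 = x.1 → x ∈ r) : Cond U a₀ (r ∪ t) := by
  have key : ∀ q c c', (q, c) ∈ r → (q, c') ∈ r ∪ t → (q, c') ∈ r := by
    intro q c c' h1 h2
    rcases mem_union.1 h2 with h2 | h2
    · exact h2
    · exact h _ _ h2 h1 rfl
  refine ⟨hr.fin.union ht.fin, fun q k v v' h1 h2 => ?_, fun q ξ n k v h1 h2 h3 => ?_⟩
  · rcases mem_union.1 h1 with h3 | h3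
    · exact hr.func q k v v' h3 (key _ _ _ h3 h2)
    · rcases mem_union.1 h2 with h4 | h4
      · exact hr.func q k v v' (key _ _ _ h4 h1) h4
      · exact ht.func q k v v' h3 h4
  · have h4 : (∃ m a, (((ξ, k), m), a) ∈ U.lb q ∧ m ≤ v ∧ trs (U.ch q) a ⊆ r) ∨
        ∃ m a, (((ξ, k), m), a) ∈ U.lb q ∧ m ≤ v ∧ trs (U.ch q) a ⊆ t := by
      rcases mem_union.1 h1 with h4 | h4
      · exact Or.inl (hr.dom q ξ n k v h4 (key _ _ _ h4 h2) h3)
      · rcases mem_union.1 h2 with h5 | h5
        · exact Or.inl (hr.dom q ξ n k v (key _ _ _ h5 h1) h5 h3)
        · exact Or.inr (ht.dom q ξ n k v h4 h5 h3)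
    rcases h4 with ⟨m, a, h5, h6, h7⟩ | ⟨m, a, h5, h6, h7⟩
    · exact ⟨m, a, h5, h6, subset_def.2 fun x hx => mem_union.2 (Or.inl (subset_def.1 h7 x hx))⟩
    · exact ⟨m, a, h5, h6, subset_def.2 fun x hx => mem_union.2 (Or.inr (subset_def.1 h7 x hx))⟩

/-- The amalgamation of two conditions with the same values at the common coordinates. -/
theorem Cond.amalg' {r t : IPow M (Q × Cd M K)} (hr : Cond U a₀ r) (ht : Cond U a₀ t)
    (h : ∀ q c c', (q, c) ∈ r → (q, c') ∈ t → ∀ k v, (q, sm a₀ k v) ∈ r ↔ (q, sm a₀ k v) ∈ t) :
    Cond U a₀ (r ∪ t) := by
  refine ⟨hr.fin.union ht.fin, fun q k v v' h1 h2 => ?_, fun q ξ n k v h1 h2 h3 => ?_⟩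
  · rcases mem_union.1 h1 with h3 | h3 <;> rcases mem_union.1 h2 with h4 | h4
    · exact hr.func q k v v' h3 h4
    · exact hr.func q k v v' h3 ((h q _ _ h3 h4 k v').2 h4)
    · exact hr.func q k v v' ((h q _ _ h4 h3 k v).2 h3) h4
    · exact ht.func q k v v' h3 h4
  · have h4 : (∃ m a, (((ξ, k), m), a) ∈ U.lb q ∧ m ≤ v ∧ trs (U.ch q) a ⊆ r) ∨
        ∃ m a, (((ξ, k), m), a) ∈ U.lb q ∧ m ≤ v ∧ trs (U.ch q) a ⊆ t := by
      rcases mem_union.1 h1 with h4 | h4 <;> rcases mem_union.1 h2 with h5 | h5
      · exact Or.inl (hr.dom q ξ n k v h4 h5 h3)
      · exact Or.inl (hr.dom q ξ n k v h4 ((h q _ _ h4 h5 k v).2 h5) h3)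
      · exact Or.inr (ht.dom q ξ n k v h4 ((h q _ _ h5 h4 k v).1 h5) h3)
      · exact Or.inr (ht.dom q ξ n k v h4 h5 h3)
    rcases h4 with ⟨m, a, h5, h6, h7⟩ | ⟨m, a, h5, h6, h7⟩
    · exact ⟨m, a, h5, h6, subset_def.2 fun x hx => mem_union.2 (Or.inl (subset_def.1 h7 x hx))⟩
    · exact ⟨m, a, h5, h6, subset_def.2 fun x hx => mem_union.2 (Or.inr (subset_def.1 h7 x hx))⟩

/-- Adding a value. -/
theorem Cond.value {p : IPow M (Q × Cd M K)} (hp : Cond U a₀ p) {q : Q} {k v : INat M}
    (h1 : ∀ w, ¬ (q, sm a₀ k w) ∈ p)
    (h2 : ∀ ξ n, (q, pm ξ n) ∈ p → n ≤ k →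
      ∃ m a, (((ξ, k), m), a) ∈ U.lb q ∧ m ≤ v ∧ trs (U.ch q) a ⊆ p) :
    Cond U a₀ (insert (q, sm a₀ k v) p) := by
  have key : ∀ {s : IPow M (Q × Cd M K)}, s ⊆ p → s ⊆ insert (q, sm a₀ k v) p := fun h =>
    subset_def.2 fun x hx => mem_insert.2 (Or.inr (subset_def.1 h x hx))
  refine ⟨hp.fin.insert _, fun q' k' v' v'' h3 h4 => ?_, fun q' ξ n k' v' h3 h4 h5 => ?_⟩
  · rcases mem_insert.1 h3 with e3 | e3 <;> rcases mem_insert.1 h4 with e4 | e4
    · rw [(sm_inj (congrArg Prod.snd e3)).2, (sm_inj (congrArg Prod.snd e4)).2]
    · have h5 : q' = q := congrArg Prod.fst e3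
      have h6 := sm_inj (congrArg Prod.snd e3)
      rw [h5, h6.1] at e4
      exact absurd e4 (h1 _)
    · have h5 : q' = q := congrArg Prod.fst e4
      have h6 := sm_inj (congrArg Prod.snd e4)
      rw [h5, h6.1] at e3
      exact absurd e3 (h1 _)
    · exact hp.func q' k' v' v'' e3 e4
  · rcases mem_insert.1 h3 with e3 | e3
    · exact absurd (congrArg Prod.snd e3).symm sm_ne_pm
    rcases mem_insert.1 h4 with e4 | e4
    · have h6 : q' = q := congrArg Prod.fst e4
      have h7 := sm_inj (congrArg Prod.snd e4)
      rw [h6] at e3
      rw [h7.1] at h5
      obtain ⟨m, a, h8, h9, h10⟩ := h2 ξ n e3 h5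
      rw [h6, h7.1, h7.2]
      exact ⟨m, a, h8, h9, key h10⟩
    · obtain ⟨m, a, h7, h8, h9⟩ := hp.dom q' ξ n k' v' e3 e4 h5
      exact ⟨m, a, h7, h8, key h9⟩

/-- Adding a promise. -/
theorem Cond.promise {p : IPow M (Q × Cd M K)} (hp : Cond U a₀ p) {q : Q} {ξ : K} {n : INat M}
    (h1 : ∀ k v, (q, sm a₀ k v) ∈ p → k < n) : Cond U a₀ (insert (q, pm ξ n) p) := by
  have key : ∀ {s : IPow M (Q × Cd M K)}, s ⊆ p → s ⊆ insert (q, pm ξ n) p := fun h =>
    subset_def.2 fun x hx => mem_insert.2 (Or.inr (subset_def.1 h x hx))
  have key2 : ∀ q' k v, (q', sm a₀ k v) ∈ insert (q, pm ξ n) p → (q', sm a₀ k v) ∈ p := by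
    intro q' k v h
    rcases mem_insert.1 h with h | h
    · exact absurd (congrArg Prod.snd h) sm_ne_pm
    · exact h
  refine ⟨hp.fin.insert _, fun q' k' v' v'' h3 h4 => hp.func q' k' v' v'' (key2 _ _ _ h3)
    (key2 _ _ _ h4), fun q' ξ' n' k' v' h3 h4 h5 => ?_⟩
  have h4' := key2 _ _ _ h4
  rcases mem_insert.1 h3 with e3 | e3
  · have h6 : q' = q := congrArg Prod.fst e3
    have h7 := pm_inj (congrArg Prod.snd e3)
    rw [h6] at h4'
    rw [h7.2] at h5
    exact absurd (h1 _ _ h4') (not_lt.2 h5)
  · obtain ⟨m, a, h7, h8, h9⟩ := hp.dom q' ξ' n' k' v' e3 h4' h5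
    exact ⟨m, a, h7, h8, key h9⟩

/-- The values of a finite set are below a number. -/
theorem exists_stem_bound {p : IPow M (Q × Cd M K)} (hp : IFin p) :
    ∃ N : INat M, ∀ q k v, (q, sm a₀ k v) ∈ p → k < N ∧ v < N := by
  have h1 : FinP M (fun x : Q × Cd M K => x ∈ p) := ⟨p, hp, fun _ h => h⟩
  obtain ⟨N, hN⟩ := h1.bound' (v := fun x => x.2.1.1) (by (repeat' (first | with_reducible exact IntF.id | with_reducible exact IntF.fst' | with_reducible exact IntF.snd' | with_reducible exact IntF.const _ | with_reducible exact Int.const _ | assumption | with_reducible apply Int.and | with_reducible apply Int.or | with_reducible apply Int.not | with_reducible apply Int.imp | with_reducible apply Int.iff | with_reducible apply Int.ne | with_reducible apply Int.eq | with_reducible apply Int.mem | with_reducible apply Int.subset | with_reducible apply Int.ltN | with_reducible apply Int.leN | with_reducible apply Int.fin | with_reducible apply Int.unique | with_reducible apply Int.all | with_reducible apply Int.ex | with_reducible apply IntF.fst | with_reducible apply IntF.snd | with_reducible apply IntF.app | with_reducible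 apply IntF.ite | with_reducible apply IntF.sep | with_reducible apply IntF.lam | with_reducible apply IntF.insert | with_reducible apply IntF.singleton | with_reducible apply IntF.union | with_reducible apply IntF.inter | with_reducible apply IntF.sdiff | with_reducible apply IntF.isUnion | with_reducible apply IntF.iimage | with_reducible apply IntF.the | with_reducible apply IntF.irec | with_reducible_and_instances apply IntF.add | with_reducible_and_instances apply IntF.mul | with_reducible apply IntF.succ | with_reducible apply IntF.val | (with_reducible refine Int.comp ?_ ?_; assumption) | (with_reducible refine Int.comp₂ ?_ ?_ ?_; assumption) | (with_reducible refine Int.comp₃ ?_ ?_ ?_ ?_; assumption) | (with_reducible refine IntF.comp ?_ ?_; assumption) | (with_reducible refine IntF.comp₂ ?_ ?_ ?_; assumption) | (with_reducible refine IntF.comp₃ ?_ ?_ ?_ ?_; assumption) | (with_reducible refine Int.comp₄ ?_ ?_ ?_ ?_ ?_; assumption) | with_reducible apply IntF.pair)))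
  obtain ⟨N', hN'⟩ := h1.bound' (v := fun x => x.2.2) (by (repeat' (first | with_reducible exact IntF.id | with_reducible exact IntF.fst' | with_reducible exact IntF.snd' | with_reducible exact IntF.const _ | with_reducible exact Int.const _ | assumption | with_reducible apply Int.and | with_reducible apply Int.or | with_reducible apply Int.not | with_reducible apply Int.imp | with_reducible apply Int.iff | with_reducible apply Int.ne | with_reducible apply Int.eq | with_reducible apply Int.mem | with_reducible apply Int.subset | with_reducible apply Int.ltN | with_reducible apply Int.leN | with_reducible apply Int.fin | with_reducible apply Int.unique | with_reducible apply Int.all | with_reducible apply Int.ex | with_reducible apply IntF.fst | with_reducible apply IntF.snd | with_reducible apply IntF.app | with_reducible apply IntF.ite | with_reducible apply IntF.sep | with_reducible apply IntF.lam | with_reducible apply IntF.insert | with_reducible apply IntF.singleton | with_reducible apply IntF.union | with_reducible apply IntF.inter | with_reducible apply IntF.sdiff | with_reducible apply IntF.isUnion | with_reducible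 apply IntF.iimage | with_reducible apply IntF.the | with_reducible apply IntF.irec | with_reducible_and_instances apply IntF.add | with_reducible_and_instances apply IntF.mul | with_reducible apply IntF.succ | with_reducible apply IntF.val | (with_reducible refine Int.comp ?_ ?_; assumption) | (with_reducible refine Int.comp₂ ?_ ?_ ?_; assumption) | (with_reducible refine Int.comp₃ ?_ ?_ ?_ ?_; assumption) | (with_reducible refine IntF.comp ?_ ?_; assumption) | (with_reducible refine IntF.comp₂ ?_ ?_ ?_; assumption) | (with_reducible refine IntF.comp₃ ?_ ?_ ?_ ?_; assumption) | (with_reducible refine Int.comp₄ ?_ ?_ ?_ ?_ ?_; assumption) | with_reducible apply IntF.pair)))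
  refine ⟨max N N'.succ, fun q k v h => ⟨?_, ?_⟩⟩
  · exact ((INat.lt_succ_self k).trans_le (hN _ h)).trans_le (le_max_left _ _)
  · exact (INat.lt_succ_iff.2 (hN' _ h)).trans_le (le_max_right _ _)

theorem cond_empty : Cond U a₀ (∅ : IPow M (Q × Cd M K)) :=
  ⟨IFin.empty, fun q k v v' h => by simp at h, fun q ξ n k v h => by simp at h⟩

end

end Pool.Agent.H634
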