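import Pool.Graph.R_seed8.H310R3.Cards
import Pool.Graph.R_seed8.H525R3.Lang

/-!
# Ordinals, cardinals, cofinality, dominating and unbounded families in a model of set theory

The language `LSet` of set theory has one binary relation symbol. In a structure `N` for it,
`Mem x y` says that `x` is an element of `y` in the sense of `N`. From the imported files: the
Kuratowski pairs `IsOrdPair`, the natural numbers `IsNat` and `IsOmega`, `App f x y` (the pair of
`x` and `y` is an element of `f`), functions `IsFun f a b`, injective functions `IsInj f a b` and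
bijections `IsBij f a b`.
-/

namespace Pool.Agent.H634

open FirstOrder FirstOrder.Language
open Pool.Agent.Helper672.Plain (LSet Mem IsOrdPair)
open Pool.Agent.H310Cards

universe u

variable {N : Type u} [LSet.Structure N]

/-- The set `x` is transitive. -/
def Transitive (x : N) : Prop := ∀ y z, Mem y x → Mem z y → Mem z x

/-- The set `x` is an ordinal: a transitive set of transitive sets. -/
def IsOrdinal (x : N) : Prop := Transitive x ∧ ∀ y, Mem y x → Transitive y

/-- The set `κ` is a cardinal: an ordinal that is not in bijection with any of its elements. -/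
def IsCardinal (κ : N) : Prop := IsOrdinal κ ∧ ∀ a, Mem a κ → ¬ ∃ f, IsBij f κ a

/-- The set `κ` is an infinite cardinal. -/
def IsInfCardinal (κ : N) : Prop := IsCardinal κ ∧ ¬ IsNat κ

/-- Equality or membership: the relation `≤` of ordinals. -/
def Leq (a b : N) : Prop := a = b ∨ Mem a b

/-- The ordinal `κ` has cofinality at most `ω`: there is a function from `ω` to `κ` whose values
are cofinal in `κ`. -/
def HasCofOmega (κ : N) : Prop :=
  ∃ w f, IsOmega w ∧ IsFun f w κ ∧ ∀ a, Mem a κ → ∃ n b, App f n b ∧ Leq a b

/-- For functions `f` and `g` from `w` to `w`, where `w` is the set of the natural numbers: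
`f ≤* g`, that is, there is a natural number `m` such that `f(n) ≤ g(n)` for all `n ≥ m`. -/
def LeStar (w f g : N) : Prop :=
  ∃ m, Mem m w ∧ ∀ n i j, Leq m n → App f n i → App g n j → Leq i j

/-- `D` is a dominating set of functions from `w` to `w`. -/
def IsDominating (w D : N) : Prop :=
  (∀ g, Mem g D → IsFun g w w) ∧ ∀ f, IsFun f w w → ∃ g, Mem g D ∧ LeStar w f g

/-- The set `D` is well-orderable: there is an injective function from `D` to an ordinal. -/
def IsWellOrderable (D : N) : Prop := ∃ α f, IsOrdinal α ∧ IsInj f D α

/-- `g` is a family of functions from `w` to `w` that is indexed by `a`: a function from `a` to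
the set of all functions from `w` to `w`. -/
def IsFamily (w g a : N) : Prop := ∃ R, (∀ f, Mem f R ↔ IsFun f w w) ∧ IsFun g a R

/-- `g` is a dominating family of functions from `w` to `w` that is indexed by `a`. -/
def IsDomFamily (w g a : N) : Prop :=
  IsFamily w g a ∧ ∀ f, IsFun f w w → ∃ x y, App g x y ∧ LeStar w f y

/-- `g` is an unbounded family of functions from `w` to `w` that is indexed by `a`. -/
def IsUnbFamily (w g a : N) : Prop :=
  IsFamily w g a ∧ ¬ ∃ h, IsFun h w w ∧ ∀ x y, App g x y → LeStar w y h

/-- `κ` is the dominating number: the least cardinal `κ` such that there is a dominating family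
that is indexed by `κ`. -/
def IsDominatingNumber (κ : N) : Prop :=
  IsCardinal κ ∧ (∃ w g, IsOmega w ∧ IsDomFamily w g κ) ∧
    ∀ a, Mem a κ → ¬ ∃ w g, IsOmega w ∧ IsDomFamily w g a

/-- `κ` is the bounding number: the least cardinal `κ` such that there is an unbounded family
that is indexed by `κ`. -/
def IsBoundingNumber (κ : N) : Prop :=
  IsCardinal κ ∧ (∃ w g, IsOmega w ∧ IsUnbFamily w g κ) ∧
    ∀ a, Mem a κ → ¬ ∃ w g, IsOmega w ∧ IsUnbFamily w g a

end Pool.Agent.H634
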