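import Pool.Agent.H634.Defs2

/-!
# Generic extensions by notions of forcing with a largest element
-/

namespace Pool.Agent.H634

open FirstOrder FirstOrder.Language
open Pool.Agent.Helper672.Plain (LSet Mem IsOrdPair)
open Pool.Agent.H310Cards
open Pool.Agent.H635Amen (ZF)
open Pool.Agent.H525Emb (PMem IsTrans IsGenericFilter IsValue IsForcing)

universe u

/-- The structure `N` is a set-generic extension of its substructure `W`: there are a notion of
forcing `(P, le)` in `W` with a largest element `one` and a `W`-generic filter `G` on it in `N` such
that every element of `N` is the value by `G` of a name in `W`. -/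
def IsForcingExtensionTop {N : Type u} [LSet.Structure N] (W : LSet.Substructure N) : Prop :=
  ∃ P le one G : N, IsForcing W P le ∧ Mem one P ∧ (∀ p, Mem p P → PMem p one le) ∧
    IsGenericFilter W P le G ∧ ∀ x : N, ∃ τ, τ ∈ W ∧ IsValue G τ x

/-- The model `N` of ZF is a generic extension of `V`: `V` is isomorphic to a transitive
substructure `W` of `N` such that `N` is a set-generic extension of `W`. -/
def IsGenericExtension (V N : Type u) [LSet.Structure V] [LSet.Structure N] : Prop :=
  ZF N ∧ ∃ W : LSet.Substructure N, Nonempty (V ≃[LSet] W) ∧ IsTrans W ∧ IsForcingExtensionTop W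

end Pool.Agent.H634
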