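import Pool.Agent.H634.Nms

/-!
# The dominating reals: dense sets
-/

set_option maxHeartbeats 2000000
set_option linter.all false
set_option synthInstance.maxSize 2000

namespace Pool.Agent.H634

open FirstOrder FirstOrder.Language
open Pool.Agent.Helper672.ZFA
open Pool.Agent.Helper672.ZFA.H635 (IWO)
open Pool.Agent.H310
open Pool.Agent.Q212.ZA
open Pool.Agent.Q212.ZB (crd_mono)

universe u

noncomputable section

variable {M : Type u} [L.Structure M] [hM : IsModel M]
variable {K Λ Q : Type u} [ITy M K] [ITy M Λ] [ITy M Q]

variable (U : Univ M K Λ Q) (a₀ : K) (p₀ : IPow M (Q × Cd M K))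
  (Dec : IPow M (Q × Cd M K) → K × INat M → INat M → Prop)

/-- The labels that come from a name. -/
def LS (s : K → Q) : IPow M (Lab M K) := sep M fun x =>
  IFin x.2 ∧ (∃ n W, IFin W ∧ Mnl (DD U a₀ p₀ Dec x.1.1 n W) (trs s x.2)) ∧
    ∃ p, Cond U a₀ p ∧ p₀ ⊆ p ∧ trs s x.2 ⊆ p ∧ Dec p x.1.1 x.1.2

variable (M K) in
/-- The trivial labels. -/
def N0 : IPow M (Lab M K) := sep M fun x => x.1.2 = 0 ∧ x.2 = ∅

theorem mem_N0 {x : Lab M K} : x ∈ N0 M K ↔ x.1.2 = 0 ∧ x.2 = ∅ := by
  have h : Int M (fun x : Lab M K => x.1.2 = 0 ∧ x.2 = ∅) := by (repeat' (first | with_reducible exact IntF.id | with_reducible exact IntF.fst' | with_reducible exact IntF.snd' | with_reducible exact IntF.const _ | with_reducible exact Int.const _ | assumption | with_reducible apply Int.and | with_reducible apply Int.or | with_reducible apply Int.not | with_reducible apply Int.imp | with_reducible apply Int.iff | with_reducible apply Int.ne | with_reducible apply Int.eq | with_reducible apply Int.mem | with_reducible apply Int.subset | with_reducible apply Int.ltN | with_reducible apply Int.leN | with_reducible apply Int.fin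 | with_reducible apply Int.unique | with_reducible apply Int.all | with_reducible apply Int.ex | with_reducible apply IntF.fst | with_reducible apply IntF.snd | with_reducible apply IntF.app | with_reducible apply IntF.ite | with_reducible apply IntF.sep | with_reducible apply IntF.lam | with_reducible apply IntF.insert | with_reducible apply IntF.singleton | with_reducible apply IntF.union | with_reducible apply IntF.inter | with_reducible apply IntF.sdiff | with_reducible apply IntF.isUnion | with_reducible apply IntF.iimage | with_reducible apply IntF.the | with_reducible apply IntF.irec | with_reducible_and_instances apply IntF.add | with_reducible_and_instances apply IntF.mul | with_reducible apply IntF.succ | with_reducible apply IntF.val | (with_reducible refine Int.comp ?_ ?_; assumption) | (with_reducible refine Int.comp₂ ?_ ?_ ?_; assumption) | (with_reducible refine Int.comp₃ ?_ ?_ ?_ ?_; assumption) | (with_reducible refine IntF.comp ?_ ?_; assumption) | (with_reducible refine IntF.comp₂ ?_ ?_ ?_; assumption) | (with_reducible refine IntF.comp₃ ?_ ?_ ?_ ?_; assumption) | (with_reducible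 refine Int.comp₄ ?_ ?_ ?_ ?_ ?_; assumption) | with_reducible apply IntF.pair))
  exact mem_sep h

variable {U a₀ p₀ Dec}

variable (U a₀ p₀ Dec) in
/-- The support of a name. -/
structure Spt (s : K → Q) : Prop where
  int : IntF M s
  clos : ∀ k η, ∃ k', s k' = U.ch (s k) η
  base : ∀ x, x ∈ p₀ → ∃ k, s k = x.1
  mnl : ∀ i n W σ x, IFin W → Mnl (DD U a₀ p₀ Dec i n W) σ → x ∈ σ → ∃ k, s k = x.1

section

variable (h : Nam U a₀ p₀ Dec) {s : K → Q}

include h

theorem mem_LS (hs : IntF M s) {x : Lab M K} : x ∈ LS U a₀ p₀ Dec s ↔
    IFin x.2 ∧ (∃ n W, IFin W ∧ Mnl (DD U a₀ p₀ Dec x.1.1 n W) (trs s x.2)) ∧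
    ∃ p, Cond U a₀ p ∧ p₀ ⊆ p ∧ trs s x.2 ⊆ p ∧ Dec p x.1.1 x.1.2 := by
  have hc := int_cond (M := M) U a₀
  have hd := h.int
  have hDD := int_DD h
  have hMn := int_Mnl (M := M) (X := Q × Cd M K)
  have h1 : IntF M (fun q : (Lab M K × INat M) × IPow M (Cd M K) =>
      DD U a₀ p₀ Dec q.1.1.1.1 q.1.2 q.2) := by
    have hix : IntF M (fun q : (Lab M K × INat M) × IPow M (Cd M K) =>
        ((q.1.1.1.1, q.1.2), q.2)) := by (repeat' (first | with_reducible exact IntF.id | with_reducible exact IntF.fst' | with_reducible exact IntF.snd' | with_reducible exact IntF.const _ | with_reducible exact Int.const _ | assumption | with_reducible apply Int.and | with_reducible apply Int.or | with_reducible apply Int.not | with_reducible apply Int.imp | with_reducible apply Int.iff | with_reducible apply Int.ne | with_reducible apply Int.eq | with_reducible apply Int.mem | with_reducible apply Int.subset | with_reducible apply Int.ltN | with_reducible apply Int.leN | with_reducible apply Int.fin | with_reducible apply Int.unique | with_reducible apply Int.all | with_reducible apply Int.ex | with_reducible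 apply IntF.fst | with_reducible apply IntF.snd | with_reducible apply IntF.app | with_reducible apply IntF.ite | with_reducible apply IntF.sep | with_reducible apply IntF.lam | with_reducible apply IntF.insert | with_reducible apply IntF.singleton | with_reducible apply IntF.union | with_reducible apply IntF.inter | with_reducible apply IntF.sdiff | with_reducible apply IntF.isUnion | with_reducible apply IntF.iimage | with_reducible apply IntF.the | with_reducible apply IntF.irec | with_reducible_and_instances apply IntF.add | with_reducible_and_instances apply IntF.mul | with_reducible apply IntF.succ | with_reducible apply IntF.val | (with_reducible refine Int.comp ?_ ?_; assumption) | (with_reducible refine Int.comp₂ ?_ ?_ ?_; assumption) | (with_reducible refine Int.comp₃ ?_ ?_ ?_ ?_; assumption) | (with_reducible refine IntF.comp ?_ ?_; assumption) | (with_reducible refine IntF.comp₂ ?_ ?_ ?_; assumption) | (with_reducible refine IntF.comp₃ ?_ ?_ ?_ ?_; assumption) | (with_reducible refine Int.comp₄ ?_ ?_ ?_ ?_ ?_; assumption) | with_reducible apply IntF.pair))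
    exact IntF.comp (g := fun q : ((K × INat M) × INat M) × IPow M (Cd M K) =>
      DD U a₀ p₀ Dec q.1.1 q.1.2 q.2) hDD hix
  have h2 : IntF M (fun x : Lab M K => trs s x.2) := by
    refine IntF.trs (s := fun (_ : Lab M K) => s) ?_ ?_
    · exact IntF.comp (g := s) hs (IntF.snd' (α := Lab M K) (β := K))
    · (repeat' (first | with_reducible exact IntF.id | with_reducible exact IntF.fst' | with_reducible exact IntF.snd' | with_reducible exact IntF.const _ | with_reducible exact Int.const _ | assumption | with_reducible apply Int.and | with_reducible apply Int.or | with_reducible apply Int.not | with_reducible apply Int.imp | with_reducible apply Int.iff | with_reducible apply Int.ne | with_reducible apply Int.eq | with_reducible apply Int.mem | with_reducible apply Int.subset | with_reducible apply Int.ltN | with_reducible apply Int.leN | with_reducible apply Int.fin | with_reducible apply Int.unique | with_reducible apply Int.all | with_reducible apply Int.ex | with_reducible apply IntF.fst | with_reducible apply IntF.snd | with_reducible apply IntF.app | with_reducible apply IntF.ite |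 with_reducible apply IntF.sep | with_reducible apply IntF.lam | with_reducible apply IntF.insert | with_reducible apply IntF.singleton | with_reducible apply IntF.union | with_reducible apply IntF.inter | with_reducible apply IntF.sdiff | with_reducible apply IntF.isUnion | with_reducible apply IntF.iimage | with_reducible apply IntF.the | with_reducible apply IntF.irec | with_reducible_and_instances apply IntF.add | with_reducible_and_instances apply IntF.mul | with_reducible apply IntF.succ | with_reducible apply IntF.val | (with_reducible refine Int.comp ?_ ?_; assumption) | (with_reducible refine Int.comp₂ ?_ ?_ ?_; assumption) | (with_reducible refine Int.comp₃ ?_ ?_ ?_ ?_; assumption) | (with_reducible refine IntF.comp ?_ ?_; assumption) | (with_reducible refine IntF.comp₂ ?_ ?_ ?_; assumption) | (with_reducible refine IntF.comp₃ ?_ ?_ ?_ ?_; assumption) | (with_reducible refine Int.comp₄ ?_ ?_ ?_ ?_ ?_; assumption) | with_reducible apply IntF.pair))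
  have h3 : Int M (fun q : (Lab M K × INat M) × IPow M (Cd M K) =>
      Mnl (DD U a₀ p₀ Dec q.1.1.1.1 q.1.2 q.2) (trs s q.1.1.2)) := by
    refine Int.comp₂ (p := fun a b => Mnl a b) hMn h1 ?_
    have h5 : IntF M (fun q : (Lab M K × INat M) × IPow M (Cd M K) => q.1.1) := by (repeat' (first | with_reducible exact IntF.id | with_reducible exact IntF.fst' | with_reducible exact IntF.snd' | with_reducible exact IntF.const _ | with_reducible exact Int.const _ | assumption | with_reducible apply Int.and | with_reducible apply Int.or | with_reducible apply Int.not | with_reducible apply Int.imp | with_reducible apply Int.iff | with_reducible apply Int.ne | with_reducible apply Int.eq | with_reducible apply Int.mem | with_reducible apply Int.subset | with_reducible apply Int.ltN | with_reducible apply Int.leN | with_reducible apply Int.fin | with_reducible apply Int.unique | with_reducible apply Int.all | with_reducible apply Int.ex | with_reducible apply IntF.fst | with_reducible apply IntF.snd | with_reducible apply IntF.app | with_reducible apply IntF.ite | with_reducible apply IntF.sep | with_reducible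 apply IntF.lam | with_reducible apply IntF.insert | with_reducible apply IntF.singleton | with_reducible apply IntF.union | with_reducible apply IntF.inter | with_reducible apply IntF.sdiff | with_reducible apply IntF.isUnion | with_reducible apply IntF.iimage | with_reducible apply IntF.the | with_reducible apply IntF.irec | with_reducible_and_instances apply IntF.add | with_reducible_and_instances apply IntF.mul | with_reducible apply IntF.succ | with_reducible apply IntF.val | (with_reducible refine Int.comp ?_ ?_; assumption) | (with_reducible refine Int.comp₂ ?_ ?_ ?_; assumption) | (with_reducible refine Int.comp₃ ?_ ?_ ?_ ?_; assumption) | (with_reducible refine IntF.comp ?_ ?_; assumption) | (with_reducible refine IntF.comp₂ ?_ ?_ ?_; assumption) | (with_reducible refine IntF.comp₃ ?_ ?_ ?_ ?_; assumption) | (with_reducible refine Int.comp₄ ?_ ?_ ?_ ?_ ?_; assumption) | with_reducible apply IntF.pair))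
    exact IntF.comp (g := fun x : Lab M K => trs s x.2) h2 h5
  have h4 : IntF M (fun q : Lab M K × IPow M (Q × Cd M K) => trs s q.1.2) :=
    IntF.comp (g := fun x : Lab M K => trs s x.2) h2 IntF.fst'
  have hI : Int M (fun x : Lab M K =>
    IFin x.2 ∧ (∃ n W, IFin W ∧ Mnl (DD U a₀ p₀ Dec x.1.1 n W) (trs s x.2)) ∧
      ∃ p, Cond U a₀ p ∧ p₀ ⊆ p ∧ trs s x.2 ⊆ p ∧ Dec p x.1.1 x.1.2) := by
    (repeat' (first | with_reducible exact IntF.id | with_reducible exact IntF.fst' | with_reducible exact IntF.snd' | with_reducible exact IntF.const _ | with_reducible exact Int.const _ | assumption | with_reducible apply Int.and | with_reducible apply Int.or | with_reducible apply Int.not | with_reducible apply Int.imp | with_reducible apply Int.iff | with_reducible apply Int.ne | with_reducible apply Int.eq | with_reducible apply Int.mem | with_reducible apply Int.subset | with_reducible apply Int.ltN | with_reducible apply Int.leN | with_reducible apply Int.fin | with_reducible apply Int.unique | with_reducible apply Int.all | with_reducible apply Int.ex | with_reducible apply IntF.fst | with_reducible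 apply IntF.snd | with_reducible apply IntF.app | with_reducible apply IntF.ite | with_reducible apply IntF.sep | with_reducible apply IntF.lam | with_reducible apply IntF.insert | with_reducible apply IntF.singleton | with_reducible apply IntF.union | with_reducible apply IntF.inter | with_reducible apply IntF.sdiff | with_reducible apply IntF.isUnion | with_reducible apply IntF.iimage | with_reducible apply IntF.the | with_reducible apply IntF.irec | with_reducible_and_instances apply IntF.add | with_reducible_and_instances apply IntF.mul | with_reducible apply IntF.succ | with_reducible apply IntF.val | (with_reducible refine Int.comp ?_ ?_; assumption) | (with_reducible refine Int.comp₂ ?_ ?_ ?_; assumption) | (with_reducible refine Int.comp₃ ?_ ?_ ?_ ?_; assumption) | (with_reducible refine IntF.comp ?_ ?_; assumption) | (with_reducible refine IntF.comp₂ ?_ ?_ ?_; assumption) | (with_reducible refine IntF.comp₃ ?_ ?_ ?_ ?_; assumption) | (with_reducible refine Int.comp₄ ?_ ?_ ?_ ?_ ?_; assumption) | with_reducible apply IntF.pair))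
  exact mem_sep hI

/-- A label decides the value. -/
theorem LS_val (hs : IntF M s) {i : K × INat M} {m v : INat M} {a : IPow M (K × Cd M K)}
    (ha : ((i, m), a) ∈ LS U a₀ p₀ Dec s) {r : IPow M (Q × Cd M K)} (hr : Cond U a₀ r)
    (hr0 : p₀ ⊆ r) (hra : trs s a ⊆ r) (hv : Dec r i v) : v = m := by
  obtain ⟨-, ⟨n, W, h1, h2⟩, p, h3, h4, h5, h6⟩ := (mem_LS h hs).1 ha
  exact clo_val h h1 h2.1 hr hr0 hra hv h3 h4 h5 h6

variable {lt : K → K → Prop} (hW : IWO M K lt) (hS : Spt U a₀ p₀ Dec s)

include hW hS

/-- A condition with support in `s` has an extension with support in `s` that contains a label. -/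
theorem ext_supp (hd : Dns U a₀ p₀ Dec) {r : IPow M (Q × Cd M K)} (hr : Cond U a₀ r)
    (hr0 : p₀ ⊆ r) (hrA : ∀ x, x ∈ r → ∃ k, s k = x.1) (i : K × INat M) :
    ∃ r' m a, Cond U a₀ r' ∧ r ⊆ r' ∧ (∀ x, x ∈ r' → ∃ k, s k = x.1) ∧
      ((i, m), a) ∈ LS U a₀ p₀ Dec s ∧ trs s a ⊆ r' := by
  have hs := hS.int
  obtain ⟨r₁, v, h1, h2, h3⟩ := hd i r hr hr0
  obtain ⟨n, W, σ, h4, h5, h6⟩ := exists_mnl_DD h h1 (sub_trans hr0 h2) h3
  have hIA : Int M (fun q : Q => ∃ k, s k = q) := by (repeat' (first | with_reducible exact IntF.id | with_reducible exact IntF.fst' | with_reducible exact IntF.snd' | with_reducible exact IntF.const _ | with_reducible exact Int.const _ | assumption | with_reducible apply Int.and | with_reducible apply Int.or | with_reducible apply Int.not | with_reducible apply Int.imp | with_reducible apply Int.iff | with_reducible apply Int.ne | with_reducible apply Int.eq | with_reducible apply Int.mem | with_reducible apply Int.subset | with_reducible apply Int.ltN | with_reducible apply Int.leN | with_reducible apply Int.fin | with_reducible apply Int.unique | with_reducible apply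 Int.all | with_reducible apply Int.ex | with_reducible apply IntF.fst | with_reducible apply IntF.snd | with_reducible apply IntF.app | with_reducible apply IntF.ite | with_reducible apply IntF.sep | with_reducible apply IntF.lam | with_reducible apply IntF.insert | with_reducible apply IntF.singleton | with_reducible apply IntF.union | with_reducible apply IntF.inter | with_reducible apply IntF.sdiff | with_reducible apply IntF.isUnion | with_reducible apply IntF.iimage | with_reducible apply IntF.the | with_reducible apply IntF.irec | with_reducible_and_instances apply IntF.add | with_reducible_and_instances apply IntF.mul | with_reducible apply IntF.succ | with_reducible apply IntF.val | (with_reducible refine Int.comp ?_ ?_; assumption) | (with_reducible refine Int.comp₂ ?_ ?_ ?_; assumption) | (with_reducible refine Int.comp₃ ?_ ?_ ?_ ?_; assumption) | (with_reducible refine IntF.comp ?_ ?_; assumption) | (with_reducible refine IntF.comp₂ ?_ ?_ ?_; assumption) | (with_reducible refine IntF.comp₃ ?_ ?_ ?_ ?_; assumption) | (with_reducible refine Int.comp₄ ?_ ?_ ?_ ?_ ?_; assumption) | with_reducible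 apply IntF.pair))
  have hA : ∀ q, q ∈ sep M (fun q : Q => ∃ k, s k = q) ↔ ∃ k, s k = q := fun q => mem_sep hIA
  have hσA : ∀ x, x ∈ σ → ∃ k, s k = x.1 := fun x hx => hS.mnl i n W σ x h4 h5 hx
  -- the label
  obtain ⟨g, hg, hg1⟩ := V246.exists_lf hW (γ := Q) (r := fun q k => s k = q)
    (by (repeat' (first | with_reducible exact IntF.id | with_reducible exact IntF.fst' | with_reducible exact IntF.snd' | with_reducible exact IntF.const _ | with_reducible exact Int.const _ | assumption | with_reducible apply Int.and | with_reducible apply Int.or | with_reducible apply Int.not | with_reducible apply Int.imp | with_reducible apply Int.iff | with_reducible apply Int.ne | with_reducible apply Int.eq | with_reducible apply Int.mem | with_reducible apply Int.subset | with_reducible apply Int.ltN | with_reducible apply Int.leN | with_reducible apply Int.fin | with_reducible apply Int.unique | with_reducible apply Int.all | with_reducible apply Int.ex | with_reducible apply IntF.fst | with_reducible apply IntF.snd | with_reducible apply IntF.app | with_reducible apply IntF.ite | with_reducible apply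 IntF.sep | with_reducible apply IntF.lam | with_reducible apply IntF.insert | with_reducible apply IntF.singleton | with_reducible apply IntF.union | with_reducible apply IntF.inter | with_reducible apply IntF.sdiff | with_reducible apply IntF.isUnion | with_reducible apply IntF.iimage | with_reducible apply IntF.the | with_reducible apply IntF.irec | with_reducible_and_instances apply IntF.add | with_reducible_and_instances apply IntF.mul | with_reducible apply IntF.succ | with_reducible apply IntF.val | (with_reducible refine Int.comp ?_ ?_; assumption) | (with_reducible refine Int.comp₂ ?_ ?_ ?_; assumption) | (with_reducible refine Int.comp₃ ?_ ?_ ?_ ?_; assumption) | (with_reducible refine IntF.comp ?_ ?_; assumption) | (with_reducible refine IntF.comp₂ ?_ ?_ ?_; assumption) | (with_reducible refine IntF.comp₃ ?_ ?_ ?_ ?_; assumption) | (with_reducible refine Int.comp₄ ?_ ?_ ?_ ?_ ?_; assumption) | with_reducible apply IntF.pair))) a₀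
  have hgI : IntF M (fun x : Q × Cd M K => (g x.1, x.2)) := by (repeat' (first | with_reducible exact IntF.id | with_reducible exact IntF.fst' | with_reducible exact IntF.snd' | with_reducible exact IntF.const _ | with_reducible exact Int.const _ | assumption | with_reducible apply Int.and | with_reducible apply Int.or | with_reducible apply Int.not | with_reducible apply Int.imp | with_reducible apply Int.iff | with_reducible apply Int.ne | with_reducible apply Int.eq | with_reducible apply Int.mem | with_reducible apply Int.subset | with_reducible apply Int.ltN | with_reducible apply Int.leN | with_reducible apply Int.fin | with_reducible apply Int.unique | with_reducible apply Int.all | with_reducible apply Int.ex | with_reducible apply IntF.fst | with_reducible apply IntF.snd | with_reducible apply IntF.app | with_reducible apply IntF.ite | with_reducible apply IntF.sep | with_reducible apply IntF.lam | with_reducible apply IntF.insert | with_reducible apply IntF.singleton | with_reducible apply IntF.union | with_reducible apply IntF.inter | with_reducible apply IntF.sdiff | with_reducible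 apply IntF.isUnion | with_reducible apply IntF.iimage | with_reducible apply IntF.the | with_reducible apply IntF.irec | with_reducible_and_instances apply IntF.add | with_reducible_and_instances apply IntF.mul | with_reducible apply IntF.succ | with_reducible apply IntF.val | (with_reducible refine Int.comp ?_ ?_; assumption) | (with_reducible refine Int.comp₂ ?_ ?_ ?_; assumption) | (with_reducible refine Int.comp₃ ?_ ?_ ?_ ?_; assumption) | (with_reducible refine IntF.comp ?_ ?_; assumption) | (with_reducible refine IntF.comp₂ ?_ ?_ ?_; assumption) | (with_reducible refine IntF.comp₃ ?_ ?_ ?_ ?_; assumption) | (with_reducible refine Int.comp₄ ?_ ?_ ?_ ?_ ?_; assumption) | with_reducible apply IntF.pair))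
  have htr : trs s (iimage (fun x : Q × Cd M K => (g x.1, x.2)) σ) = σ := by
    refine IPow.ext' fun x => ?_
    rw [mem_trs hs]
    constructor
    · rintro ⟨y, hy, rfl⟩
      obtain ⟨z, hz, rfl⟩ := (mem_iimage hgI).1 hy
      change (s (g z.1), z.2) ∈ σ
      rw [(hg1 z.1 (hσA z hz)).1]
      exact hz
    · intro hx
      refine ⟨(g x.1, x.2), (mem_iimage hgI).2 ⟨x, hx, rfl⟩, ?_⟩
      change (s (g x.1), x.2) = x
      rw [(hg1 x.1 (hσA x hx)).1]
  refine ⟨rs (sep M (fun q : Q => ∃ k, s k = q)) r₁, v,
    iimage (fun x : Q × Cd M K => (g x.1, x.2)) σ, h1.rs fun q hq η => ?_,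
    subset_def.2 fun x hx => mem_rs.2 ⟨subset_def.1 h2 x hx, (hA _).2 (hrA x hx)⟩,
    fun x hx => (hA _).1 (mem_rs.1 hx).2, (mem_LS h hs).2 ⟨IFin.image h5.1.1 hgI, ?_, ?_⟩, ?_⟩
  · obtain ⟨k, rfl⟩ := (hA q).1 hq
    exact (hA _).2 (hS.clos k η)
  · exact ⟨n, W, h4, by rw [htr]; exact h5⟩
  · exact ⟨r₁, h1, sub_trans hr0 h2, by rw [htr]; exact h6, h3⟩
  · rw [htr]
    exact subset_def.2 fun x hx => mem_rs.2 ⟨subset_def.1 h6 x hx, (hA _).2 (hσA x hx)⟩

/-- Finitely many values. -/
theorem ext_fin (hd : Dns U a₀ p₀ Dec) {p : IPow M (Q × Cd M K)} (hp : Cond U a₀ p)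
    (hp0 : p₀ ⊆ p) (k : INat M) (E : IPow M K) (hE : IFin E) :
    ∃ r N, Cond U a₀ r ∧ p₀ ⊆ r ∧ (∀ x, x ∈ p → (∃ k, s k = x.1) → x ∈ r) ∧
      (∀ x, x ∈ r → ∃ k, s k = x.1) ∧
      ∀ ξ, ξ ∈ E → ∃ m a, m ≤ N ∧ (((ξ, k), m), a) ∈ LS U a₀ p₀ Dec s ∧ trs s a ⊆ r := by
  have hs := hS.int
  have hc := int_cond (M := M) U a₀
  have htr : IntF M (fun a : IPow M (K × Cd M K) => trs s a) := by
    refine IntF.trs (s := fun (_ : IPow M (K × Cd M K)) => s) ?_ IntF.id
    exact IntF.comp hs IntF.snd'
  have hP : Int M (fun E : IPow M K => ∃ r N, Cond U a₀ r ∧ p₀ ⊆ r ∧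
      (∀ x, x ∈ p → (∃ k, s k = x.1) → x ∈ r) ∧ (∀ x, x ∈ r → ∃ k, s k = x.1) ∧
      ∀ ξ, ξ ∈ E → ∃ m a, m ≤ N ∧ (((ξ, k), m), a) ∈ LS U a₀ p₀ Dec s ∧ trs s a ⊆ r) := by
    (repeat' (first | with_reducible exact IntF.id | with_reducible exact IntF.fst' | with_reducible exact IntF.snd' | with_reducible exact IntF.const _ | with_reducible exact Int.const _ | assumption | with_reducible apply Int.and | with_reducible apply Int.or | with_reducible apply Int.not | with_reducible apply Int.imp | with_reducible apply Int.iff | with_reducible apply Int.ne | with_reducible apply Int.eq | with_reducible apply Int.mem | with_reducible apply Int.subset | with_reducible apply Int.ltN | with_reducible apply Int.leN | with_reducible apply Int.fin | with_reducible apply Int.unique | with_reducible apply Int.all | with_reducible apply Int.ex | with_reducible apply IntF.fst | with_reducible apply IntF.snd | with_reducible apply IntF.app | with_reducible apply IntF.ite | with_reducible apply IntF.sep | with_reducible apply IntF.lam | with_reducible apply IntF.insert | with_reducible apply IntF.singleton | with_reducible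 apply IntF.union | with_reducible apply IntF.inter | with_reducible apply IntF.sdiff | with_reducible apply IntF.isUnion | with_reducible apply IntF.iimage | with_reducible apply IntF.the | with_reducible apply IntF.irec | with_reducible_and_instances apply IntF.add | with_reducible_and_instances apply IntF.mul | with_reducible apply IntF.succ | with_reducible apply IntF.val | (with_reducible refine Int.comp ?_ ?_; assumption) | (with_reducible refine Int.comp₂ ?_ ?_ ?_; assumption) | (with_reducible refine Int.comp₃ ?_ ?_ ?_ ?_; assumption) | (with_reducible refine IntF.comp ?_ ?_; assumption) | (with_reducible refine IntF.comp₂ ?_ ?_ ?_; assumption) | (with_reducible refine IntF.comp₃ ?_ ?_ ?_ ?_; assumption) | (with_reducible refine Int.comp₄ ?_ ?_ ?_ ?_ ?_; assumption) | with_reducible apply IntF.pair))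
  refine IFin.ind hP ?_ ?_ E hE
  · have hIA : Int M (fun q : Q => ∃ k, s k = q) := by (repeat' (first | with_reducible exact IntF.id | with_reducible exact IntF.fst' | with_reducible exact IntF.snd' | with_reducible exact IntF.const _ | with_reducible exact Int.const _ | assumption | with_reducible apply Int.and | with_reducible apply Int.or | with_reducible apply Int.not | with_reducible apply Int.imp | with_reducible apply Int.iff | with_reducible apply Int.ne | with_reducible apply Int.eq | with_reducible apply Int.mem | with_reducible apply Int.subset | with_reducible apply Int.ltN | with_reducible apply Int.leN | with_reducible apply Int.fin | with_reducible apply Int.unique | with_reducible apply Int.all | with_reducible apply Int.ex | with_reducible apply IntF.fst | with_reducible apply IntF.snd | with_reducible apply IntF.app | with_reducible apply IntF.ite | with_reducible apply IntF.sep | with_reducible apply IntF.lam | with_reducible apply IntF.insert | with_reducible apply IntF.singleton | with_reducible apply IntF.union | with_reducible apply IntF.inter | with_reducible apply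 IntF.sdiff | with_reducible apply IntF.isUnion | with_reducible apply IntF.iimage | with_reducible apply IntF.the | with_reducible apply IntF.irec | with_reducible_and_instances apply IntF.add | with_reducible_and_instances apply IntF.mul | with_reducible apply IntF.succ | with_reducible apply IntF.val | (with_reducible refine Int.comp ?_ ?_; assumption) | (with_reducible refine Int.comp₂ ?_ ?_ ?_; assumption) | (with_reducible refine Int.comp₃ ?_ ?_ ?_ ?_; assumption) | (with_reducible refine IntF.comp ?_ ?_; assumption) | (with_reducible refine IntF.comp₂ ?_ ?_ ?_; assumption) | (with_reducible refine IntF.comp₃ ?_ ?_ ?_ ?_; assumption) | (with_reducible refine Int.comp₄ ?_ ?_ ?_ ?_ ?_; assumption) | with_reducible apply IntF.pair))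
    have hA : ∀ q, q ∈ sep M (fun q : Q => ∃ k, s k = q) ↔ ∃ k, s k = q := fun q => mem_sep hIA
    refine ⟨rs (sep M (fun q : Q => ∃ k, s k = q)) p, 0, hp.rs fun q hq η => ?_,
      subset_def.2 fun x hx => mem_rs.2 ⟨subset_def.1 hp0 x hx, (hA _).2 (hS.base x hx)⟩,
      fun x hx hx' => mem_rs.2 ⟨hx, (hA _).2 hx'⟩, fun x hx => (hA _).1 (mem_rs.1 hx).2,
      fun ξ hξ => by simp at hξ⟩
    obtain ⟨k, rfl⟩ := (hA q).1 hq
    exact (hA _).2 (hS.clos k η)
  · rintro E ξ - - ⟨r, N, h1, h2, h3, h4, h5⟩
    obtain ⟨r', m, a, h6, h7, h8, h9, h10⟩ := ext_supp h hW hS hd h1 h2 h4 (ξ, k)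
    refine ⟨r', max N m, h6, sub_trans h2 h7, fun x hx hx' => subset_def.1 h7 x (h3 x hx hx'), h8,
      fun ξ' hξ' => ?_⟩
    rcases mem_insert.1 hξ' with rfl | hξ'
    · exact ⟨m, a, le_max_right _ _, h9, h10⟩
    · obtain ⟨m', a', h11, h12, h13⟩ := h5 ξ' hξ'
      exact ⟨m', a', h11.trans (le_max_left _ _), h12, sub_trans h13 h7⟩

variable {q : Q} (hqA : ∀ k, s k ≠ q)

include hqA

omit h hW in
theorem amalg_supp {r p : IPow M (Q × Cd M K)} (hr : Cond U a₀ r) (hp : Cond U a₀ p)
    (h1 : ∀ x, x ∈ p → (∃ k, s k = x.1) → x ∈ r) (h2 : ∀ x, x ∈ r → ∃ k, s k = x.1) :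
    Cond U a₀ (r ∪ p) :=
  hr.amalg hp fun x y hx hy hxy => h1 x hx (hxy ▸ h2 y hy)

/-- The values of the dominating real. -/
theorem dens_value (hd : Dns U a₀ p₀ Dec) (hq : U.lb q = LS U a₀ p₀ Dec s)
    (hc : ∀ η, U.ch q η = s η) {p : IPow M (Q × Cd M K)} (hp : Cond U a₀ p) (hp0 : p₀ ⊆ p)
    (k : INat M) : ∃ p' v, Cond U a₀ p' ∧ p ⊆ p' ∧ (q, sm a₀ k v) ∈ p' := by
  by_cases hex : ∃ v, (q, sm a₀ k v) ∈ p
  · obtain ⟨v, hv⟩ := hex
    exact ⟨p, v, hp, subset_def.2 fun _ h => h, hv⟩
  push Not at hex
  have hf : IntF M (fun x : Q × Cd M K => x.2.1.2) := by (repeat' (first | with_reducible exact IntF.id | with_reducible exact IntF.fst' | with_reducible exact IntF.snd' | with_reducible exact IntF.const _ | with_reducible exact Int.const _ | assumption | with_reducible apply Int.and | with_reducible apply Int.or | with_reducible apply Int.not | with_reducible apply Int.imp | with_reducible apply Int.iff | with_reducible apply Int.ne | with_reducible apply Int.eq | with_reducible apply Int.mem | with_reducible apply Int.subset | with_reducible apply Int.ltN | with_reducible apply Int.leN | with_reducible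 apply Int.fin | with_reducible apply Int.unique | with_reducible apply Int.all | with_reducible apply Int.ex | with_reducible apply IntF.fst | with_reducible apply IntF.snd | with_reducible apply IntF.app | with_reducible apply IntF.ite | with_reducible apply IntF.sep | with_reducible apply IntF.lam | with_reducible apply IntF.insert | with_reducible apply IntF.singleton | with_reducible apply IntF.union | with_reducible apply IntF.inter | with_reducible apply IntF.sdiff | with_reducible apply IntF.isUnion | with_reducible apply IntF.iimage | with_reducible apply IntF.the | with_reducible apply IntF.irec | with_reducible_and_instances apply IntF.add | with_reducible_and_instances apply IntF.mul | with_reducible apply IntF.succ | with_reducible apply IntF.val | (with_reducible refine Int.comp ?_ ?_; assumption) | (with_reducible refine Int.comp₂ ?_ ?_ ?_; assumption) | (with_reducible refine Int.comp₃ ?_ ?_ ?_ ?_; assumption) | (with_reducible refine IntF.comp ?_ ?_; assumption) | (with_reducible refine IntF.comp₂ ?_ ?_ ?_; assumption) | (with_reducible refine IntF.comp₃ ?_ ?_ ?_ ?_; assumption)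 | (with_reducible refine Int.comp₄ ?_ ?_ ?_ ?_ ?_; assumption) | with_reducible apply IntF.pair))
  obtain ⟨r, N, h1, h2, h3, h4, h5⟩ := ext_fin h hW hS hd hp hp0 k
    (iimage (fun x => x.2.1.2) p) (IFin.image hp.fin hf)
  have h6 := amalg_supp hS hqA h1 hp h3 h4
  have hqr : ∀ c, ¬ (q, c) ∈ r := fun c hcr => by
    obtain ⟨k', hk'⟩ := h4 _ hcr
    exact hqA k' hk'
  have hcs : U.ch q = s := funext hc
  refine ⟨insert (q, sm a₀ k N) (r ∪ p), N, h6.value (fun w hw => ?_) (fun ξ n h7 h8 => ?_),
    sub_trans sub_union_r sub_insert, mem_insert.2 (Or.inl rfl)⟩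
  · rcases mem_union.1 hw with hw | hw
    · exact hqr _ hw
    · exact hex _ hw
  · rcases mem_union.1 h7 with h7 | h7
    · exact absurd h7 (hqr _)
    · obtain ⟨m, a, h9, h10, h11⟩ := h5 ξ ((mem_iimage hf).2 ⟨_, h7, rfl⟩)
      rw [hq, hcs]
      exact ⟨m, a, h10, h9, sub_trans h11 sub_union_l⟩

/-- The values of a trivially labelled real. -/
theorem dens_leaf (hd : Dns U a₀ p₀ Dec) (hq : U.lb q = N0 M K) {p : IPow M (Q × Cd M K)}
    (hp : Cond U a₀ p) (hp0 : p₀ ⊆ p) (ξ : K) (m : INat M) :
    ∃ p' k v w, Cond U a₀ p' ∧ p ⊆ p' ∧ m ≤ k ∧ (q, sm a₀ k v) ∈ p' ∧ w < v ∧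
      ∀ r c, Cond U a₀ r → p' ⊆ r → Dec r (ξ, k) c → c = w := by
  obtain ⟨N, hN⟩ := exists_stem_bound (a₀ := a₀) hp.fin
  obtain ⟨r, N', h1, h2, h3, h4, h5⟩ := ext_fin h hW hS hd hp hp0 (max m N) {ξ}
    (IFin.singleton ξ)
  obtain ⟨w, a, -, h6, h7⟩ := h5 ξ (mem_singleton.2 rfl)
  have h8 := amalg_supp hS hqA h1 hp h3 h4
  have hqr : ∀ c, ¬ (q, c) ∈ r := fun c hcr => by
    obtain ⟨k', hk'⟩ := h4 _ hcr
    exact hqA k' hk'
  refine ⟨insert (q, sm a₀ (max m N) w.succ) (r ∪ p), max m N, w.succ, w,
    h8.value (fun v hv => ?_) (fun ξ' n h9 h10 => ?_), sub_trans sub_union_r sub_insert,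
    le_max_left _ _, mem_insert.2 (Or.inl rfl), INat.lt_succ_self w, fun r' c hr' hpr hc => ?_⟩
  · rcases mem_union.1 hv with hv | hv
    · exact hqr _ hv
    · exact absurd (hN q _ _ hv).1 (not_lt.2 (le_max_right _ _))
  · refine ⟨0, ∅, ?_, INat.zero_le _, subset_def.2 fun x hx => ?_⟩
    · rw [hq]
      exact mem_N0.2 ⟨rfl, rfl⟩
    · obtain ⟨y, hy, -⟩ := (mem_trs (int_ch_q U q)).1 hx
      simp at hy
  · have h9 : r ⊆ r' := sub_trans (sub_trans sub_union_l sub_insert) hpr
    exact LS_val h hS.int h6 hr' (sub_trans h2 h9) (sub_trans h7 h9) hc

end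

/-- The promises. -/
theorem dens_promise {p : IPow M (Q × Cd M K)} (hp : Cond U a₀ p) (q : Q) (ξ : K) :
    ∃ p' n, Cond U a₀ p' ∧ p ⊆ p' ∧ (q, pm ξ n) ∈ p' := by
  obtain ⟨N, hN⟩ := exists_stem_bound (a₀ := a₀) hp.fin
  exact ⟨insert (q, pm ξ N) p, N, hp.promise fun k v h => (hN q k v h).1, sub_insert,
    mem_insert.2 (Or.inl rfl)⟩

theorem dens_leaf_value {p : IPow M (Q × Cd M K)} (hp : Cond U a₀ p) {q : Q}
    (hq : U.lb q = N0 M K) (k : INat M) :
    ∃ p' v, Cond U a₀ p' ∧ p ⊆ p' ∧ (q, sm a₀ k v) ∈ p' := by
  by_cases hex : ∃ v, (q, sm a₀ k v) ∈ p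
  · obtain ⟨v, hv⟩ := hex
    exact ⟨p, v, hp, subset_def.2 fun _ h => h, hv⟩
  push Not at hex
  refine ⟨insert (q, sm a₀ k 0) p, 0, hp.value hex fun ξ n h1 h2 => ⟨0, ∅, ?_, le_rfl,
    subset_def.2 fun x hx => ?_⟩, sub_insert, mem_insert.2 (Or.inl rfl)⟩
  · rw [hq]
    exact mem_N0.2 ⟨rfl, rfl⟩
  · obtain ⟨y, hy, -⟩ := (mem_trs (int_ch_q U q)).1 hx
    simp at hy

/-- The dominating real is above the reals of the name. -/
theorem le_of_promise (h : Nam U a₀ p₀ Dec) {s : K → Q} (hs : IntF M s) {q : Q}
    (hq : U.lb q = LS U a₀ p₀ Dec s) (hc : ∀ η, U.ch q η = s η) {r : IPow M (Q × Cd M K)}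
    (hr : Cond U a₀ r) (hr0 : p₀ ⊆ r) {ξ : K} {n k v w : INat M} (h1 : (q, pm ξ n) ∈ r)
    (h2 : (q, sm a₀ k v) ∈ r) (h3 : n ≤ k) (h4 : Dec r (ξ, k) w) : w ≤ v := by
  obtain ⟨m, a, h5, h6, h7⟩ := hr.dom q ξ n k v h1 h2 h3
  have hcs : U.ch q = s := funext hc
  rw [hq] at h5
  rw [hcs] at h7
  rw [LS_val h hs h5 hr hr0 h7 h4]
  exact h6

end

end Pool.Agent.H634
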