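import Pool.Agent.H634.Br

/-!
# The dominating number in generic extensions of models without uncountable cofinalities
-/

set_option maxHeartbeats 1000000
set_option linter.all false

namespace Pool.Agent.H634

open FirstOrder FirstOrder.Language
open Pool.Agent.Helper672.ZFA
open Pool.Agent.Helper672.ZFA.H635 (IWO)
open Pool.Agent.H310
open Pool.Agent.H310Cards
open Pool.Agent.Q212.ZA
open Pool.Agent.Q212.ZB
open Pool.Agent.Q212.ZC
open Pool.Agent.Q212.ZForce (IsPreorder)
open Pool.Agent.Q212.ZD (replL_of_zf llt int_llt mem_V isOrdPair_V nat_V)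
open Pool.Agent.H635Amen (ZF)
open Pool.Agent.H525Emb (PMem IsTrans IsGenericFilter IsEval IsValue IsForcing IsForcingExtension)
open Pool.Agent.H525C (IsO ord_comp)

universe u

attribute [local instance] Helper672.Plain.toL

attribute [local instance] Pool.Agent.Q212.ZB.instModelL Pool.Agent.Q212.ZB.instPEl

section

variable {M : Type u} [Helper672.Plain.LSet.Structure M] [hZ : Helper672.Plain.Zermelo M]

/-- There is a dominating family indexed by `a`. -/
def DomFam (a : M) : Prop := ∃ w g : M, IsOmega w ∧ IsDomFamily w g a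

theorem domFam_of {a : M} {φ : PEl a → IFun M (INat M) (INat M)} (hφ : IntF M φ)
    (h : ∀ f, ∃ x, Les f (φ x)) : DomFam a := by
  obtain ⟨g, hg, h1⟩ := mk_family (isOmega_dom (M := M)) a hφ
  exact ⟨_, g, isOmega_dom, (domFamily_iff isOmega_dom hg h1).2 h⟩

theorem DomFam.exists {a : M} (h : DomFam a) :
    ∃ φ : PEl a → IFun M (INat M) (INat M), IntF M φ ∧ ∀ f, ∃ x, Les f (φ x) := by
  obtain ⟨w, g, hw, hg⟩ := h
  obtain ⟨φ, hφ, h1⟩ := exists_family hw hg.1
  exact ⟨φ, hφ, (domFamily_iff hw hg.1 h1).1 hg⟩

variable (M) in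
/-- The zero function. -/
noncomputable def zeroF : IFun M (INat M) (INat M) := ⟨fun _ => 0, IntF.const _⟩

/-- Transfer of a family along a relation. -/
theorem domFam_transfer {a b : M} {r : PEl b → PEl a → Prop}
    (hr : Int M (fun q : PEl b × PEl a => r q.1 q.2)) (hu : ∀ y x x', r y x → r y x' → x = x')
    (hs : ∀ x, ∃ y, r y x) (h : DomFam a) : DomFam b := by
  obtain ⟨φ, hφ, h1⟩ := h.exists
  have hI : Int M (fun q : PEl b × IFun M (INat M) (INat M) => ∃ x, r q.1 x ∧ φ x = q.2) := by
    (repeat' (first | with_reducible exact IntF.id | with_reducible exact IntF.fst' | with_reducible exact IntF.snd' | with_reducible exact IntF.const _ | with_reducible exact Int.const _ | assumption | with_reducible apply Int.and | with_reducible apply Int.or | with_reducible apply Int.not | with_reducible apply Int.imp | with_reducible apply Int.iff | with_reducible apply Int.ne | with_reducible apply Int.eq | with_reducible apply Int.mem | with_reducible apply Int.subset | with_reducible apply Int.ltN | with_reducible apply Int.leN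 | with_reducible apply Int.fin | with_reducible apply Int.unique | with_reducible apply Int.all | with_reducible apply Int.ex | with_reducible apply IntF.fst | with_reducible apply IntF.snd | with_reducible apply IntF.app | with_reducible apply IntF.ite | with_reducible apply IntF.sep | with_reducible apply IntF.lam | with_reducible apply IntF.insert | with_reducible apply IntF.singleton | with_reducible apply IntF.union | with_reducible apply IntF.inter | with_reducible apply IntF.sdiff | with_reducible apply IntF.isUnion | with_reducible apply IntF.iimage | with_reducible apply IntF.the | with_reducible apply IntF.irec | with_reducible_and_instances apply IntF.add | with_reducible_and_instances apply IntF.mul | with_reducible apply IntF.succ | with_reducible apply IntF.val | (with_reducible refine Int.comp ?_ ?_; assumption) | (with_reducible refine Int.comp₂ ?_ ?_ ?_; assumption) | (with_reducible refine Int.comp₃ ?_ ?_ ?_ ?_; assumption) | (with_reducible refine IntF.comp ?_ ?_; assumption) | (with_reducible refine IntF.comp₂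 ?_ ?_ ?_; assumption) | (with_reducible refine IntF.comp₃ ?_ ?_ ?_ ?_; assumption) | (with_reducible refine Int.comp₄ ?_ ?_ ?_ ?_ ?_; assumption) | with_reducible apply IntF.pair))
  have hψ : IntF M (fun y => the (fun f => ∃ x, r y x ∧ φ x = f) (zeroF M)) :=
    IntF.the hI (IntF.const _)
  refine domFam_of hψ fun f => ?_
  obtain ⟨x, hx⟩ := h1 f
  obtain ⟨y, hy⟩ := hs x
  refine ⟨y, ?_⟩
  have h2 : the (fun f => ∃ x, r y x ∧ φ x = f) (zeroF M) = φ x := by
    refine the_eq ⟨φ x, ⟨x, hy, rfl⟩, ?_⟩ ⟨x, hy, rfl⟩
    rintro g ⟨x', h3, rfl⟩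
    rw [hu y x x' hy h3]
  rw [h2]
  exact hx

theorem domFam_of_bij {a b f : M} (hf : IsBij f a b) (h : DomFam a) : DomFam b := by
  obtain ⟨φ, hφ⟩ := (isFun_iff (M := M) (α := PEl a) (β := PEl b) (fun z => mem_PEl)
    (fun z => mem_PEl)).1 hf.1.1
  have hI : Int M (fun q : PEl b × PEl a => φ q.2 = q.1) := by (repeat' (first | with_reducible exact IntF.id | with_reducible exact IntF.fst' | with_reducible exact IntF.snd' | with_reducible exact IntF.const _ | with_reducible exact Int.const _ | assumption | with_reducible apply Int.and | with_reducible apply Int.or | with_reducible apply Int.not | with_reducible apply Int.imp | with_reducible apply Int.iff | with_reducible apply Int.ne | with_reducible apply Int.eq | with_reducible apply Int.mem | with_reducible apply Int.subset | with_reducible apply Int.ltN | with_reducible apply Int.leN | with_reducible apply Int.fin | with_reducible apply Int.unique | with_reducible apply Int.all | with_reducible apply Int.ex | with_reducible apply IntF.fst | with_reducible apply IntF.snd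 | with_reducible apply IntF.app | with_reducible apply IntF.ite | with_reducible apply IntF.sep | with_reducible apply IntF.lam | with_reducible apply IntF.insert | with_reducible apply IntF.singleton | with_reducible apply IntF.union | with_reducible apply IntF.inter | with_reducible apply IntF.sdiff | with_reducible apply IntF.isUnion | with_reducible apply IntF.iimage | with_reducible apply IntF.the | with_reducible apply IntF.irec | with_reducible_and_instances apply IntF.add | with_reducible_and_instances apply IntF.mul | with_reducible apply IntF.succ | with_reducible apply IntF.val | (with_reducible refine Int.comp ?_ ?_; assumption) | (with_reducible refine Int.comp₂ ?_ ?_ ?_; assumption) | (with_reducible refine Int.comp₃ ?_ ?_ ?_ ?_; assumption) | (with_reducible refine IntF.comp ?_ ?_; assumption) | (with_reducible refine IntF.comp₂ ?_ ?_ ?_; assumption) | (with_reducible refine IntF.comp₃ ?_ ?_ ?_ ?_; assumption) | (with_reducible refine Int.comp₄ ?_ ?_ ?_ ?_ ?_; assumption) | with_reducible apply IntF.pair))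
  refine domFam_transfer (r := fun y x => φ x = y) hI ?_ (fun x => ⟨φ x, rfl⟩) h
  rintro y x x' h1 h2
  have h3 : ∀ x : PEl a, App f x.1 (φ x).1 := by
    intro x
    rw [← hφ]
    exact app_code.2 ⟨x, rfl, rfl⟩
  have h4 := h3 x
  have h5 := h3 x'
  rw [h1] at h4
  rw [h2] at h5
  exact Subtype.ext (hf.1.2 _ _ _ h4 h5)

/-- The internal form for initial segments. -/
theorem domFam_seg {α : M} (hα : IsO α) (x : PEl α) :
    DomFam x.1 ↔ ∃ φ : IFun M (PEl α) (IFun M (INat M) (INat M)),
      ∀ f, ∃ y, llt α y x ∧ Les f (φ y) := by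
  have hi := int_oincl hα x.2
  constructor
  · intro h
    obtain ⟨φ, hφ, h1⟩ := h.exists
    have hI : Int M (fun q : PEl α × IFun M (INat M) (INat M) =>
        ∃ z, oincl hα x.2 z = q.1 ∧ φ z = q.2) := by (repeat' (first | with_reducible exact IntF.id | with_reducible exact IntF.fst' | with_reducible exact IntF.snd' | with_reducible exact IntF.const _ | with_reducible exact Int.const _ | assumption | with_reducible apply Int.and | with_reducible apply Int.or | with_reducible apply Int.not | with_reducible apply Int.imp | with_reducible apply Int.iff | with_reducible apply Int.ne | with_reducible apply Int.eq | with_reducible apply Int.mem | with_reducible apply Int.subset | with_reducible apply Int.ltN | with_reducible apply Int.leN | with_reducible apply Int.fin | with_reducible apply Int.unique | with_reducible apply Int.all | with_reducible apply Int.ex | with_reducible apply IntF.fst | with_reducible apply IntF.snd | with_reducible apply IntF.app | with_reducible apply IntF.ite | with_reducible apply IntF.sep | with_reducible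 apply IntF.lam | with_reducible apply IntF.insert | with_reducible apply IntF.singleton | with_reducible apply IntF.union | with_reducible apply IntF.inter | with_reducible apply IntF.sdiff | with_reducible apply IntF.isUnion | with_reducible apply IntF.iimage | with_reducible apply IntF.the | with_reducible apply IntF.irec | with_reducible_and_instances apply IntF.add | with_reducible_and_instances apply IntF.mul | with_reducible apply IntF.succ | with_reducible apply IntF.val | (with_reducible refine Int.comp ?_ ?_; assumption) | (with_reducible refine Int.comp₂ ?_ ?_ ?_; assumption) | (with_reducible refine Int.comp₃ ?_ ?_ ?_ ?_; assumption) | (with_reducible refine IntF.comp ?_ ?_; assumption) | (with_reducible refine IntF.comp₂ ?_ ?_ ?_; assumption) | (with_reducible refine IntF.comp₃ ?_ ?_ ?_ ?_; assumption) | (with_reducible refine Int.comp₄ ?_ ?_ ?_ ?_ ?_; assumption) | with_reducible apply IntF.pair))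
    have hψ : IntF M (fun y => the (fun f => ∃ z, oincl hα x.2 z = y ∧ φ z = f) (zeroF M)) :=
      IntF.the hI (IntF.const _)
    refine ⟨⟨_, hψ⟩, fun f => ?_⟩
    obtain ⟨z, hz⟩ := h1 f
    refine ⟨oincl hα x.2 z, z.2, ?_⟩
    have h2 : the (fun f => ∃ z', oincl hα x.2 z' = oincl hα x.2 z ∧ φ z' = f) (zeroF M) =
        φ z := by
      refine the_eq ⟨φ z, ⟨z, rfl, rfl⟩, ?_⟩ ⟨z, rfl, rfl⟩
      rintro g ⟨z', h3, rfl⟩
      have h4 : z' = z := Subtype.ext (congrArg Subtype.val h3 : (oincl hα x.2 z').1 =
        (oincl hα x.2 z).1)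
      rw [h4]
    change Les f (the (fun f => ∃ z', oincl hα x.2 z' = oincl hα x.2 z ∧ φ z' = f) (zeroF M))
    rw [h2]
    exact hz
  · rintro ⟨φ, h⟩
    have hψ : IntF M (fun z => φ (oincl hα x.2 z)) := by (repeat' (first | with_reducible exact IntF.id | with_reducible exact IntF.fst' | with_reducible exact IntF.snd' | with_reducible exact IntF.const _ | with_reducible exact Int.const _ | assumption | with_reducible apply Int.and | with_reducible apply Int.or | with_reducible apply Int.not | with_reducible apply Int.imp | with_reducible apply Int.iff | with_reducible apply Int.ne | with_reducible apply Int.eq | with_reducible apply Int.mem | with_reducible apply Int.subset | with_reducible apply Int.ltN | with_reducible apply Int.leN | with_reducible apply Int.fin | with_reducible apply Int.unique | with_reducible apply Int.all | with_reducible apply Int.ex | with_reducible apply IntF.fst | with_reducible apply IntF.snd | with_reducible apply IntF.app | with_reducible apply IntF.ite | with_reducible apply IntF.sep | with_reducible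 apply IntF.lam | with_reducible apply IntF.insert | with_reducible apply IntF.singleton | with_reducible apply IntF.union | with_reducible apply IntF.inter | with_reducible apply IntF.sdiff | with_reducible apply IntF.isUnion | with_reducible apply IntF.iimage | with_reducible apply IntF.the | with_reducible apply IntF.irec | with_reducible_and_instances apply IntF.add | with_reducible_and_instances apply IntF.mul | with_reducible apply IntF.succ | with_reducible apply IntF.val | (with_reducible refine Int.comp ?_ ?_; assumption) | (with_reducible refine Int.comp₂ ?_ ?_ ?_; assumption) | (with_reducible refine Int.comp₃ ?_ ?_ ?_ ?_; assumption) | (with_reducible refine IntF.comp ?_ ?_; assumption) | (with_reducible refine IntF.comp₂ ?_ ?_ ?_; assumption) | (with_reducible refine IntF.comp₃ ?_ ?_ ?_ ?_; assumption) | (with_reducible refine Int.comp₄ ?_ ?_ ?_ ?_ ?_; assumption) | with_reducible apply IntF.pair))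
    refine domFam_of hψ fun f => ?_
    obtain ⟨y, h1, h2⟩ := h f
    exact ⟨⟨y.1, h1⟩, h2⟩

theorem exists_least_dom (hN : ZF M) {α : M} (hα : IsO α) (h : DomFam α) :
    ∃ κ : M, IsO κ ∧ DomFam κ ∧ ∀ a : M, Mem a κ → ¬ DomFam a := by
  by_cases h1 : ∃ x : PEl α, DomFam x.1
  · have hlt := int_llt α
    have hL := int_Les (M := M)
    have hI : Int M (fun x : PEl α => ∃ φ : IFun M (PEl α) (IFun M (INat M) (INat M)),
      ∀ f, ∃ y, llt α y x ∧ Les f (φ y)) := by (repeat' (first | with_reducible exact IntF.id | with_reducible exact IntF.fst' | with_reducible exact IntF.snd' | with_reducible exact IntF.const _ | with_reducible exact Int.const _ | assumption | with_reducible apply Int.and | with_reducible apply Int.or | with_reducible apply Int.not | with_reducible apply Int.imp | with_reducible apply Int.iff | with_reducible apply Int.ne | with_reducible apply Int.eq | with_reducible apply Int.mem | with_reducible apply Int.subset | with_reducible apply Int.ltN | with_reducible apply Int.leN | with_reducible apply Int.fin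 | with_reducible apply Int.unique | with_reducible apply Int.all | with_reducible apply Int.ex | with_reducible apply IntF.fst | with_reducible apply IntF.snd | with_reducible apply IntF.app | with_reducible apply IntF.ite | with_reducible apply IntF.sep | with_reducible apply IntF.lam | with_reducible apply IntF.insert | with_reducible apply IntF.singleton | with_reducible apply IntF.union | with_reducible apply IntF.inter | with_reducible apply IntF.sdiff | with_reducible apply IntF.isUnion | with_reducible apply IntF.iimage | with_reducible apply IntF.the | with_reducible apply IntF.irec | with_reducible_and_instances apply IntF.add | with_reducible_and_instances apply IntF.mul | with_reducible apply IntF.succ | with_reducible apply IntF.val | (with_reducible refine Int.comp ?_ ?_; assumption) | (with_reducible refine Int.comp₂ ?_ ?_ ?_; assumption) | (with_reducible refine Int.comp₃ ?_ ?_ ?_ ?_; assumption) | (with_reducible refine IntF.comp ?_ ?_; assumption) | (with_reducible refine IntF.comp₂ ?_ ?_ ?_; assumption)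 | (with_reducible refine IntF.comp₃ ?_ ?_ ?_ ?_; assumption) | (with_reducible refine Int.comp₄ ?_ ?_ ?_ ?_ ?_; assumption) | with_reducible apply IntF.pair))
    obtain ⟨x, hx⟩ := h1
    obtain ⟨x, h2, h3⟩ := V246.iwo_least (iwo_ord hN hα) hI ⟨x, (domFam_seg hα x).1 hx⟩
    refine ⟨x.1, hα.mem x.2, (domFam_seg hα x).2 h2, fun a ha h4 => ?_⟩
    exact h3 ⟨a, hα.1 x.1 a x.2 ha⟩ ((domFam_seg hα _).1 h4) ha
  · push Not at h1
    exact ⟨α, hα, h, fun a ha => h1 ⟨a, ha⟩⟩

theorem domFam_of_wo {w S : M} (hw : IsOmega w) (hD : IsDominating w S) {α F : M}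
    (hF : IsInj F S α) : DomFam α := by
  have hI : Int M (fun q : PEl α × IFun M (INat M) (INat M) =>
      Mem (op (code q.2) q.1.1) F) :=
    Int.of_D₂ (S := fun v => Mem (op (v 1) (v 0)) F)
      (D.memf (DF.op (DF.var _) (DF.var _)) (DF.const _)) fun _ _ => Iff.rfl
  have hψ : IntF M (fun x : PEl α => the (fun f : IFun M (INat M) (INat M) =>
      Mem (op (code f) x.1) F) (zeroF M)) := IntF.the hI (IntF.const _)
  refine domFam_of hψ fun f => ?_
  obtain ⟨g, hg, h1⟩ := hD.2 (code f) ((isFun_real hw).2 ⟨f, rfl⟩)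
  obtain ⟨g, rfl⟩ := (isFun_real hw).1 (hD.1 g hg)
  obtain ⟨y, hy, -⟩ := hF.1.2 _ hg
  have hy' := hy
  obtain ⟨q, h4, h5⟩ := hy
  obtain ⟨x', y', h8, h9, h10⟩ := hF.1.1 q h5
  obtain ⟨-, rfl⟩ := op_inj ((ordPair_iff.1 h4).symm.trans (ordPair_iff.1 h10))
  refine ⟨⟨y, h9⟩, ?_⟩
  have h2 : the (fun f : IFun M (INat M) (INat M) => Mem (op (code f) y) F) (zeroF M) = g := by
    have h3 : Mem (op (code g) y) F := app_iff.1 hy'
    refine the_eq ⟨g, h3, fun g' h6 => ?_⟩ h3
    exact ITy.inj (hF.2 _ _ _ (app_iff.2 h6) hy')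
  change Les f (the (fun f : IFun M (INat M) (INat M) => Mem (op (code f) y) F) (zeroF M))
  rw [h2]
  exact (leStar_code hw).1 h1

/-- The least index of a dominating family is not zero or a successor. -/
theorem not_succ_dom {κ : M} (hκ : IsO κ) (h : DomFam κ) (hmin : ∀ a, Mem a κ → ¬ DomFam a)
    (b : PEl κ) : ∃ x, Mem x κ ∧ ¬ Leq x b.1 := by
  by_contra hcon
  push Not at hcon
  obtain ⟨φ, hφ, h1⟩ := h.exists
  obtain ⟨f, hf⟩ := seg_not_dom isOmega_dom hκ hφ hmin b
  obtain ⟨x, hx⟩ := h1 f
  refine hf x ?_ hx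
  rcases hcon x.1 x.2 with h2 | h2
  · exact Or.inl (Subtype.ext h2)
  · exact Or.inr h2

end

/-! ### Absoluteness -/

section

variable {N : Type u} [hs : Helper672.Plain.LSet.Structure N]
  {V : Helper672.Plain.LSet.Substructure N}

theorem app_V (htr : IsTrans V) {f x y : V} : App f x y ↔ App (f : N) (x : N) (y : N) := by
  constructor
  · rintro ⟨q, h1, h2⟩
    exact ⟨q, (isOrdPair_V htr).1 h1, mem_V.1 h2⟩
  · rintro ⟨q, h1, h2⟩
    have hq : q ∈ V := htr q f h2 f.2
    exact ⟨⟨q, hq⟩, (isOrdPair_V htr).2 h1, mem_V.2 h2⟩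

theorem isFun_V (htr : IsTrans V) {f a b : V} (h : IsFun f a b) :
    IsFun (f : N) (a : N) (b : N) := by
  obtain ⟨h1, h2⟩ := h
  refine ⟨fun q hq => ?_, fun x hx => ?_⟩
  · have hqV : q ∈ V := htr q f hq f.2
    obtain ⟨x, y, h3, h4, h5⟩ := h1 ⟨q, hqV⟩ (mem_V.2 hq)
    exact ⟨x, y, mem_V.1 h3, mem_V.1 h4, (isOrdPair_V htr).1 h5⟩
  · have hxV : x ∈ V := htr x a hx a.2
    obtain ⟨y, h3, h4⟩ := h2 ⟨x, hxV⟩ (mem_V.2 hx)
    refine ⟨y, (app_V htr).1 h3, fun z hz => ?_⟩
    have hz' := hz
    obtain ⟨q, h5, h6⟩ := hz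
    have hqV : q ∈ V := htr q f h6 f.2
    obtain ⟨x', y', h7, h8, h9⟩ := h1 ⟨q, hqV⟩ (mem_V.2 h6)
    have h10 := (isOrdPair_V htr).1 h9
    obtain ⟨c, d, h11, h12, h13⟩ := h5
    have hdV : d ∈ V := htr d q ((h13 d).2 (Or.inr rfl)) hqV
    have hzV : z ∈ V := htr z d ((h12 z).2 (Or.inr rfl)) hdV
    exact congrArg Subtype.val (h4 ⟨z, hzV⟩ ((app_V htr).2 hz'))

theorem exists_of_app (htr : IsTrans V) {f : V} {x y : N} (h : App (f : N) x y) :
    x ∈ V ∧ y ∈ V := by
  obtain ⟨q, h5, h6⟩ := h
  have hqV : q ∈ V := htr q f h6 f.2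
  obtain ⟨c, d, h11, h12, h13⟩ := h5
  have hdV : d ∈ V := htr d q ((h13 d).2 (Or.inr rfl)) hqV
  exact ⟨htr x d ((h12 x).2 (Or.inl rfl)) hdV, htr y d ((h12 y).2 (Or.inr rfl)) hdV⟩

theorem isInj_V (htr : IsTrans V) {f a b : V} (h : IsInj f a b) :
    IsInj (f : N) (a : N) (b : N) := by
  refine ⟨isFun_V htr h.1, fun x x' y h1 h2 => ?_⟩
  obtain ⟨hx, hy⟩ := exists_of_app htr h1
  obtain ⟨hx', -⟩ := exists_of_app htr h2
  exact congrArg Subtype.val (h.2 ⟨x, hx⟩ ⟨x', hx'⟩ ⟨y, hy⟩ ((app_V htr).2 h1)
    ((app_V htr).2 h2))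

theorem isBij_V (htr : IsTrans V) {f a b : V} (h : IsBij f a b) :
    IsBij (f : N) (a : N) (b : N) := by
  refine ⟨isInj_V htr h.1, fun y hy => ?_⟩
  have hyV : y ∈ V := htr y b hy b.2
  obtain ⟨x, hx⟩ := h.2 ⟨y, hyV⟩ (mem_V.2 hy)
  exact ⟨x, (app_V htr).1 hx⟩

theorem pMem_V (htr : IsTrans V) {x y s : V} : PMem x y s ↔ PMem (x : N) (y : N) (s : N) := by
  constructor
  · rintro ⟨q, h1, h2⟩
    exact ⟨q, (isOrdPair_V htr).1 h1, mem_V.1 h2⟩
  · rintro ⟨q, h1, h2⟩
    have hq : q ∈ V := htr q s h2 s.2
    exact ⟨⟨q, hq⟩, (isOrdPair_V htr).2 h1, mem_V.2 h2⟩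

theorem isPreorder_V (htr : IsTrans V) {P le : N} (hP : IsForcing V P le) :
    IsPreorder (⟨P, hP.memP⟩ : V) ⟨le, hP.memLe⟩ := by
  refine ⟨fun p hp => (pMem_V htr).2 (hP.refl _ (mem_V.1 hp)), fun p q r hp hq hr h1 h2 => ?_⟩
  exact (pMem_V htr).2 (hP.trans _ _ _ (mem_V.1 hp) (mem_V.1 hq) (mem_V.1 hr)
    ((pMem_V htr).1 h1) ((pMem_V htr).1 h2))

variable [hZ : Helper672.Plain.Zermelo N] [hZV : Helper672.Plain.Zermelo V]

theorem isNat_iff {n : N} : IsNat n ↔ ∃ m : INat N, m.val = n := by
  constructor
  · intro h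
    exact ⟨⟨n, fun i hi => h i ((ind_iff (M := N)).1 hi)⟩, rfl⟩
  · rintro ⟨m, rfl⟩ i hi
    exact m.prop i ((ind_iff (M := N)).2 hi)

theorem isNat_V (hN : ZF N) (htr : IsTrans V) {n : V} : IsNat n ↔ IsNat (n : N) := by
  constructor
  · intro h
    by_contra hcon
    have hS : D (fun v : Fin 1 → N => v 0 ∈ {z : N | ¬ Mem z (dom N (INat N))}) :=
      D.not (D.memf (DF.var _) (DF.const _))
    have h1 := small_sep hS ((dom V (INat V) : V) : N)
    have hdom : ∀ z : N, Mem z (dom N (INat N)) ↔ IsNat z := fun z =>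
      (mem_dom (M := N) (α := INat N)).trans (isNat_iff (N := N)).symm
    have hdomV : ∀ z : V, Mem z (dom V (INat V)) ↔ ∃ m : INat V, m.val = z := fun z =>
      mem_dom (M := V) (α := INat V)
    have h2 : Mem (n : N) h1.elt := by
      refine h1.mem.2 ⟨?_, fun h3 => hcon ((hdom _).1 h3)⟩
      exact mem_V.1 ((hdomV n).2 ((isNat_iff (N := V)).1 h))
    obtain ⟨z, hz, hmin⟩ := hN.foundation h1.elt ⟨_, h2⟩
    obtain ⟨h3, h4⟩ := h1.mem.1 hz
    have hzV : z ∈ V := htr z _ h3 (dom V (INat V) : V).2
    obtain ⟨m, hm⟩ := (hdomV ⟨z, hzV⟩).1 (mem_V.2 h3)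
    have hm' : ((m.val : V) : N) = z := congrArg Subtype.val hm
    refine h4 ((hdom z).2 ?_)
    rcases INat.eq_zero_or_succ m with h0 | ⟨k, hk⟩
    · have h5 : z = ((0 : INat N).val : N) := by
        refine (Small.eq_elt (M := N) small_empty (x := z) trivial fun y => ⟨fun hy => ?_, fun hy =>
          absurd hy (Set.notMem_empty y)⟩)
        have hyV := htr y z hy hzV
        have h6 : Mem (⟨y, hyV⟩ : V) m.val := by
          rw [hm]
          exact mem_V.2 hy
        rw [h0] at h6
        exact absurd h6 (INat.not_mem_zero (M := V))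
      exact (isNat_iff (N := N)).2 ⟨0, h5.symm⟩
    · have h5 : Mem ((k.val : V) : N) z := by
        rw [← hm', hk]
        exact mem_V.1 ((INat.mem_succ (M := V)).2 (Or.inr rfl))
      have h6 : IsNat ((k.val : V) : N) := by
        by_contra h7
        refine hmin _ (h1.mem.2 ⟨mem_V.1 ((hdomV _).2 ⟨k, rfl⟩), fun h8 => h7 ((hdom _).1 h8)⟩)
          h5
      obtain ⟨k', hk'⟩ := (isNat_iff (N := N)).1 h6
      refine (isNat_iff (N := N)).2 ⟨k'.succ, ?_⟩
      refine extM (M := N) fun y => ?_
      rw [INat.mem_succ (M := N), hk', ← hm', hk]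
      constructor
      · rintro (h8 | rfl)
        · have hyV := htr y _ h8 k.val.2
          exact (mem_V (x := ⟨y, hyV⟩) (y := k.succ.val)).1
            ((INat.mem_succ (M := V)).2 (Or.inl ((mem_V (x := ⟨y, hyV⟩) (y := k.val)).2 h8)))
        · exact (mem_V (x := k.val) (y := k.succ.val)).1 ((INat.mem_succ (M := V)).2 (Or.inr rfl))
      · intro h8
        have hyV := htr y _ h8 k.succ.val.2
        rcases (INat.mem_succ (M := V)).1 ((mem_V (x := ⟨y, hyV⟩) (y := k.succ.val)).2 h8) with
          h9 | h9
        · exact Or.inl ((mem_V (x := ⟨y, hyV⟩) (y := k.val)).1 h9)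
        · exact Or.inr (congrArg (Subtype.val : V → N) h9)
  · intro h
    obtain ⟨m, hm⟩ := nat_V htr h
    have h1 : m.val = n := Subtype.ext hm
    rw [← h1]
    exact (isNat_iff (N := V)).2 ⟨m, rfl⟩

theorem isOmega_V (hN : ZF N) (htr : IsTrans V) {w : V} (hw : IsOmega w) : IsOmega (w : N) := by
  intro n
  constructor
  · intro h
    have hn : n ∈ V := htr n w h w.2
    exact (isNat_V hN htr (n := ⟨n, hn⟩)).1 ((hw ⟨n, hn⟩).1 (mem_V.2 h))
  · intro h
    obtain ⟨m, hm⟩ := nat_V htr h
    rw [← hm]
    exact mem_V.1 ((hw _).2 ((isNat_iff (N := V)).2 ⟨m, rfl⟩))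

theorem hasCofOmega_V (hN : ZF N) (htr : IsTrans V) {κ : V} (h : HasCofOmega κ) :
    HasCofOmega (κ : N) := by
  obtain ⟨w, f, hw, hf, h1⟩ := h
  refine ⟨w, f, isOmega_V hN htr hw, isFun_V htr hf, fun a ha => ?_⟩
  have haV : a ∈ V := htr a κ ha κ.2
  obtain ⟨n, b, h2, h3⟩ := h1 ⟨a, haV⟩ (mem_V.2 ha)
  refine ⟨n, b, (app_V htr).1 h2, ?_⟩
  rcases h3 with h3 | h3
  · exact Or.inl (congrArg Subtype.val h3)
  · exact Or.inr (mem_V.1 h3)

/-- The main step. -/
theorem no_least (hN : ZF N) (hV : ZF V) (htr : IsTrans V) {P le : V} {G : N}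
    (hP : IsPreorder P le) (hG : IsGenericFilter V (P : N) (le : N) G)
    (hgen : ∀ x : N, ∃ τ, τ ∈ V ∧ IsValue G τ x)
    (hcof : ∀ κ : V, IsInfCardinal κ → HasCofOmega κ) {κ : N} (h1 : IsO κ) (h2 : DomFam κ)
    (h3 : ∀ a, Mem a κ → ¬ DomFam a) : False := by
  have hκV : κ ∈ V := ord_mem_V hN hV htr hP hG hgen h1
  refine no_cof hN h1 h2 h3 (hasCofOmega_V hN htr (κ := ⟨κ, hκV⟩) (hcof _ ⟨⟨?_, ?_⟩, ?_⟩))
  · exact (isO_V htr (x := ⟨κ, hκV⟩)).2 h1
  · rintro a ha ⟨f, hf⟩
    exact h3 a (mem_V.1 ha) (domFam_of_bij (isBij_V htr hf) h2)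
  · intro h4
    obtain ⟨m, hm⟩ := (isNat_iff (N := N)).1 ((isNat_V hN htr).1 h4)
    have hm' : m.val = κ := hm
    subst hm'
    rcases INat.eq_zero_or_succ m with rfl | ⟨k, rfl⟩
    · obtain ⟨φ, hφ, h5⟩ := h2.exists
      obtain ⟨x, -⟩ := h5 (zeroF N)
      exact INat.not_mem_zero (M := N) x.2
    · obtain ⟨x, h5, h6⟩ := not_succ_dom h1 h2 h3 ⟨k.val, (INat.mem_succ (M := N)).2 (Or.inr rfl)⟩
      exact h6 (((INat.mem_succ (M := N)).1 h5).elim Or.inr Or.inl)

theorem no_dominating (hN : ZF N) (hV : ZF V) (htr : IsTrans V) {P le : V} {G : N}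
    (hP : IsPreorder P le) (hG : IsGenericFilter V (P : N) (le : N) G)
    (hgen : ∀ x : N, ∃ τ, τ ∈ V ∧ IsValue G τ x)
    (hcof : ∀ κ : V, IsInfCardinal κ → HasCofOmega κ) {w S : N} (hw : IsOmega w)
    (hD : IsDominating w S) : ¬ IsWellOrderable S := by
  rintro ⟨α, F, hα, hF⟩
  obtain ⟨κ, h1, h2, h3⟩ := exists_least_dom hN hα (domFam_of_wo hw hD hF)
  exact no_least hN hV htr hP hG hgen hcof h1 h2 h3

end

end Pool.Agent.H634
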