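import Pool.Agent.H634.Col
import Pool.Graph.R_seed8.H525R3.FamU
import Pool.Graph.R_seed8.H525R3.Ground
import Pool.Graph.R_seed8.H525R3.Iso
import Pool.Graph.R_seed8.H635R2.NCol

/-!
# Generic extensions of countable models
-/

set_option maxHeartbeats 2000000
set_option linter.all false
set_option synthInstance.maxSize 2000

namespace Pool.Agent.H634

open FirstOrder FirstOrder.Language
open Pool.Agent.Helper672 Pool.Agent.Helper672.ZFA Pool.Agent.Helper672.ZFA.H635
open Pool.Agent.Helper672.Plain (LSet)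
open Pool.Agent.H525Emb (PMem IsTrans IsGenericFilter IsEval IsValue IsForcing IsForcingExtension)
open Pool.Agent.H635Amen (ZF)
open Pool.Agent.H525C (FamU chk chk_eq chk_inj mem_chk mem_chk_chk isOrdPair_chk tc trans_tc
  mem_tc Gr nn_isOrdPair nn_isPair)

universe u

noncomputable section

/-- The trivial group. -/
def Tr : Type u := PUnit

instance : Group Tr.{u} := inferInstanceAs (Group PUnit.{u+1})

section

variable {M : Type u} [L.Structure M] [hM : IsModel M]

instance : ITy M Tr.{u} := inferInstanceAs (ITy M PUnit.{u+1})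

instance : IMul M Tr.{u} := ⟨IntF.const (PUnit.unit : PUnit.{u+1})⟩

instance : IInv M Tr.{u} := ⟨IntF.const (PUnit.unit : PUnit.{u+1})⟩

variable {P : Type u}

instance instTrAct : MulAction Tr.{u} P where
  smul _ p := p
  one_smul _ := rfl
  mul_smul _ _ _ := rfl

variable [ITy M P]

instance : ISMul M Tr.{u} P := ⟨IntF.snd'⟩

variable [Preorder P] [ILE M P]

variable (M P) in
/-- The trivial symmetric system. -/
def S0 : SymSys M P Tr.{u} Tr.{u} where
  smul_le _ _ _ h := h
  U _ _ := True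
  int_U := Int.const _
  nonempty := ⟨1⟩
  one _ := trivial
  mul _ _ _ _ _ := trivial
  inv _ _ _ := trivial
  dir l _ := ⟨l, fun _ _ => ⟨trivial, trivial⟩⟩
  conj _ l := ⟨l, fun _ _ => trivial⟩

variable {α β : Type u} [ITy M α] [ITy M β]

theorem tw_tr (π : Tr.{u}) (E : α → P → α → Prop) : tw π E = E := rfl

theorem good0 {E : α → P → α → Prop} (hE : IG M E) (hw : WFI M E) : Good (S0 M P) E :=
  ⟨hE, hw, fun a => ⟨1, fun π _ p => FEq.refl p a⟩⟩

theorem symQ0 (E : α → P → α → Prop) (Q : α → P → Prop) : ∃ l, SymQ (S0 M P) E Q l :=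
  ⟨1, fun π _ a r h q hq => ⟨q, le_rfl, a, r, h, hq, FEq.refl q a⟩⟩

variable {G : Set P} (hG : IsGen M G)

/-- Internal families of elements of the extension. -/
abbrev Fm (f : β → NN (S0 M P) hG) : Prop := FamU hG (1 : Tr.{u}) (fun _ c => c) f

variable {hG}

theorem fm_nd {E : α → P → α → Prop} (h : Good (S0 M P) E) {g : β → α} (hg : IntF M g) :
    Fm hG (fun c => nd hG h (g c)) :=
  ⟨α, _, E, h, g, hg, fun _ => rfl, fun π _ p c => FEq.refl p (g c)⟩

end

attribute [local instance] Helper672.Plain.toL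

attribute [local instance] Pool.Agent.Q212.ZB.instModelL

section

variable {M : Type u} [LSet.Structure M] [hZ : Helper672.Plain.Zermelo M]

theorem gr_zf (hN : ZF M) : Gr M := ⟨fun _ => trivial, Q212.ZD.replL_of_zf hN, hN.foundation⟩

variable {P : Type u} [ITy M P] [Preorder P] [ILE M P] {G : Set P} (hG : IsGen M G)
variable (hg : Gr M)

/-- The ground model in the extension. -/
def gW : LSet.Substructure (NN (S0 M P) hG) := ⟨Set.range (chk hg hG), fun f => Empty.elim f⟩

theorem mem_gW {y : NN (S0 M P) hG} : y ∈ gW hG hg ↔ ∃ x, chk hg hG x = y := Iff.rfl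

theorem isTrans_gW : IsTrans (gW hG hg) := by
  rintro x y hxy ⟨z, rfl⟩
  obtain ⟨w, -, rfl⟩ := (mem_chk hg hG).1 hxy
  exact ⟨w, rfl⟩

theorem rel_mem {N : Type u} [LSet.Structure N] (v : Fin 2 → N) :
    Structure.RelMap (L := LSet) (Plain.Sym.mem : LSet.Relations 2) v ↔ Plain.Mem (v 0) (v 1) := by
  unfold Plain.Mem
  refine iff_of_eq (congrArg _ ?_)
  funext i
  fin_cases i <;> rfl

/-- The isomorphism with the ground model. -/
def eW : M ≃[LSet] gW (P := P) hG hg where
  toEquiv := Equiv.ofInjective (chk hg hG) fun x y h => (chk_inj hg hG).1 h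
  map_fun' := fun f => Empty.elim f
  map_rel' := by
    intro n r x
    cases r
    have h1 := rel_mem x
    have h2 := rel_mem (N := NN (S0 M P) hG) (fun i => chk hg hG (x i))
    rw [mem_chk_chk] at h2
    exact h2.trans h1.symm

theorem eW_apply (x : M) : ((eW hG hg x : gW hG hg) : NN (S0 M P) hG) = chk hg hG x := rfl

/-- The condition as an element of the extension. -/
def cc (p : P) : NN (S0 M P) hG := chk hg hG (code p)

theorem cc_inj {p q : P} : cc hG hg p = cc hG hg q ↔ p = q := by
  unfold cc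
  rw [chk_inj]
  exact ⟨fun h => ITy.inj h, fun h => h ▸ rfl⟩

theorem pmem_chk {x y s : M} :
    PMem (chk (S := S0 M P) hg hG x) (chk hg hG y) (chk hg hG s) ↔ Mem (op x y) s := by
  constructor
  · rintro ⟨q, h1, h2⟩
    obtain ⟨z, h3, rfl⟩ := (mem_chk hg hG).1 h2
    have h4 := (nn_isOrdPair hG).1 h1
    have h5 := (nn_isOrdPair hG).1 (isOrdPair_chk (S := S0 M P) hg hG x y)
    rw [← h5, chk_inj] at h4
    rw [← h4]
    exact h3
  · intro h
    exact ⟨_, isOrdPair_chk hg hG _ _, (mem_chk_chk hg hG).2 h⟩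

theorem exists_Gn : ∃ g : NN (S0 M P) hG, ∀ w, Plain.Mem w g ↔ ∃ p, p ∈ G ∧ w = cc hG hg p := by
  have hle : Int M (fun q : P × P => q.1 ≤ q.2) := ILE.out
  have hcd : ZFA.Int M (fun q : ZFA.El (tc hg (dom M P)) × P => q.1.1 = code q.2) :=
    Int.of_D₂ (S := fun v => v 0 = v 1) (D.eqf (DF.var _) (DF.var _)) fun a b => Iff.rfl
  obtain ⟨g, h⟩ := exists_set hG (good_chE (S := S0 M P) hg.found (tc hg (dom M P)))
    (Q := fun a s => ∃ p : P, a.1 = code p ∧ s ≤ p) (by
      refine Int.ex (Int.and ?_ ?_)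
      · exact Int.comp (p := fun q : ZFA.El (tc hg (dom M P)) × P => q.1.1 = code q.2)
          (f := fun q : (ZFA.El (tc hg (dom M P)) × P) × P => (q.1.1, q.2)) hcd (by (repeat' (first | with_reducible exact IntF.id | with_reducible exact IntF.fst' | with_reducible exact IntF.snd' | with_reducible exact IntF.const _ | with_reducible exact Int.const _ | assumption | with_reducible apply Int.and | with_reducible apply Int.or | with_reducible apply Int.not | with_reducible apply Int.imp | with_reducible apply Int.iff | with_reducible apply Int.ne | with_reducible apply Int.eq | with_reducible apply Int.mem | with_reducible apply Int.subset | with_reducible apply Int.ltN | with_reducible apply Int.leN | with_reducible apply Int.fin | with_reducible apply Int.unique | with_reducible apply Int.all | with_reducible apply Int.ex | with_reducible apply IntF.fst | with_reducible apply IntF.snd | with_reducible apply IntF.app | with_reducible apply IntF.ite | with_reducible apply IntF.sep | with_reducible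 apply IntF.lam | with_reducible apply IntF.insert | with_reducible apply IntF.singleton | with_reducible apply IntF.union | with_reducible apply IntF.inter | with_reducible apply IntF.sdiff | with_reducible apply IntF.isUnion | with_reducible apply IntF.iimage | with_reducible apply IntF.the | with_reducible apply IntF.irec | with_reducible_and_instances apply IntF.add | with_reducible_and_instances apply IntF.mul | with_reducible apply IntF.succ | with_reducible apply IntF.val | (with_reducible refine Int.comp ?_ ?_; assumption) | (with_reducible refine Int.comp₂ ?_ ?_ ?_; assumption) | (with_reducible refine Int.comp₃ ?_ ?_ ?_ ?_; assumption) | (with_reducible refine IntF.comp ?_ ?_; assumption) | (with_reducible refine IntF.comp₂ ?_ ?_ ?_; assumption) | (with_reducible refine IntF.comp₃ ?_ ?_ ?_ ?_; assumption) | (with_reducible refine Int.comp₄ ?_ ?_ ?_ ?_ ?_; assumption) | with_reducible apply IntF.pair)))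
      · exact Int.comp (p := fun q : P × P => q.1 ≤ q.2)
          (f := fun q : (ZFA.El (tc hg (dom M P)) × P) × P => (q.1.2, q.2)) hle (by (repeat' (first | with_reducible exact IntF.id | with_reducible exact IntF.fst' | with_reducible exact IntF.snd' | with_reducible exact IntF.const _ | with_reducible exact Int.const _ | assumption | with_reducible apply Int.and | with_reducible apply Int.or | with_reducible apply Int.not | with_reducible apply Int.imp | with_reducible apply Int.iff | with_reducible apply Int.ne | with_reducible apply Int.eq | with_reducible apply Int.mem | with_reducible apply Int.subset | with_reducible apply Int.ltN | with_reducible apply Int.leN | with_reducible apply Int.fin | with_reducible apply Int.unique | with_reducible apply Int.all | with_reducible apply Int.ex | with_reducible apply IntF.fst | with_reducible apply IntF.snd | with_reducible apply IntF.app | with_reducible apply IntF.ite | with_reducible apply IntF.sep | with_reducible apply IntF.lam | with_reducible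 apply IntF.insert | with_reducible apply IntF.singleton | with_reducible apply IntF.union | with_reducible apply IntF.inter | with_reducible apply IntF.sdiff | with_reducible apply IntF.isUnion | with_reducible apply IntF.iimage | with_reducible apply IntF.the | with_reducible apply IntF.irec | with_reducible_and_instances apply IntF.add | with_reducible_and_instances apply IntF.mul | with_reducible apply IntF.succ | with_reducible apply IntF.val | (with_reducible refine Int.comp ?_ ?_; assumption) | (with_reducible refine Int.comp₂ ?_ ?_ ?_; assumption) | (with_reducible refine Int.comp₃ ?_ ?_ ?_ ?_; assumption) | (with_reducible refine IntF.comp ?_ ?_; assumption) | (with_reducible refine IntF.comp₂ ?_ ?_ ?_; assumption) | (with_reducible refine IntF.comp₃ ?_ ?_ ?_ ?_; assumption) | (with_reducible refine Int.comp₄ ?_ ?_ ?_ ?_ ?_; assumption) | with_reducible apply IntF.pair))))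
      (symQ0 _ _)
  refine ⟨g, fun w => (h w).trans ?_⟩
  constructor
  · rintro ⟨a, s, hs, ⟨p, hp, hsp⟩, rfl⟩
    refine ⟨p, hG.up _ _ hs hsp, ?_⟩
    have h3 := chk_eq hg hG (S := S0 M P) (trans_tc hg _) a.2
    have h4 : cc hG hg p = chk hg hG a.1 := congrArg (chk hg hG) hp.symm
    exact h3.symm.trans h4.symm
  · rintro ⟨p, hp, rfl⟩
    have h5 : Mem (code p) (tc hg (dom M P)) :=
      trans_tc hg _ _ _ (mem_tc hg (dom M P)) (code_mem_dom (M := M) p)
    exact ⟨⟨code p, h5⟩, p, hp, ⟨p, rfl, le_rfl⟩, chk_eq hg hG (trans_tc hg _) _⟩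

/-- The generic filter in the extension. -/
def Gn : NN (S0 M P) hG := (exists_Gn hG hg).choose

theorem mem_Gn {w : NN (S0 M P) hG} : Plain.Mem w (Gn hG hg) ↔ ∃ p, p ∈ G ∧ w = cc hG hg p :=
  (exists_Gn hG hg).choose_spec w

theorem isGeneric_Gn (hle : Int M (fun q : P × P => q.1 ≤ q.2)) :
    IsGenericFilter (gW hG hg) (chk hg hG (dom M P)) (chk hg hG (gr hle)) (Gn hG hg) := by
  have hP : ∀ w, Plain.Mem w (chk (S := S0 M P) hg hG (dom M P)) ↔ ∃ p, w = cc hG hg p := by
    intro w
    rw [mem_chk]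
    constructor
    · rintro ⟨x, hx, rfl⟩
      obtain ⟨p, rfl⟩ := (mem_dom (M := M)).1 hx
      exact ⟨p, rfl⟩
    · rintro ⟨p, rfl⟩
      exact ⟨_, code_mem_dom (M := M) p, rfl⟩
  have hL : ∀ p q : P, PMem (cc hG hg p) (cc hG hg q) (chk hg hG (gr hle)) ↔ p ≤ q :=
    fun p q => (pmem_chk hG hg).trans (code_mem_gr hle (a := (p, q)))
  refine ⟨fun p hp => ?_, ?_, fun p q hp hq h => ?_, fun p q hp hq => ?_, ?_⟩
  · obtain ⟨p, -, rfl⟩ := (mem_Gn hG hg).1 hp
    exact (hP _).2 ⟨p, rfl⟩
  · obtain ⟨p, hp⟩ := hG.ne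
    exact ⟨_, (mem_Gn hG hg).2 ⟨p, hp, rfl⟩⟩
  · obtain ⟨p, hp', rfl⟩ := (mem_Gn hG hg).1 hp
    obtain ⟨q, rfl⟩ := (hP _).1 hq
    exact (mem_Gn hG hg).2 ⟨q, hG.up _ _ hp' ((hL _ _).1 h), rfl⟩
  · obtain ⟨p, hp', rfl⟩ := (mem_Gn hG hg).1 hp
    obtain ⟨q, hq', rfl⟩ := (mem_Gn hG hg).1 hq
    obtain ⟨r, hr, h1, h2⟩ := hG.dir _ _ hp' hq'
    exact ⟨_, (mem_Gn hG hg).2 ⟨r, hr, rfl⟩, (hL _ _).2 h1, (hL _ _).2 h2⟩
  · rintro D ⟨d, rfl⟩ h1 h2
    have hI : Int M (fun p : P => Mem (code p) d) :=
      Int.of_D (S := fun v => Mem (v 0) d) (D.memf (DF.var _) (DF.const _)) fun _ => Iff.rfl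
    obtain ⟨p, h3, h4⟩ := hG.dense _ hI fun p => by
      obtain ⟨w, h3, h4⟩ := h2 (cc hG hg p) ((hP _).2 ⟨p, rfl⟩)
      obtain ⟨q, rfl⟩ := (hP _).1 (h1 w h3)
      exact ⟨q, (hL _ _).1 h4, (mem_chk_chk hg hG).1 h3⟩
    exact ⟨cc hG hg p, (mem_chk_chk hg hG).2 h4, (mem_Gn hG hg).2 ⟨p, h3, rfl⟩⟩

theorem exists_val (hN : ZF M) (x : NN (S0 M P) hG) :
    ∃ τ, τ ∈ gW hG hg ∧ IsValue (Gn hG hg) τ x := by
  obtain ⟨n, rfl⟩ := exists_mk hG x
  obtain ⟨t, c, hc, ht, hcv⟩ := exists_names hN n.int n.good.wf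
  have hck : ∀ a, chk (S := S0 M P) hg hG (c a).1 = nd hG (good_chE hg.found t) (c a) := fun a =>
    chk_eq hg hG (fun x y hx hy => ht x y hx hy) (c a).2
  have hpm : ∀ a r p, PMem r p (chk (S := S0 M P) hg hG (c a).1) ↔
      ∃ b q, n.E b q a ∧ r = chk hg hG (c b).1 ∧ p = cc hG hg q := by
    intro a r p
    constructor
    · rintro ⟨q, h1, h2⟩
      obtain ⟨z, h3, rfl⟩ := (mem_chk hg hG).1 h2
      obtain ⟨b, q, h4, rfl⟩ := (hcv _ _).1 h3
      have h5 := (nn_isOrdPair hG).1 h1
      have h6 := (nn_isOrdPair hG).1 (isOrdPair_chk (S := S0 M P) hg hG (c b).1 (code q))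
      obtain ⟨h8, h9⟩ := op_inj (h5.symm.trans h6)
      exact ⟨b, q, h4, h8, h9⟩
    · rintro ⟨b, q, h1, rfl, rfl⟩
      exact ⟨_, isOrdPair_chk hg hG _ _, (mem_chk_chk hg hG).2 ((hcv _ _).2 ⟨b, q, h1, rfl⟩)⟩
  have hF1 : Fm hG (fun a => chk (S := S0 M P) hg hG (c a).1) := by
    have h1 := fm_nd (hG := hG) (good_chE (S := S0 M P) hg.found t) hc
    have h2 : (fun a => nd hG (good_chE (S := S0 M P) hg.found t) (c a)) =
        fun a => chk (S := S0 M P) hg hG (c a).1 := funext fun a => (hck a).symm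
    rw [← h2]
    exact h1
  have hF2 : Fm hG (fun a => nd hG n.good a) := fm_nd n.good IntF.id
  obtain ⟨R, hR⟩ := FamU.set (FamU.op (fun _ _ => rfl) hF1 hF2) (Z := fun _ => True)
    (Int.const _) fun _ _ _ _ => trivial
  have hR' : ∀ r y, PMem r y R ↔ ∃ a, r = chk hg hG (c a).1 ∧ y = nd hG n.good a := by
    intro r y
    constructor
    · rintro ⟨q, h1, h2⟩
      obtain ⟨a, -, h3⟩ := (hR q).1 h2
      have h4 := (nn_isOrdPair hG).1 h1
      exact ⟨a, op_inj (h4.symm.trans h3)⟩
    · rintro ⟨a, rfl, rfl⟩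
      exact ⟨_, (nn_isOrdPair hG).2 rfl, (hR _).2 ⟨a, trivial, rfl⟩⟩
  refine ⟨_, ⟨(c n.root).1, rfl⟩, R, ?_, (hR' _ _).2 ⟨n.root, rfl, mk_eq_nd hG n⟩⟩
  intro σ y hy
  obtain ⟨a, rfl, rfl⟩ := (hR' _ _).1 hy
  constructor
  · intro z hz
    obtain ⟨b, s, hs, h1, rfl⟩ := (mem_nd hG n.good).1 hz
    exact ⟨chk hg hG (c b).1, cc hG hg s, (hpm _ _ _).2 ⟨b, s, h1, rfl, rfl⟩,
      (mem_Gn hG hg).2 ⟨s, hs, rfl⟩, (hR' _ _).2 ⟨b, rfl, rfl⟩⟩
  · intro r p h1 h2
    obtain ⟨b, q, h3, rfl, rfl⟩ := (hpm _ _ _).1 h1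
    obtain ⟨q', h4, h5⟩ := (mem_Gn hG hg).1 h2
    rw [cc_inj] at h5
    subst h5
    exact ⟨nd hG n.good b, (mem_nd hG n.good).2 ⟨b, q, h4, h3, rfl⟩, (hR' _ _).2 ⟨b, rfl, rfl⟩⟩

end

end

end Pool.Agent.H634
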