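import Pool.Agent.H634.Ext

/-!
# Generic extensions with a prescribed ground model
-/

set_option maxHeartbeats 2000000
set_option linter.all false
set_option synthInstance.maxSize 2000

namespace Pool.Agent.H634

open FirstOrder FirstOrder.Language
open Pool.Agent.Helper672 Pool.Agent.Helper672.ZFA Pool.Agent.Helper672.ZFA.H635
open Pool.Agent.Helper672.Plain (LSet)
open Pool.Agent.H525Emb (PMem IsTrans IsGenericFilter IsEval IsValue IsForcing IsForcingExtension)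
open Pool.Agent.H635Amen (ZF)
open Pool.Agent.H525C (FamU chk chk_eq chk_inj mem_chk mem_chk_chk isOrdPair_chk tc trans_tc
  mem_tc Gr nn_isOrdPair nn_isPair zf_of_equiv)

universe u

noncomputable section

/-! ### Transfer along an isomorphism -/

section

variable {A N : Type u} [LSet.Structure A] [LSet.Structure N] {φ : A ≃ N}
  (hφ : ∀ x y, Plain.Mem x y ↔ Plain.Mem (φ x) (φ y))

include hφ

theorem isPair_tr {p x y : A} : Plain.IsPair p x y ↔ Plain.IsPair (φ p) (φ x) (φ y) := by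
  constructor
  · intro h z
    obtain ⟨z, rfl⟩ := φ.surjective z
    rw [← hφ, h z, φ.apply_eq_iff_eq, φ.apply_eq_iff_eq]
  · intro h z
    rw [hφ, h, φ.apply_eq_iff_eq, φ.apply_eq_iff_eq]

theorem isOrdPair_tr {p x y : A} : Plain.IsOrdPair p x y ↔ Plain.IsOrdPair (φ p) (φ x) (φ y) := by
  constructor
  · rintro ⟨s, d, h1, h2, h3⟩
    exact ⟨_, _, (isPair_tr hφ).1 h1, (isPair_tr hφ).1 h2, (isPair_tr hφ).1 h3⟩
  · rintro ⟨s, d, h1, h2, h3⟩
    obtain ⟨s, rfl⟩ := φ.surjective s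
    obtain ⟨d, rfl⟩ := φ.surjective d
    exact ⟨_, _, (isPair_tr hφ).2 h1, (isPair_tr hφ).2 h2, (isPair_tr hφ).2 h3⟩

theorem pMem_tr {x y s : A} : PMem x y s ↔ PMem (φ x) (φ y) (φ s) := by
  constructor
  · rintro ⟨q, h1, h2⟩
    exact ⟨_, (isOrdPair_tr hφ).1 h1, (hφ _ _).1 h2⟩
  · rintro ⟨q, h1, h2⟩
    obtain ⟨q, rfl⟩ := φ.surjective q
    exact ⟨_, (isOrdPair_tr hφ).2 h1, (hφ _ _).2 h2⟩

theorem isEval_tr {G R : A} (h : IsEval (φ G) (φ R)) : IsEval G R := by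
  intro σ y hy
  obtain ⟨h1, h2⟩ := h _ _ ((pMem_tr hφ).1 hy)
  constructor
  · intro z hz
    obtain ⟨r, p, h3, h4, h5⟩ := h1 _ ((hφ _ _).1 hz)
    obtain ⟨r, rfl⟩ := φ.surjective r
    obtain ⟨p, rfl⟩ := φ.surjective p
    exact ⟨r, p, (pMem_tr hφ).2 h3, (hφ _ _).2 h4, (pMem_tr hφ).2 h5⟩
  · intro r p h3 h4
    obtain ⟨z, h5, h6⟩ := h2 _ _ ((pMem_tr hφ).1 h3) ((hφ _ _).1 h4)
    obtain ⟨z, rfl⟩ := φ.surjective z
    exact ⟨z, (hφ _ _).2 h5, (pMem_tr hφ).2 h6⟩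

theorem isValue_tr {G τ x : A} (h : IsValue (φ G) (φ τ) (φ x)) : IsValue G τ x := by
  obtain ⟨R, h1, h2⟩ := h
  obtain ⟨R, rfl⟩ := φ.surjective R
  exact ⟨R, isEval_tr hφ h1, (pMem_tr hφ).2 h2⟩

variable {V : LSet.Substructure A} {W : LSet.Substructure N} (hVW : ∀ x, x ∈ V ↔ φ x ∈ W)

include hVW

theorem isTrans_tr (h : IsTrans W) : IsTrans V := fun x y h1 h2 =>
  (hVW _).2 (h _ _ ((hφ _ _).1 h1) ((hVW _).1 h2))

theorem isGen_tr {P le G : A} (h : IsGenericFilter W (φ P) (φ le) (φ G)) :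
    IsGenericFilter V P le G := by
  refine ⟨fun p hp => (hφ _ _).2 (h.sub _ ((hφ _ _).1 hp)), ?_, fun p q hp hq h1 =>
    (hφ _ _).2 (h.upward _ _ ((hφ _ _).1 hp) ((hφ _ _).1 hq) ((pMem_tr hφ).1 h1)),
    fun p q hp hq => ?_, fun D hD h1 h2 => ?_⟩
  · obtain ⟨p, hp⟩ := h.nonempty
    obtain ⟨p, rfl⟩ := φ.surjective p
    exact ⟨p, (hφ _ _).2 hp⟩
  · obtain ⟨r, h1, h2, h3⟩ := h.directed _ _ ((hφ _ _).1 hp) ((hφ _ _).1 hq)
    obtain ⟨r, rfl⟩ := φ.surjective r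
    exact ⟨r, (hφ _ _).2 h1, (pMem_tr hφ).2 h2, (pMem_tr hφ).2 h3⟩
  · obtain ⟨d, h3, h4⟩ := h.generic (φ D) ((hVW _).1 hD) (fun d hd => by
      obtain ⟨d, rfl⟩ := φ.surjective d
      exact (hφ _ _).1 (h1 _ ((hφ _ _).2 hd))) (fun p hp => by
      obtain ⟨p, rfl⟩ := φ.surjective p
      obtain ⟨d, h3, h4⟩ := h2 _ ((hφ _ _).2 hp)
      exact ⟨_, (hφ _ _).1 h3, (pMem_tr hφ).1 h4⟩)
    obtain ⟨d, rfl⟩ := φ.surjective d
    exact ⟨d, (hφ _ _).2 h3, (hφ _ _).2 h4⟩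

end

attribute [local instance] Helper672.Plain.toL

attribute [local instance] Pool.Agent.Q212.ZB.instModelL

section

variable {M : Type u} [LSet.Structure M] [hZ : Helper672.Plain.Zermelo M]

theorem infinite_nat : Infinite (INat M) := by
  have h : StrictMono (fun n : ℕ => (INat.succ (M := M))^[n] 0) := strictMono_nat_of_lt_succ
    fun n => by
      rw [Function.iterate_succ_apply']
      exact INat.lt_succ_self _
  exact Infinite.of_injective _ h.injective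

theorem infinite_mod : Infinite M :=
  have := infinite_nat (M := M)
  Infinite.of_injective (fun n : INat M => n.val) fun _ _ h => INat.ext h

variable {P : Type u} [ITy M P] [Preorder P] [ILE M P] {G : Set P} (hG : IsGen M G)
variable (hg : Gr M)

theorem not_mem_gW (hnt : ∀ p : P, ∃ q r, q ≤ p ∧ r ≤ p ∧ ¬ ∃ s, s ≤ q ∧ s ≤ r) :
    ¬ Gn hG hg ∈ gW hG hg := by
  rintro ⟨g, h1⟩
  have hI : ZFA.Int M (fun p : P => ¬ Mem (code p) g) :=
    Int.of_D (S := fun v => ¬ Mem (v 0) g) (D.not (D.memf (DF.var _) (DF.const _)))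
      fun _ => Iff.rfl
  have key : ∀ p, Mem (code p) g ↔ p ∈ G := by
    intro p
    have h2 : Plain.Mem (cc hG hg p) (Gn hG hg) ↔ Mem (code p) g := by
      rw [← h1]
      exact mem_chk_chk hg hG
    rw [← h2, mem_Gn]
    constructor
    · rintro ⟨q, hq, h3⟩
      rwa [(cc_inj hG hg).1 h3]
    · exact fun h => ⟨p, h, rfl⟩
  obtain ⟨p, hp, h2⟩ := hG.dense _ hI fun p => by
    obtain ⟨q, r, hq, hr, h2⟩ := hnt p
    by_cases h3 : q ∈ G
    · refine ⟨r, hr, fun h4 => h2 ?_⟩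
      obtain ⟨s, -, h5, h6⟩ := hG.dir _ _ h3 ((key r).1 h4)
      exact ⟨s, h5, h6⟩
    · exact ⟨q, hq, fun h4 => h3 ((key q).1 h4)⟩
  exact h2 ((key p).2 hp)

theorem infinite_compl (hnt : ∀ p : P, ∃ q r, q ≤ p ∧ r ≤ p ∧ ¬ ∃ s, s ≤ q ∧ s ≤ r) :
    Infinite {x : NN (S0 M P) hG // ¬ x ∈ gW hG hg} := by
  have hnot := not_mem_gW hG hg hnt
  have := infinite_mod (M := M)
  have hpair : ∀ x y z : NN (S0 M P) hG, Plain.Mem z (up x y) ↔ z = x ∨ z = y :=
    fun x y => (nn_isPair hG).2 rfl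
  refine Infinite.of_injective (fun x : M => (⟨up (Gn hG hg) (chk hg hG x), fun h =>
    hnot (isTrans_gW hG hg _ _ ((hpair _ _ _).2 (Or.inl rfl)) h)⟩ :
      {x : NN (S0 M P) hG // ¬ x ∈ gW hG hg})) fun x y h => ?_
  have h1 : up (Gn hG hg) (chk (S := S0 M P) hg hG x) = up (Gn hG hg) (chk hg hG y) :=
    congrArg Subtype.val h
  have h2 : Plain.Mem (chk (S := S0 M P) hg hG x) (up (Gn hG hg) (chk hg hG y)) := by
    rw [← h1]
    exact (hpair _ _ _).2 (Or.inr rfl)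
  rcases (hpair _ _ _).1 h2 with h3 | h3
  · exact absurd ⟨x, h3⟩ hnot
  · exact (chk_inj hg hG).1 h3

end

/-- The substructure with the given carrier. -/
def subS {B : Type u} (sB : LSet.Structure B) (C : Set B) : LSet.Substructure B :=
  ⟨C, fun f => Empty.elim f⟩

section

variable {B : Type u} {C : Set B}

theorem exists_ext [Countable B] [hC : Infinite {x : B // ¬ x ∈ C}]
    (sT : LSet.Structure {x : B // x ∈ C}) [hZT : Helper672.Plain.Zermelo {x : B // x ∈ C}]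
    (hT : ZF {x : B // x ∈ C}) {P : Type u} [ITy {x : B // x ∈ C} P] [Preorder P]
    [ILE {x : B // x ∈ C} P]
    (hle : ZFA.Int {x : B // x ∈ C} (fun q : P × P => q.1 ≤ q.2)) (p₀ : P)
    (hnt : ∀ p : P, ∃ q r, q ≤ p ∧ r ≤ p ∧ ¬ ∃ s, s ≤ q ∧ s ≤ r) :
    ∃ sB : LSet.Structure B, (subS sB C).inducedStructure = sT ∧ ZF B ∧ IsTrans (subS sB C) ∧
      ∃ G : B, IsGenericFilter (subS sB C) (dom {x : B // x ∈ C} P).1 (gr hle).1 G ∧
        ∀ x : B, ∃ τ, τ ∈ subS sB C ∧ IsValue G τ x := by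
  obtain ⟨G, hG⟩ := exists_gen (M := {x : B // x ∈ C}) p₀
  have hg := gr_zf hT
  have hinf := infinite_compl hG hg hnt
  have hcN : Countable (NN (S0 {x : B // x ∈ C} P) hG) := by
    have h1 : Function.Surjective (NN.mk (S := S0 {x : B // x ∈ C} P) hG) := exists_mk hG
    have h2 : Countable (Nm (S0 {x : B // x ∈ C} P)) := by
      unfold Nm
      infer_instance
    exact h1.countable
  obtain ⟨e'⟩ : Nonempty ({x : B // ¬ x ∈ C} ≃
      {x : NN (S0 {x : B // x ∈ C} P) hG // ¬ x ∈ gW hG hg}) := nonempty_equiv_of_countable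
  let e := eW (P := P) hG hg
  classical
  let φ : B ≃ NN (S0 {x : B // x ∈ C} P) hG :=
    (Equiv.sumCompl (fun x => x ∈ C)).symm.trans
      ((Equiv.sumCongr e.toEquiv e').trans (Equiv.sumCompl (fun x => x ∈ gW hG hg)))
  have hφ1 : ∀ x : {x : B // x ∈ C}, φ x.1 = chk hg hG x := by
    intro x
    change (Equiv.sumCompl (fun x => x ∈ gW hG hg)) ((Equiv.sumCongr e.toEquiv e')
      ((Equiv.sumCompl (fun x => x ∈ C)).symm x.1)) = _
    rw [Equiv.sumCompl_symm_apply_of_pos x.2]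
    rfl
  have hφ2 : ∀ x : B, ¬ x ∈ C → ¬ φ x ∈ gW hG hg := by
    intro x hx
    have h1 : φ x = (e' ⟨x, hx⟩).1 := by
      change (Equiv.sumCompl (fun x => x ∈ gW hG hg)) ((Equiv.sumCongr e.toEquiv e')
        ((Equiv.sumCompl (fun x => x ∈ C)).symm x)) = _
      rw [Equiv.sumCompl_symm_apply_of_neg hx]
      rfl
    rw [h1]
    exact (e' ⟨x, hx⟩).2
  let sB : LSet.Structure B := φ.symm.inducedStructure
  have hφ : ∀ x y : B, Plain.Mem x y ↔ Plain.Mem (φ x) (φ y) := by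
    intro x y
    have h1 := rel_mem (N := NN (S0 {x : B // x ∈ C} P) hG) (φ ∘ ![x, y])
    exact h1
  have hVW : ∀ x, x ∈ subS sB C ↔ φ x ∈ gW hG hg := by
    intro x
    constructor
    · intro h
      rw [hφ1 ⟨x, h⟩]
      exact ⟨_, rfl⟩
    · intro h
      by_contra h1
      exact hφ2 x h1 h
  have hst : (subS sB C).inducedStructure = sT := by
    have h1 : ∀ x y : {x : B // x ∈ C}, Plain.Mem x.1 y.1 ↔ Plain.Mem x y := by
      intro x y
      rw [hφ, hφ1, hφ1, mem_chk_chk]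
      exact Iff.rfl
    refine Structure.ext ?_ ?_
    · funext n f
      exact Empty.elim f
    · funext n r v
      cases r
      have h2 := rel_mem (N := {x : B // x ∈ C}) v
      have h3 := rel_mem (N := B) (fun i => (v i).1)
      exact propext (h3.trans ((h1 _ _).trans h2.symm))
  refine ⟨sB, hst, zf_of_equiv φ.symm.inducedStructureEquiv (nn_zf hG (coll_of_zf hT)),
    isTrans_tr hφ hVW (isTrans_gW hG hg), φ.symm (Gn hG hg), ?_, fun x => ?_⟩
  · refine isGen_tr hφ hVW ?_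
    rw [hφ1, hφ1, φ.apply_symm_apply]
    exact isGeneric_Gn hG hg hle
  · obtain ⟨τ, ⟨t, rfl⟩, h2⟩ := exists_val hG hg hT (φ x)
    refine ⟨t.1, t.2, isValue_tr hφ ?_⟩
    rw [hφ1, φ.apply_symm_apply]
    exact h2

end

end

end Pool.Agent.H634
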