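import Pool.Agent.H634.Nm2
import Pool.Agent.H634.Card2

/-!
# Functions in the ground model and in the extension
-/

set_option maxHeartbeats 2000000
set_option linter.all false
set_option synthInstance.maxSize 2000

namespace Pool.Agent.H634

open FirstOrder FirstOrder.Language
open Pool.Agent.Helper672.ZFA
open Pool.Agent.Helper672.ZFA.H635 (IWO gr mem_gr code_mem_gr)
open Pool.Agent.H310
open Pool.Agent.H310Cards
open Pool.Agent.Q212.ZA
open Pool.Agent.Q212.ZB
open Pool.Agent.Q212.ZC
open Pool.Agent.Q212.ZForce (IsPreorder)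
open Pool.Agent.Q212.ZD
open Pool.Agent.H635Amen (ZF)
open Pool.Agent.H525Emb (PMem IsTrans IsGenericFilter IsEval IsValue IsForcing IsForcingExtension)
open Pool.Agent.H525C (IsO ord_comp)

universe u

attribute [local instance] Helper672.Plain.toL

attribute [local instance] Pool.Agent.Q212.ZB.instModelL Pool.Agent.Q212.ZB.instPEl

noncomputable section

section

variable {N : Type u} [hs : Helper672.Plain.LSet.Structure N]
  {V : Helper672.Plain.LSet.Substructure N}
variable [hZ : Helper672.Plain.Zermelo N] [hZV : Helper672.Plain.Zermelo V]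

theorem exists_nu (hN : ZF N) (htr : IsTrans V) (m : INat V) :
    ∃ n : INat N, n.val = ((m.val : V) : N) :=
  (isNat_iff (N := N)).1 ((isNat_V hN htr).1 ((isNat_iff (N := V)).2 ⟨m, rfl⟩))

/-- The natural numbers of the ground model as natural numbers of the extension. -/
def nu (hN : ZF N) (htr : IsTrans V) (m : INat V) : INat N := Classical.choose (exists_nu hN htr m)

theorem nu_val (hN : ZF N) (htr : IsTrans V) (m : INat V) :
    (nu hN htr m).val = ((m.val : V) : N) := Classical.choose_spec (exists_nu hN htr m)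

theorem nu_surj (hN : ZF N) (htr : IsTrans V) (n : INat N) : ∃ m : INat V, nu hN htr m = n := by
  obtain ⟨m, hm⟩ := nat_V htr ((isNat_iff (N := N)).2 ⟨n, rfl⟩)
  exact ⟨m, INat.ext ((nu_val hN htr m).trans hm)⟩

theorem nu_inj (hN : ZF N) (htr : IsTrans V) {m m' : INat V} (h : nu hN htr m = nu hN htr m') :
    m = m' := by
  have h1 : ((m.val : V) : N) = ((m'.val : V) : N) := by
    rw [← nu_val hN htr, ← nu_val hN htr, h]
  exact INat.ext (Subtype.ext h1)

theorem leq_V {x y : V} : Leq x y ↔ Leq (x : N) (y : N) :=
  or_congr Subtype.ext_iff mem_V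

theorem nu_le (hN : ZF N) (htr : IsTrans V) {m m' : INat V} :
    nu hN htr m ≤ nu hN htr m' ↔ m ≤ m' := by
  rw [← leq_nat (M := N), ← leq_nat (M := V), nu_val, nu_val]
  exact leq_V.symm

theorem nu_lt (hN : ZF N) (htr : IsTrans V) {m m' : INat V} :
    nu hN htr m < nu hN htr m' ↔ m < m' := by
  rw [← not_le, nu_le, not_le]

/-- The elements of a set of the ground model as elements in the extension. -/
def ke {c : V} (x : PEl c) : PEl (c : N) := ⟨(x.1 : N), mem_V.1 x.2⟩

theorem ke_surj (htr : IsTrans V) {c : V} (z : PEl (c : N)) : ∃ x : PEl c, ke x = z :=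
  ⟨⟨⟨z.1, htr _ _ z.2 c.2⟩, mem_V.2 z.2⟩, rfl⟩

theorem ke_inj {c : V} {x y : PEl c} (h : ke x = ke y) : x = y :=
  Subtype.ext (Subtype.ext (congrArg Subtype.val h : (ke x).1 = (ke y).1))

theorem code_key (hN : ZF N) (htr : IsTrans V) {c : V} (a : PEl c) (k v : INat V) :
    ((code (M := V) ((a, k), v) : V) : N) = code (M := N) ((ke a, nu hN htr k), nu hN htr v) := by
  change ((op (op a.1 k.val) v.val : V) : N) = op (op (a.1 : N) (nu hN htr k).val)
    (nu hN htr v).val
  rw [op_V htr, op_V htr, nu_val, nu_val]

/-- The table of a family of functions. -/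
theorem exists_tab (hN : ZF N) (htr : IsTrans V) {c : V}
    {φ : PEl (c : N) → IFun N (INat N) (INat N)} (hφ : IntF N φ) :
    ∃ x : N, ∀ (a : PEl c) (k v : INat V),
      Helper672.Plain.Mem ((code (M := V) ((a, k), v) : V) : N) x ↔
        φ (ke a) (nu hN htr k) = nu hN htr v := by
  have hI : Int N (fun z : (PEl (c : N) × INat N) × INat N => φ z.1.1 z.1.2 = z.2) := by (repeat' (first | with_reducible exact IntF.id | with_reducible exact IntF.fst' | with_reducible exact IntF.snd' | with_reducible exact IntF.const _ | with_reducible exact Int.const _ | assumption | with_reducible apply Int.and | with_reducible apply Int.or | with_reducible apply Int.not | with_reducible apply Int.imp | with_reducible apply Int.iff | with_reducible apply Int.ne | with_reducible apply Int.eq | with_reducible apply Int.mem | with_reducible apply Int.subset | with_reducible apply Int.ltN | with_reducible apply Int.leN | with_reducible apply Int.fin | with_reducible apply Int.unique | with_reducible apply Int.all | with_reducible apply Int.ex | with_reducible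 apply IntF.fst | with_reducible apply IntF.snd | with_reducible apply IntF.app | with_reducible apply IntF.ite | with_reducible apply IntF.sep | with_reducible apply IntF.lam | with_reducible apply IntF.insert | with_reducible apply IntF.singleton | with_reducible apply IntF.union | with_reducible apply IntF.inter | with_reducible apply IntF.sdiff | with_reducible apply IntF.isUnion | with_reducible apply IntF.iimage | with_reducible apply IntF.the | with_reducible apply IntF.irec | with_reducible_and_instances apply IntF.add | with_reducible_and_instances apply IntF.mul | with_reducible apply IntF.succ | with_reducible apply IntF.val | (with_reducible refine Int.comp ?_ ?_; assumption) | (with_reducible refine Int.comp₂ ?_ ?_ ?_; assumption) | (with_reducible refine Int.comp₃ ?_ ?_ ?_ ?_; assumption) | (with_reducible refine IntF.comp ?_ ?_; assumption) | (with_reducible refine IntF.comp₂ ?_ ?_ ?_; assumption) | (with_reducible refine IntF.comp₃ ?_ ?_ ?_ ?_; assumption) | (with_reducible refine Int.comp₄ ?_ ?_ ?_ ?_ ?_; assumption) |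 with_reducible apply IntF.pair))
  refine ⟨code (M := N) (sep N fun z : (PEl (c : N) × INat N) × INat N => φ z.1.1 z.1.2 = z.2),
    fun a k v => ?_⟩
  rw [code_key hN htr]
  refine (code_mem_code (M := N)).trans ?_
  constructor
  · rintro ⟨z, h1, h2⟩
    have h3 := ITy.inj (M := N) h2
    rw [h3] at h1
    exact (mem_sep hI).1 h1
  · intro h
    exact ⟨_, (mem_sep hI).2 h, rfl⟩

variable {K Λ Q : Type u} [ITy V K] [ITy V Λ] [ITy V Q] {U : Univ V K Λ Q} {a₀ : K}
variable {G : N}

/-- Families of functions that are given by an internal relation. -/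
theorem exists_fam (hN : ZF N) (hG : GenC U a₀ G) {c : V}
    {R : Pc U a₀ → (PEl c × INat V) × INat V → Prop}
    (hR : Int V (fun x : Pc U a₀ × ((PEl c × INat V) × INat V) => R x.1 x.2))
    (tot : ∀ a k, ∃ p v, Hp (V := V) G p ∧ R p ((a, k), v))
    (unq : ∀ p p' a k v v', Hp (V := V) G p → Hp (V := V) G p' → R p ((a, k), v) →
      R p' ((a, k), v') → v = v') :
    ∃ φ : PEl (c : N) → IFun N (INat N) (INat N), IntF N φ ∧ ∀ a k v,
      φ (ke a) (nu hN hG.tr k) = nu hN hG.tr v ↔ ∃ p, Hp (V := V) G p ∧ R p ((a, k), v) := by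
  have htr := hG.tr
  obtain ⟨y, hy⟩ := exists_gset htr (int_leC U a₀) hG.gen hR
  have hy' : ∀ a k v, Mem (code (M := N) ((ke a, nu hN htr k), nu hN htr v)) y ↔
      ∃ p, Hp (V := V) G p ∧ R p ((a, k), v) := by
    intro a k v
    rw [← code_key hN htr]
    refine (hy _).trans ?_
    constructor
    · rintro ⟨z, p, h1, h2, h3⟩
      rw [code_injV (V := V) h3] at h2
      exact ⟨p, h1, h2⟩
    · rintro ⟨p, h1, h2⟩
      exact ⟨_, p, h1, h2, rfl⟩
  have hI : Int N (fun z : (PEl (c : N) × INat N) × INat N => Mem (code z) y) :=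
    Int.of_D (S := fun v => Mem (v 0) y) (D.memf (DF.var _) (DF.const _)) fun a => Iff.rfl
  have hF : IntF N (fun x : PEl (c : N) × INat N => the (fun v : INat N => Mem (code (x, v)) y) 0) :=
    IntF.the (p := fun (x : PEl (c : N) × INat N) v => Mem (code (x, v)) y) hI (IntF.const _)
  refine ⟨fun a => lam N (fun k => the (fun v : INat N => Mem (code ((a, k), v)) y) 0),
    IntF.lam (f := fun a k => the (fun v : INat N => Mem (code ((a, k), v)) y) 0) hF,
    fun a k v => ?_⟩
  have h1 : lam N (fun k => the (fun v : INat N => Mem (code ((ke a, k), v)) y) 0)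
      (nu hN htr k) = the (fun v : INat N => Mem (code ((ke a, nu hN htr k), v)) y) 0 :=
    lam_apply (IntF.slice (f := fun (a : PEl (c : N)) k =>
      the (fun v : INat N => Mem (code ((a, k), v)) y) 0) hF (ke a)) _
  rw [h1, ← hy']
  obtain ⟨p, w, h2, h3⟩ := tot a k
  have h4 : the (fun v : INat N => Mem (code ((ke a, nu hN htr k), v)) y) 0 = nu hN htr w := by
    refine the_eq ⟨nu hN htr w, (hy' a k w).2 ⟨p, h2, h3⟩, fun w' h5 => ?_⟩
      ((hy' a k w).2 ⟨p, h2, h3⟩)
    obtain ⟨w', rfl⟩ := nu_surj hN htr w'
    obtain ⟨p', h6, h7⟩ := (hy' a k w').1 h5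
    rw [unq _ _ _ _ _ _ h6 h2 h7 h3]
  rw [h4]
  constructor
  · intro h5
    rw [← h5]
    exact (hy' a k w).2 ⟨p, h2, h3⟩
  · intro h5
    obtain ⟨p', h6, h7⟩ := (hy' a k v).1 h5
    rw [unq _ _ _ _ _ _ h6 h2 h7 h3]

end

end

end Pool.Agent.H634
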