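import Pool.Agent.H634.Fin1

/-!
# Bounded and unbounded families in the extension
-/

set_option maxHeartbeats 2000000
set_option linter.all false
set_option synthInstance.maxSize 2000

namespace Pool.Agent.H634

open FirstOrder FirstOrder.Language
open Pool.Agent.Helper672.ZFA
open Pool.Agent.Helper672.ZFA.H635 (IWO gr mem_gr code_mem_gr)
open Pool.Agent.H310
open Pool.Agent.H310Cards
open Pool.Agent.Q212.ZA
open Pool.Agent.Q212.ZB
open Pool.Agent.Q212.ZC
open Pool.Agent.Q212.ZForce (IsPreorder)
open Pool.Agent.Q212.ZD
open Pool.Agent.H635Amen (ZF)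
open Pool.Agent.H525Emb (PMem IsTrans IsGenericFilter IsEval IsValue IsForcing IsForcingExtension)
open Pool.Agent.H525C (IsO ord_comp)

universe u

attribute [local instance] Helper672.Plain.toL

attribute [local instance] Pool.Agent.Q212.ZB.instModelL Pool.Agent.Q212.ZB.instPEl

noncomputable section

section

variable {N : Type u} [hs : Helper672.Plain.LSet.Structure N]
  {V : Helper672.Plain.LSet.Substructure N}
variable [hZ : Helper672.Plain.Zermelo N] [hZV : Helper672.Plain.Zermelo V]
variable {κ lam : V} {Q : Type u} [ITy V Q] {U : Univ V (PEl κ) (PEl lam) Q} {a₀ : PEl κ}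
variable {G : N}

theorem GenC.two (hG : GenC U a₀ G) {p q : Pc U a₀} (hp : Hp (V := V) G p)
    (hq : Hp (V := V) G q) : ∃ r : Pc U a₀, Hp (V := V) G r ∧ p.1 ⊆ r.1 ∧ q.1 ⊆ r.1 := by
  obtain ⟨r, h1, h2, h3⟩ := hG.gnr.dir p q hp hq
  exact ⟨r, h1, h2, h3⟩

theorem val_unq (hG : GenC U a₀ G) {q : Q} {p p' : Pc U a₀} {k v v' : INat V}
    (hp : Hp (V := V) G p) (hp' : Hp (V := V) G p') (h1 : (q, sm a₀ k v) ∈ p.1)
    (h2 : (q, sm a₀ k v') ∈ p'.1) : v = v' := by
  obtain ⟨r, h3, h4, h5⟩ := hG.two hp hp'
  exact r.2.func q k v v' (subset_def.1 h4 _ h1) (subset_def.1 h5 _ h2)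

variable {lt : PEl κ → PEl κ → Prop}

/-- Families that are indexed by `κ` are bounded. -/
theorem bounded_fam (hN : ZF N) (hV : ZF V) (hG : GenC U a₀ G) (hW : IWO V (PEl κ) lt)
    (hKK : Sur V (PEl κ) (PEl κ × PEl κ)) (hKN : Sur V (PEl κ) (INat V))
    (hΛ : ¬ ∃ f : PEl lam → PEl κ, IntF V f ∧ Function.Injective f) (q₀ : Q)
    {φ : PEl (κ : N) → IFun N (INat N) (INat N)} (hφ : IntF N φ) :
    ∃ h, ∀ x, Les (φ x) h := by
  have htr := hG.tr
  obtain ⟨T, hT⟩ := exists_tab hN htr hφ
  obtain ⟨p₀, Dec, hNam, hD, hp₀, truth, truth'⟩ := exists_nam hN hV hG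
    (I := PEl κ × INat V) (C := INat V) (x := T)
    (fun i => by
      obtain ⟨v, hv⟩ := nu_surj hN htr (φ (ke i.1) (nu hN htr i.2))
      exact ⟨v, (hT i.1 i.2 v).2 hv.symm⟩)
    (fun i v v' h1 h2 =>
      nu_inj hN htr (((hT i.1 i.2 v).1 h1).symm.trans ((hT i.1 i.2 v').1 h2)))
  obtain ⟨s, hs1, hs2, hs3, hs4⟩ := exists_supp hNam hKK hKN
    (Sur.prod hKK ⟨fun x => x, IntF.id, fun x => ⟨x, rfl⟩⟩ hKN) q₀
  have hS : Spt U a₀ p₀.1 Dec s := ⟨hs1, hs2, hs3, hs4⟩
  obtain ⟨e, he, hei, hlb⟩ := U.full (LS U a₀ p₀.1 Dec s) s hs1
    (fun x hx => ((mem_LS hNam hs1).1 hx).1)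
  obtain ⟨α, hα⟩ := exists_miss hW hΛ hs1 he hei
  obtain ⟨q, hq⟩ : ∃ q, q = e α := ⟨_, rfl⟩
  have hqs : ∀ k, s k ≠ q := fun k => hq ▸ hα k
  have hqlb : U.lb q = LS U a₀ p₀.1 Dec s := hq ▸ (hlb α).1
  have hqch : ∀ η, U.ch q η = s η := hq ▸ (hlb α).2
  have hR : Int V (fun x : Pc U a₀ × ((PEl κ × INat V) × INat V) =>
      (q, sm a₀ x.2.1.2 x.2.2) ∈ x.1.1) := by
    (repeat' (first | with_reducible apply IntF.sm _ | with_reducible exact IntF.id | with_reducible exact IntF.fst' | with_reducible exact IntF.snd' | with_reducible exact IntF.const _ | with_reducible exact Int.const _ | assumption | with_reducible apply Int.and | with_reducible apply Int.or | with_reducible apply Int.not | with_reducible apply Int.imp | with_reducible apply Int.iff | with_reducible apply Int.ne | with_reducible apply Int.eq | with_reducible apply Int.mem | with_reducible apply Int.subset | with_reducible apply Int.ltN | with_reducible apply Int.leN | with_reducible apply Int.fin | with_reducible apply Int.unique | with_reducible apply Int.all | with_reducible apply Int.ex | with_reducible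 apply IntF.fst | with_reducible apply IntF.snd | with_reducible apply IntF.app | with_reducible apply IntF.ite | with_reducible apply IntF.sep | with_reducible apply IntF.lam | with_reducible apply IntF.insert | with_reducible apply IntF.singleton | with_reducible apply IntF.union | with_reducible apply IntF.inter | with_reducible apply IntF.sdiff | with_reducible apply IntF.isUnion | with_reducible apply IntF.iimage | with_reducible apply IntF.the | with_reducible apply IntF.irec | with_reducible_and_instances apply IntF.add | with_reducible_and_instances apply IntF.mul | with_reducible apply IntF.succ | with_reducible apply IntF.val | (with_reducible refine Int.comp ?_ ?_; assumption) | (with_reducible refine Int.comp₂ ?_ ?_ ?_; assumption) | (with_reducible refine Int.comp₃ ?_ ?_ ?_ ?_; assumption) | (with_reducible refine IntF.comp ?_ ?_; assumption) | (with_reducible refine IntF.comp₂ ?_ ?_ ?_; assumption) | (with_reducible refine IntF.comp₃ ?_ ?_ ?_ ?_; assumption) | (with_reducible refine Int.comp₄ ?_ ?_ ?_ ?_ ?_; assumption) | with_reducible apply IntF.pair))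
  obtain ⟨ψ, hψ, h1⟩ := exists_fam hN hG (c := κ)
    (R := fun p z => (q, sm a₀ z.1.2 z.2) ∈ p.1) hR
    (fun a k => by
      have hI : Int V (fun p : Pc U a₀ => ∃ v, (q, sm a₀ k v) ∈ p.1) := by (repeat' (first | with_reducible apply IntF.sm _ | with_reducible exact IntF.id | with_reducible exact IntF.fst' | with_reducible exact IntF.snd' | with_reducible exact IntF.const _ | with_reducible exact Int.const _ | assumption | with_reducible apply Int.and | with_reducible apply Int.or | with_reducible apply Int.not | with_reducible apply Int.imp | with_reducible apply Int.iff | with_reducible apply Int.ne | with_reducible apply Int.eq | with_reducible apply Int.mem | with_reducible apply Int.subset | with_reducible apply Int.ltN | with_reducible apply Int.leN | with_reducible apply Int.fin | with_reducible apply Int.unique | with_reducible apply Int.all | with_reducible apply Int.ex | with_reducible apply IntF.fst | with_reducible apply IntF.snd | with_reducible apply IntF.app | with_reducible apply IntF.ite | with_reducible apply IntF.sep | with_reducible apply IntF.lam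 | with_reducible apply IntF.insert | with_reducible apply IntF.singleton | with_reducible apply IntF.union | with_reducible apply IntF.inter | with_reducible apply IntF.sdiff | with_reducible apply IntF.isUnion | with_reducible apply IntF.iimage | with_reducible apply IntF.the | with_reducible apply IntF.irec | with_reducible_and_instances apply IntF.add | with_reducible_and_instances apply IntF.mul | with_reducible apply IntF.succ | with_reducible apply IntF.val | (with_reducible refine Int.comp ?_ ?_; assumption) | (with_reducible refine Int.comp₂ ?_ ?_ ?_; assumption) | (with_reducible refine Int.comp₃ ?_ ?_ ?_ ?_; assumption) | (with_reducible refine IntF.comp ?_ ?_; assumption) | (with_reducible refine IntF.comp₂ ?_ ?_ ?_; assumption) | (with_reducible refine IntF.comp₃ ?_ ?_ ?_ ?_; assumption) | (with_reducible refine Int.comp₄ ?_ ?_ ?_ ?_ ?_; assumption) | with_reducible apply IntF.pair))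
      obtain ⟨r, h2, v, h3⟩ := hG.below hI hp₀ (fun p hp => by
        obtain ⟨p', v, h4, h5, h6⟩ := dens_value hNam hW hS hqs hD hqlb hqch p.2 hp k
        exact ⟨⟨p', h4⟩, h5, v, h6⟩)
      exact ⟨r, v, h2, h3⟩)
    (fun p p' a k v v' h1 h2 h3 h4 => val_unq hG h1 h2 h3 h4)
  refine ⟨ψ (ke a₀), fun x => ?_⟩
  obtain ⟨ξ, rfl⟩ := ke_surj htr x
  have hI : Int V (fun p : Pc U a₀ => ∃ n, (q, pm ξ n) ∈ p.1) := by (repeat' (first | with_reducible apply IntF.pm | with_reducible exact IntF.id | with_reducible exact IntF.fst' | with_reducible exact IntF.snd' | with_reducible exact IntF.const _ | with_reducible exact Int.const _ | assumption | with_reducible apply Int.and | with_reducible apply Int.or | with_reducible apply Int.not | with_reducible apply Int.imp | with_reducible apply Int.iff | with_reducible apply Int.ne | with_reducible apply Int.eq | with_reducible apply Int.mem | with_reducible apply Int.subset | with_reducible apply Int.ltN | with_reducible apply Int.leN | with_reducible apply Int.fin | with_reducible apply Int.unique | with_reducible apply Int.all | with_reducible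 apply Int.ex | with_reducible apply IntF.fst | with_reducible apply IntF.snd | with_reducible apply IntF.app | with_reducible apply IntF.ite | with_reducible apply IntF.sep | with_reducible apply IntF.lam | with_reducible apply IntF.insert | with_reducible apply IntF.singleton | with_reducible apply IntF.union | with_reducible apply IntF.inter | with_reducible apply IntF.sdiff | with_reducible apply IntF.isUnion | with_reducible apply IntF.iimage | with_reducible apply IntF.the | with_reducible apply IntF.irec | with_reducible_and_instances apply IntF.add | with_reducible_and_instances apply IntF.mul | with_reducible apply IntF.succ | with_reducible apply IntF.val | (with_reducible refine Int.comp ?_ ?_; assumption) | (with_reducible refine Int.comp₂ ?_ ?_ ?_; assumption) | (with_reducible refine Int.comp₃ ?_ ?_ ?_ ?_; assumption) | (with_reducible refine IntF.comp ?_ ?_; assumption) | (with_reducible refine IntF.comp₂ ?_ ?_ ?_; assumption) | (with_reducible refine IntF.comp₃ ?_ ?_ ?_ ?_; assumption) | (with_reducible refine Int.comp₄ ?_ ?_ ?_ ?_ ?_; assumption) |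 with_reducible apply IntF.pair))
  obtain ⟨p₁, h2, n, h3⟩ := hG.below hI hp₀ (fun p hp => by
    obtain ⟨p', v, h4, h5, h6⟩ := dens_promise (a₀ := a₀) p.2 q ξ
    exact ⟨⟨p', h4⟩, h5, v, h6⟩)
  refine ⟨nu hN htr n, fun k hk => ?_⟩
  obtain ⟨k, rfl⟩ := nu_surj hN htr k
  obtain ⟨w, hw⟩ := nu_surj hN htr (φ (ke ξ) (nu hN htr k))
  obtain ⟨v, hv⟩ := nu_surj hN htr (ψ (ke a₀) (nu hN htr k))
  rw [← hw, ← hv, nu_le]
  obtain ⟨p₂, h4, h5⟩ := truth' (ξ, k) w ((hT ξ k w).2 hw.symm)
  obtain ⟨p₃, h6, h7⟩ := (h1 a₀ k v).1 hv.symm
  obtain ⟨r₁, g1, g2, g3⟩ := hG.two hp₀ h2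
  obtain ⟨r₂, g4, g5, g6⟩ := hG.two h4 h6
  obtain ⟨r, g7, g8, g9⟩ := hG.two g1 g4
  refine le_of_promise hNam hs1 hqlb hqch r.2 (sub_trans g2 g8)
    (subset_def.1 (sub_trans g3 g8) _ h3) (subset_def.1 (sub_trans g6 g9) _ h7)
    ((nu_le hN htr).1 hk) (hNam.mono _ _ _ _ p₂.2 r.2 (sub_trans g5 g9) h5)

/-- There is an unbounded family that is indexed by `lam`. -/
theorem unbounded_fam (hN : ZF N) (hV : ZF V) (hG : GenC U a₀ G) (hW : IWO V (PEl κ) lt)
    (hKK : Sur V (PEl κ) (PEl κ × PEl κ)) (hKN : Sur V (PEl κ) (INat V))
    (hΛ : ¬ ∃ f : PEl lam → PEl κ, IntF V f ∧ Function.Injective f) (q₀ : Q) :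
    ∃ φ : PEl (lam : N) → IFun N (INat N) (INat N), IntF N φ ∧ ¬ ∃ h, ∀ x, Les (φ x) h := by
  have htr := hG.tr
  obtain ⟨e, he, hei, hlb⟩ := U.full (N0 V (PEl κ)) (fun _ => q₀) (IntF.const _)
    (fun x hx => by
      rw [(mem_N0.1 hx).2]
      exact IFin.empty)
  have hR : Int V (fun x : Pc U a₀ × ((PEl lam × INat V) × INat V) =>
      (e x.2.1.1, sm a₀ x.2.1.2 x.2.2) ∈ x.1.1) := by
    (repeat' (first | with_reducible apply IntF.sm _ | with_reducible exact IntF.id | with_reducible exact IntF.fst' | with_reducible exact IntF.snd' | with_reducible exact IntF.const _ | with_reducible exact Int.const _ | assumption | with_reducible apply Int.and | with_reducible apply Int.or | with_reducible apply Int.not | with_reducible apply Int.imp | with_reducible apply Int.iff | with_reducible apply Int.ne | with_reducible apply Int.eq | with_reducible apply Int.mem | with_reducible apply Int.subset | with_reducible apply Int.ltN | with_reducible apply Int.leN | with_reducible apply Int.fin | with_reducible apply Int.unique | with_reducible apply Int.all | with_reducible apply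 Int.ex | with_reducible apply IntF.fst | with_reducible apply IntF.snd | with_reducible apply IntF.app | with_reducible apply IntF.ite | with_reducible apply IntF.sep | with_reducible apply IntF.lam | with_reducible apply IntF.insert | with_reducible apply IntF.singleton | with_reducible apply IntF.union | with_reducible apply IntF.inter | with_reducible apply IntF.sdiff | with_reducible apply IntF.isUnion | with_reducible apply IntF.iimage | with_reducible apply IntF.the | with_reducible apply IntF.irec | with_reducible_and_instances apply IntF.add | with_reducible_and_instances apply IntF.mul | with_reducible apply IntF.succ | with_reducible apply IntF.val | (with_reducible refine Int.comp ?_ ?_; assumption) | (with_reducible refine Int.comp₂ ?_ ?_ ?_; assumption) | (with_reducible refine Int.comp₃ ?_ ?_ ?_ ?_; assumption) | (with_reducible refine IntF.comp ?_ ?_; assumption) | (with_reducible refine IntF.comp₂ ?_ ?_ ?_; assumption) | (with_reducible refine IntF.comp₃ ?_ ?_ ?_ ?_; assumption) | (with_reducible refine Int.comp₄ ?_ ?_ ?_ ?_ ?_; assumption) | with_reducible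 apply IntF.pair))
  obtain ⟨pt, hpt⟩ : ∃ p : Pc U a₀, Hp (V := V) G p := by
    obtain ⟨p, -, hp⟩ := hG.gnr.gen (sep V fun _ : Pc U a₀ => True) fun p =>
      ⟨p, (mem_sep (Int.const _)).2 trivial, leC_refl U a₀ p⟩
    exact ⟨p, hp⟩
  obtain ⟨ψ, hψ, h1⟩ := exists_fam hN hG (c := lam)
    (R := fun p z => (e z.1.1, sm a₀ z.1.2 z.2) ∈ p.1) hR
    (fun a k => by
      have hI : Int V (fun p : Pc U a₀ => ∃ v, (e a, sm a₀ k v) ∈ p.1) := by (repeat' (first | with_reducible apply IntF.sm _ | with_reducible exact IntF.id | with_reducible exact IntF.fst' | with_reducible exact IntF.snd' | with_reducible exact IntF.const _ | with_reducible exact Int.const _ | assumption | with_reducible apply Int.and | with_reducible apply Int.or | with_reducible apply Int.not | with_reducible apply Int.imp | with_reducible apply Int.iff | with_reducible apply Int.ne | with_reducible apply Int.eq | with_reducible apply Int.mem | with_reducible apply Int.subset | with_reducible apply Int.ltN | with_reducible apply Int.leN | with_reducible apply Int.fin | with_reducible apply Int.unique | with_reducible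 apply Int.all | with_reducible apply Int.ex | with_reducible apply IntF.fst | with_reducible apply IntF.snd | with_reducible apply IntF.app | with_reducible apply IntF.ite | with_reducible apply IntF.sep | with_reducible apply IntF.lam | with_reducible apply IntF.insert | with_reducible apply IntF.singleton | with_reducible apply IntF.union | with_reducible apply IntF.inter | with_reducible apply IntF.sdiff | with_reducible apply IntF.isUnion | with_reducible apply IntF.iimage | with_reducible apply IntF.the | with_reducible apply IntF.irec | with_reducible_and_instances apply IntF.add | with_reducible_and_instances apply IntF.mul | with_reducible apply IntF.succ | with_reducible apply IntF.val | (with_reducible refine Int.comp ?_ ?_; assumption) | (with_reducible refine Int.comp₂ ?_ ?_ ?_; assumption) | (with_reducible refine Int.comp₃ ?_ ?_ ?_ ?_; assumption) | (with_reducible refine IntF.comp ?_ ?_; assumption) | (with_reducible refine IntF.comp₂ ?_ ?_ ?_; assumption) | (with_reducible refine IntF.comp₃ ?_ ?_ ?_ ?_; assumption) | (with_reducible refine Int.comp₄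 ?_ ?_ ?_ ?_ ?_; assumption) | with_reducible apply IntF.pair))
      obtain ⟨r, h2, v, h3⟩ := hG.below hI hpt (fun p hp => by
        obtain ⟨p', v, h4, h5, h6⟩ := dens_leaf_value p.2 (hlb a).1 k
        exact ⟨⟨p', h4⟩, h5, v, h6⟩)
      exact ⟨r, v, h2, h3⟩)
    (fun p p' a k v v' h1 h2 h3 h4 => val_unq hG h1 h2 h3 h4)
  refine ⟨ψ, hψ, ?_⟩
  rintro ⟨h, hh⟩
  obtain ⟨T, hT⟩ := exists_tab hN htr (c := κ) (φ := fun _ => h) (IntF.const _)
  obtain ⟨p₀, Dec, hNam, hD, hp₀, truth, truth'⟩ := exists_nam hN hV hG
    (I := PEl κ × INat V) (C := INat V) (x := T)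
    (fun i => by
      obtain ⟨v, hv⟩ := nu_surj hN htr (h (nu hN htr i.2))
      exact ⟨v, (hT i.1 i.2 v).2 hv.symm⟩)
    (fun i v v' h1 h2 =>
      nu_inj hN htr (((hT i.1 i.2 v).1 h1).symm.trans ((hT i.1 i.2 v').1 h2)))
  obtain ⟨s, hs1, hs2, hs3, hs4⟩ := exists_supp hNam hKK hKN
    (Sur.prod hKK ⟨fun x => x, IntF.id, fun x => ⟨x, rfl⟩⟩ hKN) q₀
  have hS : Spt U a₀ p₀.1 Dec s := ⟨hs1, hs2, hs3, hs4⟩
  obtain ⟨α, hα⟩ := exists_miss hW hΛ hs1 he hei
  obtain ⟨m, hm⟩ := hh (ke α)
  obtain ⟨m, rfl⟩ := nu_surj hN htr m
  have hc := int_cond (M := V) U a₀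
  have hd := hNam.int
  have hI : Int V (fun p : Pc U a₀ => ∃ k v w, m ≤ k ∧ (e α, sm a₀ k v) ∈ p.1 ∧ w < v ∧
      ∀ r c, Cond U a₀ r → p.1 ⊆ r → Dec r (a₀, k) c → c = w) := by
    (repeat' (first | with_reducible apply IntF.sm _ | with_reducible exact IntF.id | with_reducible exact IntF.fst' | with_reducible exact IntF.snd' | with_reducible exact IntF.const _ | with_reducible exact Int.const _ | assumption | with_reducible apply Int.and | with_reducible apply Int.or | with_reducible apply Int.not | with_reducible apply Int.imp | with_reducible apply Int.iff | with_reducible apply Int.ne | with_reducible apply Int.eq | with_reducible apply Int.mem | with_reducible apply Int.subset | with_reducible apply Int.ltN | with_reducible apply Int.leN | with_reducible apply Int.fin | with_reducible apply Int.unique | with_reducible apply Int.all | with_reducible apply Int.ex | with_reducible apply IntF.fst | with_reducible apply IntF.snd | with_reducible apply IntF.app | with_reducible apply IntF.ite | with_reducible apply IntF.sep | with_reducible apply IntF.lam | with_reducible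 apply IntF.insert | with_reducible apply IntF.singleton | with_reducible apply IntF.union | with_reducible apply IntF.inter | with_reducible apply IntF.sdiff | with_reducible apply IntF.isUnion | with_reducible apply IntF.iimage | with_reducible apply IntF.the | with_reducible apply IntF.irec | with_reducible_and_instances apply IntF.add | with_reducible_and_instances apply IntF.mul | with_reducible apply IntF.succ | with_reducible apply IntF.val | (with_reducible refine Int.comp ?_ ?_; assumption) | (with_reducible refine Int.comp₂ ?_ ?_ ?_; assumption) | (with_reducible refine Int.comp₃ ?_ ?_ ?_ ?_; assumption) | (with_reducible refine IntF.comp ?_ ?_; assumption) | (with_reducible refine IntF.comp₂ ?_ ?_ ?_; assumption) | (with_reducible refine IntF.comp₃ ?_ ?_ ?_ ?_; assumption) | (with_reducible refine Int.comp₄ ?_ ?_ ?_ ?_ ?_; assumption) | with_reducible apply IntF.pair))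
  obtain ⟨p₁, h2, k, v, w, h3, h4, h5, h6⟩ := hG.below hI hp₀ (fun p hp => by
    obtain ⟨p', k, v, w, g1, g2, g3, g4, g5, g6⟩ :=
      dens_leaf hNam hW hS hα hD (hlb α).1 p.2 hp a₀ m
    exact ⟨⟨p', g1⟩, g2, k, v, w, g3, g4, g5, g6⟩)
  have h7 : ψ (ke α) (nu hN htr k) = nu hN htr v := (h1 α k v).2 ⟨p₁, h2, h4⟩
  obtain ⟨c, hc⟩ := nu_surj hN htr (h (nu hN htr k))
  obtain ⟨p₂, h8, h9⟩ := truth' (a₀, k) c ((hT a₀ k c).2 hc.symm)
  obtain ⟨r, g1, g2, g3⟩ := hG.two h2 h8
  have h10 : c = w := h6 r.1 c r.2 g2 (hNam.mono _ _ _ _ p₂.2 r.2 g3 h9)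
  have h11 := hm (nu hN htr k) ((nu_le hN htr).2 h3)
  rw [h7, ← hc, nu_le, h10] at h11
  exact absurd h11 (not_le.2 h5)

end

end

end Pool.Agent.H634
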