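import Pool.Agent.H634.Fin2

/-!
# The bounding number in the extension
-/

set_option maxHeartbeats 2000000
set_option linter.all false
set_option synthInstance.maxSize 2000

namespace Pool.Agent.H634

open FirstOrder FirstOrder.Language
open Pool.Agent.Helper672.ZFA
open Pool.Agent.Helper672.ZFA.H635 (IWO gr mem_gr code_mem_gr)
open Pool.Agent.H310
open Pool.Agent.H310Cards
open Pool.Agent.Q212.ZA
open Pool.Agent.Q212.ZB
open Pool.Agent.Q212.ZC
open Pool.Agent.Q212.ZForce (IsPreorder)
open Pool.Agent.Q212.ZD
open Pool.Agent.H635Amen (ZF)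
open Pool.Agent.H525Emb (PMem IsTrans IsGenericFilter IsEval IsValue IsForcing IsForcingExtension)
open Pool.Agent.H525C (IsO ord_comp)

universe u

section

variable {M : Type u} [L.Structure M] [hM : IsModel M]

/-- An enumeration of a family of finite subsets of a linearly ordered type. -/
theorem enum_fin {I Y : Type u} [ITy M I] [ITy M Y] {lt : Y → Y → Prop}
    (hlt : Int M (fun q : Y × Y => lt q.1 q.2)) (irr : ∀ a, ¬ lt a a)
    (tr : ∀ a b c, lt a b → lt b c → lt a c) (tri : ∀ a b, lt a b ∨ a = b ∨ lt b a)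
    {F : I → IPow M Y} (hF : IntF M F) (hfin : ∀ k, IFin (F k)) (y₀ : Y) :
    ∃ e : I × INat M → Y, IntF M e ∧ ∀ k y, y ∈ F k → ∃ j, e (k, j) = y := by
  have hcr := int_crd (M := M) (α := Y)
  have hI : Int M (fun q : (I × INat M) × Y => q.2 ∈ F q.1.1 ∧
      crd (sep M (fun z => z ∈ F q.1.1 ∧ lt z q.2)) = q.1.2) := by
    (repeat' (first | with_reducible exact IntF.id | with_reducible exact IntF.fst' | with_reducible exact IntF.snd' | with_reducible exact IntF.const _ | with_reducible exact Int.const _ | assumption | with_reducible apply Int.and | with_reducible apply Int.or | with_reducible apply Int.not | with_reducible apply Int.imp | with_reducible apply Int.iff | with_reducible apply Int.ne | with_reducible apply Int.eq | with_reducible apply Int.mem | with_reducible apply Int.subset | with_reducible apply Int.ltN | with_reducible apply Int.leN | with_reducible apply Int.fin | with_reducible apply Int.unique | with_reducible apply Int.all | with_reducible apply Int.ex | with_reducible apply IntF.fst | with_reducible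 apply IntF.snd | with_reducible apply IntF.app | with_reducible apply IntF.ite | with_reducible apply IntF.sep | with_reducible apply IntF.lam | with_reducible apply IntF.insert | with_reducible apply IntF.singleton | with_reducible apply IntF.union | with_reducible apply IntF.inter | with_reducible apply IntF.sdiff | with_reducible apply IntF.isUnion | with_reducible apply IntF.iimage | with_reducible apply IntF.the | with_reducible apply IntF.irec | with_reducible_and_instances apply IntF.add | with_reducible_and_instances apply IntF.mul | with_reducible apply IntF.succ | with_reducible apply IntF.val | (with_reducible refine Int.comp ?_ ?_; assumption) | (with_reducible refine Int.comp₂ ?_ ?_ ?_; assumption) | (with_reducible refine Int.comp₃ ?_ ?_ ?_ ?_; assumption) | (with_reducible refine IntF.comp ?_ ?_; assumption) | (with_reducible refine IntF.comp₂ ?_ ?_ ?_; assumption) | (with_reducible refine IntF.comp₃ ?_ ?_ ?_ ?_; assumption) | (with_reducible refine Int.comp₄ ?_ ?_ ?_ ?_ ?_; assumption) | with_reducible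 apply IntF.pair))
  have hmon : ∀ k a b, a ∈ F k → b ∈ F k → lt a b →
      crd (sep M (fun z => z ∈ F k ∧ lt z a)) < crd (sep M (fun z => z ∈ F k ∧ lt z b)) := by
    intro k a b ha hb hab
    have h1 : ∀ c : Y, Int M (fun z : Y => z ∈ F k ∧ lt z c) := fun c => by (repeat' (first | with_reducible exact IntF.id | with_reducible exact IntF.fst' | with_reducible exact IntF.snd' | with_reducible exact IntF.const _ | with_reducible exact Int.const _ | assumption | with_reducible apply Int.and | with_reducible apply Int.or | with_reducible apply Int.not | with_reducible apply Int.imp | with_reducible apply Int.iff | with_reducible apply Int.ne | with_reducible apply Int.eq | with_reducible apply Int.mem | with_reducible apply Int.subset | with_reducible apply Int.ltN | with_reducible apply Int.leN | with_reducible apply Int.fin | with_reducible apply Int.unique | with_reducible apply Int.all | with_reducible apply Int.ex | with_reducible apply IntF.fst | with_reducible apply IntF.snd | with_reducible apply IntF.app | with_reducible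 apply IntF.ite | with_reducible apply IntF.sep | with_reducible apply IntF.lam | with_reducible apply IntF.insert | with_reducible apply IntF.singleton | with_reducible apply IntF.union | with_reducible apply IntF.inter | with_reducible apply IntF.sdiff | with_reducible apply IntF.isUnion | with_reducible apply IntF.iimage | with_reducible apply IntF.the | with_reducible apply IntF.irec | with_reducible_and_instances apply IntF.add | with_reducible_and_instances apply IntF.mul | with_reducible apply IntF.succ | with_reducible apply IntF.val | (with_reducible refine Int.comp ?_ ?_; assumption) | (with_reducible refine Int.comp₂ ?_ ?_ ?_; assumption) | (with_reducible refine Int.comp₃ ?_ ?_ ?_ ?_; assumption) | (with_reducible refine IntF.comp ?_ ?_; assumption) | (with_reducible refine IntF.comp₂ ?_ ?_ ?_; assumption) | (with_reducible refine IntF.comp₃ ?_ ?_ ?_ ?_; assumption) | (with_reducible refine Int.comp₄ ?_ ?_ ?_ ?_ ?_; assumption) | with_reducible apply IntF.pair))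
    have h2 : IFin (sep M (fun z => z ∈ F k ∧ lt z a)) :=
      (hfin k).subset (subset_def.2 fun z hz => ((mem_sep (h1 a)).1 hz).1)
    have h3 : IFin (sep M (fun z => z ∈ F k ∧ lt z b)) :=
      (hfin k).subset (subset_def.2 fun z hz => ((mem_sep (h1 b)).1 hz).1)
    have h4 : ¬ a ∈ sep M (fun z => z ∈ F k ∧ lt z a) := fun h =>
      irr a ((mem_sep (h1 a)).1 h).2
    have h5 := crd_insert h2 h4
    have h6 : crd (insert a (sep M (fun z => z ∈ F k ∧ lt z a))) ≤
        crd (sep M (fun z => z ∈ F k ∧ lt z b)) := by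
      refine crd_mono h3 (subset_def.2 fun z hz => ?_)
      rcases mem_insert.1 hz with rfl | hz
      · exact (mem_sep (h1 b)).2 ⟨ha, hab⟩
      · obtain ⟨h7, h8⟩ := (mem_sep (h1 a)).1 hz
        exact (mem_sep (h1 b)).2 ⟨h7, tr _ _ _ h8 hab⟩
    rw [h5] at h6
    exact (INat.lt_succ_self _).trans_le h6
  refine ⟨fun q => the (fun z => z ∈ F q.1 ∧
      crd (sep M (fun w => w ∈ F q.1 ∧ lt w z)) = q.2) y₀,
    IntF.the hI (IntF.const _), fun k y hy =>
      ⟨crd (sep M (fun z => z ∈ F k ∧ lt z y)), ?_⟩⟩
  change the (fun z => z ∈ F k ∧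
      crd (sep M (fun w => w ∈ F k ∧ lt w z)) = crd (sep M (fun z => z ∈ F k ∧ lt z y))) y₀ = y
  refine the_eq ⟨y, ⟨hy, rfl⟩, ?_⟩ ⟨hy, rfl⟩
  rintro z ⟨h1, h2⟩
  rcases tri z y with h | h | h
  · exact absurd h2 (hmon _ _ _ h1 hy h).ne
  · exact h
  · exact absurd h2 (hmon _ _ _ hy h1 h).ne'

end

attribute [local instance] Helper672.Plain.toL

attribute [local instance] Pool.Agent.Q212.ZB.instModelL Pool.Agent.Q212.ZB.instPEl

section

variable {M : Type u} [Helper672.Plain.LSet.Structure M] [hZ : Helper672.Plain.Zermelo M]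

/-- The elements of the next cardinal embed. -/
theorem emb_of_next (hN : ZF M) {c k : M} (hc : IsO c) (hk : IsCardinal k) (hck : Mem c k)
    (h : ∀ d, Mem c d → Mem d k → ¬ IsCardinal d) {b : M} (hb : Mem b k) : Emb b c := by
  obtain ⟨l, h1, h2, h3⟩ := exists_next hN hc
  have hkO : IsO k := hk.1
  have hlO : IsO l := h1.1
  rcases ord_comp (M := M) (fun _ => trivial) (replL_of_zf hN) hN.foundation k l hkO hlO with
    h4 | h4 | h4
  · exact absurd (h3 k h4) (((isCardinal_iff hN).1 hk).2 c hck)
  · subst h4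
    exact h3 b hb
  · exact absurd h1 (h l h2 h4)

theorem aleph_omega {n : ℕ} : ∀ {k : M}, IsAleph (n + 1) k → ∃ w, IsOmega w ∧ Mem w k := by
  induction n with
  | zero =>
    rintro k ⟨-, c, h1, h2, -⟩
    exact ⟨c, h1, h2⟩
  | succ n ih =>
    rintro k ⟨h0, c, h1, h2, -⟩
    obtain ⟨w, hw, hwc⟩ := ih h1
    have hkO : IsO k := h0.1
    exact ⟨w, hw, hkO.1 _ _ h2 hwc⟩

/-- There is an unbounded family indexed by `a`. -/
def UnbFam (a : M) : Prop := ∃ w g : M, IsOmega w ∧ IsUnbFamily w g a

theorem unbFam_iff {a : M} : UnbFam a ↔ ∃ φ : PEl a → IFun M (INat M) (INat M), IntF M φ ∧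
    ¬ ∃ h, ∀ x, Les (φ x) h := by
  constructor
  · rintro ⟨w, g, hw, hg⟩
    obtain ⟨φ, hφ, h1⟩ := exists_family hw hg.1
    exact ⟨φ, hφ, (unbFamily_iff hw hg.1 h1).1 hg⟩
  · rintro ⟨φ, hφ, h⟩
    obtain ⟨g, hg, h1⟩ := mk_family (isOmega_dom (M := M)) a hφ
    exact ⟨_, g, isOmega_dom, (unbFamily_iff isOmega_dom hg h1).2 h⟩

/-- Transfer along an embedding. -/
theorem UnbFam.emb {a b : M} (h : UnbFam a) (he : Emb a b) : UnbFam b := by
  obtain ⟨φ, hφ, h1⟩ := unbFam_iff.1 h
  obtain ⟨g, hg, hgi⟩ := emb_iff.1 he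
  have hI : Int M (fun q : PEl b × IFun M (INat M) (INat M) => ∃ x, g x = q.1 ∧ φ x = q.2) := by
    (repeat' (first | with_reducible exact IntF.id | with_reducible exact IntF.fst' | with_reducible exact IntF.snd' | with_reducible exact IntF.const _ | with_reducible exact Int.const _ | assumption | with_reducible apply Int.and | with_reducible apply Int.or | with_reducible apply Int.not | with_reducible apply Int.imp | with_reducible apply Int.iff | with_reducible apply Int.ne | with_reducible apply Int.eq | with_reducible apply Int.mem | with_reducible apply Int.subset | with_reducible apply Int.ltN | with_reducible apply Int.leN | with_reducible apply Int.fin | with_reducible apply Int.unique | with_reducible apply Int.all | with_reducible apply Int.ex | with_reducible apply IntF.fst | with_reducible apply IntF.snd | with_reducible apply IntF.app | with_reducible apply IntF.ite | with_reducible apply IntF.sep | with_reducible apply IntF.lam | with_reducible apply IntF.insert | with_reducible apply IntF.singleton | with_reducible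 apply IntF.union | with_reducible apply IntF.inter | with_reducible apply IntF.sdiff | with_reducible apply IntF.isUnion | with_reducible apply IntF.iimage | with_reducible apply IntF.the | with_reducible apply IntF.irec | with_reducible_and_instances apply IntF.add | with_reducible_and_instances apply IntF.mul | with_reducible apply IntF.succ | with_reducible apply IntF.val | (with_reducible refine Int.comp ?_ ?_; assumption) | (with_reducible refine Int.comp₂ ?_ ?_ ?_; assumption) | (with_reducible refine Int.comp₃ ?_ ?_ ?_ ?_; assumption) | (with_reducible refine IntF.comp ?_ ?_; assumption) | (with_reducible refine IntF.comp₂ ?_ ?_ ?_; assumption) | (with_reducible refine IntF.comp₃ ?_ ?_ ?_ ?_; assumption) | (with_reducible refine Int.comp₄ ?_ ?_ ?_ ?_ ?_; assumption) | with_reducible apply IntF.pair))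
  have hψ : IntF M (fun y => the (fun f => ∃ x, g x = y ∧ φ x = f) (zeroF M)) :=
    IntF.the hI (IntF.const _)
  refine unbFam_iff.2 ⟨_, hψ, ?_⟩
  rintro ⟨f, hf⟩
  refine h1 ⟨f, fun x => ?_⟩
  have h3 := hf (g x)
  have h2 : the (fun f => ∃ x', g x' = g x ∧ φ x' = f) (zeroF M) = φ x := by
    refine the_eq ⟨φ x, ⟨x, rfl, rfl⟩, ?_⟩ ⟨x, rfl, rfl⟩
    rintro f' ⟨x', h3, rfl⟩
    rw [hgi h3]
  change Les (the (fun f => ∃ x', g x' = g x ∧ φ x' = f) (zeroF M)) f at h3
  rw [h2] at h3
  exact h3

end

section

variable {N : Type u} [hs : Helper672.Plain.LSet.Structure N]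
  {V : Helper672.Plain.LSet.Substructure N}
variable [hZ : Helper672.Plain.Zermelo N] [hZV : Helper672.Plain.Zermelo V]

theorem emb_V (htr : IsTrans V) {a b : V} (h : Emb a b) : Emb (a : N) (b : N) := by
  obtain ⟨f, h1, h2, h3⟩ := h
  have key : ∀ x y : V, Mem (op x y) f ↔ Mem (op (x : N) (y : N)) (f : N) := by
    intro x y
    rw [← op_V htr]
    exact mem_V
  have key2 : ∀ x y : N, Mem (op x y) (f : N) → x ∈ V ∧ y ∈ V := by
    intro x y h
    have h4 : App (f : N) x y := app_iff.2 h
    exact exists_of_app htr h4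
  refine ⟨f, fun x hx => ?_, fun x y z h4 h5 => ?_, fun x z y h4 h5 => ?_⟩
  · obtain ⟨y, h4, h5⟩ := h1 ⟨x, htr _ _ hx a.2⟩ ((mem_V (x := ⟨x, htr _ _ hx a.2⟩) (y := a)).2 hx)
    exact ⟨y, mem_V.1 h4, (key _ _).1 h5⟩
  · obtain ⟨hx, hy⟩ := key2 _ _ h4
    obtain ⟨-, hz⟩ := key2 _ _ h5
    exact congrArg Subtype.val (h2 ⟨x, hx⟩ ⟨y, hy⟩ ⟨z, hz⟩ ((key _ _).2 h4) ((key _ _).2 h5))
  · obtain ⟨hx, hy⟩ := key2 _ _ h4
    obtain ⟨hz, -⟩ := key2 _ _ h5
    exact congrArg Subtype.val (h3 ⟨x, hx⟩ ⟨z, hz⟩ ⟨y, hy⟩ ((key _ _).2 h4) ((key _ _).2 h5))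

theorem exists_tab2 (hN : ZF N) (htr : IsTrans V) {c d : V}
    {φ : PEl (c : N) → PEl (d : N)} (hφ : IntF N φ) :
    ∃ x : N, ∀ (a : PEl c) (b : PEl d),
      Helper672.Plain.Mem ((code (M := V) (a, b) : V) : N) x ↔ φ (ke a) = ke b := by
  have hI : Int N (fun z : PEl (c : N) × PEl (d : N) => φ z.1 = z.2) := by (repeat' (first | with_reducible exact IntF.id | with_reducible exact IntF.fst' | with_reducible exact IntF.snd' | with_reducible exact IntF.const _ | with_reducible exact Int.const _ | assumption | with_reducible apply Int.and | with_reducible apply Int.or | with_reducible apply Int.not | with_reducible apply Int.imp | with_reducible apply Int.iff | with_reducible apply Int.ne | with_reducible apply Int.eq | with_reducible apply Int.mem | with_reducible apply Int.subset | with_reducible apply Int.ltN | with_reducible apply Int.leN | with_reducible apply Int.fin | with_reducible apply Int.unique | with_reducible apply Int.all | with_reducible apply Int.ex | with_reducible apply IntF.fst | with_reducible apply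 IntF.snd | with_reducible apply IntF.app | with_reducible apply IntF.ite | with_reducible apply IntF.sep | with_reducible apply IntF.lam | with_reducible apply IntF.insert | with_reducible apply IntF.singleton | with_reducible apply IntF.union | with_reducible apply IntF.inter | with_reducible apply IntF.sdiff | with_reducible apply IntF.isUnion | with_reducible apply IntF.iimage | with_reducible apply IntF.the | with_reducible apply IntF.irec | with_reducible_and_instances apply IntF.add | with_reducible_and_instances apply IntF.mul | with_reducible apply IntF.succ | with_reducible apply IntF.val | (with_reducible refine Int.comp ?_ ?_; assumption) | (with_reducible refine Int.comp₂ ?_ ?_ ?_; assumption) | (with_reducible refine Int.comp₃ ?_ ?_ ?_ ?_; assumption) | (with_reducible refine IntF.comp ?_ ?_; assumption) | (with_reducible refine IntF.comp₂ ?_ ?_ ?_; assumption) | (with_reducible refine IntF.comp₃ ?_ ?_ ?_ ?_; assumption) | (with_reducible refine Int.comp₄ ?_ ?_ ?_ ?_ ?_; assumption) | with_reducible apply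 IntF.pair))
  refine ⟨code (M := N) (sep N fun z : PEl (c : N) × PEl (d : N) => φ z.1 = z.2),
    fun a b => ?_⟩
  have h0 : ((code (M := V) (a, b) : V) : N) = code (M := N) (ke a, ke b) := by
    change ((op a.1 b.1 : V) : N) = op (a.1 : N) (b.1 : N)
    rw [op_V htr]
  rw [h0]
  refine (code_mem_code (M := N)).trans ?_
  constructor
  · rintro ⟨z, h1, h2⟩
    have h3 := ITy.inj (M := N) h2
    rw [h3] at h1
    exact (mem_sep hI).1 h1
  · intro h
    exact ⟨_, (mem_sep hI).2 h, rfl⟩

variable {K Λ Q : Type u} [ITy V K] [ITy V Λ] [ITy V Q] {U : Univ V K Λ Q} {a₀ : K}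
variable {G : N}

/-- Cardinals are preserved. -/
theorem card_pres (hN : ZF N) (hV : ZF V) (hG : GenC U a₀ G) {c w : V} (hc : IsCardinal c)
    (hw : IsOmega w) (hwc : Mem w c) : IsCardinal (c : N) := by
  have htr := hG.tr
  have hcO : IsO c := hc.1
  refine (isCardinal_iff hN).2 ⟨(isO_V htr).1 hcO, fun b hb hE => ?_⟩
  obtain ⟨b, rfl⟩ : ∃ b' : V, (b' : N) = b := ⟨⟨b, htr _ _ hb c.2⟩, rfl⟩
  have hbc : Mem b c := mem_V.2 hb
  obtain ⟨g, hg, hgi⟩ := emb_iff.1 hE
  obtain ⟨y₀⟩ : Nonempty (PEl c) := ⟨⟨w, hwc⟩⟩
  obtain ⟨h, hh, hhs⟩ := sur_of_inj (ke y₀) hg hgi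
  obtain ⟨T, hT⟩ := exists_tab2 hN htr hh
  obtain ⟨p₀, Dec, hNam, hD, hp₀, truth, truth'⟩ := exists_nam hN hV hG
    (I := PEl b) (C := PEl c) (x := T)
    (fun i => by
      obtain ⟨v, hv⟩ := ke_surj htr (h (ke i))
      exact ⟨v, (hT i v).2 hv.symm⟩)
    (fun i v v' h1 h2 => ke_inj (((hT i v).1 h1).symm.trans ((hT i v').1 h2)))
  obtain ⟨F, hF, hFf, hFv⟩ := exists_vals hNam
  have hW := iwo_ord hV hcO
  obtain ⟨e, he, hes⟩ := enum_fin hW.int (fun a ha => not_mem_self' hV _ ha)
    (fun a b c => llt_trans hcO) hW.tri hF hFf y₀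
  refine card_no_sur hV hc hw hwc hbc he fun y => ?_
  obtain ⟨x, hx⟩ := hhs (ke y)
  obtain ⟨i, rfl⟩ := ke_surj htr x
  obtain ⟨p, h1, h2⟩ := truth' i y ((hT i y).2 hx)
  obtain ⟨r, h3, h4, h5⟩ := hG.gnr.dir p₀ p hp₀ h1
  obtain ⟨n, hn⟩ := hFv i r.1 y r.2 h4 (hNam.mono _ _ _ _ p.2 r.2 h5 h2)
  obtain ⟨j, hj⟩ := hes (i, n) y hn
  exact ⟨_, hj⟩

theorem aleph_pres (hN : ZF N) (hV : ZF V) (hG : GenC U a₀ G) : ∀ {n : ℕ} {k : V},
    IsAleph n k → IsAleph n (k : N) := by
  intro n
  induction n with
  | zero => exact fun h => isOmega_V hN hG.tr h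
  | succ n ih =>
    intro k hk
    obtain ⟨w, hw, hwk⟩ := aleph_omega hk
    obtain ⟨h1, c, h2, h3, h4⟩ := hk
    refine ⟨card_pres hN hV hG h1 hw hwk, c, ih h2, mem_V.1 h3, fun d h5 h6 h7 => ?_⟩
    obtain ⟨d, rfl⟩ : ∃ d' : V, (d' : N) = d := ⟨⟨d, hG.tr _ _ h6 k.2⟩, rfl⟩
    have hkO : IsO k := h1.1
    refine h4 d (mem_V.2 h5) (mem_V.2 h6) ⟨hkO.mem (mem_V.2 h6), fun a ha hf => ?_⟩
    obtain ⟨f, hf⟩ := hf
    exact h7.2 a (mem_V.1 ha) ⟨f, isBij_V hG.tr hf⟩

end

section

variable {N : Type u} [hs : Helper672.Plain.LSet.Structure N]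
  {V : Helper672.Plain.LSet.Substructure N}
variable [hZ : Helper672.Plain.Zermelo N] [hZV : Helper672.Plain.Zermelo V]
variable {κ lam : V} {Q : Type u} [ITy V Q] {U : Univ V (PEl κ) (PEl lam) Q} {a₀ : PEl κ}
variable {G : N}

/-- The bounding number of the extension. -/
theorem bounding_ext (hN : ZF N) (hV : ZF V) (hG : GenC U a₀ G) {n : ℕ} (hκ : IsAleph n κ)
    (hlam : IsCardinal lam) (hκl : Mem κ lam)
    (hnext : ∀ d, Mem κ d → Mem d lam → ¬ IsCardinal d) (q₀ : Q) :
    IsBoundingNumber (lam : N) ∧ IsAleph (n + 1) (lam : N) := by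
  obtain ⟨hκO, hκI⟩ := isAleph_ord hV hκ
  have hW := iwo_ord hV hκO
  have hKK := sur_sq hV hκO hκI
  have hKN := sur_nat hκI
  have hΛ : ¬ ∃ f : PEl lam → PEl κ, IntF V f ∧ Function.Injective f := fun h =>
    ((isCardinal_iff hV).1 hlam).2 κ hκl (emb_iff.2 h)
  have hal : IsAleph (n + 1) lam := ⟨hlam, κ, hκ, hκl, hnext⟩
  obtain ⟨w, hw, hwl⟩ := aleph_omega hal
  refine ⟨⟨card_pres hN hV hG hlam hw hwl, ?_, fun a ha hu => ?_⟩, aleph_pres hN hV hG hal⟩
  · exact unbFam_iff.2 (unbounded_fam hN hV hG hW hKK hKN hΛ q₀)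
  · obtain ⟨a, rfl⟩ : ∃ a' : V, (a' : N) = a := ⟨⟨a, hG.tr _ _ ha lam.2⟩, rfl⟩
    have h1 : Emb a κ := emb_of_next hV hκO hlam hκl hnext (mem_V.2 ha)
    obtain ⟨φ, hφ, h2⟩ := unbFam_iff.1 (UnbFam.emb hu (emb_V hG.tr h1))
    exact h2 (bounded_fam hN hV hG hW hKK hKN hΛ q₀ hφ)

end

end Pool.Agent.H634
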