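import Pool.Agent.H634.Dens

/-!
# The possible values of a name
-/

set_option maxHeartbeats 2000000
set_option linter.all false
set_option synthInstance.maxSize 2000

namespace Pool.Agent.H634

open FirstOrder FirstOrder.Language
open Pool.Agent.Helper672.ZFA
open Pool.Agent.Helper672.ZFA.H635 (IWO)
open Pool.Agent.H310
open Pool.Agent.Q212.ZA
open Pool.Agent.Q212.ZB (crd_mono)

universe u

noncomputable section

variable {M : Type u} [L.Structure M] [hM : IsModel M]
variable {K Λ Q I C : Type u} [ITy M K] [ITy M Λ] [ITy M Q] [ITy M I] [ITy M C]

/-- The values at `q`. -/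
def stm (a₀ : K) (p : IPow M (Q × Cd M K)) (q : Q) : IPow M (INat M × INat M) :=
  sep M fun y => (q, sm a₀ y.1 y.2) ∈ p

theorem int_stm' (a₀ : K) : Int M (fun x : (IPow M (Q × Cd M K) × Q) × (INat M × INat M) =>
    (x.1.2, sm a₀ x.2.1 x.2.2) ∈ x.1.1) := by
  (repeat' (first | with_reducible apply IntF.sm _ | with_reducible exact IntF.id | with_reducible exact IntF.fst' | with_reducible exact IntF.snd' | with_reducible exact IntF.const _ | with_reducible exact Int.const _ | assumption | with_reducible apply Int.and | with_reducible apply Int.or | with_reducible apply Int.not | with_reducible apply Int.imp | with_reducible apply Int.iff | with_reducible apply Int.ne | with_reducible apply Int.eq | with_reducible apply Int.mem | with_reducible apply Int.subset | with_reducible apply Int.ltN | with_reducible apply Int.leN | with_reducible apply Int.fin | with_reducible apply Int.unique | with_reducible apply Int.all | with_reducible apply Int.ex | with_reducible apply IntF.fst | with_reducible apply IntF.snd | with_reducible apply IntF.app | with_reducible apply IntF.ite | with_reducible apply IntF.sep | with_reducible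 apply IntF.lam | with_reducible apply IntF.insert | with_reducible apply IntF.singleton | with_reducible apply IntF.union | with_reducible apply IntF.inter | with_reducible apply IntF.sdiff | with_reducible apply IntF.isUnion | with_reducible apply IntF.iimage | with_reducible apply IntF.the | with_reducible apply IntF.irec | with_reducible_and_instances apply IntF.add | with_reducible_and_instances apply IntF.mul | with_reducible apply IntF.succ | with_reducible apply IntF.val | (with_reducible refine Int.comp ?_ ?_; assumption) | (with_reducible refine Int.comp₂ ?_ ?_ ?_; assumption) | (with_reducible refine Int.comp₃ ?_ ?_ ?_ ?_; assumption) | (with_reducible refine IntF.comp ?_ ?_; assumption) | (with_reducible refine IntF.comp₂ ?_ ?_ ?_; assumption) | (with_reducible refine IntF.comp₃ ?_ ?_ ?_ ?_; assumption) | (with_reducible refine Int.comp₄ ?_ ?_ ?_ ?_ ?_; assumption) | with_reducible apply IntF.pair))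

theorem int_stm (a₀ : K) : IntF M (fun x : IPow M (Q × Cd M K) × Q => stm a₀ x.1 x.2) :=
  IntF.sep (int_stm' a₀)

theorem mem_stm {a₀ : K} {p : IPow M (Q × Cd M K)} {q : Q} {k v : INat M} :
    (k, v) ∈ stm a₀ p q ↔ (q, sm a₀ k v) ∈ p :=
  mem_sep (Int.slice (p := fun (x : IPow M (Q × Cd M K) × Q) (y : INat M × INat M) =>
    (x.2, sm a₀ y.1 y.2) ∈ x.1) (int_stm' a₀) (p, q))

/-- The graph of the function of the values. -/
def gst (a₀ : K) (p : IPow M (Q × Cd M K)) : IPow M (Q × IPow M (INat M × INat M)) :=
  iimage (fun q => (q, stm a₀ p q)) (iimage (fun x => x.1) p)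

theorem int_gst (a₀ : K) : IntF M (fun p : IPow M (Q × Cd M K) => gst a₀ p) := by
  have h1 := int_stm (M := M) (Q := Q) a₀
  have h2 : IntF M (fun x : IPow M (Q × Cd M K) × Q => (x.2, stm a₀ x.1 x.2)) := by (repeat' (first | with_reducible exact IntF.id | with_reducible exact IntF.fst' | with_reducible exact IntF.snd' | with_reducible exact IntF.const _ | with_reducible exact Int.const _ | assumption | with_reducible apply Int.and | with_reducible apply Int.or | with_reducible apply Int.not | with_reducible apply Int.imp | with_reducible apply Int.iff | with_reducible apply Int.ne | with_reducible apply Int.eq | with_reducible apply Int.mem | with_reducible apply Int.subset | with_reducible apply Int.ltN | with_reducible apply Int.leN | with_reducible apply Int.fin | with_reducible apply Int.unique | with_reducible apply Int.all | with_reducible apply Int.ex | with_reducible apply IntF.fst | with_reducible apply IntF.snd | with_reducible apply IntF.app | with_reducible apply IntF.ite | with_reducible apply IntF.sep | with_reducible apply IntF.lam | with_reducible apply IntF.insert | with_reducible apply IntF.singleton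 | with_reducible apply IntF.union | with_reducible apply IntF.inter | with_reducible apply IntF.sdiff | with_reducible apply IntF.isUnion | with_reducible apply IntF.iimage | with_reducible apply IntF.the | with_reducible apply IntF.irec | with_reducible_and_instances apply IntF.add | with_reducible_and_instances apply IntF.mul | with_reducible apply IntF.succ | with_reducible apply IntF.val | (with_reducible refine Int.comp ?_ ?_; assumption) | (with_reducible refine Int.comp₂ ?_ ?_ ?_; assumption) | (with_reducible refine Int.comp₃ ?_ ?_ ?_ ?_; assumption) | (with_reducible refine IntF.comp ?_ ?_; assumption) | (with_reducible refine IntF.comp₂ ?_ ?_ ?_; assumption) | (with_reducible refine IntF.comp₃ ?_ ?_ ?_ ?_; assumption) | (with_reducible refine Int.comp₄ ?_ ?_ ?_ ?_ ?_; assumption) | with_reducible apply IntF.pair))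
  have h3 : IntF M (fun x : IPow M (Q × Cd M K) × (Q × Cd M K) => x.2.1) := by (repeat' (first | with_reducible exact IntF.id | with_reducible exact IntF.fst' | with_reducible exact IntF.snd' | with_reducible exact IntF.const _ | with_reducible exact Int.const _ | assumption | with_reducible apply Int.and | with_reducible apply Int.or | with_reducible apply Int.not | with_reducible apply Int.imp | with_reducible apply Int.iff | with_reducible apply Int.ne | with_reducible apply Int.eq | with_reducible apply Int.mem | with_reducible apply Int.subset | with_reducible apply Int.ltN | with_reducible apply Int.leN | with_reducible apply Int.fin | with_reducible apply Int.unique | with_reducible apply Int.all | with_reducible apply Int.ex | with_reducible apply IntF.fst | with_reducible apply IntF.snd | with_reducible apply IntF.app | with_reducible apply IntF.ite | with_reducible apply IntF.sep | with_reducible apply IntF.lam | with_reducible apply IntF.insert | with_reducible apply IntF.singleton | with_reducible apply IntF.union | with_reducible apply IntF.inter | with_reducible apply IntF.sdiff | with_reducible apply IntF.isUnion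 | with_reducible apply IntF.iimage | with_reducible apply IntF.the | with_reducible apply IntF.irec | with_reducible_and_instances apply IntF.add | with_reducible_and_instances apply IntF.mul | with_reducible apply IntF.succ | with_reducible apply IntF.val | (with_reducible refine Int.comp ?_ ?_; assumption) | (with_reducible refine Int.comp₂ ?_ ?_ ?_; assumption) | (with_reducible refine Int.comp₃ ?_ ?_ ?_ ?_; assumption) | (with_reducible refine IntF.comp ?_ ?_; assumption) | (with_reducible refine IntF.comp₂ ?_ ?_ ?_; assumption) | (with_reducible refine IntF.comp₃ ?_ ?_ ?_ ?_; assumption) | (with_reducible refine Int.comp₄ ?_ ?_ ?_ ?_ ?_; assumption) | with_reducible apply IntF.pair))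
  have h4 : IntF M (fun p : IPow M (Q × Cd M K) => iimage (fun x => x.1) p) :=
    IntF.iimage (f := fun (_ : IPow M (Q × Cd M K)) (x : Q × Cd M K) => x.1) h3 IntF.id
  exact IntF.iimage (f := fun (p : IPow M (Q × Cd M K)) (q : Q) => (q, stm a₀ p q)) h2 h4

theorem mem_gst {a₀ : K} {p : IPow M (Q × Cd M K)} {z : Q × IPow M (INat M × INat M)} :
    z ∈ gst a₀ p ↔ (∃ c, (z.1, c) ∈ p) ∧ z.2 = stm a₀ p z.1 := by
  have h1 := int_stm (M := M) (Q := Q) a₀
  have h2 : IntF M (fun q : Q => (q, stm a₀ p q)) :=
    IntF.slice (f := fun (p : IPow M (Q × Cd M K)) (q : Q) => (q, stm a₀ p q)) (by (repeat' (first | with_reducible exact IntF.id | with_reducible exact IntF.fst' | with_reducible exact IntF.snd' | with_reducible exact IntF.const _ | with_reducible exact Int.const _ | assumption | with_reducible apply Int.and | with_reducible apply Int.or | with_reducible apply Int.not | with_reducible apply Int.imp | with_reducible apply Int.iff | with_reducible apply Int.ne | with_reducible apply Int.eq | with_reducible apply Int.mem | with_reducible apply Int.subset | with_reducible apply Int.ltN | with_reducible apply Int.leN | with_reducible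 apply Int.fin | with_reducible apply Int.unique | with_reducible apply Int.all | with_reducible apply Int.ex | with_reducible apply IntF.fst | with_reducible apply IntF.snd | with_reducible apply IntF.app | with_reducible apply IntF.ite | with_reducible apply IntF.sep | with_reducible apply IntF.lam | with_reducible apply IntF.insert | with_reducible apply IntF.singleton | with_reducible apply IntF.union | with_reducible apply IntF.inter | with_reducible apply IntF.sdiff | with_reducible apply IntF.isUnion | with_reducible apply IntF.iimage | with_reducible apply IntF.the | with_reducible apply IntF.irec | with_reducible_and_instances apply IntF.add | with_reducible_and_instances apply IntF.mul | with_reducible apply IntF.succ | with_reducible apply IntF.val | (with_reducible refine Int.comp ?_ ?_; assumption) | (with_reducible refine Int.comp₂ ?_ ?_ ?_; assumption) | (with_reducible refine Int.comp₃ ?_ ?_ ?_ ?_; assumption) | (with_reducible refine IntF.comp ?_ ?_; assumption) | (with_reducible refine IntF.comp₂ ?_ ?_ ?_; assumption) | (with_reducible refine IntF.comp₃ ?_ ?_ ?_ ?_; assumption) | (with_reducible refine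 Int.comp₄ ?_ ?_ ?_ ?_ ?_; assumption) | with_reducible apply IntF.pair))) p
  have h3 : IntF M (fun x : Q × Cd M K => x.1) := IntF.fst'
  unfold gst
  rw [mem_iimage h2]
  constructor
  · rintro ⟨q, hq, rfl⟩
    obtain ⟨x, hx, rfl⟩ := (mem_iimage h3).1 hq
    exact ⟨⟨x.2, hx⟩, rfl⟩
  · rintro ⟨⟨c, hc⟩, h4⟩
    exact ⟨z.1, (mem_iimage h3).2 ⟨_, hc, rfl⟩, Prod.ext rfl h4.symm⟩

theorem fin_gst {a₀ : K} {p : IPow M (Q × Cd M K)} (hp : IFin p) : IFin (gst a₀ p) := by
  have h1 := int_stm (M := M) (Q := Q) a₀
  have h2 : IntF M (fun q : Q => (q, stm a₀ p q)) :=
    IntF.slice (f := fun (p : IPow M (Q × Cd M K)) (q : Q) => (q, stm a₀ p q)) (by (repeat' (first | with_reducible exact IntF.id | with_reducible exact IntF.fst' | with_reducible exact IntF.snd' | with_reducible exact IntF.const _ | with_reducible exact Int.const _ | assumption | with_reducible apply Int.and | with_reducible apply Int.or | with_reducible apply Int.not | with_reducible apply Int.imp | with_reducible apply Int.iff | with_reducible apply Int.ne | with_reducible apply Int.eq | with_reducible apply Int.mem | with_reducible apply Int.subset | with_reducible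 apply Int.ltN | with_reducible apply Int.leN | with_reducible apply Int.fin | with_reducible apply Int.unique | with_reducible apply Int.all | with_reducible apply Int.ex | with_reducible apply IntF.fst | with_reducible apply IntF.snd | with_reducible apply IntF.app | with_reducible apply IntF.ite | with_reducible apply IntF.sep | with_reducible apply IntF.lam | with_reducible apply IntF.insert | with_reducible apply IntF.singleton | with_reducible apply IntF.union | with_reducible apply IntF.inter | with_reducible apply IntF.sdiff | with_reducible apply IntF.isUnion | with_reducible apply IntF.iimage | with_reducible apply IntF.the | with_reducible apply IntF.irec | with_reducible_and_instances apply IntF.add | with_reducible_and_instances apply IntF.mul | with_reducible apply IntF.succ | with_reducible apply IntF.val | (with_reducible refine Int.comp ?_ ?_; assumption) | (with_reducible refine Int.comp₂ ?_ ?_ ?_; assumption) | (with_reducible refine Int.comp₃ ?_ ?_ ?_ ?_; assumption) | (with_reducible refine IntF.comp ?_ ?_; assumption) | (with_reducible refine IntF.comp₂ ?_ ?_ ?_; assumption) | (with_reducible refine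 IntF.comp₃ ?_ ?_ ?_ ?_; assumption) | (with_reducible refine Int.comp₄ ?_ ?_ ?_ ?_ ?_; assumption) | with_reducible apply IntF.pair))) p
  exact IFin.image (IFin.image hp IntF.fst') h2

variable (U : Univ M K Λ Q) (a₀ : K) (p₀ : IPow M (Q × Cd M K))
  (Dec : IPow M (Q × Cd M K) → I → C → Prop)

/-- The conditions with values of bounded shape. -/
def PV (N : INat M) (p : IPow M (Q × Cd M K)) : Prop :=
  (Cond U a₀ p ∧ p₀ ⊆ p) ∧ crd (gst a₀ p) ≤ N ∧ ∀ q k v, (q, sm a₀ k v) ∈ p → k < N ∧ v < N

theorem int_PV : Int M (fun x : INat M × IPow M (Q × Cd M K) => PV U a₀ p₀ x.1 x.2) := by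
  have hc := int_cond (M := M) U a₀
  have hg := int_gst (M := M) (Q := Q) a₀
  have hcr := int_crd (M := M) (α := Q × IPow M (INat M × INat M))
  unfold PV
  (repeat' (first | with_reducible apply IntF.sm _ | with_reducible exact IntF.id | with_reducible exact IntF.fst' | with_reducible exact IntF.snd' | with_reducible exact IntF.const _ | with_reducible exact Int.const _ | assumption | with_reducible apply Int.and | with_reducible apply Int.or | with_reducible apply Int.not | with_reducible apply Int.imp | with_reducible apply Int.iff | with_reducible apply Int.ne | with_reducible apply Int.eq | with_reducible apply Int.mem | with_reducible apply Int.subset | with_reducible apply Int.ltN | with_reducible apply Int.leN | with_reducible apply Int.fin | with_reducible apply Int.unique | with_reducible apply Int.all | with_reducible apply Int.ex | with_reducible apply IntF.fst | with_reducible apply IntF.snd | with_reducible apply IntF.app | with_reducible apply IntF.ite | with_reducible apply IntF.sep | with_reducible apply IntF.lam | with_reducible apply IntF.insert | with_reducible apply IntF.singleton | with_reducible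 apply IntF.union | with_reducible apply IntF.inter | with_reducible apply IntF.sdiff | with_reducible apply IntF.isUnion | with_reducible apply IntF.iimage | with_reducible apply IntF.the | with_reducible apply IntF.irec | with_reducible_and_instances apply IntF.add | with_reducible_and_instances apply IntF.mul | with_reducible apply IntF.succ | with_reducible apply IntF.val | (with_reducible refine Int.comp ?_ ?_; assumption) | (with_reducible refine Int.comp₂ ?_ ?_ ?_; assumption) | (with_reducible refine Int.comp₃ ?_ ?_ ?_ ?_; assumption) | (with_reducible refine IntF.comp ?_ ?_; assumption) | (with_reducible refine IntF.comp₂ ?_ ?_ ?_; assumption) | (with_reducible refine IntF.comp₃ ?_ ?_ ?_ ?_; assumption) | (with_reducible refine Int.comp₄ ?_ ?_ ?_ ?_ ?_; assumption) | with_reducible apply IntF.pair))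

/-- The functions of values of the deciding conditions. -/
def DS (i : I) (N : INat M) : IPow M (IPow M (Q × IPow M (INat M × INat M))) :=
  sep M fun t => ∃ p, PV U a₀ p₀ N p ∧ (∃ c, Dec p i c) ∧ gst a₀ p = t

variable {U a₀ p₀ Dec}

theorem exists_PV {p : IPow M (Q × Cd M K)} (hp : Cond U a₀ p) (hp0 : p₀ ⊆ p) :
    ∃ N, PV U a₀ p₀ N p := by
  obtain ⟨N, hN⟩ := exists_stem_bound (a₀ := a₀) hp.fin
  refine ⟨max N (crd (gst a₀ p)), ⟨hp, hp0⟩, le_max_right _ _, fun q k v h => ?_⟩
  exact ⟨(hN q k v h).1.trans_le (le_max_left _ _), (hN q k v h).2.trans_le (le_max_left _ _)⟩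

variable (h : Nam U a₀ p₀ Dec)

include h

theorem mem_DS {i : I} {N : INat M} {t : IPow M (Q × IPow M (INat M × INat M))} :
    t ∈ DS U a₀ p₀ Dec i N ↔ ∃ p, PV U a₀ p₀ N p ∧ (∃ c, Dec p i c) ∧ gst a₀ p = t := by
  have hP := int_PV (M := M) U a₀ p₀
  have hg := int_gst (M := M) (Q := Q) a₀
  have hd := h.int
  have hI : Int M (fun t : IPow M (Q × IPow M (INat M × INat M)) =>
      ∃ p, PV U a₀ p₀ N p ∧ (∃ c, Dec p i c) ∧ gst a₀ p = t) := by (repeat' (first | with_reducible exact IntF.id | with_reducible exact IntF.fst' | with_reducible exact IntF.snd' | with_reducible exact IntF.const _ | with_reducible exact Int.const _ | assumption | with_reducible apply Int.and | with_reducible apply Int.or | with_reducible apply Int.not | with_reducible apply Int.imp | with_reducible apply Int.iff | with_reducible apply Int.ne | with_reducible apply Int.eq | with_reducible apply Int.mem | with_reducible apply Int.subset | with_reducible apply Int.ltN | with_reducible apply Int.leN | with_reducible apply Int.fin | with_reducible apply Int.unique | with_reducible apply Int.all | with_reducible apply Int.ex | with_reducible apply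 IntF.fst | with_reducible apply IntF.snd | with_reducible apply IntF.app | with_reducible apply IntF.ite | with_reducible apply IntF.sep | with_reducible apply IntF.lam | with_reducible apply IntF.insert | with_reducible apply IntF.singleton | with_reducible apply IntF.union | with_reducible apply IntF.inter | with_reducible apply IntF.sdiff | with_reducible apply IntF.isUnion | with_reducible apply IntF.iimage | with_reducible apply IntF.the | with_reducible apply IntF.irec | with_reducible_and_instances apply IntF.add | with_reducible_and_instances apply IntF.mul | with_reducible apply IntF.succ | with_reducible apply IntF.val | (with_reducible refine Int.comp ?_ ?_; assumption) | (with_reducible refine Int.comp₂ ?_ ?_ ?_; assumption) | (with_reducible refine Int.comp₃ ?_ ?_ ?_ ?_; assumption) | (with_reducible refine IntF.comp ?_ ?_; assumption) | (with_reducible refine IntF.comp₂ ?_ ?_ ?_; assumption) | (with_reducible refine IntF.comp₃ ?_ ?_ ?_ ?_; assumption) | (with_reducible refine Int.comp₄ ?_ ?_ ?_ ?_ ?_; assumption) | with_reducible apply IntF.pair))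
  exact mem_sep hI

theorem stm_val {i : I} {N : INat M} {σ : IPow M (Q × IPow M (INat M × INat M))}
    (hσ : Clo (DS U a₀ p₀ Dec i N) σ) {p p' : IPow M (Q × Cd M K)} {c c' : C}
    (hp : PV U a₀ p₀ N p) (hpσ : σ ⊆ gst a₀ p) (hpc : Dec p i c)
    (hp' : PV U a₀ p₀ N p') (hpσ' : σ ⊆ gst a₀ p') (hpc' : Dec p' i c') : c = c' := by
  have hf : IntF M (fun x : Q × Cd M K => x.1) := IntF.fst'
  have hf' : IntF M (fun x : Q × IPow M (INat M × INat M) => x.1) := IntF.fst'
  have hlt : Int M (fun k : INat M => k < N) := by (repeat' (first | with_reducible exact IntF.id | with_reducible exact IntF.fst' | with_reducible exact IntF.snd' | with_reducible exact IntF.const _ | with_reducible exact Int.const _ | assumption | with_reducible apply Int.and | with_reducible apply Int.or | with_reducible apply Int.not | with_reducible apply Int.imp | with_reducible apply Int.iff | with_reducible apply Int.ne | with_reducible apply Int.eq | with_reducible apply Int.mem | with_reducible apply Int.subset | with_reducible apply Int.ltN | with_reducible apply Int.leN | with_reducible apply Int.fin | with_reducible apply Int.unique | with_reducible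 apply Int.all | with_reducible apply Int.ex | with_reducible apply IntF.fst | with_reducible apply IntF.snd | with_reducible apply IntF.app | with_reducible apply IntF.ite | with_reducible apply IntF.sep | with_reducible apply IntF.lam | with_reducible apply IntF.insert | with_reducible apply IntF.singleton | with_reducible apply IntF.union | with_reducible apply IntF.inter | with_reducible apply IntF.sdiff | with_reducible apply IntF.isUnion | with_reducible apply IntF.iimage | with_reducible apply IntF.the | with_reducible apply IntF.irec | with_reducible_and_instances apply IntF.add | with_reducible_and_instances apply IntF.mul | with_reducible apply IntF.succ | with_reducible apply IntF.val | (with_reducible refine Int.comp ?_ ?_; assumption) | (with_reducible refine Int.comp₂ ?_ ?_ ?_; assumption) | (with_reducible refine Int.comp₃ ?_ ?_ ?_ ?_; assumption) | (with_reducible refine IntF.comp ?_ ?_; assumption) | (with_reducible refine IntF.comp₂ ?_ ?_ ?_; assumption) | (with_reducible refine IntF.comp₃ ?_ ?_ ?_ ?_; assumption) | (with_reducible refine Int.comp₄ ?_ ?_ ?_ ?_ ?_; assumption) | with_reducible apply IntF.pair))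
  have hfl : IFin (sep M (fun k : INat M => k < N)) := (finP_lt N).fin hlt
  let E := ipow (iprod (sep M (fun k : INat M => k < N)) (sep M (fun k : INat M => k < N)))
  have hE : IFin E := (IFin.prod hfl hfl).pow
  have hbd : ∀ {r}, PV U a₀ p₀ N r → ∀ q, stm a₀ r q ∈ E := by
    intro r hr q
    refine mem_ipow.2 (subset_def.2 ?_)
    rintro ⟨k, v⟩ hkv
    have h1 := hr.2.2 q k v (mem_stm.1 hkv)
    exact mem_iprod.2 ⟨(mem_sep hlt).2 h1.1, (mem_sep hlt).2 h1.2⟩
  obtain ⟨t, ht, h1⟩ := hσ.2 (iprod (iimage (fun x => x.1) (p ∪ p') ∪ iimage (fun x => x.1) σ) E)
    (IFin.prod ((IFin.image (hp.1.1.fin.union hp'.1.1.fin) hf).union (IFin.image hσ.1 hf')) hE)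
    (subset_def.2 fun z hz => mem_iprod.2 ⟨mem_union.2 (Or.inr ((mem_iimage hf').2
      ⟨z, hz, rfl⟩)), by rw [(mem_gst.1 (subset_def.1 hpσ z hz)).2]; exact hbd hp _⟩)
  obtain ⟨p₂, h2, ⟨w, hw⟩, rfl⟩ := (mem_DS h).1 ht
  have key : ∀ {r}, r ⊆ p ∪ p' → PV U a₀ p₀ N r → σ ⊆ gst a₀ r → Cond U a₀ (r ∪ p₂) := by
    intro r hr hrP hrσ
    refine hrP.1.1.amalg' h2.1.1 fun q c c' hc hc' k v => ?_
    have h3 : (q, stm a₀ p₂ q) ∈ σ := by
      refine (inter_eq_iff.1 h1 _).1 ⟨mem_gst.2 ⟨⟨c', hc'⟩, rfl⟩, mem_iprod.2 ⟨mem_union.2
        (Or.inl ((mem_iimage hf).2 ⟨_, subset_def.1 hr _ hc, rfl⟩)), hbd h2 q⟩⟩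
    have h4 : stm a₀ p₂ q = stm a₀ r q := (mem_gst.1 (subset_def.1 hrσ _ h3)).2
    rw [← mem_stm, ← mem_stm, h4]
  have h5 := key sub_union_l hp hpσ
  have h6 := key sub_union_r hp' hpσ'
  have h7 : c = w := h.uniq _ i _ _ h5 (sub_trans hp.1.2 sub_union_l)
    (h.mono _ _ _ _ hp.1.1 h5 sub_union_l hpc) (h.mono _ _ _ _ h2.1.1 h5 sub_union_r hw)
  have h8 : c' = w := h.uniq _ i _ _ h6 (sub_trans hp'.1.2 sub_union_l)
    (h.mono _ _ _ _ hp'.1.1 h6 sub_union_l hpc') (h.mono _ _ _ _ h2.1.1 h6 sub_union_r hw)
  rw [h7, h8]

theorem fin_vals (i : I) (N : INat M) : FinP M (fun c => ∃ p, PV U a₀ p₀ N p ∧ Dec p i c) := by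
  have hP := int_PV (M := M) U a₀ p₀
  have hg := int_gst (M := M) (Q := Q) a₀
  have hd := h.int
  have hMn := int_Mnl (M := M) (X := Q × IPow M (INat M × INat M))
  have h1 : IFin (sep M (fun s => Mnl (DS U a₀ p₀ Dec i N) s)) := by
    refine fin_mnl (n := N) fun t ht => ?_
    obtain ⟨p, hp, -, rfl⟩ := (mem_DS h).1 ht
    exact ⟨fin_gst hp.1.1.fin, hp.2.1⟩
  have hI : Int M (fun s => Mnl (DS U a₀ p₀ Dec i N) s) := Int.slice hMn _
  have h2 : FinP M (fun s => Mnl (DS U a₀ p₀ Dec i N) s) := ⟨_, h1, fun s hs => (mem_sep hI).2 hs⟩
  have hR : Int M (fun x : IPow M (Q × IPow M (INat M × INat M)) × C =>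
      ∃ p, (PV U a₀ p₀ N p ∧ x.1 ⊆ gst a₀ p) ∧ Dec p i x.2) := by (repeat' (first | with_reducible exact IntF.id | with_reducible exact IntF.fst' | with_reducible exact IntF.snd' | with_reducible exact IntF.const _ | with_reducible exact Int.const _ | assumption | with_reducible apply Int.and | with_reducible apply Int.or | with_reducible apply Int.not | with_reducible apply Int.imp | with_reducible apply Int.iff | with_reducible apply Int.ne | with_reducible apply Int.eq | with_reducible apply Int.mem | with_reducible apply Int.subset | with_reducible apply Int.ltN | with_reducible apply Int.leN | with_reducible apply Int.fin | with_reducible apply Int.unique | with_reducible apply Int.all | with_reducible apply Int.ex | with_reducible apply IntF.fst | with_reducible apply IntF.snd | with_reducible apply IntF.app | with_reducible apply IntF.ite | with_reducible apply IntF.sep | with_reducible apply IntF.lam | with_reducible apply IntF.insert | with_reducible apply IntF.singleton | with_reducible apply IntF.union | with_reducible apply IntF.inter | with_reducible apply IntF.sdiff | with_reducible apply IntF.isUnion |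 with_reducible apply IntF.iimage | with_reducible apply IntF.the | with_reducible apply IntF.irec | with_reducible_and_instances apply IntF.add | with_reducible_and_instances apply IntF.mul | with_reducible apply IntF.succ | with_reducible apply IntF.val | (with_reducible refine Int.comp ?_ ?_; assumption) | (with_reducible refine Int.comp₂ ?_ ?_ ?_; assumption) | (with_reducible refine Int.comp₃ ?_ ?_ ?_ ?_; assumption) | (with_reducible refine IntF.comp ?_ ?_; assumption) | (with_reducible refine IntF.comp₂ ?_ ?_ ?_; assumption) | (with_reducible refine IntF.comp₃ ?_ ?_ ?_ ?_; assumption) | (with_reducible refine Int.comp₄ ?_ ?_ ?_ ?_ ?_; assumption) | with_reducible apply IntF.pair))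
  refine (FinP.bUnion h2 hI (R := fun x => ∃ p, (PV U a₀ p₀ N p ∧ x.1 ⊆ gst a₀ p) ∧
    Dec p i x.2) hR fun σ hσ => ?_).mono ?_
  · by_cases hex : ∃ c, ∃ p, (PV U a₀ p₀ N p ∧ σ ⊆ gst a₀ p) ∧ Dec p i c
    · obtain ⟨c, p, ⟨h3, h4⟩, h5⟩ := hex
      refine (FinP.eq c).mono ?_
      rintro c' ⟨p', ⟨h6, h7⟩, h8⟩
      exact stm_val h hσ.1 h6 h7 h8 h3 h4 h5
    · push Not at hex
      exact ⟨∅, IFin.empty, fun c ⟨p, h3, h4⟩ => absurd h4 (hex c p h3)⟩
  · rintro c ⟨p, hp, hc⟩
    obtain ⟨σ, h3, h4⟩ := exists_mnl (clo_self (fin_gst hp.1.1.fin) ((mem_DS h).2
      ⟨p, hp, ⟨c, hc⟩, rfl⟩))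
    exact ⟨σ, h3, p, ⟨hp, h4⟩, hc⟩

/-- The possible values of a name. -/
theorem exists_vals : ∃ V : I × INat M → IPow M C, IntF M V ∧ (∀ x, IFin (V x)) ∧
    ∀ i p c, Cond U a₀ p → p₀ ⊆ p → Dec p i c → ∃ N, c ∈ V (i, N) := by
  have hP := int_PV (M := M) U a₀ p₀
  have hd := h.int
  have hI : Int M (fun q : (I × INat M) × C => ∃ p, PV U a₀ p₀ q.1.2 p ∧ Dec p q.1.1 q.2) := by
    (repeat' (first | with_reducible exact IntF.id | with_reducible exact IntF.fst' | with_reducible exact IntF.snd' | with_reducible exact IntF.const _ | with_reducible exact Int.const _ | assumption | with_reducible apply Int.and | with_reducible apply Int.or | with_reducible apply Int.not | with_reducible apply Int.imp | with_reducible apply Int.iff | with_reducible apply Int.ne | with_reducible apply Int.eq | with_reducible apply Int.mem | with_reducible apply Int.subset | with_reducible apply Int.ltN | with_reducible apply Int.leN | with_reducible apply Int.fin | with_reducible apply Int.unique | with_reducible apply Int.all | with_reducible apply Int.ex | with_reducible apply IntF.fst | with_reducible apply IntF.snd | with_reducible apply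 IntF.app | with_reducible apply IntF.ite | with_reducible apply IntF.sep | with_reducible apply IntF.lam | with_reducible apply IntF.insert | with_reducible apply IntF.singleton | with_reducible apply IntF.union | with_reducible apply IntF.inter | with_reducible apply IntF.sdiff | with_reducible apply IntF.isUnion | with_reducible apply IntF.iimage | with_reducible apply IntF.the | with_reducible apply IntF.irec | with_reducible_and_instances apply IntF.add | with_reducible_and_instances apply IntF.mul | with_reducible apply IntF.succ | with_reducible apply IntF.val | (with_reducible refine Int.comp ?_ ?_; assumption) | (with_reducible refine Int.comp₂ ?_ ?_ ?_; assumption) | (with_reducible refine Int.comp₃ ?_ ?_ ?_ ?_; assumption) | (with_reducible refine IntF.comp ?_ ?_; assumption) | (with_reducible refine IntF.comp₂ ?_ ?_ ?_; assumption) | (with_reducible refine IntF.comp₃ ?_ ?_ ?_ ?_; assumption) | (with_reducible refine Int.comp₄ ?_ ?_ ?_ ?_ ?_; assumption) | with_reducible apply IntF.pair))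
  have hsl : ∀ x : I × INat M, Int M (fun c => ∃ p, PV U a₀ p₀ x.2 p ∧ Dec p x.1 c) := fun x =>
    Int.slice (p := fun (x : I × INat M) c => ∃ p, PV U a₀ p₀ x.2 p ∧ Dec p x.1 c) hI x
  refine ⟨fun x => sep M fun c => ∃ p, PV U a₀ p₀ x.2 p ∧ Dec p x.1 c, IntF.sep hI,
    fun x => (fin_vals h x.1 x.2).fin (hsl x), fun i p c hp hp0 hc => ?_⟩
  obtain ⟨N, hN⟩ := exists_PV hp hp0
  exact ⟨N, (mem_sep (hsl (i, N))).2 ⟨p, hN, hc⟩⟩

end

end Pool.Agent.H634
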