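import Pool.Agent.H634.Dm
import Pool.Agent.H634.Prs

/-!
# Internal notions of forcing and their generic extensions
-/

set_option maxHeartbeats 2000000
set_option linter.all false
set_option synthInstance.maxSize 2000

namespace Pool.Agent.H634

open FirstOrder FirstOrder.Language
open Pool.Agent.Helper672.ZFA
open Pool.Agent.Helper672.ZFA.H635 (IWO gr mem_gr code_mem_gr)
open Pool.Agent.H310
open Pool.Agent.H310Cards
open Pool.Agent.Q212.ZA
open Pool.Agent.Q212.ZB
open Pool.Agent.Q212.ZC
open Pool.Agent.Q212.ZForce (IsPreorder)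
open Pool.Agent.Q212.ZD
open Pool.Agent.H635Amen (ZF)
open Pool.Agent.H525Emb (PMem IsTrans IsGenericFilter IsEval IsValue IsForcing IsForcingExtension)
open Pool.Agent.H525C (IsO ord_comp)

universe u

attribute [local instance] Helper672.Plain.toL

attribute [local instance] Pool.Agent.Q212.ZB.instModelL Pool.Agent.Q212.ZB.instPEl

section

variable {M : Type u} [Helper672.Plain.LSet.Structure M] [hZ : Helper672.Plain.Zermelo M]
variable {π : Type u} [ITy M π] {le : π → π → Prop}

theorem mem_domP {α : Type u} [ITy M α] {z : M} :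
    Helper672.Plain.Mem z (dom M α) ↔ ∃ a : α, code a = z :=
  mem_dom (M := M) (α := α)

theorem mem_ord (hle : Int M (fun q : π × π => le q.1 q.2)) {p q : π} :
    Mem (op (code p) (code q)) (gr hle) ↔ le p q :=
  code_mem_gr hle (a := (p, q))

theorem isPreorder_gr (hle : Int M (fun q : π × π => le q.1 q.2)) (refl : ∀ p, le p p)
    (tr : ∀ p q r, le p q → le q r → le p r) : IsPreorder (dom M π) (gr hle) := by
  constructor
  · intro p hp
    obtain ⟨p, rfl⟩ := (mem_domP (α := π)).1 hp
    exact pMem_iff.2 ((mem_ord hle).2 (refl p))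
  · intro p q r hp hq hr h1 h2
    obtain ⟨p, rfl⟩ := (mem_domP (α := π)).1 hp
    obtain ⟨q, rfl⟩ := (mem_domP (α := π)).1 hq
    obtain ⟨r, rfl⟩ := (mem_domP (α := π)).1 hr
    exact pMem_iff.2 ((mem_ord hle).2 (tr _ _ _
      ((mem_ord hle).1 (pMem_iff.1 h1))
      ((mem_ord hle).1 (pMem_iff.1 h2))))

end

section

variable {N : Type u} [hs : Helper672.Plain.LSet.Structure N]
  {V : Helper672.Plain.LSet.Substructure N}
variable [hZ : Helper672.Plain.Zermelo N] [hZV : Helper672.Plain.Zermelo V]
variable {π : Type u} [ITy V π] {le : π → π → Prop}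

/-- The condition `p` is in the generic filter. -/
def Hp (G : N) (p : π) : Prop := Helper672.Plain.Mem ((code (M := V) p : V) : N) G

variable {G : N}

theorem mem_codeV {α : Type u} [ITy V α] {s : IPow V α} {z : N} (htr : IsTrans V) :
    Helper672.Plain.Mem z ((code (M := V) s : V) : N) ↔
      ∃ a, a ∈ s ∧ ((code (M := V) a : V) : N) = z := by
  have hm : ∀ z : V, Helper672.Plain.Mem z (code (M := V) s) ↔ ∃ a, a ∈ s ∧ code a = z :=
    fun z => code_mem_code (M := V) (s := s) (z := z)
  constructor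
  · intro h
    have hzV := htr z _ h (code (M := V) s : V).2
    obtain ⟨a, h1, h2⟩ := (hm ⟨z, hzV⟩).1 (mem_V.2 h)
    exact ⟨a, h1, congrArg Subtype.val h2⟩
  · rintro ⟨a, h1, rfl⟩
    exact mem_V.1 ((hm _).2 ⟨a, h1, rfl⟩)

theorem mem_domV {α : Type u} [ITy V α] {z : N} (htr : IsTrans V) :
    Helper672.Plain.Mem z ((dom V α : V) : N) ↔ ∃ a : α, ((code (M := V) a : V) : N) = z := by
  constructor
  · intro h
    have hzV := htr z _ h (dom V α : V).2
    have h1 : Helper672.Plain.Mem (⟨z, hzV⟩ : V) (dom V α) := (mem_V (x := ⟨z, hzV⟩)).2 h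
    obtain ⟨a, h2⟩ := (mem_domP (M := V) (α := α)).1 h1
    exact ⟨a, congrArg (Subtype.val : V → N) h2⟩
  · rintro ⟨a, rfl⟩
    exact mem_V.1 (code_mem_dom (M := V) a)

theorem code_injV {α : Type u} [ITy V α] {a b : α}
    (h : ((code (M := V) a : V) : N) = ((code (M := V) b : V) : N)) : a = b :=
  ITy.inj (M := V) (Subtype.ext h)

theorem pmem_ord (htr : IsTrans V) (hle : Int V (fun q : π × π => le q.1 q.2)) {p q : π} :
    PMem ((code (M := V) p : V) : N) ((code (M := V) q : V) : N) ((gr hle : V) : N) ↔ le p q :=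
  (mem_op_V htr).symm.trans (mem_ord hle)

/-- The generic filter for the internal forcing. -/
theorem gnr_int (htr : IsTrans V) (hle : Int V (fun q : π × π => le q.1 q.2))
    (hG : IsGenericFilter V ((dom V π : V) : N) ((gr hle : V) : N) G) :
    Gnr V le (Hp (V := V) G) := by
  refine ⟨fun p q h1 h2 => ?_, fun p q h1 h2 => ?_, fun D hD => ?_⟩
  · exact hG.upward _ _ h1 ((mem_domV htr).2 ⟨q, rfl⟩) ((pmem_ord htr hle).2 h2)
  · obtain ⟨r, h3, h4, h5⟩ := hG.directed _ _ h1 h2
    obtain ⟨r, rfl⟩ := (mem_domV htr).1 (hG.sub r h3)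
    exact ⟨r, h3, (pmem_ord htr hle).1 h4, (pmem_ord htr hle).1 h5⟩
  · obtain ⟨d, h1, h2⟩ := hG.generic (code (M := V) D : V) (code (M := V) D : V).2 (fun d hd => by
        obtain ⟨a, -, rfl⟩ := (mem_codeV htr).1 hd
        exact (mem_domV htr).2 ⟨a, rfl⟩)
      (fun p hp => by
        obtain ⟨p, rfl⟩ := (mem_domV htr).1 hp
        obtain ⟨d, h1, h2⟩ := hD p
        exact ⟨_, (mem_codeV htr).2 ⟨d, h1, rfl⟩, (pmem_ord htr hle).2 h2⟩)
    obtain ⟨a, h3, rfl⟩ := (mem_codeV htr).1 h1
    exact ⟨a, h3, h2⟩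

/-- Sets in the extension that are given by an internal relation. -/
theorem exists_gset (htr : IsTrans V) (hle : Int V (fun q : π × π => le q.1 q.2))
    (hG : IsGenericFilter V ((dom V π : V) : N) ((gr hle : V) : N) G)
    {α : Type u} [ITy V α] {R : π → α → Prop} (hR : Int V (fun q : π × α => R q.1 q.2)) :
    ∃ y : N, ∀ z, Helper672.Plain.Mem z y ↔
      ∃ a p, Hp (V := V) G p ∧ R p a ∧ ((code (M := V) a : V) : N) = z := by
  have hS : D (fun v : Fin 1 → N => v 0 ∈ {z : N | ∃ p, Mem p G ∧
      Mem (op p z) ((gr hR : V) : N)}) :=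
    D.ex (D.and (D.memf (DF.var _) (DF.const _)) (D.memf (DF.op (DF.var _) (DF.var _))
      (DF.const _)))
  have h1 := small_sep hS ((dom V α : V) : N)
  have key : ∀ (p : π) (a : α), Mem (op ((code (M := V) p : V) : N) ((code (M := V) a : V) : N))
      ((gr hR : V) : N) ↔ R p a := by
    intro p a
    rw [← op_V htr]
    exact (mem_V (x := op (code (M := V) p) (code (M := V) a)) (y := gr hR)).symm.trans
      (code_mem_gr hR (a := (p, a)))
  refine ⟨h1.elt, fun z => h1.mem.trans ?_⟩
  constructor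
  · rintro ⟨h2, p, h3, h4⟩
    obtain ⟨a, rfl⟩ := (mem_domV htr).1 h2
    obtain ⟨p, rfl⟩ := (mem_domV htr).1 (hG.sub p h3)
    exact ⟨a, p, h3, (key p a).1 h4, rfl⟩
  · rintro ⟨a, p, h2, h3, rfl⟩
    exact ⟨(mem_domV htr).2 ⟨a, rfl⟩, _, h2, (key p a).2 h3⟩

/-- Subsets of ground model types in the extension are given by internal relations. -/
theorem exists_rel (hN : ZF N) (hV : ZF V) (htr : IsTrans V)
    (hle : Int V (fun q : π × π => le q.1 q.2)) (refl : ∀ p, le p p)
    (tr : ∀ p q r, le p q → le q r → le p r)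
    (hG : IsGenericFilter V ((dom V π : V) : N) ((gr hle : V) : N) G)
    (hgen : ∀ x : N, ∃ τ, τ ∈ V ∧ IsValue G τ x) {α : Type u} [ITy V α] (x : N) :
    ∃ R : π → α → Prop, Int V (fun q : π × α => R q.1 q.2) ∧
      (∀ p q a, le q p → R p a → R q a) ∧
      ∀ a : α, Helper672.Plain.Mem ((code (M := V) a : V) : N) x ↔
        ∃ p, Hp (V := V) G p ∧ R p a := by
  obtain ⟨τ, hτ, R, hR, hτf⟩ := hgen x
  obtain ⟨u, hu1, hu2⟩ := H635.exists_trans (M := V) (fun _ => trivial) (replL_of_zf hV)
    (Helper672.ZFA.small_union (up (⟨τ, hτ⟩ : V) ⟨τ, hτ⟩) (dom V α)).elt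
  have hτu : Mem (⟨τ, hτ⟩ : V) u := hu1 _ ((Helper672.ZFA.small_union _ _).mem.2 (Or.inl (mem_up.2
    (Or.inl rfl))))
  have hpu : ∀ a : α, Mem (code (M := V) a) u := fun a =>
    hu1 _ ((Helper672.ZFA.small_union _ _).mem.2 (Or.inr (code_mem_dom (M := V) a)))
  let P : V := dom V π
  let lE : V := gr hle
  have hP : IsPreorder P lE := isPreorder_gr hle refl tr
  have hle' := int_lle P lE
  have hmm := int_llt u
  have hNr := int_Nrr u P
  have hF := int_FE hle' hmm hNr
  have tr' := lle_trans hP
  have hGn := gnr htr hG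
  have hphi := phi_all hN htr hP hG hR hu2
  let τ' : Helper672.Plain.El u := ⟨⟨τ, hτ⟩, hτu⟩
  let el : π → Helper672.Plain.El P := fun p => ⟨code (M := V) p, code_mem_dom (M := V) p⟩
  have hel : IntF V el := IntF.of_D (S := fun v => v 0 = v 1) (D.eqf (DF.var _) (DF.var _))
    fun a b => ⟨fun h => Subtype.ext h, fun h => congrArg Subtype.val h⟩
  have hec0 : Int V (fun q : Helper672.Plain.El u × α => q.1.1 = code (M := V) q.2) :=
    Int.of_D₂ (S := fun v => v 0 = v 1) (D.eqf (DF.var _) (DF.var _)) fun a b => Iff.rfl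
  obtain ⟨Ec, hEc⟩ : ∃ Ec : Helper672.Plain.El u → α → Prop, ∀ c a, Ec c a ↔
    c.1 = code (M := V) a := ⟨_, fun _ _ => Iff.rfl⟩
  have hec : Int V (fun q : Helper672.Plain.El u × α => Ec q.1 q.2) :=
    hec0.congr fun q => (hEc _ _).symm
  have hsur : ∀ r : Helper672.Plain.El P, ∃ p, el p = r := by
    rintro ⟨r, hr⟩
    obtain ⟨p, rfl⟩ := (mem_domP (M := V) (α := π)).1 hr
    exact ⟨p, rfl⟩
  have hlel : ∀ p q, lle P lE (el p) (el q) ↔ le p q := fun p q => mem_ord hle
  refine ⟨fun p a => ∃ t s c, Nrr u P τ' t s ∧ lle P lE (el p) s ∧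
      FE V (lle P lE) (llt u) (Nrr u P) (el p) t c ∧ Ec c a, by (repeat' (first | with_reducible exact IntF.id | with_reducible exact IntF.fst' | with_reducible exact IntF.snd' | with_reducible exact IntF.const _ | with_reducible exact Int.const _ | assumption | with_reducible apply Int.and | with_reducible apply Int.or | with_reducible apply Int.not | with_reducible apply Int.imp | with_reducible apply Int.iff | with_reducible apply Int.ne | with_reducible apply Int.eq | with_reducible apply Int.mem | with_reducible apply Int.subset | with_reducible apply Int.ltN | with_reducible apply Int.leN | with_reducible apply Int.fin | with_reducible apply Int.unique | with_reducible apply Int.all | with_reducible apply Int.ex | with_reducible apply IntF.fst | with_reducible apply IntF.snd | with_reducible apply IntF.app | with_reducible apply IntF.ite | with_reducible apply IntF.sep | with_reducible apply IntF.lam | with_reducible apply IntF.insert | with_reducible apply IntF.singleton | with_reducible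 apply IntF.union | with_reducible apply IntF.inter | with_reducible apply IntF.sdiff | with_reducible apply IntF.isUnion | with_reducible apply IntF.iimage | with_reducible apply IntF.the | with_reducible apply IntF.irec | with_reducible_and_instances apply IntF.add | with_reducible_and_instances apply IntF.mul | with_reducible apply IntF.succ | with_reducible apply IntF.val | (with_reducible refine Int.comp ?_ ?_; assumption) | (with_reducible refine Int.comp₂ ?_ ?_ ?_; assumption) | (with_reducible refine Int.comp₃ ?_ ?_ ?_ ?_; assumption) | (with_reducible refine IntF.comp ?_ ?_; assumption) | (with_reducible refine IntF.comp₂ ?_ ?_ ?_; assumption) | (with_reducible refine IntF.comp₃ ?_ ?_ ?_ ?_; assumption) | (with_reducible refine Int.comp₄ ?_ ?_ ?_ ?_ ?_; assumption) | with_reducible apply IntF.pair)), ?_, ?_⟩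
  · rintro p q a hqp ⟨t, s, c, h2, h3, h4, h5⟩
    exact ⟨t, s, c, h2, tr' _ _ _ ((hlel _ _).2 hqp) h3, FE_down hle' hmm hNr tr' h4
      ((hlel _ _).2 hqp), h5⟩
  · intro a
    constructor
    · intro ha
      let c : Helper672.Plain.El u := ⟨code (M := V) a, hpu a⟩
      obtain ⟨t, s, h12, h13, h14⟩ := evalA htr hG hR hu2 τ' x _ hτf ha
      obtain ⟨p, h15, h16⟩ := (hphi t c).2 h14
      obtain ⟨r, h17, h18, h19⟩ := hGn.dir p s h15 h13
      obtain ⟨r, rfl⟩ := hsur r
      exact ⟨r, h17, t, s, c, h12, h19, FE_down hle' hmm hNr tr' h16 h18,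
        (hEc _ _).2 rfl⟩
    · rintro ⟨p, h1, t, s, c, h2, h3, h4, h5⟩
      obtain ⟨z, h6, h7⟩ := evalB htr hR τ' x t s hτf h2 (hGn.up (el p) _ h1 h3)
      have h8 := (hphi t c).1 ⟨el p, h1, h4⟩ z h7
      rw [← (hEc _ _).1 h5, ← h8]
      exact h6

end

end Pool.Agent.H634
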