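import Pool.Agent.H634.DomAbs

/-!
# Limits of families of finite sets of bounded size
-/

set_option maxHeartbeats 1000000
set_option linter.all false

namespace Pool.Agent.H634

open FirstOrder FirstOrder.Language
open Pool.Agent.Helper672.ZFA
open Pool.Agent.Helper672.ZFA.H635 (IWO)
open Pool.Agent.H310
open Pool.Agent.Q212.ZA
open Pool.Agent.Q212.ZB (crd_mono)

universe u u₁ u₂ u₃ u₄

section

variable {M : Type u} [L.Structure M] [hM : IsModel M]
variable {X : Type u₁} [ITy M X]

/-- The finite set `s` is a limit of elements of `D`. -/
def Clo (D : IPow M (IPow M X)) (s : IPow M X) : Prop :=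
  IFin s ∧ ∀ F : IPow M X, IFin F → s ⊆ F → ∃ t, t ∈ D ∧ t ∩ F = s

theorem int_Clo : Int M (fun q : IPow M (IPow M X) × IPow M X => Clo q.1 q.2) := by
  unfold Clo
  (repeat' (first | with_reducible exact IntF.id | with_reducible exact IntF.fst' | with_reducible exact IntF.snd' | with_reducible exact IntF.const _ | with_reducible exact Int.const _ | assumption | with_reducible apply Int.and | with_reducible apply Int.or | with_reducible apply Int.not | with_reducible apply Int.imp | with_reducible apply Int.iff | with_reducible apply Int.ne | with_reducible apply Int.eq | with_reducible apply Int.mem | with_reducible apply Int.subset | with_reducible apply Int.ltN | with_reducible apply Int.leN | with_reducible apply Int.fin | with_reducible apply Int.unique | with_reducible apply Int.all | with_reducible apply Int.ex | with_reducible apply IntF.fst | with_reducible apply IntF.snd | with_reducible apply IntF.app | with_reducible apply IntF.ite | with_reducible apply IntF.sep | with_reducible apply IntF.lam | with_reducible apply IntF.insert | with_reducible apply IntF.singleton | with_reducible apply IntF.union | with_reducible apply IntF.inter | with_reducible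 apply IntF.sdiff | with_reducible apply IntF.isUnion | with_reducible apply IntF.iimage | with_reducible apply IntF.the | with_reducible apply IntF.irec | with_reducible_and_instances apply IntF.add | with_reducible_and_instances apply IntF.mul | with_reducible apply IntF.succ | with_reducible apply IntF.val | (with_reducible refine Int.comp ?_ ?_; assumption) | (with_reducible refine Int.comp₂ ?_ ?_ ?_; assumption) | (with_reducible refine Int.comp₃ ?_ ?_ ?_ ?_; assumption) | (with_reducible refine IntF.comp ?_ ?_; assumption) | (with_reducible refine IntF.comp₂ ?_ ?_ ?_; assumption) | (with_reducible refine IntF.comp₃ ?_ ?_ ?_ ?_; assumption) | (with_reducible refine Int.comp₄ ?_ ?_ ?_ ?_ ?_; assumption) | with_reducible apply IntF.pair))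

/-- The minimal limits. -/
def Mnl (D : IPow M (IPow M X)) (s : IPow M X) : Prop :=
  Clo D s ∧ ∀ s', Clo D s' → s' ⊆ s → s' = s

theorem int_Mnl : Int M (fun q : IPow M (IPow M X) × IPow M X => Mnl q.1 q.2) := by
  have h := int_Clo (M := M) (X := X)
  unfold Mnl
  (repeat' (first | with_reducible exact IntF.id | with_reducible exact IntF.fst' | with_reducible exact IntF.snd' | with_reducible exact IntF.const _ | with_reducible exact Int.const _ | assumption | with_reducible apply Int.and | with_reducible apply Int.or | with_reducible apply Int.not | with_reducible apply Int.imp | with_reducible apply Int.iff | with_reducible apply Int.ne | with_reducible apply Int.eq | with_reducible apply Int.mem | with_reducible apply Int.subset | with_reducible apply Int.ltN | with_reducible apply Int.leN | with_reducible apply Int.fin | with_reducible apply Int.unique | with_reducible apply Int.all | with_reducible apply Int.ex | with_reducible apply IntF.fst | with_reducible apply IntF.snd | with_reducible apply IntF.app | with_reducible apply IntF.ite | with_reducible apply IntF.sep | with_reducible apply IntF.lam | with_reducible apply IntF.insert | with_reducible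 apply IntF.singleton | with_reducible apply IntF.union | with_reducible apply IntF.inter | with_reducible apply IntF.sdiff | with_reducible apply IntF.isUnion | with_reducible apply IntF.iimage | with_reducible apply IntF.the | with_reducible apply IntF.irec | with_reducible_and_instances apply IntF.add | with_reducible_and_instances apply IntF.mul | with_reducible apply IntF.succ | with_reducible apply IntF.val | (with_reducible refine Int.comp ?_ ?_; assumption) | (with_reducible refine Int.comp₂ ?_ ?_ ?_; assumption) | (with_reducible refine Int.comp₃ ?_ ?_ ?_ ?_; assumption) | (with_reducible refine IntF.comp ?_ ?_; assumption) | (with_reducible refine IntF.comp₂ ?_ ?_ ?_; assumption) | (with_reducible refine IntF.comp₃ ?_ ?_ ?_ ?_; assumption) | (with_reducible refine Int.comp₄ ?_ ?_ ?_ ?_ ?_; assumption) | with_reducible apply IntF.pair))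

theorem inter_eq_iff {t F s : IPow M X} : t ∩ F = s ↔ ∀ x, (x ∈ t ∧ x ∈ F) ↔ x ∈ s := by
  constructor
  · rintro rfl x
    rw [mem_inter]
  · intro h
    refine IPow.ext' fun x => ?_
    rw [mem_inter]
    exact h x

theorem clo_self {D : IPow M (IPow M X)} {s : IPow M X} (hs : IFin s) (h : s ∈ D) : Clo D s := by
  refine ⟨hs, fun F hF hsF => ⟨s, h, inter_eq_iff.2 fun x => ?_⟩⟩
  exact ⟨fun h => h.1, fun h => ⟨h, subset_def.1 hsF x h⟩⟩

theorem exists_mnl {D : IPow M (IPow M X)} {s : IPow M X} (h : Clo D s) :
    ∃ s', Mnl D s' ∧ s' ⊆ s := by
  have hC := int_Clo (M := M) (X := X)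
  have hI : Int M (fun t : IPow M X => t ⊆ s ∧ Clo D t) := by (repeat' (first | with_reducible exact IntF.id | with_reducible exact IntF.fst' | with_reducible exact IntF.snd' | with_reducible exact IntF.const _ | with_reducible exact Int.const _ | assumption | with_reducible apply Int.and | with_reducible apply Int.or | with_reducible apply Int.not | with_reducible apply Int.imp | with_reducible apply Int.iff | with_reducible apply Int.ne | with_reducible apply Int.eq | with_reducible apply Int.mem | with_reducible apply Int.subset | with_reducible apply Int.ltN | with_reducible apply Int.leN | with_reducible apply Int.fin | with_reducible apply Int.unique | with_reducible apply Int.all | with_reducible apply Int.ex | with_reducible apply IntF.fst | with_reducible apply IntF.snd | with_reducible apply IntF.app | with_reducible apply IntF.ite | with_reducible apply IntF.sep | with_reducible apply IntF.lam | with_reducible apply IntF.insert | with_reducible apply IntF.singleton | with_reducible apply IntF.union | with_reducible apply IntF.inter | with_reducible apply IntF.sdiff | with_reducible apply IntF.isUnion | with_reducible apply IntF.iimage | with_reducible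 apply IntF.the | with_reducible apply IntF.irec | with_reducible_and_instances apply IntF.add | with_reducible_and_instances apply IntF.mul | with_reducible apply IntF.succ | with_reducible apply IntF.val | (with_reducible refine Int.comp ?_ ?_; assumption) | (with_reducible refine Int.comp₂ ?_ ?_ ?_; assumption) | (with_reducible refine Int.comp₃ ?_ ?_ ?_ ?_; assumption) | (with_reducible refine IntF.comp ?_ ?_; assumption) | (with_reducible refine IntF.comp₂ ?_ ?_ ?_; assumption) | (with_reducible refine IntF.comp₃ ?_ ?_ ?_ ?_; assumption) | (with_reducible refine Int.comp₄ ?_ ?_ ?_ ?_ ?_; assumption) | with_reducible apply IntF.pair))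
  have hfin : IFin (sep M (fun t : IPow M X => t ⊆ s ∧ Clo D t)) := by
    refine h.1.pow.subset (subset_def.2 fun t ht => ?_)
    exact mem_ipow.2 ((mem_sep hI).1 ht).1
  have hlt : Int M (fun q : IPow M X × IPow M X => q.1 ⊆ q.2 ∧ q.1 ≠ q.2) := by (repeat' (first | with_reducible exact IntF.id | with_reducible exact IntF.fst' | with_reducible exact IntF.snd' | with_reducible exact IntF.const _ | with_reducible exact Int.const _ | assumption | with_reducible apply Int.and | with_reducible apply Int.or | with_reducible apply Int.not | with_reducible apply Int.imp | with_reducible apply Int.iff | with_reducible apply Int.ne | with_reducible apply Int.eq | with_reducible apply Int.mem | with_reducible apply Int.subset | with_reducible apply Int.ltN | with_reducible apply Int.leN | with_reducible apply Int.fin | with_reducible apply Int.unique | with_reducible apply Int.all | with_reducible apply Int.ex | with_reducible apply IntF.fst | with_reducible apply IntF.snd | with_reducible apply IntF.app | with_reducible apply IntF.ite | with_reducible apply IntF.sep | with_reducible apply IntF.lam | with_reducible apply IntF.insert | with_reducible apply IntF.singleton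 | with_reducible apply IntF.union | with_reducible apply IntF.inter | with_reducible apply IntF.sdiff | with_reducible apply IntF.isUnion | with_reducible apply IntF.iimage | with_reducible apply IntF.the | with_reducible apply IntF.irec | with_reducible_and_instances apply IntF.add | with_reducible_and_instances apply IntF.mul | with_reducible apply IntF.succ | with_reducible apply IntF.val | (with_reducible refine Int.comp ?_ ?_; assumption) | (with_reducible refine Int.comp₂ ?_ ?_ ?_; assumption) | (with_reducible refine Int.comp₃ ?_ ?_ ?_ ?_; assumption) | (with_reducible refine IntF.comp ?_ ?_; assumption) | (with_reducible refine IntF.comp₂ ?_ ?_ ?_; assumption) | (with_reducible refine IntF.comp₃ ?_ ?_ ?_ ?_; assumption) | (with_reducible refine Int.comp₄ ?_ ?_ ?_ ?_ ?_; assumption) | with_reducible apply IntF.pair))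
  have htr : ∀ a b c : IPow M X, (a ⊆ b ∧ a ≠ b) → (b ⊆ c ∧ b ≠ c) → (a ⊆ c ∧ a ≠ c) := by
    intro a b c h1 h2
    refine ⟨subset_def.2 fun x hx => subset_def.1 h2.1 x (subset_def.1 h1.1 x hx), fun h3 => ?_⟩
    subst h3
    exact h1.2 (subset_antisymm' h1.1 h2.1)
  obtain ⟨t, ht, hmin⟩ := hfin.exists_min (lt := fun a b => a ⊆ b ∧ a ≠ b) hlt
    (fun a h => h.2 rfl) htr ⟨s, (mem_sep hI).2 ⟨subset_def.2 fun _ h => h, h⟩⟩
  obtain ⟨h1, h2⟩ := (mem_sep hI).1 ht
  refine ⟨t, ⟨h2, fun s' hs' hss => ?_⟩, h1⟩
  by_contra hne
  exact hmin s' ((mem_sep hI).2 ⟨subset_def.2 fun x hx =>
    subset_def.1 h1 x (subset_def.1 hss x hx), hs'⟩) ⟨hss, hne⟩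

theorem fin_mnl {D : IPow M (IPow M X)} {n : INat M} (hD : ∀ t, t ∈ D → IFin t ∧ crd t ≤ n) :
    IFin (sep M (fun s => Mnl D s)) := by
  have hC := int_Clo (M := M) (X := X)
  have hMn := int_Mnl (M := M) (X := X)
  have hcr := int_crd (M := M) (α := X)
  have hI : Int M (fun s => Mnl D s) := by (repeat' (first | with_reducible exact IntF.id | with_reducible exact IntF.fst' | with_reducible exact IntF.snd' | with_reducible exact IntF.const _ | with_reducible exact Int.const _ | assumption | with_reducible apply Int.and | with_reducible apply Int.or | with_reducible apply Int.not | with_reducible apply Int.imp | with_reducible apply Int.iff | with_reducible apply Int.ne | with_reducible apply Int.eq | with_reducible apply Int.mem | with_reducible apply Int.subset | with_reducible apply Int.ltN | with_reducible apply Int.leN | with_reducible apply Int.fin | with_reducible apply Int.unique | with_reducible apply Int.all | with_reducible apply Int.ex | with_reducible apply IntF.fst | with_reducible apply IntF.snd | with_reducible apply IntF.app | with_reducible apply IntF.ite | with_reducible apply IntF.sep | with_reducible apply IntF.lam | with_reducible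 apply IntF.insert | with_reducible apply IntF.singleton | with_reducible apply IntF.union | with_reducible apply IntF.inter | with_reducible apply IntF.sdiff | with_reducible apply IntF.isUnion | with_reducible apply IntF.iimage | with_reducible apply IntF.the | with_reducible apply IntF.irec | with_reducible_and_instances apply IntF.add | with_reducible_and_instances apply IntF.mul | with_reducible apply IntF.succ | with_reducible apply IntF.val | (with_reducible refine Int.comp ?_ ?_; assumption) | (with_reducible refine Int.comp₂ ?_ ?_ ?_; assumption) | (with_reducible refine Int.comp₃ ?_ ?_ ?_ ?_; assumption) | (with_reducible refine IntF.comp ?_ ?_; assumption) | (with_reducible refine IntF.comp₂ ?_ ?_ ?_; assumption) | (with_reducible refine IntF.comp₃ ?_ ?_ ?_ ?_; assumption) | (with_reducible refine Int.comp₄ ?_ ?_ ?_ ?_ ?_; assumption) | with_reducible apply IntF.pair))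
  by_contra hinf
  have hIR : ∀ R : IPow M X, Int M (fun s : IPow M X => Mnl D s ∧ R ⊆ s) := fun R => by (repeat' (first | with_reducible exact IntF.id | with_reducible exact IntF.fst' | with_reducible exact IntF.snd' | with_reducible exact IntF.const _ | with_reducible exact Int.const _ | assumption | with_reducible apply Int.and | with_reducible apply Int.or | with_reducible apply Int.not | with_reducible apply Int.imp | with_reducible apply Int.iff | with_reducible apply Int.ne | with_reducible apply Int.eq | with_reducible apply Int.mem | with_reducible apply Int.subset | with_reducible apply Int.ltN | with_reducible apply Int.leN | with_reducible apply Int.fin | with_reducible apply Int.unique | with_reducible apply Int.all | with_reducible apply Int.ex | with_reducible apply IntF.fst | with_reducible apply IntF.snd | with_reducible apply IntF.app | with_reducible apply IntF.ite | with_reducible apply IntF.sep | with_reducible apply IntF.lam | with_reducible apply IntF.insert | with_reducible apply IntF.singleton | with_reducible apply IntF.union | with_reducible apply IntF.inter | with_reducible apply IntF.sdiff | with_reducible apply IntF.isUnion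 | with_reducible apply IntF.iimage | with_reducible apply IntF.the | with_reducible apply IntF.irec | with_reducible_and_instances apply IntF.add | with_reducible_and_instances apply IntF.mul | with_reducible apply IntF.succ | with_reducible apply IntF.val | (with_reducible refine Int.comp ?_ ?_; assumption) | (with_reducible refine Int.comp₂ ?_ ?_ ?_; assumption) | (with_reducible refine Int.comp₃ ?_ ?_ ?_ ?_; assumption) | (with_reducible refine IntF.comp ?_ ?_; assumption) | (with_reducible refine IntF.comp₂ ?_ ?_ ?_; assumption) | (with_reducible refine IntF.comp₃ ?_ ?_ ?_ ?_; assumption) | (with_reducible refine Int.comp₄ ?_ ?_ ?_ ?_ ?_; assumption) | with_reducible apply IntF.pair))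
  have hcd : ∀ s, Mnl D s → crd s ≤ n := by
    intro s hs
    obtain ⟨t, ht, hts⟩ := hs.1.2 s hs.1.1 (subset_def.2 fun _ h => h)
    have h1 := inter_eq_iff.1 hts
    exact (crd_mono (hD t ht).1 (subset_def.2 fun x hx => ((h1 x).2 hx).1)).trans (hD t ht).2
  -- a maximal kernel
  obtain ⟨R, hR1, hR2, hR3⟩ : ∃ R : IPow M X, IFin R ∧
      ¬ IFin (sep M (fun s : IPow M X => Mnl D s ∧ R ⊆ s)) ∧
      ∀ x, ¬ x ∈ R → IFin (sep M (fun s : IPow M X => Mnl D s ∧ insert x R ⊆ s)) := by
    by_contra hcon
    push Not at hcon
    have hP : Int M (fun j : INat M => ∃ R : IPow M X, IFin R ∧ crd R = j ∧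
      ¬ IFin (sep M (fun s : IPow M X => Mnl D s ∧ R ⊆ s))) := by (repeat' (first | with_reducible exact IntF.id | with_reducible exact IntF.fst' | with_reducible exact IntF.snd' | with_reducible exact IntF.const _ | with_reducible exact Int.const _ | assumption | with_reducible apply Int.and | with_reducible apply Int.or | with_reducible apply Int.not | with_reducible apply Int.imp | with_reducible apply Int.iff | with_reducible apply Int.ne | with_reducible apply Int.eq | with_reducible apply Int.mem | with_reducible apply Int.subset | with_reducible apply Int.ltN | with_reducible apply Int.leN | with_reducible apply Int.fin | with_reducible apply Int.unique | with_reducible apply Int.all | with_reducible apply Int.ex | with_reducible apply IntF.fst | with_reducible apply IntF.snd | with_reducible apply IntF.app | with_reducible apply IntF.ite | with_reducible apply IntF.sep | with_reducible apply IntF.lam | with_reducible apply IntF.insert | with_reducible apply IntF.singleton | with_reducible apply IntF.union | with_reducible apply IntF.inter | with_reducible apply IntF.sdiff | with_reducible apply IntF.isUnion | with_reducible apply IntF.iimage |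 with_reducible apply IntF.the | with_reducible apply IntF.irec | with_reducible_and_instances apply IntF.add | with_reducible_and_instances apply IntF.mul | with_reducible apply IntF.succ | with_reducible apply IntF.val | (with_reducible refine Int.comp ?_ ?_; assumption) | (with_reducible refine Int.comp₂ ?_ ?_ ?_; assumption) | (with_reducible refine Int.comp₃ ?_ ?_ ?_ ?_; assumption) | (with_reducible refine IntF.comp ?_ ?_; assumption) | (with_reducible refine IntF.comp₂ ?_ ?_ ?_; assumption) | (with_reducible refine IntF.comp₃ ?_ ?_ ?_ ?_; assumption) | (with_reducible refine Int.comp₄ ?_ ?_ ?_ ?_ ?_; assumption) | with_reducible apply IntF.pair))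
    have key := INat.ind hP ?_ ?_ n.succ
    · obtain ⟨R, h1, h2, h3⟩ := key
      have : ∃ s, s ∈ sep M (fun s : IPow M X => Mnl D s ∧ R ⊆ s) := by
        by_contra hemp
        push Not at hemp
        refine h3 (IFin.subset IFin.empty (subset_def.2 fun s hs => ?_))
        exact absurd hs (hemp s)
      obtain ⟨s, hs⟩ := this
      obtain ⟨h4, h5⟩ := (mem_sep (hIR R)).1 hs
      have h6 := (crd_mono h4.1.1 h5).trans (hcd s h4)
      rw [h2] at h6
      exact absurd (INat.lt_succ_self n) (not_lt.2 h6)
    · refine ⟨∅, IFin.empty, crd_empty, fun h => hinf (h.subset (subset_def.2 fun s hs => ?_))⟩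
      exact (mem_sep (hIR ∅)).2 ⟨(mem_sep hI).1 hs, subset_def.2 fun x hx => by simp at hx⟩
    · rintro j ⟨R, h1, h2, h3⟩
      obtain ⟨x, h4, h5⟩ := hcon R h1 h3
      exact ⟨insert x R, h1.insert x, by rw [crd_insert h1 h4, h2], h5⟩
  -- the kernel is a limit
  have hinfty : ∀ F : IPow M X, IFin F → R ⊆ F → ∃ s, Mnl D s ∧ s ≠ R ∧ s ∩ F = R := by
    intro F hF hRF
    by_contra hcon
    push Not at hcon
    refine hR2 ?_
    have hG : IntF M (fun x : X => sep M (fun s : IPow M X => Mnl D s ∧ insert x R ⊆ s)) := by
      (repeat' (first | with_reducible exact IntF.id | with_reducible exact IntF.fst' | with_reducible exact IntF.snd' | with_reducible exact IntF.const _ | with_reducible exact Int.const _ | assumption | with_reducible apply Int.and | with_reducible apply Int.or | with_reducible apply Int.not | with_reducible apply Int.imp | with_reducible apply Int.iff | with_reducible apply Int.ne | with_reducible apply Int.eq | with_reducible apply Int.mem | with_reducible apply Int.subset | with_reducible apply Int.ltN | with_reducible apply Int.leN | with_reducible apply Int.fin | with_reducible apply Int.unique | with_reducible apply Int.all | with_reducible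 apply Int.ex | with_reducible apply IntF.fst | with_reducible apply IntF.snd | with_reducible apply IntF.app | with_reducible apply IntF.ite | with_reducible apply IntF.sep | with_reducible apply IntF.lam | with_reducible apply IntF.insert | with_reducible apply IntF.singleton | with_reducible apply IntF.union | with_reducible apply IntF.inter | with_reducible apply IntF.sdiff | with_reducible apply IntF.isUnion | with_reducible apply IntF.iimage | with_reducible apply IntF.the | with_reducible apply IntF.irec | with_reducible_and_instances apply IntF.add | with_reducible_and_instances apply IntF.mul | with_reducible apply IntF.succ | with_reducible apply IntF.val | (with_reducible refine Int.comp ?_ ?_; assumption) | (with_reducible refine Int.comp₂ ?_ ?_ ?_; assumption) | (with_reducible refine Int.comp₃ ?_ ?_ ?_ ?_; assumption) | (with_reducible refine IntF.comp ?_ ?_; assumption) | (with_reducible refine IntF.comp₂ ?_ ?_ ?_; assumption) | (with_reducible refine IntF.comp₃ ?_ ?_ ?_ ?_; assumption) | (with_reducible refine Int.comp₄ ?_ ?_ ?_ ?_ ?_; assumption) | with_reducible apply IntF.pair))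
    have hU : IFin (isUnion (iimage (fun x : X =>
        sep M (fun s : IPow M X => Mnl D s ∧ insert x R ⊆ s)) (F \ R))) := by
      refine IFin.isUnion (IFin.image (hF.subset ?_) hG) ?_
      · exact subset_def.2 fun x hx => (mem_sdiff.1 hx).1
      · rintro S hS
        obtain ⟨x, hx, rfl⟩ := (mem_iimage hG).1 hS
        exact hR3 x (mem_sdiff.1 hx).2
    refine IFin.subset (hU.insert R) (subset_def.2 fun s hs => ?_)
    obtain ⟨h1, h2⟩ := (mem_sep (hIR R)).1 hs
    by_cases hsR : s = R
    · exact mem_insert.2 (Or.inl hsR)
    refine mem_insert.2 (Or.inr ?_)
    have h3 : ∃ x, x ∈ s ∧ x ∈ F ∧ ¬ x ∈ R := by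
      by_contra h4
      push Not at h4
      refine hcon s h1 hsR (inter_eq_iff.2 fun x => ⟨fun h => h4 x h.1 h.2, fun h => ?_⟩)
      exact ⟨subset_def.1 h2 x h, subset_def.1 hRF x h⟩
    obtain ⟨x, h4, h5, h6⟩ := h3
    refine mem_isUnion.2 ⟨_, (mem_iimage hG).2 ⟨x, mem_sdiff.2 ⟨h5, h6⟩, rfl⟩, ?_⟩
    refine (mem_sep (hIR _)).2 ⟨h1, subset_def.2 fun y hy => ?_⟩
    rcases mem_insert.1 hy with rfl | hy
    · exact h4
    · exact subset_def.1 h2 y hy
  have hcl : Clo D R := by
    refine ⟨hR1, fun F hF hRF => ?_⟩
    obtain ⟨s, h1, -, h3⟩ := hinfty F hF hRF
    obtain ⟨t, ht, h4⟩ := h1.1.2 (F ∪ s) (hF.union h1.1.1) (subset_def.2 fun x hx =>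
      mem_union.2 (Or.inr hx))
    refine ⟨t, ht, inter_eq_iff.2 fun x => ?_⟩
    rw [← inter_eq_iff.1 h3 x, ← inter_eq_iff.1 h4 x, mem_union]
    tauto
  obtain ⟨s, h1, h2, h3⟩ := hinfty R hR1 (subset_def.2 fun _ h => h)
  refine h2 (h1.2 R hcl (subset_def.2 fun x hx => ?_)).symm
  exact ((inter_eq_iff.1 h3 x).2 hx).1

end

end Pool.Agent.H634
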