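import Pool.Agent.H634.Fin3
import Pool.Agent.H634.Defs3
import Pool.Agent.H634.Ext2

/-!
# The bounding number in generic extensions of countable models of ZF
-/

set_option maxHeartbeats 2000000
set_option linter.all false
set_option synthInstance.maxSize 2000

namespace Pool.Agent.H634

open FirstOrder FirstOrder.Language
open Pool.Agent.Helper672.ZFA
open Pool.Agent.Helper672.Plain (LSet)
open Pool.Agent.Helper672.ZFA.H635 (IWO gr mem_gr code_mem_gr)
open Pool.Agent.H310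
open Pool.Agent.H310Cards
open Pool.Agent.Q212.ZA
open Pool.Agent.Q212.ZB
open Pool.Agent.Q212.ZC
open Pool.Agent.Q212.ZForce (IsPreorder)
open Pool.Agent.Q212.ZD
open Pool.Agent.H635Amen (ZF)
open Pool.Agent.H525Emb (PMem IsTrans IsGenericFilter IsEval IsValue IsForcing IsForcingExtension)
open Pool.Agent.H525C (IsO ord_comp zf_of_equiv)

universe u

noncomputable section

section

variable {M : Type u} [L.Structure M] [hM : IsModel M]
variable {K Λ Q : Type u} [ITy M K] [ITy M Λ] [ITy M Q] {U : Univ M K Λ Q} {a₀ : K}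

/-- The notion of forcing is not trivial. -/
theorem exists_incomp {q : Q} (hq : U.lb q = N0 M K) (p : Pc U a₀) :
    ∃ r r' : Pc U a₀, leC U a₀ r p ∧ leC U a₀ r' p ∧
      ¬ ∃ s : Pc U a₀, leC U a₀ s r ∧ leC U a₀ s r' := by
  obtain ⟨k, hk⟩ := exists_stem_bound (a₀ := a₀) p.2.fin
  have key : ∀ v, Cond U a₀ (insert (q, sm a₀ k v) p.1) := fun v =>
    Cond.value p.2 (fun w h => lt_irrefl _ (hk _ _ _ h).1) fun ξ n h1 h2 =>
      ⟨0, ∅, by rw [hq]; exact mem_N0.2 ⟨rfl, rfl⟩, INat.zero_le _, subset_def.2 fun x hx => by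
        obtain ⟨y, hy, -⟩ := (mem_trs (int_ch_q U q)).1 hx
        simp at hy⟩
  refine ⟨⟨_, key 0⟩, ⟨_, key (INat.succ 0)⟩, sub_insert, sub_insert, ?_⟩
  rintro ⟨s, h1, h2⟩
  have h3 := s.2.func q k 0 (INat.succ 0) (subset_def.1 h1 _ (mem_insert.2 (Or.inl rfl)))
    (subset_def.1 h2 _ (mem_insert.2 (Or.inl rfl)))
  exact absurd h3 (INat.lt_succ_self (0 : INat M)).ne

end

attribute [local instance] Helper672.Plain.toL

attribute [local instance] Pool.Agent.Q212.ZB.instModelL Pool.Agent.Q212.ZB.instPEl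

theorem bounding_aux {B : Type u} [sB : LSet.Structure B] {V : LSet.Substructure B}
    [hZB : Helper672.Plain.Zermelo B] [hZV : Helper672.Plain.Zermelo V] (hB : ZF B) (hV : ZF V)
    {κ lam : V} {n : ℕ} (hκ : IsAleph n κ) (hlam : IsCardinal lam) (hκl : Mem κ lam)
    (hnext : ∀ d, Mem κ d → Mem d lam → ¬ IsCardinal d) {Q : Type u} [iQ : ITy V Q] (q₀ : Q)
    {U : Univ V (PEl κ) (PEl lam) Q} {a₀ : PEl κ} (htr : IsTrans V) {G : B}
    (hG : IsGenericFilter V ((dom V (Pc U a₀) : V) : B) ((gr (int_leC U a₀) : V) : B) G)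
    (hval : ∀ x : B, ∃ τ, τ ∈ V ∧ IsValue G τ x) :
    IsForcingExtensionTop V ∧ ∃ κ : B, IsBoundingNumber κ ∧ IsAleph (n + 1) κ := by
  have hGC : GenC U a₀ G := ⟨htr, hG, hval⟩
  obtain ⟨h5, h6⟩ := bounding_ext hB hV hGC hκ hlam hκl hnext q₀
  refine ⟨⟨_, _, ((code (M := V) (⟨∅, cond_empty⟩ : Pc U a₀) : V) : B), G,
    ⟨Subtype.property _, Subtype.property _, fun p hp => ?_,
    fun p q r hp hq hr h7 h8 => ?_⟩, (mem_domV htr).2 ⟨_, rfl⟩, fun p hp => ?_, hG, hval⟩,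
    _, h5, h6⟩
  · obtain ⟨p, rfl⟩ := (mem_domV htr).1 hp
    exact (pmem_ord htr (int_leC U a₀)).2 (leC_refl U a₀ p)
  · obtain ⟨p, rfl⟩ := (mem_domV htr).1 hp
    obtain ⟨q, rfl⟩ := (mem_domV htr).1 hq
    obtain ⟨r, rfl⟩ := (mem_domV htr).1 hr
    exact (pmem_ord htr (int_leC U a₀)).2 (leC_tr U a₀ _ _ _
      ((pmem_ord htr (int_leC U a₀)).1 h7) ((pmem_ord htr (int_leC U a₀)).1 h8))
  · obtain ⟨p, rfl⟩ := (mem_domV htr).1 hp
    exact (pmem_ord htr (int_leC U a₀)).2 (subset_def.2 fun x hx => by simp at hx)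

/-- The conclusion for generic extensions of `T`. -/
theorem bounding_sub {B : Type u} {C : Set B} [Countable B] [Infinite {x : B // ¬ x ∈ C}]
    (sT : LSet.Structure {x : B // x ∈ C}) (hT : ZF {x : B // x ∈ C}) (n : ℕ) :
    ∃ sB : LSet.Structure B, (subS sB C).inducedStructure = sT ∧ ZF B ∧ IsTrans (subS sB C) ∧
      IsForcingExtensionTop (subS sB C) ∧ ∃ κ : B, IsBoundingNumber κ ∧ IsAleph (n + 1) κ := by
  have hZT : Helper672.Plain.Zermelo {x : B // x ∈ C} := hT.toZermelo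
  obtain ⟨lam, h1, κ, h2, h3, h4⟩ := exists_aleph hT (n + 1)
  have hlamO : IsO lam := h1.1
  obtain ⟨hκO, hκI⟩ := isAleph_ord hT h2
  have hW := iwo_ord hT hκO
  have hΛ := iwo_ord hT hlamO
  obtain ⟨Q, iQ, q₀, ⟨U⟩⟩ := exists_univ hW hΛ (not_fin_inf hκI) ⟨κ, h3⟩
  obtain ⟨e, he, hei, hlb⟩ := U.full (N0 _ (PEl κ)) (fun _ => q₀) (IntF.const _)
    (fun x hx => by
      rw [(mem_N0.1 hx).2]
      exact IFin.empty)
  let a₀ : PEl κ := natEl hκI 0
  let pre : Preorder (Pc U a₀) :=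
    { le := leC U a₀, le_refl := leC_refl U a₀, le_trans := fun a b c => leC_tr U a₀ a b c }
  have ile : ILE {x : B // x ∈ C} (Pc U a₀) := ⟨int_leC U a₀⟩
  obtain ⟨sB, hs, hB, htr, G, hG, hval⟩ := exists_ext sT hT (P := Pc U a₀) (int_leC U a₀)
    ⟨∅, cond_empty⟩ (exists_incomp (hlb ⟨κ, h3⟩).1)
  subst hs
  have hZB : Helper672.Plain.Zermelo B := hB.toZermelo
  exact ⟨sB, rfl, hB, htr, @bounding_aux B sB (subS sB C) hZB hZT hB hT κ lam n h2 h1 h3 h4 Q iQ
    q₀ U a₀ htr G hG hval⟩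

/-- Countable models of ZF have generic extensions in which the bounding number is `ℵ_(n+1)`. -/
theorem bounding_top (V : Type u) [sV : LSet.Structure V] [Countable V] (hV : ZF V) (n : ℕ) :
    ∃ (N : Type u) (_ : LSet.Structure N) (W : LSet.Substructure N) (_ : V ≃[LSet] W),
      ZF N ∧ IsTrans W ∧ IsForcingExtensionTop W ∧
        ∃ κ : N, IsBoundingNumber κ ∧ IsAleph (n + 1) κ := by
  let B : Type u := V ⊕ ULift.{u} ℕ
  let C : Set B := Set.range Sum.inl
  have hinf : Infinite {x : B // ¬ x ∈ C} := by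
    refine Infinite.of_injective (fun k : ℕ => (⟨Sum.inr ⟨k⟩, fun ⟨y, hy⟩ => by cases hy⟩ :
      {x : B // ¬ x ∈ C})) fun a b h => ?_
    have h1 : (Sum.inr ⟨a⟩ : B) = Sum.inr ⟨b⟩ := congrArg Subtype.val h
    exact congrArg ULift.down (Sum.inr_injective h1)
  let e : V ≃ {x : B // x ∈ C} := Equiv.ofInjective (Sum.inl : V → B) Sum.inl_injective
  let sT : LSet.Structure {x : B // x ∈ C} := e.inducedStructure
  have eT : V ≃[LSet] {x : B // x ∈ C} := e.inducedStructureEquiv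
  have hT : ZF {x : B // x ∈ C} := zf_of_equiv eT hV
  obtain ⟨sB, h1, h2, h3, h4, h5⟩ := bounding_sub sT hT n
  have h6 : Nonempty (V ≃[LSet] subS sB C) := by
    have h7 : ∀ s : LSet.Structure {x : B // x ∈ C}, s = sT →
        Nonempty (@Equiv LSet V {x : B // x ∈ C} sV s) := by
      rintro s rfl
      exact ⟨eT⟩
    exact h7 _ h1
  obtain ⟨e'⟩ := h6
  exact ⟨B, sB, subS sB C, e', h2, h3, h4, h5⟩

/-- Countable models of ZF have generic extensions in which the bounding number is `ℵ_(n+1)`. -/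
theorem bounding_main (V : Type u) [sV : LSet.Structure V] [Countable V] (hV : ZF V) (n : ℕ) :
    ∃ (N : Type u) (_ : LSet.Structure N) (W : LSet.Substructure N) (_ : V ≃[LSet] W),
      ZF N ∧ IsTrans W ∧ IsForcingExtension W ∧
        ∃ κ : N, IsBoundingNumber κ ∧ IsAleph (n + 1) κ := by
  obtain ⟨N, sN, W, e, h1, h2, ⟨P, le, one, G, h3, -, -, h4, h5⟩, h6⟩ := bounding_top V hV n
  exact ⟨N, sN, W, e, h1, h2, ⟨P, le, G, h3, h4, h5⟩, h6⟩

end

end Pool.Agent.H634
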