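import Pool.Agent.H634.Itf

/-!
# Names for functions in the extension
-/

set_option maxHeartbeats 2000000
set_option linter.all false
set_option synthInstance.maxSize 2000

namespace Pool.Agent.H634

open FirstOrder FirstOrder.Language
open Pool.Agent.Helper672.ZFA
open Pool.Agent.Helper672.ZFA.H635 (IWO gr mem_gr code_mem_gr)
open Pool.Agent.H310
open Pool.Agent.H310Cards
open Pool.Agent.Q212.ZA
open Pool.Agent.Q212.ZB
open Pool.Agent.Q212.ZC
open Pool.Agent.Q212.ZForce (IsPreorder)
open Pool.Agent.Q212.ZD
open Pool.Agent.H635Amen (ZF)
open Pool.Agent.H525Emb (PMem IsTrans IsGenericFilter IsEval IsValue IsForcing IsForcingExtension)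
open Pool.Agent.H525C (IsO ord_comp)

universe u

section

variable {M : Type u} [L.Structure M] [hM : IsModel M]
variable {K Λ Q : Type u} [ITy M K] [ITy M Λ] [ITy M Q] (U : Univ M K Λ Q) (a₀ : K)

instance instFactCond : Fact (Int M (fun p : IPow M (Q × Cd M K) => Cond U a₀ p)) :=
  ⟨int_cond U a₀⟩

/-- The notion of forcing. -/
abbrev Pc : Type u := {p : IPow M (Q × Cd M K) // Cond U a₀ p}

/-- The order: the stronger conditions are the larger sets. -/
def leC (p q : Pc U a₀) : Prop := q.1 ⊆ p.1

theorem int_leC : Int M (fun q : Pc U a₀ × Pc U a₀ => leC U a₀ q.1 q.2) := by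
  unfold leC
  (repeat' (first | with_reducible exact IntF.id | with_reducible exact IntF.fst' | with_reducible exact IntF.snd' | with_reducible exact IntF.const _ | with_reducible exact Int.const _ | assumption | with_reducible apply Int.and | with_reducible apply Int.or | with_reducible apply Int.not | with_reducible apply Int.imp | with_reducible apply Int.iff | with_reducible apply Int.ne | with_reducible apply Int.eq | with_reducible apply Int.mem | with_reducible apply Int.subset | with_reducible apply Int.ltN | with_reducible apply Int.leN | with_reducible apply Int.fin | with_reducible apply Int.unique | with_reducible apply Int.all | with_reducible apply Int.ex | with_reducible apply IntF.fst | with_reducible apply IntF.snd | with_reducible apply IntF.app | with_reducible apply IntF.ite | with_reducible apply IntF.sep | with_reducible apply IntF.lam | with_reducible apply IntF.insert | with_reducible apply IntF.singleton | with_reducible apply IntF.union | with_reducible apply IntF.inter | with_reducible apply IntF.sdiff | with_reducible apply IntF.isUnion | with_reducible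 apply IntF.iimage | with_reducible apply IntF.the | with_reducible apply IntF.irec | with_reducible_and_instances apply IntF.add | with_reducible_and_instances apply IntF.mul | with_reducible apply IntF.succ | with_reducible apply IntF.val | (with_reducible refine Int.comp ?_ ?_; assumption) | (with_reducible refine Int.comp₂ ?_ ?_ ?_; assumption) | (with_reducible refine Int.comp₃ ?_ ?_ ?_ ?_; assumption) | (with_reducible refine IntF.comp ?_ ?_; assumption) | (with_reducible refine IntF.comp₂ ?_ ?_ ?_; assumption) | (with_reducible refine IntF.comp₃ ?_ ?_ ?_ ?_; assumption) | (with_reducible refine Int.comp₄ ?_ ?_ ?_ ?_ ?_; assumption) | with_reducible apply IntF.pair))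

theorem leC_refl (p : Pc U a₀) : leC U a₀ p p := subset_def.2 fun _ h => h

theorem leC_tr (p q r : Pc U a₀) (h1 : leC U a₀ p q) (h2 : leC U a₀ q r) : leC U a₀ p r :=
  sub_trans h2 h1

end

attribute [local instance] Helper672.Plain.toL

attribute [local instance] Pool.Agent.Q212.ZB.instModelL Pool.Agent.Q212.ZB.instPEl

section

variable {N : Type u} [hs : Helper672.Plain.LSet.Structure N]
  {V : Helper672.Plain.LSet.Substructure N}
variable [hZ : Helper672.Plain.Zermelo N] [hZV : Helper672.Plain.Zermelo V]
variable {K Λ Q : Type u} [ITy V K] [ITy V Λ] [ITy V Q] (U : Univ V K Λ Q) (a₀ : K)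
variable {G : N}

variable (G) in
/-- `G` is generic for the notion of forcing. -/
structure GenC : Prop where
  tr : IsTrans V
  gen : IsGenericFilter V ((dom V (Pc U a₀) : V) : N) ((gr (int_leC U a₀) : V) : N) G
  val : ∀ x : N, ∃ τ, τ ∈ V ∧ IsValue G τ x

variable {U a₀}

theorem GenC.gnr (hG : GenC U a₀ G) : Gnr V (leC U a₀) (Hp (V := V) G) :=
  gnr_int hG.tr (int_leC U a₀) hG.gen

theorem GenC.below (hG : GenC U a₀ G) {D : Pc U a₀ → Prop} (hD : Int V D) {p : Pc U a₀}
    (hp : Hp (V := V) G p) (h : ∀ q, leC U a₀ q p → ∃ r, leC U a₀ r q ∧ D r) :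
    ∃ r, Hp (V := V) G r ∧ D r :=
  hG.gnr.below (int_leC U a₀) (leC_refl U a₀) (leC_tr U a₀) hD hp h

/-- Functions in the extension have names. -/
theorem exists_nam (hN : ZF N) (hV : ZF V) (hG : GenC U a₀ G) {I C : Type u} [ITy V I] [ITy V C]
    {x : N}
    (tot : ∀ i : I, ∃ c : C, Helper672.Plain.Mem ((code (M := V) (i, c) : V) : N) x)
    (unq : ∀ (i : I) (c c' : C), Helper672.Plain.Mem ((code (M := V) (i, c) : V) : N) x →
      Helper672.Plain.Mem ((code (M := V) (i, c') : V) : N) x → c = c') :
    ∃ (p₀ : Pc U a₀) (Dec : IPow V (Q × Cd V K) → I → C → Prop),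
      Nam U a₀ p₀.1 Dec ∧ Dns U a₀ p₀.1 Dec ∧ Hp (V := V) G p₀ ∧
      (∀ (p : Pc U a₀) i c, Hp (V := V) G p → Dec p.1 i c →
        Helper672.Plain.Mem ((code (M := V) (i, c) : V) : N) x) ∧
      ∀ i c, Helper672.Plain.Mem ((code (M := V) (i, c) : V) : N) x →
        ∃ p : Pc U a₀, Hp (V := V) G p ∧ Dec p.1 i c := by
  obtain ⟨R, hR, hRm, hRt⟩ := exists_rel hN hV hG.tr (int_leC U a₀) (leC_refl U a₀)
    (leC_tr U a₀) hG.gen hG.val (α := I × C) x
  obtain ⟨Dec, hDec⟩ : ∃ Dec : IPow V (Q × Cd V K) → I → C → Prop, ∀ p i c, Dec p i c ↔
      ∀ q : Pc U a₀, p ⊆ q.1 → ∃ r : Pc U a₀, q.1 ⊆ r.1 ∧ R r (i, c) := ⟨_, fun _ _ _ => Iff.rfl⟩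
  have hint : Int V (fun x : (IPow V (Q × Cd V K) × I) × C => Dec x.1.1 x.1.2 x.2) := by
    have h1 : Int V (fun x : (IPow V (Q × Cd V K) × I) × C =>
        ∀ q : Pc U a₀, x.1.1 ⊆ q.1 → ∃ r : Pc U a₀, q.1 ⊆ r.1 ∧ R r (x.1.2, x.2)) := by
      (repeat' (first | with_reducible exact IntF.id | with_reducible exact IntF.fst' | with_reducible exact IntF.snd' | with_reducible exact IntF.const _ | with_reducible exact Int.const _ | assumption | with_reducible apply Int.and | with_reducible apply Int.or | with_reducible apply Int.not | with_reducible apply Int.imp | with_reducible apply Int.iff | with_reducible apply Int.ne | with_reducible apply Int.eq | with_reducible apply Int.mem | with_reducible apply Int.subset | with_reducible apply Int.ltN | with_reducible apply Int.leN | with_reducible apply Int.fin | with_reducible apply Int.unique | with_reducible apply Int.all | with_reducible apply Int.ex | with_reducible apply IntF.fst | with_reducible apply IntF.snd | with_reducible apply IntF.app | with_reducible apply IntF.ite | with_reducible apply IntF.sep | with_reducible apply IntF.lam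 | with_reducible apply IntF.insert | with_reducible apply IntF.singleton | with_reducible apply IntF.union | with_reducible apply IntF.inter | with_reducible apply IntF.sdiff | with_reducible apply IntF.isUnion | with_reducible apply IntF.iimage | with_reducible apply IntF.the | with_reducible apply IntF.irec | with_reducible_and_instances apply IntF.add | with_reducible_and_instances apply IntF.mul | with_reducible apply IntF.succ | with_reducible apply IntF.val | (with_reducible refine Int.comp ?_ ?_; assumption) | (with_reducible refine Int.comp₂ ?_ ?_ ?_; assumption) | (with_reducible refine Int.comp₃ ?_ ?_ ?_ ?_; assumption) | (with_reducible refine IntF.comp ?_ ?_; assumption) | (with_reducible refine IntF.comp₂ ?_ ?_ ?_; assumption) | (with_reducible refine IntF.comp₃ ?_ ?_ ?_ ?_; assumption) | (with_reducible refine Int.comp₄ ?_ ?_ ?_ ?_ ?_; assumption) | with_reducible apply IntF.pair))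
    exact h1.congr fun x => (hDec _ _ _).symm
  have mono : ∀ p p' i c, p ⊆ p' → Dec p i c → Dec p' i c := fun p p' i c h1 h2 =>
    (hDec _ _ _).2 fun q hq => (hDec _ _ _).1 h2 q (sub_trans h1 hq)
  have truth : ∀ (p : Pc U a₀) i c, Hp (V := V) G p → Dec p.1 i c →
      Helper672.Plain.Mem ((code (M := V) (i, c) : V) : N) x := by
    intro p i c hp hd
    have hI : Int V (fun r : Pc U a₀ => R r (i, c)) := by (repeat' (first | with_reducible exact IntF.id | with_reducible exact IntF.fst' | with_reducible exact IntF.snd' | with_reducible exact IntF.const _ | with_reducible exact Int.const _ | assumption | with_reducible apply Int.and | with_reducible apply Int.or | with_reducible apply Int.not | with_reducible apply Int.imp | with_reducible apply Int.iff | with_reducible apply Int.ne | with_reducible apply Int.eq | with_reducible apply Int.mem | with_reducible apply Int.subset | with_reducible apply Int.ltN | with_reducible apply Int.leN | with_reducible apply Int.fin | with_reducible apply Int.unique | with_reducible apply Int.all | with_reducible apply Int.ex | with_reducible apply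 IntF.fst | with_reducible apply IntF.snd | with_reducible apply IntF.app | with_reducible apply IntF.ite | with_reducible apply IntF.sep | with_reducible apply IntF.lam | with_reducible apply IntF.insert | with_reducible apply IntF.singleton | with_reducible apply IntF.union | with_reducible apply IntF.inter | with_reducible apply IntF.sdiff | with_reducible apply IntF.isUnion | with_reducible apply IntF.iimage | with_reducible apply IntF.the | with_reducible apply IntF.irec | with_reducible_and_instances apply IntF.add | with_reducible_and_instances apply IntF.mul | with_reducible apply IntF.succ | with_reducible apply IntF.val | (with_reducible refine Int.comp ?_ ?_; assumption) | (with_reducible refine Int.comp₂ ?_ ?_ ?_; assumption) | (with_reducible refine Int.comp₃ ?_ ?_ ?_ ?_; assumption) | (with_reducible refine IntF.comp ?_ ?_; assumption) | (with_reducible refine IntF.comp₂ ?_ ?_ ?_; assumption) | (with_reducible refine IntF.comp₃ ?_ ?_ ?_ ?_; assumption) | (with_reducible refine Int.comp₄ ?_ ?_ ?_ ?_ ?_; assumption) | with_reducible apply IntF.pair))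
    obtain ⟨r, h1, h2⟩ := hG.below hI hp fun q hq => (hDec _ _ _).1 hd q hq
    exact (hRt (i, c)).2 ⟨r, h1, h2⟩
  have truth' : ∀ i c, Helper672.Plain.Mem ((code (M := V) (i, c) : V) : N) x →
        ∃ p : Pc U a₀, Hp (V := V) G p ∧ Dec p.1 i c := by
    intro i c h
    obtain ⟨p, h1, h2⟩ := (hRt (i, c)).1 h
    exact ⟨p, h1, (hDec _ _ _).2 fun q hq => ⟨q, subset_def.2 fun _ h => h, hRm p q _ hq h2⟩⟩
  -- the bad conditions
  have hbad : Int V (fun p : Pc U a₀ => (∃ i c c', c ≠ c' ∧ Dec p.1 i c ∧ Dec p.1 i c') ∨
      ∃ i, ∀ q : Pc U a₀, p.1 ⊆ q.1 → ∀ c, ¬ Dec q.1 i c) := by (repeat' (first | with_reducible exact IntF.id | with_reducible exact IntF.fst' | with_reducible exact IntF.snd' | with_reducible exact IntF.const _ | with_reducible exact Int.const _ | assumption | with_reducible apply Int.and | with_reducible apply Int.or | with_reducible apply Int.not | with_reducible apply Int.imp | with_reducible apply Int.iff | with_reducible apply Int.ne | with_reducible apply Int.eq | with_reducible apply Int.mem | with_reducible apply Int.subset | with_reducible apply Int.ltN | with_reducible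 apply Int.leN | with_reducible apply Int.fin | with_reducible apply Int.unique | with_reducible apply Int.all | with_reducible apply Int.ex | with_reducible apply IntF.fst | with_reducible apply IntF.snd | with_reducible apply IntF.app | with_reducible apply IntF.ite | with_reducible apply IntF.sep | with_reducible apply IntF.lam | with_reducible apply IntF.insert | with_reducible apply IntF.singleton | with_reducible apply IntF.union | with_reducible apply IntF.inter | with_reducible apply IntF.sdiff | with_reducible apply IntF.isUnion | with_reducible apply IntF.iimage | with_reducible apply IntF.the | with_reducible apply IntF.irec | with_reducible_and_instances apply IntF.add | with_reducible_and_instances apply IntF.mul | with_reducible apply IntF.succ | with_reducible apply IntF.val | (with_reducible refine Int.comp ?_ ?_; assumption) | (with_reducible refine Int.comp₂ ?_ ?_ ?_; assumption) | (with_reducible refine Int.comp₃ ?_ ?_ ?_ ?_; assumption) | (with_reducible refine IntF.comp ?_ ?_; assumption) | (with_reducible refine IntF.comp₂ ?_ ?_ ?_; assumption) | (with_reducible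 refine IntF.comp₃ ?_ ?_ ?_ ?_; assumption) | (with_reducible refine Int.comp₄ ?_ ?_ ?_ ?_ ?_; assumption) | with_reducible apply IntF.pair))
  obtain ⟨p₀, hp₀, h1⟩ := hG.gnr.decide (int_leC U a₀) (leC_refl U a₀) (leC_tr U a₀) hbad
  have h2 : ∀ r : Pc U a₀, p₀.1 ⊆ r.1 → ¬ ((∃ i c c', c ≠ c' ∧ Dec r.1 i c ∧ Dec r.1 i c') ∨
      ∃ i, ∀ q : Pc U a₀, r.1 ⊆ q.1 → ∀ c, ¬ Dec q.1 i c) := by
    rcases h1 with h1 | h1
    · exfalso
      rcases h1 with ⟨i, c, c', h2, h3, h4⟩ | ⟨i, h2⟩
      · exact h2 (unq i c c' (truth p₀ i c hp₀ h3) (truth p₀ i c' hp₀ h4))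
      · obtain ⟨c, hc⟩ := tot i
        obtain ⟨p, h3, h4⟩ := truth' i c hc
        obtain ⟨r, h5, h6, h7⟩ := hG.gnr.dir p₀ p hp₀ h3
        exact h2 r h6 c (mono _ _ _ _ h7 h4)
    · exact fun r hr => h1 r hr
  refine ⟨p₀, Dec, ⟨hint, p₀.2, fun p p' i c _ _ h3 h4 => mono p p' i c h3 h4,
    fun p i c c' hp h3 h4 h5 => ?_⟩, fun i p hp h3 => ?_, hp₀, truth, truth'⟩
  · by_contra hne
    exact h2 ⟨p, hp⟩ h3 (Or.inl ⟨i, c, c', hne, h4, h5⟩)
  · by_contra hne
    push Not at hne
    exact h2 ⟨p, hp⟩ h3 (Or.inr ⟨i, fun q hq c hc => hne q.1 c q.2 hq hc⟩)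

end

end Pool.Agent.H634
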