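import Pool.Agent.H634.Cond

/-!
# Names and their supports
-/

set_option maxHeartbeats 2000000
set_option linter.all false
set_option synthInstance.maxSize 2000

namespace Pool.Agent.H634

open FirstOrder FirstOrder.Language
open Pool.Agent.Helper672.ZFA
open Pool.Agent.Helper672.ZFA.H635 (IWO)
open Pool.Agent.H310
open Pool.Agent.Q212.ZA
open Pool.Agent.Q212.ZB (crd_mono)

universe u

noncomputable section

variable {M : Type u} [L.Structure M] [hM : IsModel M]
variable {K Λ Q I C : Type u} [ITy M K] [ITy M Λ] [ITy M Q] [ITy M I] [ITy M C]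

/-- The relation `Dec p i c` (`p` decides that the value at `i` is `c`) is coherent for the
conditions that contain `p₀`. -/
structure Nam (U : Univ M K Λ Q) (a₀ : K) (p₀ : IPow M (Q × Cd M K))
    (Dec : IPow M (Q × Cd M K) → I → C → Prop) : Prop where
  int : Int M (fun x : (IPow M (Q × Cd M K) × I) × C => Dec x.1.1 x.1.2 x.2)
  cond : Cond U a₀ p₀
  mono : ∀ p p' i c, Cond U a₀ p → Cond U a₀ p' → p ⊆ p' → Dec p i c → Dec p' i c
  uniq : ∀ p i c c', Cond U a₀ p → p₀ ⊆ p → Dec p i c → Dec p i c' → c = c'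

/-- All values are decided by a dense set of conditions. -/
def Dns (U : Univ M K Λ Q) (a₀ : K) (p₀ : IPow M (Q × Cd M K))
    (Dec : IPow M (Q × Cd M K) → I → C → Prop) : Prop :=
  ∀ i p, Cond U a₀ p → p₀ ⊆ p → ∃ r c, Cond U a₀ r ∧ p ⊆ r ∧ Dec r i c

variable (U : Univ M K Λ Q) (a₀ : K) (p₀ : IPow M (Q × Cd M K))
  (Dec : IPow M (Q × Cd M K) → I → C → Prop)

/-- The deciding conditions of bounded shape. -/
def DD (i : I) (n : INat M) (W : IPow M (Cd M K)) : IPow M (IPow M (Q × Cd M K)) :=
  sep M fun p => Cond U a₀ p ∧ p₀ ⊆ p ∧ crd p ≤ n ∧ (∀ x, x ∈ p → x.2 ∈ W) ∧ ∃ c, Dec p i c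

variable {U a₀ p₀ Dec}

theorem sub_trans {X : Type u} [ITy M X] {a b c : IPow M X} (h1 : a ⊆ b) (h2 : b ⊆ c) : a ⊆ c :=
  subset_def.2 fun x hx => subset_def.1 h2 x (subset_def.1 h1 x hx)

theorem sub_union_l {X : Type u} [ITy M X] {a b : IPow M X} : a ⊆ a ∪ b :=
  subset_def.2 fun x hx => mem_union.2 (Or.inl hx)

theorem sub_union_r {X : Type u} [ITy M X] {a b : IPow M X} : b ⊆ a ∪ b :=
  subset_def.2 fun x hx => mem_union.2 (Or.inr hx)

theorem sub_insert {X : Type u} [ITy M X] {a : X} {b : IPow M X} : b ⊆ insert a b :=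
  subset_def.2 fun x hx => mem_insert.2 (Or.inr hx)

section

variable (h : Nam U a₀ p₀ Dec)

include h

theorem int_DD' : Int M (fun q : ((I × INat M) × IPow M (Cd M K)) × IPow M (Q × Cd M K) =>
    Cond U a₀ q.2 ∧ p₀ ⊆ q.2 ∧ crd q.2 ≤ q.1.1.2 ∧ (∀ x, x ∈ q.2 → x.2 ∈ q.1.2) ∧
      ∃ c, Dec q.2 q.1.1.1 c) := by
  have hc := int_cond (M := M) U a₀
  have hcr := int_crd (M := M) (α := Q × Cd M K)
  have hd := h.int
  (repeat' (first | with_reducible exact IntF.id | with_reducible exact IntF.fst' | with_reducible exact IntF.snd' | with_reducible exact IntF.const _ | with_reducible exact Int.const _ | assumption | with_reducible apply Int.and | with_reducible apply Int.or | with_reducible apply Int.not | with_reducible apply Int.imp | with_reducible apply Int.iff | with_reducible apply Int.ne | with_reducible apply Int.eq | with_reducible apply Int.mem | with_reducible apply Int.subset | with_reducible apply Int.ltN | with_reducible apply Int.leN | with_reducible apply Int.fin | with_reducible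 apply Int.unique | with_reducible apply Int.all | with_reducible apply Int.ex | with_reducible apply IntF.fst | with_reducible apply IntF.snd | with_reducible apply IntF.app | with_reducible apply IntF.ite | with_reducible apply IntF.sep | with_reducible apply IntF.lam | with_reducible apply IntF.insert | with_reducible apply IntF.singleton | with_reducible apply IntF.union | with_reducible apply IntF.inter | with_reducible apply IntF.sdiff | with_reducible apply IntF.isUnion | with_reducible apply IntF.iimage | with_reducible apply IntF.the | with_reducible apply IntF.irec | with_reducible_and_instances apply IntF.add | with_reducible_and_instances apply IntF.mul | with_reducible apply IntF.succ | with_reducible apply IntF.val | (with_reducible refine Int.comp ?_ ?_; assumption) | (with_reducible refine Int.comp₂ ?_ ?_ ?_; assumption) | (with_reducible refine Int.comp₃ ?_ ?_ ?_ ?_; assumption) | (with_reducible refine IntF.comp ?_ ?_; assumption) | (with_reducible refine IntF.comp₂ ?_ ?_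 ?_; assumption) | (with_reducible refine IntF.comp₃ ?_ ?_ ?_ ?_; assumption) | (with_reducible refine Int.comp₄ ?_ ?_ ?_ ?_ ?_; assumption) | with_reducible apply IntF.pair))

theorem int_DD : IntF M (fun q : (I × INat M) × IPow M (Cd M K) =>
    DD U a₀ p₀ Dec q.1.1 q.1.2 q.2) := IntF.sep (int_DD' h)

theorem mem_DD {i : I} {n : INat M} {W : IPow M (Cd M K)} {p : IPow M (Q × Cd M K)} :
    p ∈ DD U a₀ p₀ Dec i n W ↔
      Cond U a₀ p ∧ p₀ ⊆ p ∧ crd p ≤ n ∧ (∀ x, x ∈ p → x.2 ∈ W) ∧ ∃ c, Dec p i c :=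
  mem_sep (Int.slice (p := fun (q : (I × INat M) × IPow M (Cd M K)) (p : IPow M (Q × Cd M K)) =>
    Cond U a₀ p ∧ p₀ ⊆ p ∧ crd p ≤ q.1.2 ∧ (∀ x, x ∈ p → x.2 ∈ q.2) ∧ ∃ c, Dec p q.1.1 c)
    (int_DD' h) ((i, n), W))

/-- Conditions that contain a limit decide the same values. -/
theorem clo_val {i : I} {n : INat M} {W : IPow M (Cd M K)} (hW : IFin W)
    {σ : IPow M (Q × Cd M K)} (hσ : Clo (DD U a₀ p₀ Dec i n W) σ) {r r' : IPow M (Q × Cd M K)}
    {c c' : C} (hr : Cond U a₀ r) (hr0 : p₀ ⊆ r) (hrσ : σ ⊆ r) (hrc : Dec r i c)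
    (hr' : Cond U a₀ r') (hr0' : p₀ ⊆ r') (hrσ' : σ ⊆ r') (hrc' : Dec r' i c') : c = c' := by
  have hf : IntF M (fun x : Q × Cd M K => x.1) := IntF.fst'
  have hσW : ∀ x, x ∈ σ → x.2 ∈ W := by
    obtain ⟨t, ht, h1⟩ := hσ.2 σ hσ.1 (subset_def.2 fun _ h => h)
    obtain ⟨-, -, -, h2, -⟩ := (mem_DD h).1 ht
    intro x hx
    exact h2 x ((inter_eq_iff.1 h1 x).2 hx).1
  obtain ⟨t, ht, h1⟩ := hσ.2 (iprod (iimage (fun x => x.1) ((r ∪ r') ∪ σ)) W)
    (IFin.prod (IFin.image ((hr.fin.union hr'.fin).union hσ.1) hf) hW)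
    (subset_def.2 fun x hx => mem_iprod.2 ⟨(mem_iimage hf).2 ⟨x, mem_union.2 (Or.inr hx), rfl⟩,
      hσW x hx⟩)
  obtain ⟨h2, h3, -, h4, w, hw⟩ := (mem_DD h).1 ht
  have key : ∀ {s : IPow M (Q × Cd M K)}, s ⊆ r ∪ r' → σ ⊆ s →
      ∀ x y, x ∈ t → y ∈ s → y.1 = x.1 → x ∈ s := by
    intro s hs hσs x y hx hy hxy
    refine subset_def.1 hσs x ((inter_eq_iff.1 h1 x).1 ⟨hx, mem_iprod.2 ⟨?_, h4 x hx⟩⟩)
    exact (mem_iimage hf).2 ⟨y, mem_union.2 (Or.inl (subset_def.1 hs y hy)), hxy⟩
  have h5 := hr.amalg h2 (key sub_union_l hrσ)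
  have h6 := hr'.amalg h2 (key sub_union_r hrσ')
  have h7 : c = w := h.uniq _ i _ _ h5 (sub_trans hr0 sub_union_l)
    (h.mono _ _ _ _ hr h5 sub_union_l hrc) (h.mono _ _ _ _ h2 h5 sub_union_r hw)
  have h8 : c' = w := h.uniq _ i _ _ h6 (sub_trans hr0' sub_union_l)
    (h.mono _ _ _ _ hr' h6 sub_union_l hrc') (h.mono _ _ _ _ h2 h6 sub_union_r hw)
  rw [h7, h8]

theorem fin_mnl_DD (i : I) (n : INat M) (W : IPow M (Cd M K)) :
    IFin (sep M (fun s => Mnl (DD U a₀ p₀ Dec i n W) s)) :=
  fin_mnl fun t ht => ⟨((mem_DD h).1 ht).1.fin, ((mem_DD h).1 ht).2.2.1⟩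

/-- Every deciding condition contains a minimal limit. -/
theorem exists_mnl_DD {r : IPow M (Q × Cd M K)} {i : I} {c : C} (hr : Cond U a₀ r)
    (hr0 : p₀ ⊆ r) (hc : Dec r i c) :
    ∃ n W σ, IFin W ∧ Mnl (DD U a₀ p₀ Dec i n W) σ ∧ σ ⊆ r := by
  have hf : IntF M (fun x : Q × Cd M K => x.2) := IntF.snd'
  have h1 : r ∈ DD U a₀ p₀ Dec i (crd r) (iimage (fun x => x.2) r) :=
    (mem_DD h).2 ⟨hr, hr0, le_rfl, fun x hx => (mem_iimage hf).2 ⟨x, hx, rfl⟩, c, hc⟩
  obtain ⟨σ, h2, h3⟩ := exists_mnl (clo_self hr.fin h1)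
  exact ⟨_, _, σ, IFin.image hr.fin hf, h2, h3⟩

/-- The minimal limits have their support in a closed set that is enumerated by `K`. -/
theorem exists_supp (hK : Sur M K (K × K)) (hN : Sur M K (INat M)) (hI : Sur M K I) (q₀ : Q) :
    ∃ s : K → Q, IntF M s ∧ (∀ k η, ∃ k', s k' = U.ch (s k) η) ∧
      (∀ x, x ∈ p₀ → ∃ k, s k = x.1) ∧
      ∀ i n W σ x, IFin W → Mnl (DD U a₀ p₀ Dec i n W) σ → x ∈ σ → ∃ k, s k = x.1 := by
  have hW : Sur M K (Cd M K) := Sur.prod hK (Sur.prod hK hN ⟨fun k => k, IntF.id,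
    fun k => ⟨k, rfl⟩⟩) hN
  obtain ⟨g, hg, hg1, hg2⟩ := sur_fin hK hN hW
  obtain ⟨f, hf, hf'⟩ := Sur.prod hK hI hN
  obtain ⟨π, hπ, hπ'⟩ := hK
  have hfs : IntF M (fun x : Q × Cd M K => x.1) := IntF.fst'
  have hDD := int_DD h
  have hMn := int_Mnl (M := M) (X := Q × Cd M K)
  have hix : IntF M (fun k : K => (((f (π k).1).1, (f (π k).1).2), g (π k).2)) := by (repeat' (first | with_reducible exact IntF.id | with_reducible exact IntF.fst' | with_reducible exact IntF.snd' | with_reducible exact IntF.const _ | with_reducible exact Int.const _ | assumption | with_reducible apply Int.and | with_reducible apply Int.or | with_reducible apply Int.not | with_reducible apply Int.imp | with_reducible apply Int.iff | with_reducible apply Int.ne | with_reducible apply Int.eq | with_reducible apply Int.mem | with_reducible apply Int.subset | with_reducible apply Int.ltN | with_reducible apply Int.leN | with_reducible apply Int.fin | with_reducible apply Int.unique | with_reducible apply Int.all | with_reducible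 apply Int.ex | with_reducible apply IntF.fst | with_reducible apply IntF.snd | with_reducible apply IntF.app | with_reducible apply IntF.ite | with_reducible apply IntF.sep | with_reducible apply IntF.lam | with_reducible apply IntF.insert | with_reducible apply IntF.singleton | with_reducible apply IntF.union | with_reducible apply IntF.inter | with_reducible apply IntF.sdiff | with_reducible apply IntF.isUnion | with_reducible apply IntF.iimage | with_reducible apply IntF.the | with_reducible apply IntF.irec | with_reducible_and_instances apply IntF.add | with_reducible_and_instances apply IntF.mul | with_reducible apply IntF.succ | with_reducible apply IntF.val | (with_reducible refine Int.comp ?_ ?_; assumption) | (with_reducible refine Int.comp₂ ?_ ?_ ?_; assumption) | (with_reducible refine Int.comp₃ ?_ ?_ ?_ ?_; assumption) | (with_reducible refine IntF.comp ?_ ?_; assumption) | (with_reducible refine IntF.comp₂ ?_ ?_ ?_; assumption) | (with_reducible refine IntF.comp₃ ?_ ?_ ?_ ?_;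 assumption) | (with_reducible refine Int.comp₄ ?_ ?_ ?_ ?_ ?_; assumption) | with_reducible apply IntF.pair))
  have hDk : IntF M (fun k : K => DD U a₀ p₀ Dec (f (π k).1).1 (f (π k).1).2 (g (π k).2)) :=
    IntF.comp (g := fun q : (I × INat M) × IPow M (Cd M K) =>
      DD U a₀ p₀ Dec q.1.1 q.1.2 q.2) hDD hix
  have hDk' : IntF M (fun q : K × IPow M (Q × Cd M K) =>
      DD U a₀ p₀ Dec (f (π q.1).1).1 (f (π q.1).1).2 (g (π q.1).2)) :=
    IntF.comp (g := fun k : K => DD U a₀ p₀ Dec (f (π k).1).1 (f (π k).1).2 (g (π k).2)) hDk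
      IntF.fst'
  have hI' : IntF M (fun k : K => sep M (fun s => Mnl (DD U a₀ p₀ Dec (f (π k).1).1 (f (π k).1).2
      (g (π k).2)) s)) :=
    IntF.sep (Int.comp₂ (p := fun a b => Mnl a b) hMn hDk' IntF.snd')
  have hfs2 : IntF M (fun q : K × (Q × Cd M K) => q.2.1) := by (repeat' (first | with_reducible exact IntF.id | with_reducible exact IntF.fst' | with_reducible exact IntF.snd' | with_reducible exact IntF.const _ | with_reducible exact Int.const _ | assumption | with_reducible apply Int.and | with_reducible apply Int.or | with_reducible apply Int.not | with_reducible apply Int.imp | with_reducible apply Int.iff | with_reducible apply Int.ne | with_reducible apply Int.eq | with_reducible apply Int.mem | with_reducible apply Int.subset | with_reducible apply Int.ltN | with_reducible apply Int.leN | with_reducible apply Int.fin | with_reducible apply Int.unique | with_reducible apply Int.all | with_reducible apply Int.ex | with_reducible apply IntF.fst | with_reducible apply IntF.snd | with_reducible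 apply IntF.app | with_reducible apply IntF.ite | with_reducible apply IntF.sep | with_reducible apply IntF.lam | with_reducible apply IntF.insert | with_reducible apply IntF.singleton | with_reducible apply IntF.union | with_reducible apply IntF.inter | with_reducible apply IntF.sdiff | with_reducible apply IntF.isUnion | with_reducible apply IntF.iimage | with_reducible apply IntF.the | with_reducible apply IntF.irec | with_reducible_and_instances apply IntF.add | with_reducible_and_instances apply IntF.mul | with_reducible apply IntF.succ | with_reducible apply IntF.val | (with_reducible refine Int.comp ?_ ?_; assumption) | (with_reducible refine Int.comp₂ ?_ ?_ ?_; assumption) | (with_reducible refine Int.comp₃ ?_ ?_ ?_ ?_; assumption) | (with_reducible refine IntF.comp ?_ ?_; assumption) | (with_reducible refine IntF.comp₂ ?_ ?_ ?_; assumption) | (with_reducible refine IntF.comp₃ ?_ ?_ ?_ ?_; assumption) | (with_reducible refine Int.comp₄ ?_ ?_ ?_ ?_ ?_; assumption) | with_reducible apply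 IntF.pair))
  have hF : IntF M (fun k : K => iimage (fun x : Q × Cd M K => x.1)
      (isUnion (sep M (fun s => Mnl (DD U a₀ p₀ Dec (f (π k).1).1 (f (π k).1).2
      (g (π k).2)) s)) ∪ p₀)) := by
    have h1 : IntF M (fun k : K =>
      (isUnion (sep M (fun s => Mnl (DD U a₀ p₀ Dec (f (π k).1).1 (f (π k).1).2
      (g (π k).2)) s)) ∪ p₀)) := IntF.union (IntF.isUnion hI') (IntF.const _)
    exact IntF.iimage (f := fun (_ : K) (x : Q × Cd M K) => x.1) hfs2 h1
  have hsl : ∀ i n W, Int M (fun s => Mnl (DD U a₀ p₀ Dec i n W) s) := fun i n W => by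
    have := Int.slice hMn (DD U a₀ p₀ Dec i n W)
    exact this
  have hfin : ∀ k : K, IFin (iimage (fun x : Q × Cd M K => x.1)
      (isUnion (sep M (fun s => Mnl (DD U a₀ p₀ Dec (f (π k).1).1 (f (π k).1).2
      (g (π k).2)) s)) ∪ p₀)) := by
    intro k
    refine IFin.image (IFin.union (IFin.isUnion (fin_mnl_DD h _ _ _) fun s hs => ?_)
      h.cond.fin) hfs
    exact ((mem_sep (hsl _ _ _)).1 hs).1.1
  obtain ⟨e, he, he1⟩ := enum_union ⟨π, hπ, hπ'⟩ hN U.int_lt U.irr U.tr U.tri hF hfin q₀
  obtain ⟨s, hs, hs1, hs2⟩ := exists_closed ⟨π, hπ, hπ'⟩ hN U.int_ch he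
  refine ⟨s, hs, hs2, fun x hx => ?_, fun i n W σ x hW' hσ hx => ?_⟩
  · obtain ⟨q, -⟩ : ∃ k : K, True := by
      obtain ⟨ν, -, hν⟩ := hN
      obtain ⟨k, -⟩ := hν 0
      exact ⟨k, trivial⟩
    obtain ⟨k, hk⟩ := he1 q x.1 ((mem_iimage hfs).2 ⟨x, mem_union.2 (Or.inr hx), rfl⟩)
    obtain ⟨k', hk'⟩ := hs1 k
    exact ⟨k', hk'.trans hk⟩
  · obtain ⟨k₁, hk₁⟩ := hf' (i, n)
    obtain ⟨k₂, hk₂⟩ := hg2 W hW'
    obtain ⟨k, hk⟩ := hπ' (k₁, k₂)
    have h5 : σ ∈ sep M (fun s => Mnl (DD U a₀ p₀ Dec (f (π k).1).1 (f (π k).1).2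
        (g (π k).2)) s) := by
      rw [hk, hk₁, hk₂]
      exact (mem_sep (hsl _ _ _)).2 hσ
    obtain ⟨k₃, hk₃⟩ := he1 k x.1 ((mem_iimage hfs).2 ⟨x, mem_union.2 (Or.inl
      (mem_isUnion.2 ⟨σ, h5, hx⟩)), rfl⟩)
    obtain ⟨k', hk'⟩ := hs1 k₃
    exact ⟨k', hk'.trans hk₃⟩

end

end

end Pool.Agent.H634
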