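import Pool.Graph.R_pool_sql_team_seeded_b3bd081e.H525R3.GOrd
import Pool.Graph.R_pool_sql_team_seeded_3997aac3.Q212.ZD5

/-!
# Generic extensions have the same ordinals
-/

set_option maxHeartbeats 1000000
set_option linter.all false

namespace Pool.Agent.H634

open FirstOrder FirstOrder.Language
open Pool.Agent.Helper672.ZFA
open Pool.Agent.H310
open Pool.Agent.H310Cards
open Pool.Agent.Q212.ZA
open Pool.Agent.Q212.ZB
open Pool.Agent.Q212.ZC
open Pool.Agent.Q212.ZForce
open Pool.Agent.Q212.ZD
open Pool.Agent.H635Amen (ZF)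
open Pool.Agent.H525Emb (PMem IsTrans IsGenericFilter IsEval IsValue)
open Pool.Agent.H525C (IsO ord_comp)

universe u

section

variable {M : Type u} [L.Structure M] [hM : IsModel M]

/-- The set `h` of triples is a witness for forced equality with ground model sets. -/
def BisM (P le h : M) : Prop :=
  ∀ p ρ x, Mem (op (op p ρ) x) h →
    (∀ q, Mem q P → Mem (op q p) le → Mem (op (op q ρ) x) h) ∧
    (∀ t s, Mem (op t s) ρ → Mem s P → ∀ q, Mem q P → Mem (op q p) le → Mem (op q s) le →
      ∃ r y, Mem r P ∧ Mem (op r q) le ∧ Mem y x ∧ Mem (op (op r t) y) h) ∧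
    (∀ y, Mem y x → ∀ q, Mem q P → Mem (op q p) le → ∃ r t s, Mem r P ∧ Mem s P ∧
      Mem (op r q) le ∧ Mem (op r s) le ∧ Mem (op t s) ρ ∧ Mem (op (op r t) y) h)

theorem D.bisM {ι : Type} {P le h : (ι → M) → M} (h0 : DF P) (h1 : DF le) (h2 : DF h) :
    D (fun v => BisM (P v) (le v) (h v)) := by
  have h3 : D (fun v : Fin 3 → M => BisM (v 0) (v 1) (v 2)) := by
    unfold BisM
    (repeat' (first | with_reducible exact DF.var _ | with_reducible exact DF.const _ | assumption | with_reducible apply D.and | with_reducible apply D.or | with_reducible apply D.not | with_reducible apply D.imp | with_reducible apply D.iff | with_reducible apply D.eqf | with_reducible apply D.memf | with_reducible apply D.all | with_reducible apply D.ex | with_reducible apply DF.op | with_reducible apply DF.up | with_reducible apply DF.fst | with_reducible apply DF.snd))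
  have h4 := Helper672.ZFA.H635.D.subst (f := ![P, le, h]) h3 (by
    intro k
    fin_cases k <;> assumption)
  exact h4

theorem bis_unique (hS : ∀ x : M, IsSet x) (hR : H635.ReplL M) (hF : H635.FoundL M) {P le : M}
    (refl : ∀ p, Mem p P → Mem (op p p) le)
    (tr : ∀ p q r, Mem p P → Mem q P → Mem r P → Mem (op p q) le → Mem (op q r) le →
      Mem (op p r) le) (x : M) :
    ∀ x' h h' p t, BisM P le h → BisM P le h' → Mem p P → Mem (op (op p t) x) h →
      Mem (op (op p t) x') h' → x = x' := by
  refine H635.mem_ind hS hR hF (S := fun x => ∀ x' h h' p t, BisM P le h → BisM P le h' →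
    Mem p P → Mem (op (op p t) x) h → Mem (op (op p t) x') h' → x = x') ?_ ?_ x
  · refine D.all (D.all (D.all (D.all (D.all (D.imp (D.bisM (DF.const _) (DF.const _)
      (DF.var _)) (D.imp (D.bisM (DF.const _) (DF.const _) (DF.var _)) ?_))))))
    (repeat' (first | with_reducible exact DF.var _ | with_reducible exact DF.const _ | assumption | with_reducible apply D.and | with_reducible apply D.or | with_reducible apply D.not | with_reducible apply D.imp | with_reducible apply D.iff | with_reducible apply D.eqf | with_reducible apply D.memf | with_reducible apply D.all | with_reducible apply D.ex | with_reducible apply DF.op | with_reducible apply DF.up | with_reducible apply DF.fst | with_reducible apply DF.snd))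
  · intro x ih x' h h' p t hh hh' hp h1 h2
    obtain ⟨-, h3, h4⟩ := hh _ _ _ h1
    obtain ⟨-, h5, h6⟩ := hh' _ _ _ h2
    refine H635.ext_of_isSet hS fun z => ⟨fun hz => ?_, fun hz => ?_⟩
    · obtain ⟨r, t', s, hr, hs, h7, h8, h9, h10⟩ := h4 z hz p hp (refl p hp)
      obtain ⟨r', y, hr', h11, h12, h13⟩ := h5 t' s h9 hs r hr h7 h8
      have h14 := (hh _ _ _ h10).1 r' hr' h11
      rw [ih z hz y h h' r' t' hh hh' hr' h14 h13]
      exact h12
    · obtain ⟨r, t', s, hr, hs, h7, h8, h9, h10⟩ := h6 z hz p hp (refl p hp)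
      obtain ⟨r', y, hr', h11, h12, h13⟩ := h3 t' s h9 hs r hr h7 h8
      have h14 := (hh' _ _ _ h10).1 r' hr' h11
      rw [← ih y h12 z h h' r' t' hh hh' hr' h13 h14]
      exact h12

/-- The class function from pairs of a name and a condition to ordinals. -/
def RelO (P le c x : M) : Prop :=
  IsO x ∧ ∃ h t p, BisM P le h ∧ c = op t p ∧ Mem p P ∧ Mem (op (op p t) x) h

theorem D.relO {ι : Type} {P le c x : (ι → M) → M} (h0 : DF P) (h1 : DF le) (h2 : DF c)
    (h3 : DF x) : D (fun v => RelO (P v) (le v) (c v) (x v)) := by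
  have h4 : D (fun v : Fin 4 → M => RelO (v 0) (v 1) (v 2) (v 3)) := by
    unfold RelO
    refine D.and (H525C.D.isO (DF.var _)) (D.ex (D.ex (D.ex (D.and (D.bisM (DF.var _)
      (DF.var _) (DF.var _)) ?_))))
    (repeat' (first | with_reducible exact DF.var _ | with_reducible exact DF.const _ | assumption | with_reducible apply D.and | with_reducible apply D.or | with_reducible apply D.not | with_reducible apply D.imp | with_reducible apply D.iff | with_reducible apply D.eqf | with_reducible apply D.memf | with_reducible apply D.all | with_reducible apply D.ex | with_reducible apply DF.op | with_reducible apply DF.up | with_reducible apply DF.fst | with_reducible apply DF.snd))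
  have h5 := Helper672.ZFA.H635.D.subst (f := ![P, le, c, x]) h4 (by
    intro k
    fin_cases k <;> assumption)
  exact h5

/-- There is no set of pairs from which all ordinals arise. -/
theorem no_all_ord (hS : ∀ x : M, IsSet x) (hR : H635.ReplL M) (hF : H635.FoundL M) {P le : M}
    (refl : ∀ p, Mem p P → Mem (op p p) le)
    (tr : ∀ p q r, Mem p P → Mem q P → Mem r P → Mem (op p q) le → Mem (op q r) le →
      Mem (op p r) le) (C : M) :
    ∃ x, IsO x ∧ ∀ c, Mem c C → ¬ RelO P le c x := by
  by_contra hcon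
  push Not at hcon
  have h2 : ∀ c x x', RelO P le c x → RelO P le c x' → x = x' := by
    rintro c x x' ⟨-, h, t, p, h1, h2, h3, h4⟩ ⟨-, h', t', p', h1', h2', h3', h4'⟩
    obtain ⟨h5, h6⟩ := op_inj (h2.symm.trans h2')
    subst h5 h6
    exact bis_unique hS hR hF refl tr x x' h h' p t h1 h1' h3 h4 h4'
  obtain ⟨B, hB⟩ := hR (fun c x => RelO P le c x ∨ ((¬ ∃ z, RelO P le c z) ∧ x = P))
    (D.or (D.relO (DF.const _) (DF.const _) (DF.var _) (DF.var _)) (D.and (D.not (D.ex
      (D.relO (DF.const _) (DF.const _) (DF.var _) (DF.var _)))) (D.eqf (DF.var _)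
        (DF.const _)))) C (by
      intro c _
      by_cases h3 : ∃ z, RelO P le c z
      · obtain ⟨z, hz⟩ := h3
        refine ⟨z, Or.inl hz, ?_⟩
        rintro z' (h4 | ⟨h4, -⟩)
        · exact h2 c _ _ h4 hz
        · exact absurd ⟨z, hz⟩ h4
      · refine ⟨P, Or.inr ⟨h3, rfl⟩, ?_⟩
        rintro z' (h4 | ⟨-, h4⟩)
        · exact absurd ⟨z', h4⟩ h3
        · exact h4)
  have h3 : ∀ x : M, IsO x → Mem x B := by
    intro x hx
    obtain ⟨c, hc, h4⟩ := hcon x hx
    exact (hB x).2 ⟨c, hc, Or.inl h4⟩
  have h4 := small_sep (S := {x : M | IsO x}) (H525C.D.isO (DF.var _)) B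
  have h5 : IsO h4.elt := by
    refine ⟨fun z w hz hw => ?_, fun y hy => ?_⟩
    · have h6 : IsO w := (h4.mem.1 hz).2.mem hw
      exact h4.mem.2 ⟨h3 w h6, h6⟩
    · exact (h4.mem.1 hy).2.1
  have h6 : Mem h4.elt h4.elt := h4.mem.2 ⟨h3 _ h5, h5⟩
  obtain ⟨y, h7, h8⟩ := hF (up h4.elt h4.elt) ⟨_, mem_up.2 (Or.inl rfl)⟩
  have h9 : y = h4.elt := (mem_up.1 h7).elim id id
  subst h9
  exact h8 _ (mem_up.2 (Or.inl rfl)) h6

end

end Pool.Agent.H634
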