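import Pool.Agent.H634.Card2

/-!
# Uniqueness of the bounding number and of the cardinals `ℵ_n`
-/

set_option maxHeartbeats 2000000
set_option linter.all false

namespace Pool.Agent.H634

open FirstOrder FirstOrder.Language
open Pool.Agent.Helper672.ZFA
open Pool.Agent.H310Cards
open Pool.Agent.Q212.ZD (replL_of_zf)
open Pool.Agent.H310
open Pool.Agent.Q212.ZA
open Pool.Agent.Q212.ZB
open Pool.Agent.Q212.ZC
open Pool.Agent.H635Amen (ZF)
open Pool.Agent.H525C (IsO ord_comp)

universe u

attribute [local instance] Helper672.Plain.toL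

attribute [local instance] Pool.Agent.Q212.ZB.instModelL Pool.Agent.Q212.ZB.instPEl

section

variable {M : Type u} [Helper672.Plain.LSet.Structure M] [hZ : Helper672.Plain.Zermelo M]

theorem bounding_unique (hN : ZF M) {k l : M} (hk : IsBoundingNumber k)
    (hl : IsBoundingNumber l) : k = l := by
  have h1 : IsO k := hk.1.1
  have h2 : IsO l := hl.1.1
  rcases ord_comp (M := M) (fun _ => trivial) (replL_of_zf hN) hN.foundation k l h1 h2 with
    h | h | h
  · exact absurd hk.2.1 (hl.2.2 k h)
  · exact h
  · exact absurd hl.2.1 (hk.2.2 l h)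

theorem aleph_unique (hN : ZF M) : ∀ {n : ℕ} {k l : M}, IsAleph n k → IsAleph n l → k = l := by
  intro n
  induction n with
  | zero =>
    intro k l hk hl
    exact extM (M := M) fun z => ((hk z).trans (hl z).symm)
  | succ n ih =>
    rintro k l ⟨h1, c, h2, h3, h4⟩ ⟨g1, d, g2, g3, g4⟩
    have h5 := ih h2 g2
    subst h5
    have h6 : IsO k := h1.1
    have h7 : IsO l := g1.1
    rcases ord_comp (M := M) (fun _ => trivial) (replL_of_zf hN) hN.foundation k l h6 h7 with
      h | h | h
    · exact absurd h1 (g4 k h3 h)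
    · exact h
    · exact absurd g1 (h4 l g3 h)

theorem aleph_mem (hN : ZF M) {m : ℕ} {k : M} (hk : IsAleph m k) : ∀ {n : ℕ} {l : M},
    m < n → IsAleph n l → Mem k l := by
  intro n
  induction n with
  | zero => exact fun h => absurd h (Nat.not_lt_zero _)
  | succ n ih =>
    rintro l hmn ⟨h1, c, h2, h3, h4⟩
    rcases Nat.lt_succ_iff_lt_or_eq.1 hmn with h | h
    · have h5 : IsO l := h1.1
      exact h5.1 _ _ h3 (ih h h2)
    · subst h
      rw [aleph_unique hN hk h2]
      exact h3

theorem aleph_index (hN : ZF M) {m n : ℕ} {k : M} (hm : IsAleph m k) (hn : IsAleph n k) :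
    m = n := by
  rcases lt_trichotomy m n with h | h | h
  · exact absurd (aleph_mem hN hm h hn) (not_mem_self' hN k)
  · exact h
  · exact absurd (aleph_mem hN hn h hm) (not_mem_self' hN k)

end

end Pool.Agent.H634
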