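import Pool.Agent.H634.Defs2
import Pool.Graph.R_seed8.V11246.UD

/-!
# The statements about the bounding number are first order
-/

set_option maxHeartbeats 2000000
set_option linter.all false

namespace Pool.Agent.H634

open FirstOrder FirstOrder.Language
open Pool.Agent.Helper672.Plain (LSet Mem IsOrdPair IsPair)
open Pool.Agent.H310Cards
open Pool.Agent.V11246 (UD)

universe u

variable {ι : Type}

theorem ud_false : UD.{u} ι (fun N _ v => False) := by
  refine ⟨⊥, fun N _ v => ?_⟩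
  rfl

theorem ud_congr {p q : ∀ (N : Type u) [LSet.Structure N], (ι → N) → Prop} (h : UD ι p)
    (hpq : ∀ (N : Type u) [LSet.Structure N] (v : ι → N), p N v ↔ q N v) : UD ι q := by
  obtain ⟨φ, h⟩ := h
  exact ⟨φ, fun N _ v => (h N v).trans (hpq N v)⟩

theorem ud_isNat (i : ι) : UD.{u} ι (fun N _ v => IsNat (v i)) :=
  UD.all (UD.imp (UD.ind _) (UD.mem _ _))

theorem ud_isOmega (i : ι) : UD.{u} ι (fun N _ v => IsOmega (v i)) :=
  UD.all (UD.iff (UD.mem _ _) (ud_isNat _))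

theorem ud_transitive (i : ι) : UD.{u} ι (fun N _ v => Transitive (v i)) :=
  UD.all (UD.all (UD.imp (UD.mem _ _) (UD.imp (UD.mem _ _) (UD.mem _ _))))

theorem ud_isOrdinal (i : ι) : UD.{u} ι (fun N _ v => IsOrdinal (v i)) :=
  UD.and (ud_transitive _) (UD.all (UD.imp (UD.mem _ _) (ud_transitive _)))

theorem ud_isFun (i j k : ι) : UD.{u} ι (fun N _ v => IsFun (v i) (v j) (v k)) :=
  UD.and (UD.all (UD.imp (UD.mem _ _) (UD.ex (UD.ex (UD.and (UD.mem _ _) (UD.and (UD.mem _ _)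
    (UD.ordPair _ _ _)))))))
    (UD.all (UD.imp (UD.mem _ _) (UD.ex (UD.and (UD.app _ _ _) (UD.all (UD.imp (UD.app _ _ _)
      (UD.eq _ _)))))))

theorem ud_isInj (i j k : ι) : UD.{u} ι (fun N _ v => IsInj (v i) (v j) (v k)) :=
  UD.and (ud_isFun _ _ _) (UD.all (UD.all (UD.all (UD.imp (UD.app _ _ _) (UD.imp (UD.app _ _ _)
    (UD.eq _ _))))))

theorem ud_isBij (i j k : ι) : UD.{u} ι (fun N _ v => IsBij (v i) (v j) (v k)) :=
  UD.and (ud_isInj _ _ _) (UD.all (UD.imp (UD.mem _ _) (UD.ex (UD.app _ _ _))))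

theorem ud_isCardinal (i : ι) : UD.{u} ι (fun N _ v => IsCardinal (v i)) :=
  UD.and (ud_isOrdinal _) (UD.all (UD.imp (UD.mem _ _) (UD.not (UD.ex (ud_isBij _ _ _)))))

theorem ud_leq (i j : ι) : UD.{u} ι (fun N _ v => Leq (v i) (v j)) :=
  UD.or (UD.eq _ _) (UD.mem _ _)

theorem ud_leStar (i j k : ι) : UD.{u} ι (fun N _ v => LeStar (v i) (v j) (v k)) :=
  UD.ex (UD.and (UD.mem _ _) (UD.all (UD.all (UD.all (UD.imp (ud_leq _ _) (UD.imp (UD.app _ _ _)
    (UD.imp (UD.app _ _ _) (ud_leq _ _))))))))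

theorem ud_isFamily (i j k : ι) : UD.{u} ι (fun N _ v => IsFamily (v i) (v j) (v k)) :=
  UD.ex (UD.and (UD.all (UD.iff (UD.mem _ _) (ud_isFun _ _ _))) (ud_isFun _ _ _))

theorem ud_isUnbFamily (i j k : ι) : UD.{u} ι (fun N _ v => IsUnbFamily (v i) (v j) (v k)) :=
  UD.and (ud_isFamily _ _ _) (UD.not (UD.ex (UD.and (ud_isFun _ _ _) (UD.all (UD.all (UD.imp
    (UD.app _ _ _) (ud_leStar _ _ _)))))))

theorem ud_isBoundingNumber (i : ι) : UD.{u} ι (fun N _ v => IsBoundingNumber (v i)) :=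
  UD.and (ud_isCardinal _) (UD.and (UD.ex (UD.ex (UD.and (ud_isOmega _) (ud_isUnbFamily _ _ _))))
    (UD.all (UD.imp (UD.mem _ _) (UD.not (UD.ex (UD.ex (UD.and (ud_isOmega _)
      (ud_isUnbFamily _ _ _))))))))

theorem ud_isAleph (n : ℕ) : ∀ {ι : Type} (i : ι), UD.{u} ι (fun N _ v => IsAleph n (v i)) := by
  induction n with
  | zero => exact fun i => ud_isOmega i
  | succ n ih =>
    exact fun i => UD.and (ud_isCardinal _) (UD.ex (UD.and (ih _) (UD.and (UD.mem _ _)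
      (UD.all (UD.imp (UD.mem _ _) (UD.imp (UD.mem _ _) (UD.not (ud_isCardinal _))))))))

theorem ud_exists_lt {p : ℕ → ∀ (N : Type u) [LSet.Structure N], (ι → N) → Prop}
    (h : ∀ m, UD ι (p m)) (S : ℕ → Prop) (K : ℕ) :
    UD ι (fun N _ v => ∃ m, m < K ∧ S m ∧ p m N v) := by
  classical
  induction K with
  | zero => exact ud_congr ud_false fun N _ v => by simp
  | succ K ih =>
    by_cases hK : S K
    · refine ud_congr (UD.or ih (h K)) fun N _ v => ?_
      constructor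
      · rintro (⟨m, h1, h2, h3⟩ | h3)
        · exact ⟨m, by omega, h2, h3⟩
        · exact ⟨K, by omega, hK, h3⟩
      · rintro ⟨m, h1, h2, h3⟩
        rcases Nat.lt_succ_iff_lt_or_eq.1 h1 with h4 | rfl
        · exact Or.inl ⟨m, h4, h2, h3⟩
        · exact Or.inr h3
    · refine ud_congr ih fun N _ v => ?_
      constructor
      · rintro ⟨m, h1, h2, h3⟩
        exact ⟨m, by omega, h2, h3⟩
      · rintro ⟨m, h1, h2, h3⟩
        rcases Nat.lt_succ_iff_lt_or_eq.1 h1 with h4 | rfl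
        · exact ⟨m, h4, h2, h3⟩
        · exact absurd h2 hK

/-- The sentences for the bounding number. -/
theorem exists_sentence (S : ℕ → Prop) (K : ℕ) : ∃ φ : LSet.Sentence,
    ∀ (N : Type u) [LSet.Structure N], Sentence.Realize N φ ↔
      ∃ κ : N, IsBoundingNumber κ ∧ ∃ m, m < K ∧ S m ∧ IsAleph (m + 1) κ := by
  obtain ⟨φ, hφ⟩ : UD.{u} Empty (fun N _ v =>
      ∃ κ : N, IsBoundingNumber κ ∧ ∃ m, m < K ∧ S m ∧ IsAleph (m + 1) κ) :=
    UD.ex (UD.and (ud_isBoundingNumber _)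
      (ud_exists_lt (p := fun m N _ v => IsAleph (m + 1) (v (Sum.inr ())))
        (fun m => ud_isAleph (m + 1) _) S K))
  exact ⟨φ, fun N _ => hφ N _⟩

end Pool.Agent.H634
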