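import Pool.Agent.H634.Dm
import Pool.Agent.H634.Defs3

/-!
# Generic extensions of countable models are countable
-/

set_option maxHeartbeats 2000000
set_option linter.all false

namespace Pool.Agent.H634

open FirstOrder FirstOrder.Language
open Pool.Agent.Helper672.ZFA
open Pool.Agent.Helper672.Plain (LSet)
open Pool.Agent.H310
open Pool.Agent.H310Cards
open Pool.Agent.Q212.ZA
open Pool.Agent.Q212.ZB
open Pool.Agent.Q212.ZC
open Pool.Agent.Q212.ZD
open Pool.Agent.H635Amen (ZF)
open Pool.Agent.H525Emb (PMem IsTrans IsGenericFilter IsEval IsValue IsForcing IsForcingExtension)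

universe u

attribute [local instance] Helper672.Plain.toL

attribute [local instance] Pool.Agent.Q212.ZB.instModelL Pool.Agent.Q212.ZB.instPEl

section

variable {N : Type u} [hs : LSet.Structure N] [hZ : Helper672.Plain.Zermelo N]

theorem value_unique (hN : ZF N) {G τ x x' : N} (h : IsValue G τ x) (h' : IsValue G τ x') :
    x = x' := by
  obtain ⟨R, hR, h1⟩ := h
  obtain ⟨R', hR', h1'⟩ := h'
  have key : ∀ z : N, ∀ ρ : N, (ρ = z ∨ Mem ρ z ∨ ∃ y, Mem y z ∧ Mem ρ y) →
      ∀ x x' : N, Mem (op ρ x) R → Mem (op ρ x') R' → x = x' := by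
    refine fun z => Helper672.ZFA.H635.mem_ind (M := N) (fun _ => trivial) (replL_of_zf hN)
      hN.foundation
      (S := fun z => ∀ ρ : N, (ρ = z ∨ Mem ρ z ∨ ∃ y, Mem y z ∧ Mem ρ y) →
      ∀ x x' : N, Mem (op ρ x) R → Mem (op ρ x') R' → x = x') ?_ ?_ z
    · (repeat' (first | with_reducible exact DF.var _ | with_reducible exact DF.const _ | assumption | with_reducible apply D.and | with_reducible apply D.or | with_reducible apply D.not | with_reducible apply D.imp | with_reducible apply D.iff | with_reducible apply D.eqf | with_reducible apply D.memf | with_reducible apply D.all | with_reducible apply D.ex | with_reducible apply DF.op | with_reducible apply DF.up | with_reducible apply DF.fst | with_reducible apply DF.snd))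
    · intro z ih ρ hρ x x' h2 h3
      rcases hρ with rfl | hρ | ⟨y, hy, hρ⟩
      · obtain ⟨g1, g2⟩ := hR _ _ (pMem_iff.2 h2)
        obtain ⟨g1', g2'⟩ := hR' _ _ (pMem_iff.2 h3)
        have key : ∀ r p w w', PMem r p ρ → PMem r w R → PMem r w' R' → w = w' := by
          intro r p w w' h4 h5 h6
          refine ih _ (pMem_iff.1 h4) r (Or.inr (Or.inr ⟨up r r, mem_up.2 (Or.inl rfl),
            mem_up.2 (Or.inl rfl)⟩)) w w' (pMem_iff.1 h5) (pMem_iff.1 h6)
        refine extM (M := N) fun w => ⟨fun hw => ?_, fun hw => ?_⟩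
        · obtain ⟨r, p, h4, h5, h6⟩ := g1 w hw
          obtain ⟨w', h7, h8⟩ := g2' r p h4 h5
          rw [key r p w w' h4 h6 h8]
          exact h7
        · obtain ⟨r, p, h4, h5, h6⟩ := g1' w hw
          obtain ⟨w', h7, h8⟩ := g2 r p h4 h5
          rw [← key r p w' w h4 h8 h6]
          exact h7
      · exact ih ρ hρ ρ (Or.inl rfl) x x' h2 h3
      · exact ih y hy ρ (Or.inr (Or.inl hρ)) x x' h2 h3
  exact key τ τ (Or.inl rfl) x x' (pMem_iff.1 h1) (pMem_iff.1 h1')

end

theorem countable_ext {V N : Type u} [LSet.Structure V] [LSet.Structure N] [Countable V]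
    (h : IsGenericExtension V N) : Countable N := by
  obtain ⟨hN, W, ⟨e⟩, -, P, le, one, G, -, -, -, -, h1⟩ := h
  let _ := hN.toZermelo
  choose f hf1 hf2 using h1
  have h2 : Countable W := e.symm.injective.countable
  have h4 : Function.Injective (fun x : N => (⟨f x, hf1 x⟩ : W)) := by
    intro x y hxy
    have h3 : f x = f y := congrArg Subtype.val hxy
    refine value_unique hN (hf2 x) ?_
    rw [h3]
    exact hf2 y
  exact h4.countable

end Pool.Agent.H634
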