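import Pool.Agent.H634.Sur

/-!
# A universal system of labels
-/

set_option maxHeartbeats 1000000
set_option linter.all false
set_option synthInstance.maxSize 2000

namespace Pool.Agent.H634

open FirstOrder FirstOrder.Language
open Pool.Agent.Helper672.ZFA
open Pool.Agent.Helper672.ZFA.H635 (IWO)
open Pool.Agent.H310
open Pool.Agent.Q212.ZA
open Pool.Agent.Q212.ZB (crd_mono)

universe u

/-- The data of a coordinate: a pair of a natural number and an element of `K`, and a value. -/
abbrev Cd (M : Type u) [L.Structure M] [IsModel M] (K : Type u) : Type u := (INat M × K) × INat M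

/-- The labels. -/
abbrev Lab (M : Type u) [L.Structure M] [IsModel M] (K : Type u) [ITy M K] : Type u :=
  ((K × INat M) × INat M) × IPow M (K × Cd M K)

/-- A universal system of labels. -/
structure Univ (M : Type u) [L.Structure M] [IsModel M] (K Λ Q : Type u) [ITy M K] [ITy M Λ]
    [ITy M Q] where
  lb : Q → IPow M (Lab M K)
  ch : Q → K → Q
  lt : Q → Q → Prop
  int_lb : IntF M lb
  int_ch : IntF M (fun x : Q × K => ch x.1 x.2)
  int_lt : Int M (fun x : Q × Q => lt x.1 x.2)
  irr : ∀ a, ¬ lt a a
  tr : ∀ a b c, lt a b → lt b c → lt a c
  tri : ∀ a b, lt a b ∨ a = b ∨ lt b a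
  full : ∀ (S : IPow M (Lab M K)) (s : K → Q), IntF M s → (∀ x, x ∈ S → IFin x.2) →
    ∃ e : Λ → Q, IntF M e ∧ Function.Injective e ∧ ∀ α, lb (e α) = S ∧ ∀ η, ch (e α) η = s η

section

variable {M : Type u} [L.Structure M] [hM : IsModel M]

/-- The lexicographic order of the subsets of a well-ordered type. -/
def slex {O : Type u} [ITy M O] (lt : O → O → Prop) (x y : IPow M O) : Prop :=
  ∃ o, o ∈ y ∧ ¬ o ∈ x ∧ ∀ o', lt o' o → (o' ∈ x ↔ o' ∈ y)

section

variable {O : Type u} [ITy M O] {lt : O → O → Prop}

theorem int_slex (hW : IWO M O lt) : Int M (fun q : IPow M O × IPow M O => slex lt q.1 q.2) := by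
  have hlt := hW.int
  unfold slex
  (repeat' (first | with_reducible exact IntF.id | with_reducible exact IntF.fst' | with_reducible exact IntF.snd' | with_reducible exact IntF.const _ | with_reducible exact Int.const _ | assumption | with_reducible apply Int.and | with_reducible apply Int.or | with_reducible apply Int.not | with_reducible apply Int.imp | with_reducible apply Int.iff | with_reducible apply Int.ne | with_reducible apply Int.eq | with_reducible apply Int.mem | with_reducible apply Int.subset | with_reducible apply Int.ltN | with_reducible apply Int.leN | with_reducible apply Int.fin | with_reducible apply Int.unique | with_reducible apply Int.all | with_reducible apply Int.ex | with_reducible apply IntF.fst | with_reducible apply IntF.snd | with_reducible apply IntF.app | with_reducible apply IntF.ite | with_reducible apply IntF.sep | with_reducible apply IntF.lam | with_reducible apply IntF.insert | with_reducible apply IntF.singleton | with_reducible apply IntF.union | with_reducible apply IntF.inter | with_reducible apply IntF.sdiff | with_reducible apply IntF.isUnion | with_reducible apply IntF.iimage | with_reducible apply IntF.the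 | with_reducible apply IntF.irec | with_reducible_and_instances apply IntF.add | with_reducible_and_instances apply IntF.mul | with_reducible apply IntF.succ | with_reducible apply IntF.val | (with_reducible refine Int.comp ?_ ?_; assumption) | (with_reducible refine Int.comp₂ ?_ ?_ ?_; assumption) | (with_reducible refine Int.comp₃ ?_ ?_ ?_ ?_; assumption) | (with_reducible refine IntF.comp ?_ ?_; assumption) | (with_reducible refine IntF.comp₂ ?_ ?_ ?_; assumption) | (with_reducible refine IntF.comp₃ ?_ ?_ ?_ ?_; assumption) | (with_reducible refine Int.comp₄ ?_ ?_ ?_ ?_ ?_; assumption) | with_reducible apply IntF.pair))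

theorem slex_irr (x : IPow M O) : ¬ slex lt x x := by
  rintro ⟨o, h1, h2, -⟩
  exact h2 h1

theorem slex_tr (hW : IWO M O lt) (x y z : IPow M O) (h1 : slex lt x y) (h2 : slex lt y z) :
    slex lt x z := by
  obtain ⟨o, a1, a2, a3⟩ := h1
  obtain ⟨r, b1, b2, b3⟩ := h2
  rcases hW.tri o r with h | rfl | h
  · exact ⟨o, (b3 o h).1 a1, a2, fun o' ho' => (a3 o' ho').trans
      (b3 o' (V246.iwo_trans hW ho' h))⟩
  · exact absurd a1 b2
  · exact ⟨r, b1, fun h3 => b2 ((a3 r h).1 h3), fun o' ho' =>
      (a3 o' (V246.iwo_trans hW ho' h)).trans (b3 o' ho')⟩

theorem slex_tri (hW : IWO M O lt) (x y : IPow M O) : slex lt x y ∨ x = y ∨ slex lt y x := by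
  by_cases hxy : x = y
  · exact Or.inr (Or.inl hxy)
  have hI : Int M (fun o : O => ¬ (o ∈ x ↔ o ∈ y)) := by (repeat' (first | with_reducible exact IntF.id | with_reducible exact IntF.fst' | with_reducible exact IntF.snd' | with_reducible exact IntF.const _ | with_reducible exact Int.const _ | assumption | with_reducible apply Int.and | with_reducible apply Int.or | with_reducible apply Int.not | with_reducible apply Int.imp | with_reducible apply Int.iff | with_reducible apply Int.ne | with_reducible apply Int.eq | with_reducible apply Int.mem | with_reducible apply Int.subset | with_reducible apply Int.ltN | with_reducible apply Int.leN | with_reducible apply Int.fin | with_reducible apply Int.unique | with_reducible apply Int.all | with_reducible apply Int.ex | with_reducible apply IntF.fst | with_reducible apply IntF.snd | with_reducible apply IntF.app | with_reducible apply IntF.ite | with_reducible apply IntF.sep | with_reducible apply IntF.lam | with_reducible apply IntF.insert | with_reducible apply IntF.singleton | with_reducible apply IntF.union | with_reducible apply IntF.inter | with_reducible apply IntF.sdiff | with_reducible apply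 IntF.isUnion | with_reducible apply IntF.iimage | with_reducible apply IntF.the | with_reducible apply IntF.irec | with_reducible_and_instances apply IntF.add | with_reducible_and_instances apply IntF.mul | with_reducible apply IntF.succ | with_reducible apply IntF.val | (with_reducible refine Int.comp ?_ ?_; assumption) | (with_reducible refine Int.comp₂ ?_ ?_ ?_; assumption) | (with_reducible refine Int.comp₃ ?_ ?_ ?_ ?_; assumption) | (with_reducible refine IntF.comp ?_ ?_; assumption) | (with_reducible refine IntF.comp₂ ?_ ?_ ?_; assumption) | (with_reducible refine IntF.comp₃ ?_ ?_ ?_ ?_; assumption) | (with_reducible refine Int.comp₄ ?_ ?_ ?_ ?_ ?_; assumption) | with_reducible apply IntF.pair))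
  have hne : ∃ o, ¬ (o ∈ x ↔ o ∈ y) := by
    by_contra h
    push Not at h
    exact hxy (IPow.ext' h)
  obtain ⟨o, h1, h2⟩ := V246.iwo_least hW hI hne
  have h3 : ∀ o', lt o' o → (o' ∈ x ↔ o' ∈ y) := fun o' h => by
    by_contra h4
    exact h2 o' h4 h
  by_cases h4 : o ∈ y
  · exact Or.inl ⟨o, h4, fun h5 => h1 ⟨fun _ => h4, fun _ => h5⟩, h3⟩
  · refine Or.inr (Or.inr ⟨o, ?_, h4, fun o' h => (h3 o' h).symm⟩)
    by_contra h5
    exact h1 ⟨fun h => absurd h h5, fun h => absurd h h4⟩

end

variable {K Λ : Type u} [ITy M K] [ITy M Λ]

instance instFactFin' {X : Type u} [ITy M X] : Fact (Int M (fun s : IPow M X => IFin s)) :=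
  ⟨Int.fin IntF.id⟩

theorem exists_univ {ltK : K → K → Prop} (hK : IWO M K ltK) {ltΛ : Λ → Λ → Prop}
    (hΛ : IWO M Λ ltΛ) (hinf : ¬ IFin (sep M fun _ : K => True)) (α₀ : Λ) :
    ∃ (Q : Type u) (_ : ITy M Q) (_ : Q), Nonempty (Univ M K Λ Q) := by
  obtain ⟨pr, hpr, hpri⟩ := V246.exists_sq hK hinf
  -- two points
  obtain ⟨a₀, a₁, ha⟩ : ∃ a₀ a₁ : K, a₀ ≠ a₁ := by
    by_contra hcon
    push Not at hcon
    by_cases hne : ∃ a : K, True
    · obtain ⟨a, -⟩ := hne
      refine hinf ((IFin.singleton a).subset (subset_def.2 fun x _ => ?_))
      exact mem_singleton.2 (hcon x a)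
    · push Not at hne
      exact hinf (IFin.empty.subset (subset_def.2 fun x _ => (hne x).elim))
  let FK : Type u := {s : IPow M (K × Cd M K) // IFin s}
  let B : Type u := ((K × INat M) × INat M) × FK
  have hN := V246.iwoNn (N := M)
  have hC := V246.iwo_prod hK (V246.iwo_prod (V246.iwo_prod hN hK) hN)
  have hval : IntF M (fun x : FK => x.1) := IntF.val'
  have hFK := V246.iwo_fin hC (β := FK) (f := fun x => x.1) hval Subtype.val_injective
    fun x => x.2
  have hB := V246.iwo_prod (V246.iwo_prod (V246.iwo_prod hK hN) hN) hFK
  have hO := V246.iwo_prod hK (V246.iwo_prod hB hΛ)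
  let O : Type u := K × (B × Λ)
  let b₀ : B := (((a₀, 0), 0), ⟨∅, IFin.empty⟩)
  let j0 : B → O := fun b => (pr (a₁, a₀), (b, α₀))
  let j1 : K × O → O := fun q => (pr (a₀, pr (q.1, q.2.1)), q.2.2)
  let j2 : Λ → O := fun α => (pr (a₁, a₁), (b₀, α))
  have hj0 : IntF M j0 := by
    change IntF M (fun b : B => (pr (a₁, a₀), (b, α₀)))
    (repeat' (first | with_reducible exact IntF.id | with_reducible exact IntF.fst' | with_reducible exact IntF.snd' | with_reducible exact IntF.const _ | with_reducible exact Int.const _ | assumption | with_reducible apply Int.and | with_reducible apply Int.or | with_reducible apply Int.not | with_reducible apply Int.imp | with_reducible apply Int.iff | with_reducible apply Int.ne | with_reducible apply Int.eq | with_reducible apply Int.mem | with_reducible apply Int.subset | with_reducible apply Int.ltN | with_reducible apply Int.leN | with_reducible apply Int.fin | with_reducible apply Int.unique | with_reducible apply Int.all | with_reducible apply Int.ex | with_reducible apply IntF.fst | with_reducible apply IntF.snd | with_reducible apply IntF.app | with_reducible apply IntF.ite | with_reducible apply IntF.sep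 | with_reducible apply IntF.lam | with_reducible apply IntF.insert | with_reducible apply IntF.singleton | with_reducible apply IntF.union | with_reducible apply IntF.inter | with_reducible apply IntF.sdiff | with_reducible apply IntF.isUnion | with_reducible apply IntF.iimage | with_reducible apply IntF.the | with_reducible apply IntF.irec | with_reducible_and_instances apply IntF.add | with_reducible_and_instances apply IntF.mul | with_reducible apply IntF.succ | with_reducible apply IntF.val | (with_reducible refine Int.comp ?_ ?_; assumption) | (with_reducible refine Int.comp₂ ?_ ?_ ?_; assumption) | (with_reducible refine Int.comp₃ ?_ ?_ ?_ ?_; assumption) | (with_reducible refine IntF.comp ?_ ?_; assumption) | (with_reducible refine IntF.comp₂ ?_ ?_ ?_; assumption) | (with_reducible refine IntF.comp₃ ?_ ?_ ?_ ?_; assumption) | (with_reducible refine Int.comp₄ ?_ ?_ ?_ ?_ ?_; assumption) | with_reducible apply IntF.pair))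
  have hj1 : IntF M j1 := by
    change IntF M (fun q : K × O => (pr (a₀, pr (q.1, q.2.1)), q.2.2))
    (repeat' (first | with_reducible exact IntF.id | with_reducible exact IntF.fst' | with_reducible exact IntF.snd' | with_reducible exact IntF.const _ | with_reducible exact Int.const _ | assumption | with_reducible apply Int.and | with_reducible apply Int.or | with_reducible apply Int.not | with_reducible apply Int.imp | with_reducible apply Int.iff | with_reducible apply Int.ne | with_reducible apply Int.eq | with_reducible apply Int.mem | with_reducible apply Int.subset | with_reducible apply Int.ltN | with_reducible apply Int.leN | with_reducible apply Int.fin | with_reducible apply Int.unique | with_reducible apply Int.all | with_reducible apply Int.ex | with_reducible apply IntF.fst | with_reducible apply IntF.snd | with_reducible apply IntF.app | with_reducible apply IntF.ite | with_reducible apply IntF.sep | with_reducible apply IntF.lam | with_reducible apply IntF.insert | with_reducible apply IntF.singleton | with_reducible apply IntF.union | with_reducible apply IntF.inter | with_reducible apply IntF.sdiff | with_reducible apply IntF.isUnion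 | with_reducible apply IntF.iimage | with_reducible apply IntF.the | with_reducible apply IntF.irec | with_reducible_and_instances apply IntF.add | with_reducible_and_instances apply IntF.mul | with_reducible apply IntF.succ | with_reducible apply IntF.val | (with_reducible refine Int.comp ?_ ?_; assumption) | (with_reducible refine Int.comp₂ ?_ ?_ ?_; assumption) | (with_reducible refine Int.comp₃ ?_ ?_ ?_ ?_; assumption) | (with_reducible refine IntF.comp ?_ ?_; assumption) | (with_reducible refine IntF.comp₂ ?_ ?_ ?_; assumption) | (with_reducible refine IntF.comp₃ ?_ ?_ ?_ ?_; assumption) | (with_reducible refine Int.comp₄ ?_ ?_ ?_ ?_ ?_; assumption) | with_reducible apply IntF.pair))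
  have hj2 : IntF M j2 := by
    change IntF M (fun α : Λ => (pr (a₁, a₁), (b₀, α)))
    (repeat' (first | with_reducible exact IntF.id | with_reducible exact IntF.fst' | with_reducible exact IntF.snd' | with_reducible exact IntF.const _ | with_reducible exact Int.const _ | assumption | with_reducible apply Int.and | with_reducible apply Int.or | with_reducible apply Int.not | with_reducible apply Int.imp | with_reducible apply Int.iff | with_reducible apply Int.ne | with_reducible apply Int.eq | with_reducible apply Int.mem | with_reducible apply Int.subset | with_reducible apply Int.ltN | with_reducible apply Int.leN | with_reducible apply Int.fin | with_reducible apply Int.unique | with_reducible apply Int.all | with_reducible apply Int.ex | with_reducible apply IntF.fst | with_reducible apply IntF.snd | with_reducible apply IntF.app | with_reducible apply IntF.ite | with_reducible apply IntF.sep | with_reducible apply IntF.lam | with_reducible apply IntF.insert | with_reducible apply IntF.singleton | with_reducible apply IntF.union | with_reducible apply IntF.inter | with_reducible apply IntF.sdiff | with_reducible apply IntF.isUnion | with_reducible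 apply IntF.iimage | with_reducible apply IntF.the | with_reducible apply IntF.irec | with_reducible_and_instances apply IntF.add | with_reducible_and_instances apply IntF.mul | with_reducible apply IntF.succ | with_reducible apply IntF.val | (with_reducible refine Int.comp ?_ ?_; assumption) | (with_reducible refine Int.comp₂ ?_ ?_ ?_; assumption) | (with_reducible refine Int.comp₃ ?_ ?_ ?_ ?_; assumption) | (with_reducible refine IntF.comp ?_ ?_; assumption) | (with_reducible refine IntF.comp₂ ?_ ?_ ?_; assumption) | (with_reducible refine IntF.comp₃ ?_ ?_ ?_ ?_; assumption) | (with_reducible refine Int.comp₄ ?_ ?_ ?_ ?_ ?_; assumption) | with_reducible apply IntF.pair))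
  have hj1' : IntF M (fun q : (IPow M O × K) × O => j1 (q.1.2, q.2)) := by (repeat' (first | with_reducible exact IntF.id | with_reducible exact IntF.fst' | with_reducible exact IntF.snd' | with_reducible exact IntF.const _ | with_reducible exact Int.const _ | assumption | with_reducible apply Int.and | with_reducible apply Int.or | with_reducible apply Int.not | with_reducible apply Int.imp | with_reducible apply Int.iff | with_reducible apply Int.ne | with_reducible apply Int.eq | with_reducible apply Int.mem | with_reducible apply Int.subset | with_reducible apply Int.ltN | with_reducible apply Int.leN | with_reducible apply Int.fin | with_reducible apply Int.unique | with_reducible apply Int.all | with_reducible apply Int.ex | with_reducible apply IntF.fst | with_reducible apply IntF.snd | with_reducible apply IntF.app | with_reducible apply IntF.ite | with_reducible apply IntF.sep | with_reducible apply IntF.lam | with_reducible apply IntF.insert | with_reducible apply IntF.singleton | with_reducible apply IntF.union | with_reducible apply IntF.inter | with_reducible apply IntF.sdiff | with_reducible apply IntF.isUnion | with_reducible apply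 IntF.iimage | with_reducible apply IntF.the | with_reducible apply IntF.irec | with_reducible_and_instances apply IntF.add | with_reducible_and_instances apply IntF.mul | with_reducible apply IntF.succ | with_reducible apply IntF.val | (with_reducible refine Int.comp ?_ ?_; assumption) | (with_reducible refine Int.comp₂ ?_ ?_ ?_; assumption) | (with_reducible refine Int.comp₃ ?_ ?_ ?_ ?_; assumption) | (with_reducible refine IntF.comp ?_ ?_; assumption) | (with_reducible refine IntF.comp₂ ?_ ?_ ?_; assumption) | (with_reducible refine IntF.comp₃ ?_ ?_ ?_ ?_; assumption) | (with_reducible refine Int.comp₄ ?_ ?_ ?_ ?_ ?_; assumption) | with_reducible apply IntF.pair))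
  have e0 : ∀ b b', j0 b = j0 b' → b = b' := fun b b' h => congrArg (fun o : O => o.2.1) h
  have e1 : ∀ q q', j1 q = j1 q' → q = q' := by
    rintro ⟨η, k, y⟩ ⟨η', k', y'⟩ h
    have h1 := hpri (congrArg Prod.fst h)
    have h2 := hpri (congrArg Prod.snd h1)
    have h3 : y = y' := congrArg Prod.snd h
    have h4 : η = η' := congrArg Prod.fst h2
    have h5 : k = k' := congrArg Prod.snd h2
    rw [h3, h4, h5]
  have e2 : ∀ α α', j2 α = j2 α' → α = α' := fun b b' h => congrArg (fun o : O => o.2.2) h
  have d01 : ∀ b q, j0 b ≠ j1 q := fun b q h =>
    ha (congrArg Prod.fst (hpri (congrArg Prod.fst h))).symm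
  have d21 : ∀ b q, j2 b ≠ j1 q := fun b q h =>
    ha (congrArg Prod.fst (hpri (congrArg Prod.fst h))).symm
  have d02 : ∀ b q, j0 b ≠ j2 q := fun b q h =>
    ha (congrArg Prod.snd (hpri (congrArg Prod.fst h)))
  let lb : IPow M O → IPow M (Lab M K) := fun q => sep M fun x =>
    ∃ b : B, (b.1, b.2.1) = x ∧ j0 b ∈ q
  let ch : IPow M O → K → IPow M O := fun q η => sep M fun o => j1 (η, o) ∈ q
  have hI0 : Int M (fun q : IPow M O × Lab M K => ∃ b : B, (b.1, b.2.1) = q.2 ∧ j0 b ∈ q.1) := by
    (repeat' (first | with_reducible exact IntF.id | with_reducible exact IntF.fst' | with_reducible exact IntF.snd' | with_reducible exact IntF.const _ | with_reducible exact Int.const _ | assumption | with_reducible apply Int.and | with_reducible apply Int.or | with_reducible apply Int.not | with_reducible apply Int.imp | with_reducible apply Int.iff | with_reducible apply Int.ne | with_reducible apply Int.eq | with_reducible apply Int.mem | with_reducible apply Int.subset | with_reducible apply Int.ltN | with_reducible apply Int.leN | with_reducible apply Int.fin | with_reducible apply Int.unique | with_reducible apply Int.all | with_reducible apply Int.ex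 | with_reducible apply IntF.fst | with_reducible apply IntF.snd | with_reducible apply IntF.app | with_reducible apply IntF.ite | with_reducible apply IntF.sep | with_reducible apply IntF.lam | with_reducible apply IntF.insert | with_reducible apply IntF.singleton | with_reducible apply IntF.union | with_reducible apply IntF.inter | with_reducible apply IntF.sdiff | with_reducible apply IntF.isUnion | with_reducible apply IntF.iimage | with_reducible apply IntF.the | with_reducible apply IntF.irec | with_reducible_and_instances apply IntF.add | with_reducible_and_instances apply IntF.mul | with_reducible apply IntF.succ | with_reducible apply IntF.val | (with_reducible refine Int.comp ?_ ?_; assumption) | (with_reducible refine Int.comp₂ ?_ ?_ ?_; assumption) | (with_reducible refine Int.comp₃ ?_ ?_ ?_ ?_; assumption) | (with_reducible refine IntF.comp ?_ ?_; assumption) | (with_reducible refine IntF.comp₂ ?_ ?_ ?_; assumption) | (with_reducible refine IntF.comp₃ ?_ ?_ ?_ ?_; assumption) | (with_reducible refine Int.comp₄ ?_ ?_ ?_ ?_ ?_; assumption) | with_reducible apply IntF.pair))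
  have hI1 : Int M (fun q : (IPow M O × K) × O => j1 (q.1.2, q.2) ∈ q.1.1) := by (repeat' (first | with_reducible exact IntF.id | with_reducible exact IntF.fst' | with_reducible exact IntF.snd' | with_reducible exact IntF.const _ | with_reducible exact Int.const _ | assumption | with_reducible apply Int.and | with_reducible apply Int.or | with_reducible apply Int.not | with_reducible apply Int.imp | with_reducible apply Int.iff | with_reducible apply Int.ne | with_reducible apply Int.eq | with_reducible apply Int.mem | with_reducible apply Int.subset | with_reducible apply Int.ltN | with_reducible apply Int.leN | with_reducible apply Int.fin | with_reducible apply Int.unique | with_reducible apply Int.all | with_reducible apply Int.ex | with_reducible apply IntF.fst | with_reducible apply IntF.snd | with_reducible apply IntF.app | with_reducible apply IntF.ite | with_reducible apply IntF.sep | with_reducible apply IntF.lam | with_reducible apply IntF.insert | with_reducible apply IntF.singleton | with_reducible apply IntF.union | with_reducible apply IntF.inter | with_reducible apply IntF.sdiff | with_reducible apply IntF.isUnion | with_reducible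 apply IntF.iimage | with_reducible apply IntF.the | with_reducible apply IntF.irec | with_reducible_and_instances apply IntF.add | with_reducible_and_instances apply IntF.mul | with_reducible apply IntF.succ | with_reducible apply IntF.val | (with_reducible refine Int.comp ?_ ?_; assumption) | (with_reducible refine Int.comp₂ ?_ ?_ ?_; assumption) | (with_reducible refine Int.comp₃ ?_ ?_ ?_ ?_; assumption) | (with_reducible refine IntF.comp ?_ ?_; assumption) | (with_reducible refine IntF.comp₂ ?_ ?_ ?_; assumption) | (with_reducible refine IntF.comp₃ ?_ ?_ ?_ ?_; assumption) | (with_reducible refine Int.comp₄ ?_ ?_ ?_ ?_ ?_; assumption) | with_reducible apply IntF.pair))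
  have hlb : IntF M lb := IntF.sep hI0
  have hch : IntF M (fun x : IPow M O × K => ch x.1 x.2) := IntF.sep hI1
  refine ⟨IPow M O, inferInstance, ∅, ⟨{
    lb := lb
    ch := ch
    lt := slex (M := M) _
    int_lb := hlb
    int_ch := hch
    int_lt := int_slex hO
    irr := slex_irr
    tr := slex_tr hO
    tri := slex_tri hO
    full := ?_ }⟩⟩
  intro S s hs hS
  let P : Λ → O → Prop := fun α o => (∃ b : B, j0 b = o ∧ (b.1, b.2.1) ∈ S) ∨
      (∃ η o', j1 (η, o') = o ∧ o' ∈ s η) ∨ j2 α = o
  have hE : Int M (fun q : Λ × O => P q.1 q.2) := by
    change Int M (fun q : Λ × O => (∃ b : B, j0 b = q.2 ∧ (b.1, b.2.1) ∈ S) ∨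
      (∃ η o, j1 (η, o) = q.2 ∧ o ∈ s η) ∨ j2 q.1 = q.2)
    (repeat' (first | with_reducible exact IntF.id | with_reducible exact IntF.fst' | with_reducible exact IntF.snd' | with_reducible exact IntF.const _ | with_reducible exact Int.const _ | assumption | with_reducible apply Int.and | with_reducible apply Int.or | with_reducible apply Int.not | with_reducible apply Int.imp | with_reducible apply Int.iff | with_reducible apply Int.ne | with_reducible apply Int.eq | with_reducible apply Int.mem | with_reducible apply Int.subset | with_reducible apply Int.ltN | with_reducible apply Int.leN | with_reducible apply Int.fin | with_reducible apply Int.unique | with_reducible apply Int.all | with_reducible apply Int.ex | with_reducible apply IntF.fst | with_reducible apply IntF.snd | with_reducible apply IntF.app | with_reducible apply IntF.ite | with_reducible apply IntF.sep | with_reducible apply IntF.lam | with_reducible apply IntF.insert | with_reducible apply IntF.singleton | with_reducible apply IntF.union | with_reducible apply IntF.inter | with_reducible apply IntF.sdiff | with_reducible apply IntF.isUnion | with_reducible apply IntF.iimage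 | with_reducible apply IntF.the | with_reducible apply IntF.irec | with_reducible_and_instances apply IntF.add | with_reducible_and_instances apply IntF.mul | with_reducible apply IntF.succ | with_reducible apply IntF.val | (with_reducible refine Int.comp ?_ ?_; assumption) | (with_reducible refine Int.comp₂ ?_ ?_ ?_; assumption) | (with_reducible refine Int.comp₃ ?_ ?_ ?_ ?_; assumption) | (with_reducible refine IntF.comp ?_ ?_; assumption) | (with_reducible refine IntF.comp₂ ?_ ?_ ?_; assumption) | (with_reducible refine IntF.comp₃ ?_ ?_ ?_ ?_; assumption) | (with_reducible refine Int.comp₄ ?_ ?_ ?_ ?_ ?_; assumption) | with_reducible apply IntF.pair))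
  have hmem : ∀ α o, o ∈ sep M (P α) ↔ P α o := fun α o => mem_sep (Int.slice hE α)
  refine ⟨fun α => sep M (P α), IntF.sep hE, fun α β h => ?_, fun α => ⟨?_, fun η => ?_⟩⟩
  · have h1 := (hmem α (j2 α)).2 (Or.inr (Or.inr rfl))
    have h2 : j2 α ∈ sep M (P β) := by
      have h' : sep M (P α) = sep M (P β) := h
      rw [← h']
      exact h1
    rcases (hmem β (j2 α)).1 h2 with ⟨b, h3, -⟩ | ⟨η, o', h3, -⟩ | h3
    · exact absurd h3 (d02 _ _)
    · exact absurd h3.symm (d21 _ _)
    · exact (e2 _ _ h3).symm
  · refine IPow.ext' fun x => ?_
    have h1 : x ∈ lb (sep M (P α)) ↔ ∃ b : B, (b.1, b.2.1) = x ∧ j0 b ∈ sep M (P α) :=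
      mem_sep (Int.slice (p := fun (q : IPow M O) (x : Lab M K) =>
        ∃ b : B, (b.1, b.2.1) = x ∧ j0 b ∈ q) hI0 (sep M (P α)))
    refine h1.trans ?_
    constructor
    · rintro ⟨b, rfl, h2⟩
      rcases (hmem α (j0 b)).1 h2 with ⟨b', h3, h4⟩ | ⟨η, o', h3, -⟩ | h3
      · rwa [e0 _ _ h3] at h4
      · exact absurd h3.symm (d01 _ _)
      · exact absurd h3.symm (d02 _ _)
    · intro hx
      exact ⟨(x.1, ⟨x.2, hS x hx⟩), rfl, (hmem α _).2 (Or.inl ⟨_, rfl, hx⟩)⟩
  · refine IPow.ext' fun o => ?_
    have h1 : o ∈ ch (sep M (P α)) η ↔ j1 (η, o) ∈ sep M (P α) :=
      mem_sep (Int.slice (p := fun (q : IPow M O × K) (o : O) => j1 (q.2, o) ∈ q.1)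
        hI1 (sep M (P α), η))
    refine h1.trans ?_
    constructor
    · intro h2
      rcases (hmem α (j1 (η, o))).1 h2 with ⟨b', h3, h4⟩ | ⟨η', o', h3, h4⟩ | h3
      · exact absurd h3 (d01 _ _)
      · have h5 := e1 _ _ h3
        have h6 : η' = η := congrArg Prod.fst h5
        have h7 : o' = o := congrArg Prod.snd h5
        rwa [h6, h7] at h4
      · exact absurd h3 (d21 _ _)
    · intro h2
      exact (hmem α _).2 (Or.inr (Or.inl ⟨η, o, rfl, h2⟩))

end

end Pool.Agent.H634
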